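import Pool.Agent.W_7d29a1_AC.DefsAC8
import Pool.Agent.W_7d29a1_NV.KapT77

/-!
Theorem AC, leaf C1: the selections of the model, averaged over a set which does not see the bounded
values of the resampled rows.
-/

set_option autoImplicit false

namespace Pool.Agent.W_7d29a1_AC

open MeasureTheory ProbabilityTheory Filter Topology Pool.Agent.W_MP_7d29a1_pr
  Pool.Agent.W_7d29a1_h46 Pool.Agent.W_7d29a1_h46u Pool.Agent.W_7d29a1_D2.B35
  Pool.Agent.W_7d29a1_Q29 Pool.Agent.W_7d29a1_NV

variable {d : ℕ} {ρ : Measure ℝ} {β b : ℝ}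

/-- The rows resampled together against the row `i` resampled alone, on an invariant set. -/
lemma rowC44 [IsProbabilityMeasure ρ] (hb : HB ρ b)
    {m : ℕ} {T : Fin (m + 1) → ℕ} (hT : Function.Injective T) (i : Fin (m + 1))
    {C : Set (Env d)} (hC : MeasurableSet C) (hJ : ∀ η ξ, mxJ b T η ξ ∈ C ↔ η ∈ C)
    (h1 : ∀ η ξ, mx b (T i) η ξ ∈ C ↔ η ∈ C)
    (F : Env d → Env d → ℝ) (hF : Measurable (Function.uncurry F)) (K : ℝ)
    (hK : ∀ η ξ, |F η ξ| ≤ K) :
    ∫ η in C, ∫ ξ : Fin (m + 1) → Env d, F (mxJ b (fun j => T (i.succAbove j)) η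
      (fun j => ξ (i.succAbove j))) (ξ i) ∂(Measure.pi fun _ => law d (rb ρ b)) ∂(law d ρ) =
    ∫ η in C, ∫ ξ, F η ξ ∂(law d (rb ρ b)) ∂(law d ρ) := by
  classical
  have := M66.prob_rb hb
  have K0 : 0 ≤ K := (abs_nonneg _).trans (hK 0 0)
  let F' : Env d → Env d → ℝ := fun η ξ => if mx b (T i) η ξ ∈ C then F η ξ else 0
  have hmx : Measurable fun w : Env d × Env d => mx b (T i) w.1 w.2 :=
    M66.mx_meas b (T i) measurable_fst measurable_snd
  have hF' : Measurable (Function.uncurry F') := by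
    refine Measurable.ite (hmx hC) hF measurable_const
  have hK' : ∀ η ξ, |F' η ξ| ≤ K := by
    intro η ξ
    by_cases h : mx b (T i) η ξ ∈ C
    · simp only [F', if_pos h]
      exact hK η ξ
    · simp only [F', if_neg h, abs_zero]
      exact K0
  have key := row77 hb (mix96 hb) hT i F' hF' K hK'
  rw [← integral_indicator hC, ← integral_indicator hC]
  refine Eq.trans (Eq.trans ?_ key) ?_
  · refine integral_congr_ae (Filter.Eventually.of_forall fun η => ?_)
    by_cases hη : η ∈ C
    · simp only [Set.indicator_of_mem hη]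
      refine integral_congr_ae (Filter.Eventually.of_forall fun ξ => ?_)
      have h2 : mx b (T i) (mxJ b (fun j => T (i.succAbove j)) η
          (fun j => ξ (i.succAbove j))) (ξ i) ∈ C := by
        rw [← mxJ_insert77 b hT i η ξ]
        exact (hJ η ξ).2 hη
      simp only [F', if_pos h2]
    · simp only [Set.indicator_of_notMem hη]
      symm
      refine integral_eq_zero_of_ae (Filter.Eventually.of_forall fun ξ => ?_)
      have h2 : ¬ mx b (T i) (mxJ b (fun j => T (i.succAbove j)) η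
          (fun j => ξ (i.succAbove j))) (ξ i) ∈ C := by
        rw [← mxJ_insert77 b hT i η ξ]
        exact fun h => hη ((hJ η ξ).1 h)
      simp only [F', if_neg h2, Pi.zero_apply]
  · refine integral_congr_ae (Filter.Eventually.of_forall fun η => ?_)
    by_cases hη : η ∈ C
    · simp only [Set.indicator_of_mem hη]
      refine integral_congr_ae (Filter.Eventually.of_forall fun ξ => ?_)
      simp only [F', if_pos ((h1 η ξ).2 hη)]
    · simp only [Set.indicator_of_notMem hη]
      refine integral_eq_zero_of_ae (Filter.Eventually.of_forall fun ξ => ?_)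
      simp only [F', if_neg (fun h => hη ((h1 η ξ).1 h)), Pi.zero_apply]

/-- The inner selections. -/
theorem avgK44 (hd : 0 < d) [IsProbabilityMeasure ρ] (hb : HB ρ b) (hE : EqT d ρ β b)
    (h : Vec d) {n k : ℕ} {T : Fin k → ℕ} {r : Fin (k + 1) → ℕ}
    (hO : Ord n T r) (i : Fin k) {C : Set (Env d)} (hCm : MeasurableSet C)
    (hJ : ∀ η ξ, mxJ b T η ξ ∈ C ↔ η ∈ C) (hmx : ∀ η ξ, mx b (T i) η ξ ∈ C ↔ η ∈ C) :
    ∫ η in C, kaT (law d (rb ρ b)) (Qsp ρ β b h n T r η) (usp ρ β b h n T r η) i ∂(law d ρ) =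
      ∫ η in C, kapE ρ β b h n (T i) (r i.castSucc) (r i.succ) η ∂(law d ρ) := by
  cases k with
  | zero => exact i.elim0
  | succ m =>
  have hT := hO.strict77.injective
  have hi := hO.1 i
  have hn : r i.succ ≤ n := (hO.mono77 (Fin.le_last _)).trans hO.2
  let F : Env d → Env d → ℝ := fun η ξ => ∑ x ∈ boxF d n, ∑ y ∈ boxF d n,
    pab β h n (r i.castSucc) (r i.succ) x y (mx b (T i) η ξ) *
      (Real.log (uab ρ β b h (T i) (r i.castSucc) (r i.succ) x y η ξ) -
        psab ρ β b h (T i) (r i.castSucc) (r i.succ) x y η)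
  have hF : Measurable (Function.uncurry F) := by
    refine Finset.measurable_sum _ fun x _ => Finset.measurable_sum _ fun y _ => ?_
    refine ((pab_meas77 β h n _ _ x y).comp (M66.mx_meas b (T i) measurable_fst
      measurable_snd)).mul ?_
    exact (Real.measurable_log.comp (M66.uab_meas ρ β b h _ _ _ x y measurable_fst
      measurable_snd)).sub ((M66.psab_meas hb β h _ _ _ x y).comp measurable_fst)
  have hC : ∀ η ξ, |F η ξ| ≤ 2 * Bc β b := fun η ξ =>
    pab_avg77 hd β h _ (hi.1.le.trans hi.2) hn fun x hx y hy =>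
      dev77 hb hE h hi.1 hi.2 hn η ξ hx hy
  have key := rowC44 hb hT i hCm hJ hmx F hF _ hC
  unfold kapE
  refine Eq.trans ?_ key
  refine integral_congr_ae (Filter.Eventually.of_forall fun η => ?_)
  unfold kaT
  refine integral_congr_ae (Filter.Eventually.of_forall fun ξ => ?_)
  have hloc : ∀ p : ℕ × Site d, r i.castSucc < p.1 → p.1 ≤ r i.succ →
      η p = mxJ b (fun j => T (i.succAbove j)) η (fun j => ξ (i.succAbove j)) p := by
    intro p h1 h2
    rw [mxJ_off77]
    intro j h3
    exact hO.out77 (Fin.succAbove_ne i j) ⟨by rw [h3]; exact h1, by rw [h3]; exact h2⟩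
  have h1 := marg77 β h (mxJ b T η ξ) r (fun j => hO.mono77 (Fin.castSucc_lt_succ (i := j)).le)
    hO.2 i.castSucc i.succ (Fin.castSucc_lt_succ (i := i)).le (fun x y =>
      Real.log (uab ρ β b h (T i) (r i.castSucc) (r i.succ) x y η (ξ i)) -
        psab ρ β b h (T i) (r i.castSucc) (r i.succ) x y η)
  have h2 : ∑ s, prT (Qsp ρ β b h n T r η) (usp ρ β b h n T r η) ξ s *
      (Real.log (usp ρ β b h n T r η i s (ξ i)) -
        psT (law d (rb ρ b)) (usp ρ β b h n T r η) i s) =
      ∑ s : Sp d n (m + 1), msp β h n r s (mxJ b T η ξ) *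
        (Real.log (uab ρ β b h (T i) (r i.castSucc) (r i.succ) (s i.castSucc) (s i.succ) η (ξ i)) -
        psab ρ β b h (T i) (r i.castSucc) (r i.succ) (s i.castSucc) (s i.succ) η) :=
    Finset.sum_congr rfl fun s _ => by rw [((hE h n (m + 1) T r hO η).2 ξ).1 s]; rfl
  refine h2.trans (h1.trans ?_)
  refine Finset.sum_congr rfl fun x _ => Finset.sum_congr rfl fun y _ => ?_
  rw [mxJ_insert77 b hT i η ξ, uab_congr77 ρ β b h (T i) hloc x y (ξ i),
    psab_congr77 ρ β b h (T i) hloc x y]

/-- The outer selections. -/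
theorem avgO44 (hd : 0 < d) [IsProbabilityMeasure ρ] (hb : HB ρ b) (hE : EqT d ρ β b)
    (h : Vec d) {n k : ℕ} {T : Fin k → ℕ} {r : Fin (k + 1) → ℕ}
    (hO : Ord n T r) (i : Fin k) {C : Set (Env d)} (hCm : MeasurableSet C)
    (hJ : ∀ η ξ, mxJ b T η ξ ∈ C ↔ η ∈ C) (hmx : ∀ η ξ, mx b (T i) η ξ ∈ C ↔ η ∈ C) :
    ∫ η in C, ouT (law d (rb ρ b)) fsp (Qsp ρ β b h n T r η) (usp ρ β b h n T r η) i ∂(law d ρ) =
      ∫ η in C, kapE ρ β b h n (T i) (r 0) (r (Fin.last k)) η ∂(law d ρ) := by
  cases k with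
  | zero => exact i.elim0
  | succ m =>
  have := M66.prob_rb hb
  have hT := hO.strict77.injective
  have hn := hO.2
  have h0 : r 0 < T i := (hO.mono77 (Fin.zero_le _)).trans_lt (hO.1 i).1
  have h9 : T i ≤ r (Fin.last (m + 1)) := (hO.1 i).2.trans (hO.mono77 (Fin.le_last _))
  have h09 := h0.le.trans h9
  let H : Env d → Env d → Env d → ℝ := fun η ξ x' =>
    ∑ q : {x : Site d // x ∈ boxF d n} × {x : Site d // x ∈ boxF d n},
      pab β h n (r 0) (r (Fin.last (m + 1))) q.1 q.2 (mx b (T i) η ξ) *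
        (Real.log (pab β h n (r 0) (r (Fin.last (m + 1))) q.1 q.2 (mx b (T i) η ξ)) -
          Real.log (pab β h n (r 0) (r (Fin.last (m + 1))) q.1 q.2 (mx b (T i) η x')))
  let F : Env d → Env d → ℝ := fun η ξ => ∫ x', H η ξ x' ∂(law d (rb ρ b))
  have p1 : ∀ η' : Env d, ∑ q : {x : Site d // x ∈ boxF d n} × {x : Site d // x ∈ boxF d n},
      pab β h n (r 0) (r (Fin.last (m + 1))) q.1 q.2 η' = 1 := fun η' => by
    rw [sum_sub77 fun x y => pab β h n (r 0) (r (Fin.last (m + 1))) x y η']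
    exact pab_sum77 hd β h η' h09 hn
  have hHm : Measurable fun w : (Env d × Env d) × Env d => H w.1.1 w.1.2 w.2 := by
    refine Finset.measurable_sum _ fun q _ => ?_
    have m1 : Measurable fun w : (Env d × Env d) × Env d =>
        pab β h n (r 0) (r (Fin.last (m + 1))) q.1 q.2 (mx b (T i) w.1.1 w.1.2) :=
      (pab_meas77 β h n _ _ _ _).comp (M66.mx_meas b (T i) (measurable_fst.comp measurable_fst)
        (measurable_snd.comp measurable_fst))
    have m2 : Measurable fun w : (Env d × Env d) × Env d =>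
        pab β h n (r 0) (r (Fin.last (m + 1))) q.1 q.2 (mx b (T i) w.1.1 w.2) :=
      (pab_meas77 β h n _ _ _ _).comp (M66.mx_meas b (T i) (measurable_fst.comp measurable_fst)
        measurable_snd)
    exact m1.mul ((Real.measurable_log.comp m1).sub (Real.measurable_log.comp m2))
  have hHb : ∀ η ξ x', |H η ξ x'| ≤ 4 * Bc β b := by
    intro η ξ x'
    obtain ⟨Q, D, Q0, Dm, D0, Dl, hp, hu⟩ := pair77 hE h h0 h9 hn η
    have e := s1id77 Q (fun q ξ => uab ρ β b h (T i) (r 0) (r (Fin.last (m + 1))) q.1 q.2 η ξ) D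
      (fun ξ q => pab β h n (r 0) (r (Fin.last (m + 1))) q.1 q.2 (mx b (T i) η ξ))
      (fun q ξ => (hu q ξ).1) Q0 D0 (fun ξ q => hp q ξ) (fun ξ => p1 _) ξ x'
    have e1 : |∑ q : {x : Site d // x ∈ boxF d n} × {x : Site d // x ∈ boxF d n},
        pab β h n (r 0) (r (Fin.last (m + 1))) q.1 q.2 (mx b (T i) η ξ) *
        (Real.log (uab ρ β b h (T i) (r 0) (r (Fin.last (m + 1))) q.1 q.2 η ξ) -
          Real.log (uab ρ β b h (T i) (r 0) (r (Fin.last (m + 1))) q.1 q.2 η x'))| ≤
        2 * Bc β b := by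
      rw [sum_sub77 fun x y => pab β h n (r 0) (r (Fin.last (m + 1))) x y (mx b (T i) η ξ) *
        (Real.log (uab ρ β b h (T i) (r 0) (r (Fin.last (m + 1))) x y η ξ) -
          Real.log (uab ρ β b h (T i) (r 0) (r (Fin.last (m + 1))) x y η x'))]
      refine pab_avg77 hd β h _ h09 hn fun x hx y hy => ?_
      have h1 := abs_le.1 (lg77 hE h h0 h9 hn η ξ hx hy)
      have h2 := abs_le.1 (lg77 hE h h0 h9 hn η x' hx hy)
      rw [abs_le]
      constructor <;> linarith
    have e2 : H η ξ x' = _ := e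
    rw [e2]
    have h1 := abs_le.1 e1
    have h2 := abs_le.1 (Dl ξ)
    have h3 := abs_le.1 (Dl x')
    rw [abs_le]
    constructor <;> linarith
  have hF : Measurable (Function.uncurry F) :=
    (hHm.stronglyMeasurable.integral_prod_right (ν := law d (rb ρ b))).measurable
  have hC : ∀ η ξ, |F η ξ| ≤ 4 * Bc β b := by
    intro η ξ
    refine (abs_integral_le_integral_abs).trans ?_
    have h2 := integral_mono (ibd77 (P := law d (rb ρ b))
      (hHm.comp (measurable_prodMk_left (x := (η, ξ)))) (hHb η ξ)).abs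
      (integrable_const (4 * Bc β b)) (hHb η ξ)
    simpa using h2
  have key := rowC44 hb hT i hCm hJ hmx F hF _ hC
  refine Eq.trans ?_ (key.trans ?_)
  · refine integral_congr_ae (Filter.Eventually.of_forall fun η => ?_)
    unfold ouT
    refine integral_congr_ae (Filter.Eventually.of_forall fun ξ => ?_)
    refine integral_congr_ae (Filter.Eventually.of_forall fun x' => ?_)
    refine Finset.sum_congr rfl fun q _ => ?_
    rw [cl77 hE h hO η ξ q, cl77 hE h hO η (Function.update ξ i x') q,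
      mxJ_insert77 b hT i η ξ, mxJ_insert77 b hT i η (Function.update ξ i x'),
      Function.update_self]
    have h5 : (fun j => Function.update ξ i x' (i.succAbove j)) = fun j => ξ (i.succAbove j) :=
      funext fun j => Function.update_of_ne (Fin.succAbove_ne i j) _ _
    rw [h5]
  · unfold kapE
    refine integral_congr_ae (Filter.Eventually.of_forall fun η => ?_)
    obtain ⟨Q, D, Q0, Dm, D0, Dl, hp, hu⟩ := pair77 hE h h0 h9 hn η
    have e := s177 (law d (rb ρ b)) Q
      (fun q ξ => uab ρ β b h (T i) (r 0) (r (Fin.last (m + 1))) q.1 q.2 η ξ) D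
      (fun ξ q => pab β h n (r 0) (r (Fin.last (m + 1))) q.1 q.2 (mx b (T i) η ξ)) (Bc β b)
      (fun q => M66.uab_meas ρ β b h _ _ _ _ _ measurable_const measurable_id)
      (fun q ξ => (hu q ξ).1) (fun q ξ => (hu q ξ).2) Q0 Dm D0 Dl (fun ξ q => hp q ξ)
      (fun ξ => p1 _)
    refine Eq.trans e ?_
    refine integral_congr_ae (Filter.Eventually.of_forall fun ξ => ?_)
    exact sum_sub77 fun x y => pab β h n (r 0) (r (Fin.last (m + 1))) x y (mx b (T i) η ξ) *
        (Real.log (uab ρ β b h (T i) (r 0) (r (Fin.last (m + 1))) x y η ξ) -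
          psab ρ β b h (T i) (r 0) (r (Fin.last (m + 1))) x y η)

end Pool.Agent.W_7d29a1_AC
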