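import Pool.Agent.W_7d29a1_NV.DefsNV

/-!
The selection model with blocks of rows: definitions and statements.
-/

namespace Pool.Agent.W_7d29a1_AC

open MeasureTheory ProbabilityTheory Filter Topology Pool.Agent.W_MP_7d29a1_pr
  Pool.Agent.W_7d29a1_h46 Pool.Agent.W_7d29a1_h46u Pool.Agent.W_7d29a1_D2.B35
  Pool.Agent.W_7d29a1_Q29 Pool.Agent.W_7d29a1_NV

variable {d : ℕ}

/-- The bounded values of the rows in `R` of `η` are replaced by those of `ξ` (truncated). -/
noncomputable def mxS (b : ℝ) (R : Finset ℕ) (η ξ : Env d) : Env d :=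
  open Classical in fun p => if p.1 ∈ R ∧ |η p| ≤ b then cl b (ξ p) else η p

/-- The bounded values of the rows in `R i` of `η` are replaced by those of `ξ i` (truncated). -/
noncomputable def mxSJ (b : ℝ) {k : ℕ} (R : Fin k → Finset ℕ) (η : Env d)
    (ξ : Fin k → Env d) : Env d :=
  open Classical in fun p =>
    if h : (∃ i, p.1 ∈ R i) ∧ |η p| ≤ b then cl b (ξ h.1.choose p) else η p

/-- The gain of the segment `(a, x) → (b', y)` from the rows in `R`, with the values `ξ`, relative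
to the base environment. -/
noncomputable def uabS (ρ : Measure ℝ) (β b : ℝ) (h : Vec d) (R : Finset ℕ) (a b' : ℕ)
    (x y : Site d) (η ξ : Env d) : ℝ :=
  open Classical in
  if sg β h a b' x y (mxS b R η fun _ => c0 ρ β b) = 0 then 1
  else sg β h a b' x y (mxS b R η ξ) / sg β h a b' x y (mxS b R η fun _ => c0 ρ β b)

/-- The base masses. -/
noncomputable def QspS (ρ : Measure ℝ) (β b : ℝ) (h : Vec d) (n : ℕ) {k : ℕ}
    (R : Fin k → Finset ℕ) (r : Fin (k + 1) → ℕ) (η : Env d) (s : Sp d n k) : ℝ :=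
  msp β h n r s (mxSJ b R η fun _ _ => c0 ρ β b)

/-- The gains. -/
noncomputable def uspS (ρ : Measure ℝ) (β b : ℝ) (h : Vec d) (n : ℕ) {k : ℕ}
    (R : Fin k → Finset ℕ) (r : Fin (k + 1) → ℕ) (η : Env d) (i : Fin k) (s : Sp d n k)
    (ξ : Env d) : ℝ :=
  uabS ρ β b h (R i) (r i.castSucc) (r i.succ) (s i.castSucc) (s i.succ) η ξ

/-- The rows are in order. -/
def OrdS (n : ℕ) {k : ℕ} (R : Fin k → Finset ℕ) (r : Fin (k + 1) → ℕ) : Prop :=
  Monotone r ∧ (∀ i : Fin k, ∀ t ∈ R i, r i.castSucc < t ∧ t ≤ r i.succ) ∧ r (Fin.last k) ≤ n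

section Leaves

variable (d : ℕ) (ρ : Measure ℝ) (β b : ℝ)

/-- Leaf B: for a fixed environment the separators form a selection model. -/
def EqS : Prop := ∀ (h : Vec d) (n k J : ℕ) (R : Fin k → Finset ℕ) (r : Fin (k + 1) → ℕ),
  OrdS n R r → (∀ i, (R i).card ≤ J) → ∀ η : Env d,
    HT (law d (rb ρ b)) (QspS ρ β b h n R r η) (uspS ρ β b h n R r η) (Bc β b * J) ∧
    ∀ ξ : Fin k → Env d,
      (∀ s, prT (QspS ρ β b h n R r η) (uspS ρ β b h n R r η) ξ s = msp β h n r s (mxSJ b R η ξ)) ∧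
      Real.log (dT (QspS ρ β b h n R r η) (uspS ρ β b h n R r η) ξ) =
        X β h (mxSJ b R η ξ) n - X β h (mxSJ b R η fun _ _ => c0 ρ β b) n

/-- Leaf B, the law of the environment with resampled rows. -/
def MixS : Prop := ∀ (k : ℕ) (R : Fin k → Finset ℕ),
  MeasurePreserving (fun w : Env d × (Fin k → Env d) => mxSJ b R w.1 w.2)
    ((law d ρ).prod (Measure.pi fun _ => law d (rb ρ b))) (law d ρ)

end Leaves

end Pool.Agent.W_7d29a1_AC
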