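import Pool.Agent.W_7d29a1_NV.Eq41c
import Pool.Agent.W_7d29a1_NV.Mix96
import Pool.Agent.W_7d29a1_AC.DefsB6

/-!
The selection model with blocks of rows.
-/

namespace Pool.Agent.W_7d29a1_AC

open MeasureTheory ProbabilityTheory Filter Topology Pool.Agent.W_MP_7d29a1_pr
  Pool.Agent.W_7d29a1_h46 Pool.Agent.W_7d29a1_h46u Pool.Agent.W_7d29a1_D2.B35
  Pool.Agent.W_7d29a1_Q29 Pool.Agent.W_7d29a1_NV Pool.Agent.W_7d29a1_NV.Eq41

variable {d : ℕ} {ρ : Measure ℝ} {β b : ℝ}

/-! ### Rows -/

lemma mxS_in {b : ℝ} {R : Finset ℕ} {η ξ : Env d} {p : ℕ × Site d} (hp : p.1 ∈ R) :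
    mxS b R η ξ p = mx b p.1 η ξ p := by
  unfold mxS mx
  by_cases h : |η p| ≤ b
  · rw [if_pos ⟨hp, h⟩, if_pos ⟨rfl, h⟩]
  · rw [if_neg fun h' => h h'.2, if_neg fun h' => h h'.2]

lemma mxS_out {b : ℝ} {R : Finset ℕ} {η ξ : Env d} {p : ℕ × Site d} (hp : p.1 ∉ R) :
    mxS b R η ξ p = η p := by
  unfold mxS
  rw [if_neg fun h => hp h.1]

/-- One more row. -/
lemma mxS_insert (b : ℝ) {R : Finset ℕ} {t : ℕ} (ht : t ∉ R) (η ξ : Env d) :
    mxS b (insert t R) η ξ = mx b t (mxS b R η ξ) ξ := by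
  funext p
  by_cases hp : p.1 = t
  · have h1 : p.1 ∉ R := by
      rw [hp]
      exact ht
    have h2 : p.1 ∈ insert t R := by
      rw [hp]
      exact Finset.mem_insert_self _ _
    rw [mxS_in h2]
    unfold mx
    rw [mxS_out h1]
    by_cases h : |η p| ≤ b
    · rw [if_pos ⟨rfl, h⟩, if_pos ⟨hp, h⟩]
    · rw [if_neg fun h' => h h'.2, if_neg fun h' => h h'.2]
  · rw [mx_of_ne hp]
    by_cases h1 : p.1 ∈ R
    · rw [mxS_in h1, mxS_in (Finset.mem_insert_of_mem h1)]
    · rw [mxS_out h1, mxS_out fun h => (Finset.mem_insert.1 h).elim hp h1]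

lemma energy_mxS {b : ℝ} {R : Finset ℕ} {a m : ℕ} (hR : ∀ t ∈ R, a < t ∧ t ≤ a + m)
    (x : Site d) (η ξ ξ' : Env d) (s : Fin m → Step d) :
    energy (sh a x (mxS b R η ξ)) s = energy (sh a x (mxS b R η ξ')) s +
      ∑ t ∈ R, dl b t η ξ ξ' (pos s (t - a) + x) := by
  classical
  rw [← sub_eq_iff_eq_add']
  unfold energy
  rw [← Finset.sum_sub_distrib]
  have h1 : ∀ i : Fin m, sh a x (mxS b R η ξ) ((i : ℕ) + 1, pos s (i + 1)) -
      sh a x (mxS b R η ξ') ((i : ℕ) + 1, pos s (i + 1)) =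
      (fun j : ℕ => if a + 1 + j ∈ R then
        dl b (a + 1 + j) η ξ ξ' (pos s (a + 1 + j - a) + x) else 0) i := by
    intro i
    have e1 : (i : ℕ) + 1 + a = a + 1 + i := by omega
    have e2 : a + 1 + (i : ℕ) - a = i + 1 := by omega
    unfold sh
    simp only [e1, e2]
    by_cases hi : a + 1 + (i : ℕ) ∈ R
    · rw [if_pos hi, mxS_in (p := (a + 1 + (i : ℕ), _)) hi, mxS_in (p := (a + 1 + (i : ℕ), _)) hi]
      rfl
    · rw [if_neg hi, mxS_out (p := (a + 1 + (i : ℕ), _)) hi,
        mxS_out (p := (a + 1 + (i : ℕ), _)) hi, sub_self]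
  rw [Finset.sum_congr rfl fun i _ => h1 i, ← Finset.sum_range (fun j : ℕ => if a + 1 + j ∈ R then
        dl b (a + 1 + j) η ξ ξ' (pos s (a + 1 + j - a) + x) else 0)]
  have h2 := Finset.sum_Ico_eq_sum_range (fun t : ℕ => if t ∈ R then
    dl b t η ξ ξ' (pos s (t - a) + x) else 0) (a + 1) (a + 1 + m)
  rw [Nat.add_sub_cancel_left] at h2
  rw [← h2, Finset.sum_ite_mem]
  congr 1
  ext t
  simp only [Finset.mem_inter, Finset.mem_Ico, and_iff_right_iff_imp]
  intro ht
  have := hR t ht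
  omega

lemma wgt_mxS (β : ℝ) (h : Vec d) {b : ℝ} {R : Finset ℕ} {a m : ℕ}
    (hR : ∀ t ∈ R, a < t ∧ t ≤ a + m) (x : Site d) (η ξ ξ' : Env d) (s : Fin m → Step d) :
    wgt β h (sh a x (mxS b R η ξ)) s = wgt β h (sh a x (mxS b R η ξ')) s *
      Real.exp (β * ∑ t ∈ R, dl b t η ξ ξ' (pos s (t - a) + x)) := by
  unfold wgt
  rw [energy_mxS hR x η ξ ξ' s, ← Real.exp_add]
  congr 1
  ring

lemma dlS_abs (β : ℝ) {b : ℝ} (hb : 0 ≤ b) {R : Finset ℕ} {J : ℕ} (hJ : R.card ≤ J)
    (η ξ ξ' : Env d) (z : ℕ → Site d) :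
    |β * ∑ t ∈ R, dl b t η ξ ξ' (z t)| ≤ Bc β b * J := by
  have h1 : |∑ t ∈ R, dl b t η ξ ξ' (z t)| ≤ J * (2 * b) := by
    refine (Finset.abs_sum_le_sum_abs _ _).trans ?_
    refine (Finset.sum_le_sum fun t _ => dl_abs hb t η ξ ξ' (z t)).trans ?_
    rw [Finset.sum_const, nsmul_eq_mul]
    refine mul_le_mul_of_nonneg_right ?_ (by linarith)
    exact_mod_cast hJ
  rw [abs_mul]
  have h2 := mul_le_mul_of_nonneg_left h1 (abs_nonneg β)
  have h3 : |β| * (J * (2 * b)) ≤ Bc β b * J := by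
    unfold Bc
    have h4 : (0 : ℝ) ≤ J := Nat.cast_nonneg J
    nlinarith
  exact h2.trans h3

lemma sg_mxS_le (β : ℝ) (h : Vec d) {b : ℝ} (hb : 0 ≤ b) {R : Finset ℕ} {J a b' : ℕ}
    (hab : a ≤ b') (hR : ∀ t ∈ R, a < t ∧ t ≤ b') (hJ : R.card ≤ J) (x y : Site d)
    (η ξ ξ' : Env d) :
    sg β h a b' x y (mxS b R η ξ) ≤ Real.exp (Bc β b * J) * sg β h a b' x y (mxS b R η ξ') := by
  classical
  have hR' : ∀ t ∈ R, a < t ∧ t ≤ a + (b' - a) := fun t ht => by
    have := hR t ht
    omega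
  rw [sg_eq, sg_eq, Finset.mul_sum]
  refine Finset.sum_le_sum fun s _ => ?_
  by_cases hs : pos s (b' - a) = y - x
  · rw [if_pos hs, if_pos hs, wgt_mxS β h hR' x η ξ ξ' s, mul_comm]
    refine mul_le_mul_of_nonneg_right (Real.exp_le_exp.2 ?_) (wgt_pos _ _ _ _).le
    exact (le_abs_self _).trans (dlS_abs β hb hJ η ξ ξ' fun t => pos s (t - a) + x)
  · rw [if_neg hs, if_neg hs, mul_zero]

lemma uabS_lo (ρ : Measure ℝ) (β : ℝ) (h : Vec d) {b : ℝ} (hb : 0 ≤ b) {R : Finset ℕ}
    {J a b' : ℕ} (hab : a ≤ b') (hR : ∀ t ∈ R, a < t ∧ t ≤ b') (hJ : R.card ≤ J)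
    (x y : Site d) (η ξ : Env d) :
    Real.exp (-(Bc β b * J)) ≤ uabS ρ β b h R a b' x y η ξ := by
  have hB : 0 ≤ Bc β b * J := by
    unfold Bc
    positivity
  unfold uabS
  split_ifs with h0
  · rw [← Real.exp_zero]
    exact Real.exp_le_exp.2 (by linarith)
  · have h1 := (sg_nonneg β h a b' x y (mxS b R η fun _ => c0 ρ β b)).lt_of_ne' h0
    rw [le_div_iff₀ h1, Real.exp_neg, inv_mul_le_iff₀ (Real.exp_pos _)]
    exact sg_mxS_le β h hb hab hR hJ x y η _ ξ

lemma uabS_hi (ρ : Measure ℝ) (β : ℝ) (h : Vec d) {b : ℝ} (hb : 0 ≤ b) {R : Finset ℕ}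
    {J a b' : ℕ} (hab : a ≤ b') (hR : ∀ t ∈ R, a < t ∧ t ≤ b') (hJ : R.card ≤ J)
    (x y : Site d) (η ξ : Env d) :
    uabS ρ β b h R a b' x y η ξ ≤ Real.exp (Bc β b * J) := by
  have hB : 0 ≤ Bc β b * J := by
    unfold Bc
    positivity
  unfold uabS
  split_ifs with h0
  · rw [← Real.exp_zero]
    exact Real.exp_le_exp.2 hB
  · have h1 := (sg_nonneg β h a b' x y (mxS b R η fun _ => c0 ρ β b)).lt_of_ne' h0
    rw [div_le_iff₀ h1]
    exact sg_mxS_le β h hb hab hR hJ x y η ξ _

/-- The weight of a segment is the base weight times the gain. -/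
lemma sg_mul_uabS (ρ : Measure ℝ) (β : ℝ) (h : Vec d) {b : ℝ} (hb : 0 ≤ b) {R : Finset ℕ}
    {a b' : ℕ} (hab : a ≤ b') (hR : ∀ t ∈ R, a < t ∧ t ≤ b') (x y : Site d) (η ξ : Env d) :
    sg β h a b' x y (mxS b R η fun _ => c0 ρ β b) * uabS ρ β b h R a b' x y η ξ =
      sg β h a b' x y (mxS b R η ξ) := by
  unfold uabS
  split_ifs with h0
  · have h1 := sg_mxS_le β h hb hab hR le_rfl x y η ξ (fun _ => c0 ρ β b)
    rw [h0, mul_zero] at h1
    rw [h0, zero_mul]
    exact (le_antisymm h1 (sg_nonneg _ _ _ _ _ _ _)).symm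
  · field_simp

/-! ### Measurability -/

lemma mxS_meas {α : Type*} [MeasurableSpace α] (b : ℝ) (R : Finset ℕ) {f g : α → Env d}
    (hf : Measurable f) (hg : Measurable g) : Measurable fun w => mxS b R (f w) (g w) := by
  rw [measurable_pi_iff]
  intro p
  have hfp : Measurable fun w => f w p := (measurable_pi_apply p).comp hf
  have hgp : Measurable fun w => g w p := (measurable_pi_apply p).comp hg
  unfold mxS
  by_cases hp : p.1 ∈ R
  · simp only [hp, true_and]
    exact Measurable.ite (measurableSet_le hfp.abs measurable_const)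
      ((Eq41.measurable_cl b).comp hgp) hfp
  · simp only [hp, false_and, if_false]
    exact hfp

lemma mxSJ_meas {α : Type*} [MeasurableSpace α] (b : ℝ) {k : ℕ} (R : Fin k → Finset ℕ)
    {f : α → Env d} {g : α → Fin k → Env d} (hf : Measurable f) (hg : Measurable g) :
    Measurable fun w => mxSJ b R (f w) (g w) := by
  rw [measurable_pi_iff]
  intro p
  have hfp : Measurable fun w => f w p := (measurable_pi_apply p).comp hf
  by_cases hp : ∃ i, p.1 ∈ R i
  · have e : (fun w => mxSJ b R (f w) (g w) p) = fun w => open Classical in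
        if |f w p| ≤ b then cl b (g w hp.choose p) else f w p := by
      funext w
      unfold mxSJ
      by_cases h : |f w p| ≤ b
      · rw [dif_pos ⟨hp, h⟩, if_pos h]
      · rw [dif_neg fun h' => h h'.2, if_neg h]
    rw [e]
    have hgp : Measurable fun w => g w hp.choose p :=
      (measurable_pi_apply p).comp ((measurable_pi_apply hp.choose).comp hg)
    exact Measurable.ite (measurableSet_le hfp.abs measurable_const)
      ((Eq41.measurable_cl b).comp hgp) hfp
  · have e : (fun w => mxSJ b R (f w) (g w) p) = fun w => f w p := by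
      funext w
      unfold mxSJ
      rw [dif_neg fun h' => hp h'.1]
    rw [e]
    exact hfp

lemma uabS_meas {α : Type*} [MeasurableSpace α] (ρ : Measure ℝ) (β b : ℝ) (h : Vec d)
    (R : Finset ℕ) (a b' : ℕ) (x y : Site d) {f g : α → Env d} (hf : Measurable f)
    (hg : Measurable g) : Measurable fun w => uabS ρ β b h R a b' x y (f w) (g w) := by
  have h1 : Measurable fun w => sg β h a b' x y (mxS b R (f w) fun _ => c0 ρ β b) :=
    (measurable_sg β h a b' x y).comp (mxS_meas b R hf measurable_const)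
  have h2 : Measurable fun w => sg β h a b' x y (mxS b R (f w) (g w)) :=
    (measurable_sg β h a b' x y).comp (mxS_meas b R hf hg)
  unfold uabS
  exact Measurable.ite (h1 (measurableSet_singleton 0)) measurable_const (h2.div h1)

/-! ### The mean gain -/

lemma int_uabS [IsProbabilityMeasure ρ] (hβ : 0 < β) (hb : HB ρ b) (h : Vec d) {R : Finset ℕ}
    {a b' : ℕ} (hab : a ≤ b') (hR : ∀ t ∈ R, a < t ∧ t ≤ b') (x y : Site d) (η : Env d) :
    ∫ ξ, uabS ρ β b h R a b' x y η ξ ∂(law d (rb ρ b)) = 1 := by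
  classical
  have := Eq41.rb_prob hb
  have hR' : ∀ t ∈ R, a < t ∧ t ≤ a + (b' - a) := fun t ht => by
    have := hR t ht
    omega
  by_cases h0 : sg β h a b' x y (mxS b R η fun _ => c0 ρ β b) = 0
  · unfold uabS
    simp only [if_pos h0]
    simp
  · unfold uabS
    simp only [if_neg h0]
    rw [integral_div]
    have h1 : ∫ ξ, sg β h a b' x y (mxS b R η ξ) ∂(law d (rb ρ b)) =
        sg β h a b' x y (mxS b R η fun _ => c0 ρ β b) := by
      have e1 : ∀ ξ : Env d, sg β h a b' x y (mxS b R η ξ) =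
          ∑ s : Fin (b' - a) → Step d, (if pos s (b' - a) = y - x then
            wgt β h (sh a x (mxS b R η fun _ => c0 ρ β b)) s else 0) *
              Real.exp (β * ∑ t ∈ R, dl b t η ξ (fun _ => c0 ρ β b) (pos s (t - a) + x)) := by
        intro ξ
        rw [sg_eq]
        refine Finset.sum_congr rfl fun s _ => ?_
        by_cases hs : pos s (b' - a) = y - x
        · rw [if_pos hs, if_pos hs]
          exact wgt_mxS β h hR' x η ξ _ s
        · rw [if_neg hs, if_neg hs, zero_mul]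
      have hdm : ∀ (t : ℕ) (z : Site d), Measurable fun ξ : Env d =>
          dl b t η ξ (fun _ => c0 ρ β b) z := by
        intro t z
        unfold dl
        exact ((measurable_pi_apply (t, z)).comp (measurable_mx b t η)).sub measurable_const
      have hint : ∀ z : ℕ → Site d, Integrable (fun ξ : Env d =>
          Real.exp (β * ∑ t ∈ R, dl b t η ξ (fun _ => c0 ρ β b) (z t))) (law d (rb ρ b)) := by
        intro z
        refine Integrable.of_bound (C := Real.exp (Bc β b * R.card)) ?_ ?_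
        · exact (Real.measurable_exp.comp
            ((Finset.measurable_sum _ fun t _ => hdm t (z t)).const_mul β)).aestronglyMeasurable
        · refine Filter.Eventually.of_forall fun ξ => ?_
          rw [Real.norm_eq_abs, abs_of_pos (Real.exp_pos _)]
          exact Real.exp_le_exp.2 ((le_abs_self _).trans (dlS_abs β hb.b0.le le_rfl η ξ _ z))
      have hprod : ∀ z : ℕ → Site d, ∫ ξ, Real.exp (β * ∑ t ∈ R,
          dl b t η ξ (fun _ => c0 ρ β b) (z t)) ∂(law d (rb ρ b)) = 1 := by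
        intro z
        have e2 : ∀ ξ : Env d, Real.exp (β * ∑ t ∈ R, dl b t η ξ (fun _ => c0 ρ β b) (z t)) =
            ∏ t : {t // t ∈ R}, (fun v : ℝ => Real.exp (β * ((if |η ((t : ℕ), z t)| ≤ b then cl b v
              else η ((t : ℕ), z t)) - mx b t η (fun _ => c0 ρ β b) ((t : ℕ), z t))))
                (ξ ((t : ℕ), z t)) := by
          intro ξ
          rw [Finset.mul_sum, Real.exp_sum, ← Finset.prod_coe_sort]
          refine Finset.prod_congr rfl fun t _ => ?_
          simp only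
          congr 2
          unfold dl
          congr 1
          by_cases hη : |η ((t : ℕ), z t)| ≤ b
          · rw [if_pos hη, mx_pos hη]
          · rw [if_neg hη, mx_neg hη]
        have hind : iIndepFun (fun (t : {t // t ∈ R}) (ξ : Env d) => ξ ((t : ℕ), z t))
            (law d (rb ρ b)) := by
          have h3 : iIndepFun (fun (p : ℕ × Site d) (ξ : Env d) => ξ p) (law d (rb ρ b)) :=
            iIndepFun_infinitePi (P := fun _ : ℕ × Site d => rb ρ b)
              (X := fun _ v => v) fun _ => measurable_id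
          exact h3.precomp (g := fun t : {t // t ∈ R} => ((t : ℕ), z t)) fun t t' ht =>
            Subtype.ext (Prod.mk.inj ht).1
        have e3 := hind.integral_fun_prod_comp (𝕜 := ℝ)
          (f := fun (t : {t // t ∈ R}) (v : ℝ) => Real.exp (β * ((if |η ((t : ℕ), z t)| ≤ b
            then cl b v else η ((t : ℕ), z t)) - mx b t η (fun _ => c0 ρ β b) ((t : ℕ), z t))))
          (fun t => (measurable_pi_apply _).aemeasurable) (fun t => by
            have hm : Measurable fun v : ℝ => Real.exp (β * ((if |η ((t : ℕ), z t)| ≤ b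
                then cl b v else η ((t : ℕ), z t)) -
                  mx b t η (fun _ => c0 ρ β b) ((t : ℕ), z t))) := by
              have h4 : Measurable fun v : ℝ => if |η ((t : ℕ), z t)| ≤ b
                  then cl b v else η ((t : ℕ), z t) := by
                by_cases hη : |η ((t : ℕ), z t)| ≤ b
                · simp only [if_pos hη]
                  exact Eq41.measurable_cl b
                · simp only [if_neg hη]
                  exact measurable_const
              exact Real.measurable_exp.comp ((h4.sub_const _).const_mul β)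
            exact hm.aestronglyMeasurable)
        rw [integral_congr_ae (Filter.Eventually.of_forall e2), e3]
        refine Finset.prod_eq_one fun t _ => ?_
        rw [← int_dl hβ hb (t : ℕ) η (z t)]
        refine integral_congr_ae (Filter.Eventually.of_forall fun ξ => ?_)
        simp only
        congr 2
        unfold dl
        congr 1
        by_cases hη : |η ((t : ℕ), z t)| ≤ b
        · rw [if_pos hη, mx_pos hη]
        · rw [if_neg hη, mx_neg hη]
      rw [integral_congr_ae (Filter.Eventually.of_forall e1),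
        integral_finsetSum _ fun s _ => (hint fun t => pos s (t - a) + x).const_mul _, sg_eq]
      refine Finset.sum_congr rfl fun s _ => ?_
      rw [integral_const_mul, hprod fun t => pos s (t - a) + x, mul_one]
    rw [h1]
    exact div_self h0

/-! ### The times -/

section Times

variable {n k : ℕ} {R : Fin k → Finset ℕ} {r : Fin (k + 1) → ℕ}

lemma ordS_le (h : OrdS n R r) (i : Fin k) : r i.castSucc ≤ r i.succ :=
  h.1 (by
    rw [Fin.le_def, Fin.val_succ, Fin.val_castSucc]
    omega)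

lemma ordS_uniq (h : OrdS n R r) {i j : Fin k} {t : ℕ} (ht : t ∈ R j) (h1 : r i.castSucc < t)
    (h2 : t ≤ r i.succ) : j = i := by
  have hm := h.1
  have h4 := h.2.1 j t ht
  rcases lt_trichotomy j i with hj | hj | hj
  · exfalso
    have h3 : r j.succ ≤ r i.castSucc := hm (by
      rw [Fin.le_def, Fin.val_succ, Fin.val_castSucc]
      exact hj)
    omega
  · exact hj
  · exfalso
    have h3 : r i.succ ≤ r j.castSucc := hm (by
      rw [Fin.le_def, Fin.val_succ, Fin.val_castSucc]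
      exact hj)
    omega

lemma mxSJ_seg (h : OrdS n R r) (b : ℝ) (η : Env d) (ξ : Fin k → Env d) (i : Fin k)
    {p : ℕ × Site d} (h1 : r i.castSucc < p.1) (h2 : p.1 ≤ r i.succ) :
    mxSJ b R η ξ p = mxS b (R i) η (ξ i) p := by
  by_cases hp : p.1 ∈ R i
  · have hex : ∃ j, p.1 ∈ R j := ⟨i, hp⟩
    by_cases hη : |η p| ≤ b
    · have h3 : (∃ j, p.1 ∈ R j) ∧ |η p| ≤ b := ⟨hex, hη⟩
      unfold mxSJ mxS
      rw [dif_pos h3, if_pos ⟨hp, hη⟩]
      have h4 : h3.1.choose = i := ordS_uniq h h3.1.choose_spec h1 h2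
      rw [h4]
    · unfold mxSJ mxS
      rw [dif_neg fun h' => hη h'.2, if_neg fun h' => hη h'.2]
  · unfold mxSJ mxS
    rw [dif_neg, if_neg fun h' => hp h'.1]
    rintro ⟨⟨j, hj⟩, _⟩
    have h4 := ordS_uniq h (i := i) hj h1 h2
    rw [h4] at hj
    exact hp hj

lemma mxSJ_out (b : ℝ) (η : Env d) (ξ : Fin k → Env d) {p : ℕ × Site d}
    (h1 : ∀ j, p.1 ∉ R j) : mxSJ b R η ξ p = η p := by
  unfold mxSJ
  rw [dif_neg]
  rintro ⟨⟨j, hj⟩, _⟩
  exact h1 j hj

lemma sg_segS (hO : OrdS n R r) (β : ℝ) (h : Vec d) (b : ℝ) (η : Env d) (ξ : Fin k → Env d)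
    (i : Fin k) (x y : Site d) :
    sg β h (r i.castSucc) (r i.succ) x y (mxSJ b R η ξ) =
      sg β h (r i.castSucc) (r i.succ) x y (mxS b (R i) η (ξ i)) := by
  unfold sg PP
  refine ZT_congr' β h (fun j h1 h2 z => ?_) _
  unfold sh
  exact mxSJ_seg hO b η ξ i (by simp only; omega) (by simp only; omega)

lemma PP_headS (hO : OrdS n R r) (β : ℝ) (h : Vec d) (b : ℝ) (η : Env d) (ξ : Fin k → Env d)
    (x : Site d) : PP β h (mxSJ b R η ξ) (r 0) x = PP β h η (r 0) x := by
  unfold PP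
  refine ZT_congr' β h (fun j h1 h2 z => ?_) _
  refine mxSJ_out b η ξ fun l hl => ?_
  have h3 := (hO.2.1 l _ hl).1
  have h4 : r 0 ≤ r l.castSucc := hO.1 (Fin.zero_le _)
  simp only at h3
  omega

lemma Z_tailS (hO : OrdS n R r) (β : ℝ) (h : Vec d) (b : ℝ) (η : Env d) (ξ : Fin k → Env d)
    (x : Site d) (m : ℕ) :
    Z β h (sh (r (Fin.last k)) x (mxSJ b R η ξ)) m = Z β h (sh (r (Fin.last k)) x η) m := by
  unfold Z
  refine ZT_congr' β h (fun j h1 h2 z => ?_) _
  unfold sh
  refine mxSJ_out b η ξ fun l hl => ?_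
  have h3 := (hO.2.1 l _ hl).2
  have h4 : r l.succ ≤ r (Fin.last k) := hO.1 (Fin.le_last _)
  simp only at h3
  omega

/-- The weight of a class in the environment with resampled rows. -/
lemma wT_eqS (hO : OrdS n R r) (hb : 0 ≤ b) (ρ : Measure ℝ) (β : ℝ) (h : Vec d) (η : Env d)
    (ξ : Fin k → Env d) (s : Sp d n k) :
    wT (QspS ρ β b h n R r η) (uspS ρ β b h n R r η) ξ s =
      pre β h r s (mxSJ b R η ξ) *
        Z β h (sh (r (Fin.last k)) (s (Fin.last k)) (mxSJ b R η ξ)) (n - r (Fin.last k)) /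
          Z β h (mxSJ b R η fun _ _ => c0 ρ β b) n := by
  unfold wT QspS uspS
  rw [msp_eq, Z_tailS hO, Z_tailS hO]
  have h1 : pre β h r s (mxSJ b R η fun _ _ => c0 ρ β b) *
      ∏ i : Fin k, uabS ρ β b h (R i) (r i.castSucc) (r i.succ) (s i.castSucc) (s i.succ) η (ξ i) =
      pre β h r s (mxSJ b R η ξ) := by
    unfold pre
    rw [PP_headS hO, PP_headS hO, mul_assoc, ← Finset.prod_mul_distrib]
    congr 1
    refine Finset.prod_congr rfl fun i _ => ?_
    rw [sg_segS hO, sg_segS hO]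
    exact sg_mul_uabS ρ β h hb (ordS_le hO i) (hO.2.1 i) _ _ η (ξ i)
  rw [← h1]
  ring

lemma dT_eqS (hO : OrdS n R r) (hb : 0 ≤ b) (ρ : Measure ℝ) (β : ℝ) (h : Vec d) (η : Env d)
    (ξ : Fin k → Env d) :
    dT (QspS ρ β b h n R r η) (uspS ρ β b h n R r η) ξ =
      Z β h (mxSJ b R η ξ) n / Z β h (mxSJ b R η fun _ _ => c0 ρ β b) n := by
  unfold dT
  rw [Finset.sum_congr rfl fun s _ => wT_eqS hO hb ρ β h η ξ s, ← Finset.sum_div,
    tot_sum β h (mxSJ b R η ξ) r (ordS_le hO) hO.2.2]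

end Times

/-- Leaf B. -/
theorem eqS6 (hd : 0 < d) [IsProbabilityMeasure ρ] (hβ : 0 < β) (hb : HB ρ b) :
    EqS d ρ β b := by
  intro h n k J R r hO hJ η
  refine ⟨⟨?_, ?_, ?_, ?_, ?_, ?_⟩, fun ξ => ⟨fun s => ?_, ?_⟩⟩
  · intro s
    exact msp_nonneg hd β h n r s _
  · exact msp_sum hd β h _ r (ordS_le hO) hO.2.2
  · intro i s
    exact uabS_meas ρ β b h (R i) _ _ _ _ measurable_const measurable_id
  · intro i s ξ
    exact uabS_lo ρ β h hb.b0.le (ordS_le hO i) (hO.2.1 i) (hJ i) _ _ η ξ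
  · intro i s ξ
    exact uabS_hi ρ β h hb.b0.le (ordS_le hO i) (hO.2.1 i) (hJ i) _ _ η ξ
  · intro i s
    exact int_uabS hβ hb h (ordS_le hO i) (hO.2.1 i) _ _ η
  · unfold prT
    rw [wT_eqS hO hb.b0.le ρ β h η ξ s, dT_eqS hO hb.b0.le ρ β h η ξ, msp_eq]
    have h1 := (Z_pos hd β h (mxSJ b R η fun _ _ => c0 ρ β b) n).ne'
    have h2 := (Z_pos hd β h (mxSJ b R η ξ) n).ne'
    field_simp
  · rw [dT_eqS hO hb.b0.le ρ β h η ξ]
    have h1 := (Z_pos hd β h (mxSJ b R η fun _ _ => c0 ρ β b) n).ne'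
    have h2 := (Z_pos hd β h (mxSJ b R η ξ) n).ne'
    rw [Real.log_div h2 h1]
    rfl

open Classical in
/-- Leaf B, the law. -/
theorem mixS6 [IsProbabilityMeasure ρ] (hb : HB ρ b) : MixS d ρ b := by
  intro k R
  have := Eq41.rb_prob hb
  rcases Nat.eq_zero_or_pos k with hk | hk
  · subst hk
    have e : (fun w : Env d × (Fin 0 → Env d) => mxSJ b R w.1 w.2) = Prod.fst := by
      funext w p
      rw [mxSJ, dif_neg]
      rintro ⟨⟨i, -⟩, -⟩
      exact i.elim0
    rw [e]
    exact measurePreserving_fst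
  · -- the index of the row
    let idx : ℕ × Site d → Fin k := fun p => if h : ∃ i, p.1 ∈ R i then h.choose else ⟨0, hk⟩
    have hinj : Function.Injective (fun p : ℕ × Site d => (idx p, p)) := fun p q h =>
      (Prod.mk.inj h).2
    have h1 : MeasurePreserving (fun (ξ : Fin k → Env d) (p : ℕ × Site d) => ξ (idx p) p)
        (Measure.pi fun _ => law d (rb ρ b)) (law d (rb ρ b)) := by
      have h2 : MeasurePreserving (MeasurableEquiv.curry (Fin k) (ℕ × Site d) ℝ).symm
          (Measure.pi fun _ : Fin k => law d (rb ρ b))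
          (Measure.infinitePi fun _ : Fin k × (ℕ × Site d) => rb ρ b) := by
        rw [← Measure.infinitePi_eq_pi]
        exact ⟨(MeasurableEquiv.curry (Fin k) (ℕ × Site d) ℝ).symm.measurable,
          Measure.infinitePi_map_curry_symm (fun (_ : Fin k) (_ : ℕ × Site d) => rb ρ b)⟩
      exact (LawU_reindex (ρ := rb ρ b) hinj).comp h2
    have h := gen96 (ι := ℕ × Site d) ρ (rb ρ b)
      (ψ := fun p q => if (∃ i, p.1 ∈ R i) ∧ |q.1| ≤ b then cl b q.2 else q.1)
      (fun p => by
        by_cases hp : ∃ i, p.1 ∈ R i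
        · simp only [hp, true_and]
          exact one96_meas b
        · simp only [hp, false_and, if_false]
          exact measurable_fst)
      (fun p => by
        by_cases hp : ∃ i, p.1 ∈ R i
        · simp only [hp, true_and]
          exact one96 hb
        · simp only [hp, false_and, if_false]
          exact measurePreserving_fst.map_eq)
    have h3 : MeasurePreserving (fun w : Env d × (Fin k → Env d) =>
        ((w.1, fun p => w.2 (idx p) p) : Env d × Env d))
        ((law d ρ).prod (Measure.pi fun _ => law d (rb ρ b)))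
        ((law d ρ).prod (law d (rb ρ b))) :=
      (MeasurePreserving.id _).prod h1
    have e : (fun w : Env d × (Fin k → Env d) => mxSJ b R w.1 w.2) =
        (fun (w : Env d × Env d) (p : ℕ × Site d) =>
          if (∃ i, p.1 ∈ R i) ∧ |w.1 p| ≤ b then cl b (w.2 p) else w.1 p) ∘
        (fun w : Env d × (Fin k → Env d) => ((w.1, fun p => w.2 (idx p) p) : Env d × Env d)) := by
      funext w p
      simp only [Function.comp, mxSJ]
      by_cases hp : (∃ i, p.1 ∈ R i) ∧ |w.1 p| ≤ b
      · rw [dif_pos hp, if_pos hp]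
        simp only [idx, dif_pos hp.1]
      · rw [dif_neg hp, if_neg hp]
    rw [e]
    exact MeasurePreserving.comp h h3

end Pool.Agent.W_7d29a1_AC
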