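import Pool.Agent.W_7d29a1_AC.DefsAC8
import Pool.Agent.W_7d29a1_NV24.A24

/-!
Theorem AC, leaf E0: one window at two lengths.
-/

set_option autoImplicit false

namespace Pool.Agent.W_7d29a1_AC

open MeasureTheory ProbabilityTheory Filter Topology Pool.Agent.W_MP_7d29a1_pr
  Pool.Agent.W_7d29a1_h46 Pool.Agent.W_7d29a1_h46u Pool.Agent.W_7d29a1_D2.B35
  Pool.Agent.W_7d29a1_Q29 Pool.Agent.W_7d29a1_NV Pool.Agent.W_7d29a1_NV24

variable {d : ℕ} {ρ : Measure ℝ}

/-- The environment seen after `m` steps `e`. -/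
noncomputable def sm71 (e : Step d) (m : ℕ) : Env d → Env d := (sh 1 (vec e))^[m]

lemma mp_sm71 [IsProbabilityMeasure ρ] (e : Step d) (m : ℕ) :
    MeasurePreserving (sm71 e m) (law d ρ) (law d ρ) := (mp_sh 1 (vec e)).iterate m

/-- The environment seen after `m` steps is a shift. -/
lemma sm71_eq (e : Step d) (m : ℕ) (η : Env d) : sm71 e m η = sh m (m • vec e) η := by
  induction m generalizing η with
  | zero =>
    funext p
    simp [sm71, sh]
  | succ m ih =>
    have h1 : sm71 e (m + 1) η = sm71 e m (sh 1 (vec e) η) := rfl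
    rw [h1, ih]
    funext p
    unfold sh
    simp only [succ_nsmul]
    refine congrArg η (Prod.ext ?_ ?_)
    · show p.1 + m + 1 = p.1 + (m + 1)
      ring
    · show p.2 + m • vec e + vec e = p.2 + (m • vec e + vec e)
      abel

/-- The mean of the distance of the free energies at two lengths. -/
lemma clo71 [IsProbabilityMeasure ρ] (hd : 0 < d) (hρ : EM ρ) (β : ℝ) (h : Vec d) :
    ∃ C : ℝ, 0 ≤ C ∧ ∀ (n m : ℕ) (e : Step d),
      Integrable (fun η : Env d => |X β h η (n + m) - X β h (sm71 e m η) n|) (law d ρ) ∧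
      ∫ η, |X β h η (n + m) - X β h (sm71 e m η) n| ∂(law d ρ) ≤ C * m := by
  obtain ⟨C, hC, H⟩ := step24 (ρ := ρ) hd hρ β h
  refine ⟨C, hC, fun n m e => ?_⟩
  have hI : ∀ k m : ℕ, Integrable (fun η : Env d => X β h (sm71 e m η) k) (law d ρ) :=
    fun k m => (mp_sm71 e m).integrable_comp_of_integrable (intX24 hd hρ β h k)
  have hJ : ∀ m : ℕ, Integrable (fun η : Env d => |X β h η (n + m) - X β h (sm71 e m η) n|)
      (law d ρ) := fun m => ((intX24 hd hρ β h (n + m)).sub (hI n m)).abs
  refine ⟨hJ m, ?_⟩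
  induction m with
  | zero => simp [sm71]
  | succ m ih =>
    have h1 : Integrable (fun η : Env d => |X β h η (n + m + 1) - X β h (sh 1 (vec e) η) (n + m)|)
        (law d ρ) := ((intX24 hd hρ β h (n + m + 1)).sub (hI (n + m) 1)).abs
    have h2 : Integrable (fun η : Env d => |X β h (sh 1 (vec e) η) (n + m) -
        X β h (sm71 e m (sh 1 (vec e) η)) n|) (law d ρ) :=
      (mp_sh 1 (vec e)).integrable_comp_of_integrable (hJ m)
    have h3 : ∫ η, |X β h (sh 1 (vec e) η) (n + m) - X β h (sm71 e m (sh 1 (vec e) η)) n|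
        ∂(law d ρ) = ∫ η, |X β h η (n + m) - X β h (sm71 e m η) n| ∂(law d ρ) := by
      have h4 : Measurable fun η : Env d => |X β h η (n + m) - X β h (sm71 e m η) n| :=
        measurable_norm.comp ((measurable_X β h (n + m)).sub
          ((measurable_X β h n).comp (mp_sm71 (ρ := ρ) e m).measurable))
      exact integral_sh (ρ := ρ) 1 (vec e) h4
    have h5 := integral_mono (μ := law d ρ) (hJ (m + 1)) (h1.add h2) fun η => by
      show |X β h η (n + (m + 1)) - X β h (sm71 e (m + 1) η) n| ≤
        |X β h η (n + m + 1) - X β h (sh 1 (vec e) η) (n + m)| +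
          |X β h (sh 1 (vec e) η) (n + m) - X β h (sm71 e m (sh 1 (vec e) η)) n|
      exact abs_sub_le _ _ _
    have h6 : ∫ η, ((fun η : Env d => |X β h η (n + m + 1) - X β h (sh 1 (vec e) η) (n + m)|) +
        fun η : Env d => |X β h (sh 1 (vec e) η) (n + m) -
          X β h (sm71 e m (sh 1 (vec e) η)) n|) η ∂(law d ρ) =
        ∫ η, |X β h η (n + m + 1) - X β h (sh 1 (vec e) η) (n + m)| ∂(law d ρ) +
          ∫ η, |X β h (sh 1 (vec e) η) (n + m) - X β h (sm71 e m (sh 1 (vec e) η)) n|
            ∂(law d ρ) := integral_add h1 h2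
    have h7 := H (n + m) e
    rw [h6, h3] at h5
    have h8 : C * ((m + 1 : ℕ) : ℝ) = C + C * m := by push_cast; ring
    rw [h8]
    linarith

/-- Markov's inequality for the distance of two lengths. -/
lemma cloP71 [IsProbabilityMeasure ρ] (hd : 0 < d) (hρ : EM ρ) (β : ℝ) (h : Vec d) :
    ∃ C : ℝ, 0 ≤ C ∧ ∀ (n m : ℕ) (e : Step d) (R : ℝ), 0 < R →
      (law d ρ).real {η | R < |X β h η (n + m) - X β h (sm71 e m η) n - lam ρ β h * m|} ≤
        C * m / R := by
  obtain ⟨C, hC, H⟩ := clo71 (ρ := ρ) hd hρ β h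
  refine ⟨C + |lam ρ β h|, by positivity, fun n m e R hR => ?_⟩
  obtain ⟨h1, h2⟩ := H n m e
  have h3 : Integrable (fun η : Env d => |X β h η (n + m) - X β h (sm71 e m η) n| +
      |lam ρ β h| * m) (law d ρ) := h1.add (integrable_const _)
  have h4 : R * (law d ρ).real {η | R ≤ |X β h η (n + m) - X β h (sm71 e m η) n| +
      |lam ρ β h| * m} ≤ ∫ η, (|X β h η (n + m) - X β h (sm71 e m η) n| +
      |lam ρ β h| * m) ∂(law d ρ) :=
    mul_meas_ge_le_integral_of_nonneg (Eventually.of_forall fun η => by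
      show 0 ≤ |X β h η (n + m) - X β h (sm71 e m η) n| + |lam ρ β h| * m
      positivity) h3 R
  have h5 : ∫ η, (|X β h η (n + m) - X β h (sm71 e m η) n| +
      |lam ρ β h| * m) ∂(law d ρ) ≤ (C + |lam ρ β h|) * m := by
    rw [integral_add h1 (integrable_const _), integral_const]
    simp only [probReal_univ, one_smul]
    linarith
  have h6 : (law d ρ).real {η | R < |X β h η (n + m) - X β h (sm71 e m η) n -
      lam ρ β h * m|} ≤ (law d ρ).real {η | R ≤ |X β h η (n + m) - X β h (sm71 e m η) n| +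
      |lam ρ β h| * m} := by
    refine measureReal_mono fun η hη => ?_
    simp only [Set.mem_ofPred_eq] at hη ⊢
    have h7 := abs_sub (X β h η (n + m) - X β h (sm71 e m η) n) (lam ρ β h * m)
    rw [abs_mul, Nat.abs_cast] at h7
    linarith
  rw [le_div_iff₀ hR, mul_comm]
  exact (mul_le_mul_of_nonneg_left h6 hR.le).trans (h4.trans h5)

theorem cloC71 [IsProbabilityMeasure ρ] (hd : 0 < d) (hρ : EM ρ) (β : ℝ) : CloC d ρ β := by
  intro h
  obtain ⟨C, hC, H⟩ := cloP71 (ρ := ρ) hd hρ β h
  refine ⟨C, hC, fun n m a R M hR => ?_⟩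
  have e : Step d := (⟨0, hd⟩, true)
  have h1 := H n m e R hR
  have hS : MeasurableSet {η : Env d | R < |X β h η n - a| ∧ |X β h η n - a| ≤ M + R} := by
    have h2 : Measurable fun η : Env d => |X β h η n - a| :=
      measurable_norm.comp ((measurable_X β h n).sub_const a)
    exact (measurableSet_lt measurable_const h2).inter (measurableSet_le h2 measurable_const)
  have h2 : ring ρ β h n a R (M + R) = (law d ρ).real (sm71 e m ⁻¹'
      {η : Env d | R < |X β h η n - a| ∧ |X β h η n - a| ≤ M + R}) :=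
    ((mp_sm71 (ρ := ρ) e m).measureReal_preimage hS.nullMeasurableSet).symm
  have h3 : ring ρ β h (n + m) (a + lam ρ β h * m) (2 * R) M ≤ (law d ρ).real ((sm71 e m ⁻¹'
      {η : Env d | R < |X β h η n - a| ∧ |X β h η n - a| ≤ M + R}) ∪
      {η | R < |X β h η (n + m) - X β h (sm71 e m η) n - lam ρ β h * m|}) := by
    refine measureReal_mono fun η hη => ?_
    obtain ⟨h4, h5⟩ := hη
    by_cases h6 : R < |X β h η (n + m) - X β h (sm71 e m η) n - lam ρ β h * m|
    · exact Or.inr h6
    · left
      rw [not_lt] at h6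
      have h7 : X β h η (n + m) - (a + lam ρ β h * m) = (X β h (sm71 e m η) n - a) +
          (X β h η (n + m) - X β h (sm71 e m η) n - lam ρ β h * m) := by ring
      have h8 := abs_add_le (X β h (sm71 e m η) n - a)
        (X β h η (n + m) - X β h (sm71 e m η) n - lam ρ β h * m)
      rw [← h7] at h8
      have h9 := abs_sub (X β h η (n + m) - (a + lam ρ β h * m))
        (X β h η (n + m) - X β h (sm71 e m η) n - lam ρ β h * m)
      have h10 : X β h η (n + m) - (a + lam ρ β h * m) -
          (X β h η (n + m) - X β h (sm71 e m η) n - lam ρ β h * m) =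
          X β h (sm71 e m η) n - a := by ring
      rw [h10] at h9
      exact ⟨by linarith, by linarith⟩
  rw [h2]
  exact h3.trans ((measureReal_union_le _ _).trans (add_le_add le_rfl h1))

end Pool.Agent.W_7d29a1_AC
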