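import Pool.Agent.W_7d29a1_NV.DefsNV

/-!
Theorem AC: in very strong disorder the law of the free energy spreads out completely: for every
`R` the largest mass of an interval of length `2 R` tends to zero. Definitions and frozen statements
of the leaves.
-/

set_option autoImplicit false

namespace Pool.Agent.W_7d29a1_AC

open MeasureTheory ProbabilityTheory Filter Topology Pool.Agent.W_MP_7d29a1_pr
  Pool.Agent.W_7d29a1_h46 Pool.Agent.W_7d29a1_h46u Pool.Agent.W_7d29a1_D2.B35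
  Pool.Agent.W_7d29a1_Q29 Pool.Agent.W_7d29a1_NV

/-! ### The abstract selection model -/

/-- Leaf A (Littlewood-Offord): if the law of the class does not depend on the rows and the total
weight is much smaller than its mean over one row, for most rows, then the logarithm of the total
weight is not concentrated (literal of helper66). -/
def LOA : Prop := ∀ (Ω S : Type) [MeasurableSpace Ω] [Fintype S] (k : ℕ) (P : Measure Ω)
  [IsProbabilityMeasure P] (Q : S → ℝ) (u : Fin k → S → Ω → ℝ) (B G a r : ℝ), 0 < k → 0 ≤ B →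
    HT P Q u B → 2 * r + 3 ≤ G →
    (Measure.pi fun _ => P).real {ω | |Real.log (dT Q u ω) - a| ≤ r} ≤
      13 * Real.exp B * ∑ i, (∫ ω, ∫ x, ∑ s, |prT Q u ω s - prT Q u (Function.update ω i x) s| ∂P
        ∂(Measure.pi fun _ => P)) +
      4 * ((∑ i, (Measure.pi fun _ => P).real {ω | -G < Real.log (dT Q u ω) -
        Real.log (∫ x, dT Q u (Function.update ω i x) ∂P)}) / k) +
      10 * Real.sqrt (Real.exp B / k)

/-! ### The polymer -/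

section Pol

variable {d : ℕ}

open Classical in
/-- The bounded values of the rows `t < · ≤ t + J` are replaced. -/
noncomputable def mxR (b : ℝ) (t J : ℕ) (η ξ : Env d) : Env d := fun p =>
  if (t < p.1 ∧ p.1 ≤ t + J) ∧ |η p| ≤ b then cl b (ξ p) else η p

open Classical in
/-- The bounded values of the blocks `t i < · ≤ t i + J` are replaced by those of `ξ i`. -/
noncomputable def mxB (b : ℝ) (J : ℕ) {q : ℕ} (t : Fin q → ℕ) (η : Env d) (ξ : Fin q → Env d) :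
    Env d := fun p =>
  if h : (∃ i, t i < p.1 ∧ p.1 ≤ t i + J) ∧ |η p| ≤ b then cl b (ξ h.1.choose p) else η p

/-- The blocks and the separators are in order. -/
def OrdB (n J : ℕ) {q : ℕ} (t : Fin q → ℕ) (r : Fin (q + 1) → ℕ) : Prop :=
  (∀ i : Fin q, r i.castSucc ≤ t i ∧ t i + J ≤ r i.succ) ∧ r (Fin.last q) ≤ n

/-- The partition function averaged over the bounded values of the rows `t < · ≤ t + J`. -/
noncomputable def zB (ρ : Measure ℝ) (β b : ℝ) (h : Vec d) (n t J : ℕ) (η : Env d) : ℝ :=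
  ∫ ξ, Z β h (mxR b t J η ξ) n ∂(law d (rb ρ b))

/-- The integrand of `kap`: the selection at the row `t`, given the other rows. -/
noncomputable def kapE (ρ : Measure ℝ) (β b : ℝ) (h : Vec d) (n t a b' : ℕ) (η : Env d) : ℝ :=
  ∫ ξ, ∑ x ∈ boxF d n, ∑ y ∈ boxF d n, pab β h n a b' x y (mx b t η ξ) *
    (Real.log (uab ρ β b h t a b' x y η ξ) - psab ρ β b h t a b' x y η)
    ∂(law d (rb ρ b))

/-- The window. -/
def win (β : ℝ) (h : Vec d) (n : ℕ) (a M : ℝ) : Set (Env d) := {η | |X β h η n - a| ≤ M}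

/-- The mass of the ring `R < |X - a| ≤ M`. -/
noncomputable def ring (ρ : Measure ℝ) (β : ℝ) (h : Vec d) (n : ℕ) (a R M : ℝ) : ℝ :=
  (law d ρ).real {η | R < |X β h η n - a| ∧ |X β h η n - a| ≤ M}

end Pol

section Leaves

variable (d : ℕ) (ρ : Measure ℝ) (β b : ℝ)

/-- Leaf B: for a fixed environment the separators and the blocks form a selection model. -/
def EqB : Prop := ∀ (h : Vec d) (n q J : ℕ) (t : Fin q → ℕ) (r : Fin (q + 1) → ℕ), 1 ≤ J →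
  OrdB n J t r → ∀ η : Env d, ∃ (Q : Sp d n q → ℝ) (u : Fin q → Sp d n q → Env d → ℝ) (c : ℝ),
    HT (law d (rb ρ b)) Q u (J * Bc β b) ∧
    (∀ ξ s, prT Q u ξ s = msp β h n r s (mxB b J t η ξ)) ∧
    (∀ ξ, dT Q u ξ = Real.exp (-c) * Z β h (mxB b J t η ξ) n)

/-- Leaf B2: the small ball bound for the polymer. -/
def LoP : Prop := ∀ (h : Vec d) (n q J : ℕ) (t : Fin q → ℕ) (r : Fin (q + 1) → ℕ), 1 ≤ q → 1 ≤ J →
  OrdB n J t r → ∀ G W a M : ℝ, 0 ≤ W → 2 * W + 3 ≤ G → W + 4 * Bc β b * (q * J + 1) ≤ M →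
    (law d ρ).real (win β h n a W) ≤
      13 * Real.exp (J * Bc β b) * ∑ i : Fin q, (∫ η in win β h n a M,
        ∫ ξ, ∑ s : Sp d n q, |msp β h n r s η - msp β h n r s (mxR b (t i) J η ξ)|
          ∂(law d (rb ρ b)) ∂(law d ρ)) +
      4 * ((∑ i : Fin q, (law d ρ).real {η | η ∈ win β h n a M ∧
        -G < X β h η n - Real.log (zB ρ β b h n (t i) J η)}) / q) +
      10 * Real.sqrt (Real.exp (J * Bc β b) / q)

/-- Leaf D: the dependence of the separators on one block, from the selections of its rows. -/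
def TvB : Prop := ∀ (h : Vec d) (n q J : ℕ) (t : Fin q → ℕ) (r : Fin (q + 1) → ℕ), 1 ≤ J →
  OrdB n J t r → ∀ (i : Fin q) (a M s : ℝ), 0 ≤ M → 0 ≤ s →
    (∀ l : ℕ, t i < l → l ≤ t i + J →
      ∫ η in win β h n a (M + 4 * Bc β b * (J + 1)),
        kapE ρ β b h n l (r i.castSucc) (r i.succ) η ∂(law d ρ) ≤ s) →
    (∫ η in win β h n a M,
      ∫ ξ, ∑ s : Sp d n q, |msp β h n r s η - msp β h n r s (mxR b (t i) J η ξ)|
        ∂(law d (rb ρ b)) ∂(law d ρ)) ≤ J * Real.sqrt (2 * s)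

open Classical in
/-- Leaf C1: `OneP` in a window. -/
def OneC : Prop := ∀ (h : Vec d) (n k : ℕ) (T : Fin k → ℕ) (r : Fin (k + 1) → ℕ), Ord n T r →
  ∀ θ ε b₀ δ a M : ℝ, 0 < θ → θ ≤ 1 / (2 * Bc β b) → 0 ≤ ε → 0 ≤ b₀ → 0 ≤ M →
    (law d ρ).real {η | η ∈ win β h n a (M + 4 * Bc β b * k) ∧ ¬ GoodN β h n (r 0) b₀ ε η} ≤ δ →
    (law d ρ).real {η | η ∈ win β h n a (M + 4 * Bc β b * k) ∧
      ¬ GoodN β h n (r (Fin.last k)) b₀ ε η} ≤ δ →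
    ∑ i : Fin k, ∫ η in win β h n a M, kapE ρ β b h n (T i) (r i.castSucc) (r i.succ) η
        ∂(law d ρ) ≤
      4 * Bc β b * k * δ + Real.log (1 + Real.exp (2 * ε * b₀)) / θ + 4 * Bc β b ^ 2 * θ * k +
      4 * Bc β b * k * Real.exp (4 * Bc β b * k - b₀ / 4) +
      2 * Bc β b * k * Real.exp (5 * Bc β b * k) * ∑ i : Fin k,
        Real.sqrt (2 * ((∫ η in win β h n a (M + 4 * Bc β b * k),
            kapE ρ β b h n (T i) (r i.castSucc) (r i.succ) η ∂(law d ρ)) -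
          ∫ η in win β h n a (M + 4 * Bc β b * k),
            kapE ρ β b h n (T i) (r 0) (r (Fin.last k)) η ∂(law d ρ)))

open Classical in
/-- Leaf C2: blocks with small selections in a window. -/
def RowsC : Prop := ∀ (q J : ℕ) (s : ℝ), 1 ≤ q → 1 ≤ J → 0 < s →
  ∃ ε δ b₂ : ℝ, 0 < ε ∧ 0 < δ ∧ ∀ b₀ : ℝ, b₂ ≤ b₀ → ∃ (n₀ : ℕ) (Λ : ℝ), 0 ≤ Λ ∧
    ∀ (h : Vec d) (n : ℕ) (a M : ℝ), n₀ ≤ n → 0 ≤ M →
    (∀ τ : ℕ, 1 ≤ τ → τ ≤ n →
      (law d ρ).real {η | η ∈ win β h n a (M + Λ) ∧ ¬ GoodN β h n τ b₀ ε η} ≤ δ) →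
    ∃ (t : Fin q → ℕ) (r : Fin (q + 1) → ℕ), OrdB n J t r ∧
      ∀ (i : Fin q) (l : ℕ), t i < l → l ≤ t i + J →
        ∫ η in win β h n a M, kapE ρ β b h n l (r i.castSucc) (r i.succ) η ∂(law d ρ) ≤ s

/-- Leaf E0: one window at two lengths. -/
def CloC : Prop := ∀ h : Vec d, ∃ C : ℝ, 0 ≤ C ∧ ∀ (n m : ℕ) (a R M : ℝ), 0 < R →
  ring ρ β h (n + m) (a + lam ρ β h * m) (2 * R) M ≤ ring ρ β h n a R (M + R) + C * m / R

/-- Leaf E1: the cluster is flat. -/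
def FlaC : Prop := ∀ (h : Vec d) (ε κ : ℝ), 0 < ε → 0 < κ → ∃ e₁ : ℝ, 0 < e₁ ∧ ∀ R : ℝ, 0 < R →
  ∃ m₁ : ℕ, ∀ m : ℕ, m₁ ≤ m → ∃ M₁ : ℝ, ∀ M : ℝ, M₁ ≤ M → ∀ (n : ℕ) (a : ℝ), m ≤ n →
    ring ρ β h n a R M ≤ e₁ →
      ring ρ β h (n + m) (a + lam ρ β h * m) (ε * m) (M / 8) ≤ κ ∧
      (law d ρ).real (win β h n a R) ≤
        (law d ρ).real (win β h (n + m) (a + lam ρ β h * m) (ε * m)) + κ

open Classical in
/-- Leaf E2: the multiplicity on the cluster. -/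
def MulC : Prop := ∀ h : Vec d, VSD ρ β h → ∀ ε δ : ℝ, 0 < ε → 0 < δ → ∃ e₂ : ℝ, 0 < e₂ ∧
  ∀ R : ℝ, 0 < R → ∃ b₁ : ℝ, ∀ b₀ : ℝ, b₁ ≤ b₀ → ∃ M₁ : ℝ, ∀ M : ℝ, M₁ ≤ M → ∃ n₀ : ℕ,
    ∀ (n : ℕ) (a : ℝ), n₀ ≤ n → ring ρ β h n a R M ≤ e₂ → ∀ τ : ℕ, 1 ≤ τ → τ ≤ n →
      (law d ρ).real {η | η ∈ win β h n a (M / 16) ∧ ¬ GoodN β h n τ b₀ ε η} ≤ δ

/-- Leaf F: the localisation of blocks on the cluster, in probability. -/
def LocC (d : ℕ) (ρ : Measure ℝ) (β : ℝ) : Prop := ∀ (h : Vec d) (g κ : ℝ), 0 < g → 0 < κ →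
  lam ρ β h + g ≤ Real.log (Phi h) + Real.log (∫ t, Real.exp (β * t) ∂ρ) →
  ∃ b₃ : ℝ, ∀ b : ℝ, b₃ ≤ b → ∃ e₃ : ℝ, 0 < e₃ ∧ ∀ R : ℝ, 0 < R → ∃ J₁ : ℕ, ∀ J : ℕ, J₁ ≤ J →
    ∃ M₁ : ℝ, ∀ M : ℝ, M₁ ≤ M → ∃ n₀ : ℕ, ∀ (n : ℕ) (a : ℝ), n₀ ≤ n →
      ring ρ β h n a R M ≤ e₃ → ∀ t : ℕ, t ≤ n →
        (law d ρ).real {η | η ∈ win β h (n + J) (a + lam ρ β h * J) (M / 16) ∧
          -(g / 2 * J) < X β h η (n + J) - Real.log (zB ρ β b h (n + J) t J η)} ≤ κ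

/-- Leaf G1: the two level pigeonhole. -/
def PigC : Prop := ∀ (η₀ e₀ R₀ : ℝ) (ψ F : ℝ → ℝ) (F' : ℝ → ℝ → ℝ), 0 < η₀ → 0 < e₀ → 0 < R₀ →
  (∀ x, 0 < ψ x) → ∃ K : Finset (ℝ × ℝ × ℝ),
    (∀ k ∈ K, R₀ ≤ k.1 ∧ F k.1 ≤ k.2.1 ∧ k.1 ≤ k.2.1 ∧ F' k.1 k.2.1 ≤ k.2.2 ∧ k.2.1 ≤ k.2.2) ∧
    ∀ (ν : Measure ℝ) [IsProbabilityMeasure ν],
      (∃ a : ℝ, η₀ ≤ ν.real {x | |x - a| ≤ R₀}) →
      ∃ k ∈ K, ∃ a : ℝ, η₀ / 2 ≤ ν.real {x | |x - a| ≤ k.1} ∧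
        ν.real {x | k.1 < |x - a| ∧ |x - a| ≤ k.2.2} ≤ e₀ ∧
        ν.real {x | k.2.1 < |x - a| ∧ |x - a| ≤ k.2.2} ≤ ψ k.1

/-- The theorem: the law of the free energy spreads out completely. -/
def MainAC : Prop := ∀ h : Vec d, VSD ρ β h → ∀ R κ : ℝ, 0 < κ → ∀ᶠ n : ℕ in atTop,
  ∀ a : ℝ, (law d ρ).real {η | |X β h η n - a| ≤ R} ≤ κ

end Leaves

end Pool.Agent.W_7d29a1_AC
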