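import Pool.Agent.W_7d29a1_AC.DefsAC8

/-!
Theorem AC: the two halves of leaf F.
-/

set_option autoImplicit false

namespace Pool.Agent.W_7d29a1_AC

open MeasureTheory ProbabilityTheory Filter Topology Pool.Agent.W_MP_7d29a1_pr
  Pool.Agent.W_7d29a1_h46 Pool.Agent.W_7d29a1_h46u Pool.Agent.W_7d29a1_D2.B35
  Pool.Agent.W_7d29a1_Q29 Pool.Agent.W_7d29a1_NV

/-- The environment with the rows `t < · ≤ t + J` removed, the later rows shifted by `z`. -/
def remE {d : ℕ} (J t : ℕ) (z : Site d) (η : Env d) : Env d := fun p =>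
  if p.1 ≤ t then η p else η (p.1 + J, p.2 + z)

section

variable (d : ℕ) (ρ : Measure ℝ) (β : ℝ)

open Classical in
/-- Leaf F1: the averaged partition function is large if the shortened environments are good. -/
def ZlowC : Prop := ∀ (h : Vec d) (ϑ : ℝ), 0 < ϑ → ∃ b₃ : ℝ, ∀ b : ℝ, b₃ ≤ b →
  ∀ (J t n : ℕ) (a R : ℝ), 1 ≤ J → t ≤ n →
    (law d ρ).real {η | Phi h ^ J / 2 ≤
        (∑ z ∈ boxF d J, if |X β h (remE J t z η) n - a| ≤ R then PP β h (fun _ => 0) J z else 0) ∧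
      Real.log (zB ρ β b h (n + J) t J η) <
        a - R + J * (Real.log (Phi h) + Real.log (∫ x, Real.exp (β * x) ∂ρ)) - ϑ * J - 1} ≤ ϑ

open Classical in
/-- Leaf F2: the shortened environments are good on the cluster. -/
def RemC : Prop := ∀ h : Vec d, ∃ C : ℝ, 0 ≤ C ∧ ∀ (J t n : ℕ) (a R M : ℝ), 1 ≤ J → t ≤ n →
  0 < M → (law d ρ).real {η | |X β h η (n + J) - (a + lam ρ β h * J)| ≤ M / 16 ∧
    (∑ z ∈ boxF d J, if |X β h (remE J t z η) n - a| ≤ R then PP β h (fun _ => 0) J z else 0) <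
      Phi h ^ J / 2} ≤ 2 * (ring ρ β h n a R M + C * J / M)

end

end Pool.Agent.W_7d29a1_AC
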