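import Pool.Agent.W_7d29a1_AC.DefsAC8

/-!
Theorem AC: the assembly.
-/

set_option autoImplicit false

namespace Pool.Agent.W_7d29a1_AC

open MeasureTheory ProbabilityTheory Filter Topology Pool.Agent.W_MP_7d29a1_pr
  Pool.Agent.W_7d29a1_h46 Pool.Agent.W_7d29a1_h46u Pool.Agent.W_7d29a1_D2.B35
  Pool.Agent.W_7d29a1_Q29 Pool.Agent.W_7d29a1_NV

variable {d : ℕ} {ρ : Measure ℝ} {β b : ℝ}

lemma win_mono8 (β : ℝ) (h : Vec d) (n : ℕ) (a : ℝ) {M M' : ℝ} (hM : M ≤ M') :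
    win β h n a M ⊆ win β h n a M' := fun _ hη => le_trans hη hM

lemma ord_le8 {n J q : ℕ} {t : Fin q → ℕ} {r : Fin (q + 1) → ℕ} (hO : OrdB n J t r) (i : Fin q) :
    t i + J ≤ n := by
  have hm : Monotone r := by
    refine Fin.monotone_iff_le_succ.2 fun i => ?_
    have h1 := hO.1 i
    omega
  have h1 := (hO.1 i).2
  have h2 := hm (Fin.le_last i.succ)
  have h3 := hO.2
  omega

lemma Bc_one8 (hb : 0 < b) : 1 ≤ Bc β b := by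
  unfold Bc
  have := mul_nonneg (mul_nonneg zero_le_two (abs_nonneg β)) hb.le
  linarith

/-- The contradiction at one length. -/
theorem step8 [IsProbabilityMeasure ρ] (hb : HB ρ b) (hL : LoP d ρ β b) (hD : TvB d ρ β b)
    (hC : RowsC d ρ β b) (hE0 : CloC d ρ β) (hE2 : MulC d ρ β) {h : Vec d} (hvs : VSD ρ β h)
    {g κ κ' e₁ e₃ : ℝ} (hg : 0 < g) (hκ' : 0 < κ') (hκ : κ = 40 * κ')
    (hE1 : ∀ R : ℝ, 0 < R → ∃ m₁ : ℕ, ∀ m : ℕ, m₁ ≤ m → ∃ M₁ : ℝ, ∀ M : ℝ, M₁ ≤ M →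
      ∀ (n : ℕ) (a : ℝ), m ≤ n → ring ρ β h n a R M ≤ e₁ →
        ring ρ β h (n + m) (a + lam ρ β h * m) (g / 40 * m) (M / 8) ≤ κ' ∧
        (law d ρ).real (win β h n a R) ≤
          (law d ρ).real (win β h (n + m) (a + lam ρ β h * m) (g / 40 * m)) + κ')
    (hF : ∀ R : ℝ, 0 < R → ∃ J₁ : ℕ, ∀ J : ℕ, J₁ ≤ J → ∃ M₁ : ℝ, ∀ M : ℝ, M₁ ≤ M →
      ∃ n₀ : ℕ, ∀ (n : ℕ) (a : ℝ), n₀ ≤ n → ring ρ β h n a R M ≤ e₃ → ∀ t : ℕ, t ≤ n →
        (law d ρ).real {η | η ∈ win β h (n + J) (a + lam ρ β h * J) (M / 16) ∧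
          -(g / 2 * J) < X β h η (n + J) - Real.log (zB ρ β b h (n + J) t J η)} ≤ κ' / 4)
    {R₁ : ℝ} (hR : 0 < R₁) :
    ∃ e₂ F₁ : ℝ, 0 < e₂ ∧ ∀ r₂ : ℝ, 0 < r₂ → F₁ ≤ r₂ → ∃ M₁ : ℝ, ∀ M : ℝ, M₁ ≤ M →
      ∃ n₀ : ℕ, ∀ (n : ℕ) (a : ℝ), n₀ ≤ n → ring ρ β h n a R₁ M ≤ min e₁ e₃ →
        ring ρ β h n a r₂ M ≤ e₂ → ¬ κ / 2 ≤ (law d ρ).real (win β h n a R₁) := by
  have hb0 := hb.b0
  obtain ⟨B, hB⟩ : ∃ B, B = Bc β b := ⟨_, rfl⟩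
  have hB1 : 1 ≤ B := by rw [hB]; exact Bc_one8 hb0
  obtain ⟨J₁, hJ₁⟩ := hF R₁ hR
  obtain ⟨m₁, hm₁⟩ := hE1 R₁ hR
  obtain ⟨C, hC0, hClo⟩ := hE0 h
  obtain ⟨J, hJ⟩ : ∃ J : ℕ, J = max (max J₁ m₁) (⌈20 / g⌉₊ + 1) := ⟨_, rfl⟩
  have hJa : J₁ ≤ J := by rw [hJ]; exact (le_max_left _ _).trans (le_max_left _ _)
  have hJb : m₁ ≤ J := by rw [hJ]; exact (le_max_right _ _).trans (le_max_left _ _)
  have hJc : ⌈20 / g⌉₊ + 1 ≤ J := by rw [hJ]; exact le_max_right _ _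
  have hJ1 : 1 ≤ J := by omega
  have hJ1R : (1 : ℝ) ≤ J := by exact_mod_cast hJ1
  have hJg : 20 ≤ g * J := by
    have h1 : 20 / g ≤ ⌈20 / g⌉₊ := Nat.le_ceil _
    have h2 : ((⌈20 / g⌉₊ + 1 : ℕ) : ℝ) ≤ J := by exact_mod_cast hJc
    push_cast at h2
    have h3 : 20 / g ≤ J := by linarith
    rw [div_le_iff₀ hg] at h3
    linarith
  obtain ⟨Mf, hMf⟩ := hJ₁ J hJa
  obtain ⟨Me, hMe⟩ := hm₁ J hJb
  obtain ⟨E, hE⟩ : ∃ E : ℝ, E = Real.exp (J * B) := ⟨_, rfl⟩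
  have hE0' : 0 < E := by rw [hE]; exact Real.exp_pos _
  obtain ⟨q, hq⟩ : ∃ q : ℕ, q = ⌈E * 100 / κ' ^ 2⌉₊ + 1 := ⟨_, rfl⟩
  have hq1 : 1 ≤ q := by omega
  have hq1R : (1 : ℝ) ≤ q := by exact_mod_cast hq1
  have hq2 : 10 * Real.sqrt (E / q) ≤ κ' := by
    have h1 : E * 100 / κ' ^ 2 ≤ q := by
      have h2 : E * 100 / κ' ^ 2 ≤ ⌈E * 100 / κ' ^ 2⌉₊ := Nat.le_ceil _
      rw [hq]
      push_cast
      linarith
    have h3 : E / q ≤ (κ' / 10) ^ 2 := by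
      rw [div_le_iff₀ (by linarith)]
      rw [div_le_iff₀ (by positivity)] at h1
      nlinarith
    have h4 : Real.sqrt (E / q) ≤ κ' / 10 := by
      refine (Real.sqrt_le_sqrt h3).trans (le_of_eq ?_)
      exact Real.sqrt_sq (by positivity)
    linarith
  obtain ⟨v, hv⟩ : ∃ v : ℝ, v = κ' / (13 * E * q * J) := ⟨_, rfl⟩
  have hv0 : 0 < v := by rw [hv]; positivity
  obtain ⟨s, hs⟩ : ∃ s : ℝ, s = v ^ 2 / 2 := ⟨_, rfl⟩
  have hs0 : 0 < s := by rw [hs]; positivity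
  have hsv : Real.sqrt (2 * s) = v := by
    rw [hs, mul_div_cancel₀ _ two_ne_zero]
    exact Real.sqrt_sq hv0.le
  obtain ⟨εR, δR, b₂, hεR, hδR, hRows⟩ := hC q J s hq1 hJ1 hs0
  obtain ⟨e₂, he₂, hMul⟩ := hE2 h hvs εR δR hεR hδR
  refine ⟨e₂ / 2, 2 * C * J / e₂ + 1, by positivity, fun r₂ hr₂ hF₁ => ?_⟩
  obtain ⟨b₁, hb₁⟩ := hMul (2 * r₂) (by positivity)
  obtain ⟨Mm, hMm⟩ := hb₁ (max b₁ b₂) (le_max_left _ _)
  obtain ⟨nr, Λ, hΛ, hRows'⟩ := hRows (max b₁ b₂) (le_max_right _ _)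
  obtain ⟨W, hW⟩ : ∃ W : ℝ, W = g / 40 * J := ⟨_, rfl⟩
  have hW0 : 0 ≤ W := by rw [hW]; positivity
  obtain ⟨ML, hML⟩ : ∃ ML : ℝ, ML = W + 4 * B * (q * J + 1) := ⟨_, rfl⟩
  have hML0 : 0 ≤ ML := by
    have : 0 ≤ 4 * B * (q * J + 1) := by positivity
    rw [hML]
    linarith
  obtain ⟨MD, hMD⟩ : ∃ MD : ℝ, MD = ML + 4 * B * (J + 1) := ⟨_, rfl⟩
  have hMD0 : ML ≤ MD := by
    have : 0 ≤ 4 * B * ((J : ℝ) + 1) := by positivity
    rw [hMD]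
    linarith
  refine ⟨max (max Mf Me) (max (Mm + r₂) (16 * (MD + Λ) + r₂)), fun M hM => ?_⟩
  have hM1 : Mf ≤ M := ((le_max_left _ _).trans (le_max_left _ _)).trans hM
  have hM2 : Me ≤ M := ((le_max_right _ _).trans (le_max_left _ _)).trans hM
  have hM3 : Mm + r₂ ≤ M := ((le_max_left _ _).trans (le_max_right _ _)).trans hM
  have hM4 : 16 * (MD + Λ) + r₂ ≤ M := ((le_max_right _ _).trans (le_max_right _ _)).trans hM
  obtain ⟨nm, hnm⟩ := hMm (M - r₂) (by linarith)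
  obtain ⟨nf, hnf⟩ := hMf M hM1
  refine ⟨max (max nm nf) (max nr J), fun n a hn hr1 hr2 hwin => ?_⟩
  have hn1 : nm ≤ n := ((le_max_left _ _).trans (le_max_left _ _)).trans hn
  have hn2 : nf ≤ n := ((le_max_right _ _).trans (le_max_left _ _)).trans hn
  have hn3 : nr ≤ n := ((le_max_left _ _).trans (le_max_right _ _)).trans hn
  have hn4 : J ≤ n := ((le_max_right _ _).trans (le_max_right _ _)).trans hn
  obtain ⟨-, hmass⟩ := hMe M hM2 n a hn4 (hr1.trans (min_le_left _ _))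
  obtain ⟨a', ha'⟩ : ∃ a' : ℝ, a' = a + lam ρ β h * J := ⟨_, rfl⟩
  rw [← ha', ← hW] at hmass
  -- the ring at the larger length
  have hringN : ring ρ β h (n + J) a' (2 * r₂) (M - r₂) ≤ e₂ := by
    have h1 := hClo n J a r₂ (M - r₂) hr₂
    rw [← ha', sub_add_cancel] at h1
    have h2 : C * J / r₂ ≤ e₂ / 2 := by
      rw [div_le_iff₀ hr₂]
      have h3 : 2 * C * J / e₂ ≤ r₂ := by linarith
      rw [div_le_iff₀ he₂] at h3
      linarith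
    linarith
  have hgood := hnm (n + J) a' (by omega) hringN
  -- the blocks
  obtain ⟨t, r, hO, hk⟩ := hRows' h (n + J) a' MD (by omega) (by linarith) fun τ h1 h2 => by
    refine le_trans (measureReal_mono ?_) (hgood τ h1 h2)
    exact fun η hη => ⟨win_mono8 β h (n + J) a' (by linarith) hη.1, hη.2⟩
  have hTV : ∀ i : Fin q, (∫ η in win β h (n + J) a' ML,
      ∫ ξ, ∑ s : Sp d (n + J) q, |msp β h (n + J) r s η - msp β h (n + J) r s (mxR b (t i) J η ξ)|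
        ∂(law d (rb ρ b)) ∂(law d ρ)) ≤ J * v := by
    intro i
    have h1 := hD h (n + J) q J t r hJ1 hO i a' ML s hML0 hs0.le fun l h2 h3 => by
      rw [← hB, ← hMD]
      exact hk i l h2 h3
    rwa [hsv] at h1
  have hLoc : ∀ i : Fin q, (law d ρ).real {η | η ∈ win β h (n + J) a' ML ∧
      -(g / 2 * J) < X β h η (n + J) - Real.log (zB ρ β b h (n + J) (t i) J η)} ≤ κ' / 4 := by
    intro i
    have h0 := ord_le8 hO i
    have h1 := hnf n a hn2 (hr1.trans (min_le_right _ _)) (t i) (by omega)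
    rw [← ha'] at h1
    refine le_trans (measureReal_mono ?_) h1
    exact fun η hη => ⟨win_mono8 β h (n + J) a' (by linarith) hη.1, hη.2⟩
  have hLo := hL h (n + J) q J t r hq1 hJ1 hO (g / 2 * J) W a' ML hW0
    (by rw [hW]; linarith) (by rw [hML, hB])
  have h1 : 13 * Real.exp (J * Bc β b) * ∑ i : Fin q, (∫ η in win β h (n + J) a' ML,
      ∫ ξ, ∑ s : Sp d (n + J) q, |msp β h (n + J) r s η - msp β h (n + J) r s (mxR b (t i) J η ξ)|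
        ∂(law d (rb ρ b)) ∂(law d ρ)) ≤ κ' := by
    rw [← hB, ← hE]
    have h2 := Finset.sum_le_sum (s := Finset.univ) fun (i : Fin q) _ => hTV i
    rw [Finset.sum_const, Finset.card_univ, Fintype.card_fin, nsmul_eq_mul] at h2
    refine (mul_le_mul_of_nonneg_left h2 (by positivity)).trans (le_of_eq ?_)
    rw [hv]
    field_simp
  have h2 : 4 * ((∑ i : Fin q, (law d ρ).real {η | η ∈ win β h (n + J) a' ML ∧
      -(g / 2 * J) < X β h η (n + J) - Real.log (zB ρ β b h (n + J) (t i) J η)}) / q) ≤ κ' := by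
    have h3 := Finset.sum_le_sum (s := Finset.univ) fun (i : Fin q) _ => hLoc i
    rw [Finset.sum_const, Finset.card_univ, Fintype.card_fin, nsmul_eq_mul] at h3
    have h4 := div_le_div_of_nonneg_right h3 (by linarith : (0 : ℝ) ≤ q)
    have h5 : (q : ℝ) * (κ' / 4) / q = κ' / 4 := by
      field_simp
    rw [h5] at h4
    linarith
  rw [← hB, ← hE] at hLo
  rw [← hB, ← hE] at h1
  linarith

/-- **The theorem from its leaves.** -/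
theorem finAC8 [IsProbabilityMeasure ρ] (hHB : ∃ b₄ : ℝ, ∀ b : ℝ, b₄ ≤ b → HB ρ b)
    (hL : ∀ b, HB ρ b → LoP d ρ β b) (hD : ∀ b, HB ρ b → TvB d ρ β b)
    (hC : ∀ b, HB ρ b → RowsC d ρ β b) (hE0 : CloC d ρ β) (hE1 : FlaC d ρ β)
    (hE2 : MulC d ρ β) (hF : LocC d ρ β) (hG : PigC) : MainAC d ρ β := by
  intro h hvs R κ hκ
  obtain ⟨g, hg⟩ : ∃ g : ℝ, g = Real.log (Phi h) + Real.log (∫ t, Real.exp (β * t) ∂ρ) -
    lam ρ β h := ⟨_, rfl⟩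
  have hg0 : 0 < g := by
    have h4 : lam ρ β h < Real.log (Phi h) + Real.log (∫ t, Real.exp (β * t) ∂ρ) := hvs
    linarith
  obtain ⟨κ', hκ'⟩ : ∃ κ' : ℝ, κ' = κ / 40 := ⟨_, rfl⟩
  have hκ'0 : 0 < κ' := by rw [hκ']; positivity
  obtain ⟨b₄, hb₄⟩ := hHB
  obtain ⟨b₃, hb₃⟩ := hF h g (κ' / 4) hg0 (by positivity) (by linarith)
  obtain ⟨b, hbdef⟩ : ∃ b : ℝ, b = max b₃ b₄ := ⟨_, rfl⟩
  have hb : HB ρ b := hb₄ b (by rw [hbdef]; exact le_max_right _ _)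
  obtain ⟨e₃, he₃, hF'⟩ := hb₃ b (by rw [hbdef]; exact le_max_left _ _)
  obtain ⟨e₁, he₁, hE1'⟩ := hE1 h (g / 40) κ' (by positivity) hκ'0
  have hstep : ∀ R₁ : ℝ, 0 < R₁ → ∃ e₂ F₁ : ℝ, 0 < e₂ ∧ ∀ r₂ : ℝ, 0 < r₂ → F₁ ≤ r₂ →
      ∃ M₁ : ℝ, ∀ M : ℝ, M₁ ≤ M → ∃ n₀ : ℕ, ∀ (n : ℕ) (a : ℝ), n₀ ≤ n →
        ring ρ β h n a R₁ M ≤ min e₁ e₃ → ring ρ β h n a r₂ M ≤ e₂ →
          ¬ κ / 2 ≤ (law d ρ).real (win β h n a R₁) := fun R₁ hR₁ =>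
    step8 hb (hL b hb) (hD b hb) (hC b hb) hE0 hE2 hvs hg0 hκ'0 (by rw [hκ']; ring) hE1' hF' hR₁
  choose! e₂ F₁ he₂ hs using hstep
  have hs2 : ∀ R₁ r₂ : ℝ, ∃ M₁ : ℝ, 0 < R₁ → 0 < r₂ → F₁ R₁ ≤ r₂ → ∀ M : ℝ, M₁ ≤ M →
      ∃ n₀ : ℕ, ∀ (n : ℕ) (a : ℝ), n₀ ≤ n →
        ring ρ β h n a R₁ M ≤ min e₁ e₃ → ring ρ β h n a r₂ M ≤ e₂ R₁ →
          ¬ κ / 2 ≤ (law d ρ).real (win β h n a R₁) := by
    intro R₁ r₂
    by_cases hc : 0 < R₁ ∧ 0 < r₂ ∧ F₁ R₁ ≤ r₂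
    · obtain ⟨M₁, hM₁⟩ := hs R₁ hc.1 r₂ hc.2.1 hc.2.2
      exact ⟨M₁, fun _ _ _ => hM₁⟩
    · exact ⟨0, fun h1 h2 h3 => absurd ⟨h1, h2, h3⟩ hc⟩
  choose F' hF2 using hs2
  classical
  obtain ⟨ψ, hψ⟩ : ∃ ψ : ℝ → ℝ, ψ = fun x => if 0 < x then e₂ x else 1 := ⟨_, rfl⟩
  obtain ⟨K, hK, hν⟩ := hG κ (min e₁ e₃) (max R 1) ψ F₁ F' hκ (lt_min he₁ he₃)
    (lt_of_lt_of_le one_pos (le_max_right _ _)) (fun x => by
      rw [hψ]
      simp only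
      split_ifs with hx
      · exact he₂ x hx
      · exact one_pos)
  have hn₀ : ∀ k : ℝ × ℝ × ℝ, ∃ n₀ : ℕ, k ∈ K → ∀ (n : ℕ) (a : ℝ), n₀ ≤ n →
        ring ρ β h n a k.1 k.2.2 ≤ min e₁ e₃ → ring ρ β h n a k.2.1 k.2.2 ≤ e₂ k.1 →
          ¬ κ / 2 ≤ (law d ρ).real (win β h n a k.1) := by
    intro k
    by_cases hk : k ∈ K
    · obtain ⟨h1, h2, h3, h4, h5⟩ := hK k hk
      have h6 : 0 < k.1 := lt_of_lt_of_le (lt_of_lt_of_le one_pos (le_max_right _ _)) h1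
      obtain ⟨n₀, hn₀⟩ := hF2 k.1 k.2.1 h6 (h6.trans_le h3) h2 k.2.2 h4
      exact ⟨n₀, fun _ => hn₀⟩
    · exact ⟨0, fun h1 => absurd h1 hk⟩
  choose N hN using hn₀
  refine eventually_atTop.2 ⟨K.sup N, fun n hn a => ?_⟩
  by_contra hcon
  rw [not_le] at hcon
  have hXm : Measurable fun η : Env d => X β h η n := measurable_X β h n
  have : IsProbabilityMeasure ((law d ρ).map fun η : Env d => X β h η n) :=
    Measure.isProbabilityMeasure_map hXm.aemeasurable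
  have hmap : ∀ S : Set ℝ, MeasurableSet S →
      ((law d ρ).map fun η : Env d => X β h η n).real S =
        (law d ρ).real {η | X β h η n ∈ S} := by
    intro S hS
    unfold Measure.real
    rw [Measure.map_apply hXm hS]
    rfl
  have hm1 : ∀ c x : ℝ, MeasurableSet {y : ℝ | |y - c| ≤ x} := fun c x =>
    measurableSet_le (measurable_id.sub_const c).abs measurable_const
  have hm2 : ∀ c x y : ℝ, MeasurableSet {z : ℝ | x < |z - c| ∧ |z - c| ≤ y} := fun c x y =>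
    (measurableSet_lt measurable_const (measurable_id.sub_const c).abs).inter
      (measurableSet_le (measurable_id.sub_const c).abs measurable_const)
  obtain ⟨k, hk, a', h1, h2, h3⟩ := hν ((law d ρ).map fun η : Env d => X β h η n) ⟨a, by
    rw [hmap _ (hm1 _ _)]
    refine hcon.le.trans (measureReal_mono fun η hη => ?_)
    exact le_trans hη (le_max_left R 1)⟩
  rw [hmap _ (hm1 _ _)] at h1
  rw [hmap _ (hm2 _ _ _)] at h2 h3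
  obtain ⟨h4, -⟩ := hK k hk
  have h6 : 0 < k.1 := lt_of_lt_of_le (lt_of_lt_of_le one_pos (le_max_right _ _)) h4
  rw [hψ] at h3
  simp only [if_pos h6] at h3
  exact hN k hk n a' ((Finset.le_sup hk).trans hn) h2 h3 h1

end Pool.Agent.W_7d29a1_AC
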