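import Pool.Agent.W_7d29a1_AC.DefsAC8
import Pool.Agent.W_7d29a1_NV.Eq41c

/-!
Leaf B of Theorem AC: for a fixed environment the separators and the blocks form a selection
model.
-/

set_option autoImplicit false

namespace Pool.Agent.W_7d29a1_AC.EqB41

open MeasureTheory ProbabilityTheory Filter Topology Pool.Agent.W_MP_7d29a1_pr
  Pool.Agent.W_7d29a1_h46 Pool.Agent.W_7d29a1_h46u Pool.Agent.W_7d29a1_D2.B35
  Pool.Agent.W_7d29a1_Q29 Pool.Agent.W_7d29a1_NV Pool.Agent.W_7d29a1_NV.Eq41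

variable {d : ℕ} {ρ : Measure ℝ} {β b : ℝ}

/-! ### One block -/

lemma mxR_out {b : ℝ} {t J : ℕ} {η ξ : Env d} {p : ℕ × Site d} (hp : ¬ (t < p.1 ∧ p.1 ≤ t + J)) :
    mxR b t J η ξ p = η p := by
  unfold mxR
  rw [if_neg fun h => hp h.1]

lemma mxR_diff {b : ℝ} (hb : 0 ≤ b) (t J : ℕ) (η ξ ξ' : Env d) (p : ℕ × Site d) :
    |mxR b t J η ξ p - mxR b t J η ξ' p| ≤ 2 * b := by
  unfold mxR
  by_cases h : (t < p.1 ∧ p.1 ≤ t + J) ∧ |η p| ≤ b
  · rw [if_pos h, if_pos h]
    have h1 := cl_abs hb (ξ p)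
    have h2 := cl_abs hb (ξ' p)
    rw [abs_le] at h1 h2 ⊢
    constructor <;> linarith
  · rw [if_neg h, if_neg h, sub_self, abs_zero]
    linarith

lemma energy_mxR {b : ℝ} (hb : 0 ≤ b) {t J a m : ℕ} (x : Site d)
    (η ξ ξ' : Env d) (s : Fin m → Step d) :
    |energy (sh a x (mxR b t J η ξ)) s - energy (sh a x (mxR b t J η ξ')) s| ≤ J * (2 * b) := by
  classical
  unfold energy
  rw [← Finset.sum_sub_distrib]
  refine (Finset.abs_sum_le_sum_abs _ _).trans ?_
  have h1 : ∀ i : Fin m, |sh a x (mxR b t J η ξ) ((i : ℕ) + 1, pos s ((i : ℕ) + 1)) -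
      sh a x (mxR b t J η ξ') ((i : ℕ) + 1, pos s ((i : ℕ) + 1))| ≤
      if t < (i : ℕ) + 1 + a ∧ (i : ℕ) + 1 + a ≤ t + J then 2 * b else 0 := by
    intro i
    by_cases h : t < (i : ℕ) + 1 + a ∧ (i : ℕ) + 1 + a ≤ t + J
    · rw [if_pos h]
      exact mxR_diff hb t J η ξ ξ' _
    · rw [if_neg h]
      unfold sh
      rw [mxR_out (by simpa using h), mxR_out (by simpa using h), sub_self, abs_zero]
  refine (Finset.sum_le_sum fun i _ => h1 i).trans ?_
  rw [← Finset.sum_filter, Finset.sum_const, nsmul_eq_mul]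
  refine mul_le_mul_of_nonneg_right ?_ (by linarith)
  have h2 : (Finset.univ.filter fun i : Fin m => t < (i : ℕ) + 1 + a ∧ (i : ℕ) + 1 + a ≤ t + J).card
      ≤ (Finset.Ioc t (t + J)).card := by
    refine Finset.card_le_card_of_injOn (fun i : Fin m => (i : ℕ) + 1 + a) ?_ ?_
    · intro i hi
      have := (Finset.mem_filter.1 (Finset.mem_coe.1 hi)).2
      exact Finset.mem_coe.2 (Finset.mem_Ioc.2 this)
    · intro i _ j _ hij
      ext
      simp only at hij
      omega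
  rw [Nat.card_Ioc, Nat.add_sub_cancel_left] at h2
  exact_mod_cast h2

lemma wgt_mxR (β : ℝ) (h : Vec d) {b : ℝ} (hb : 0 ≤ b) {t J a m : ℕ} (x : Site d)
    (η ξ ξ' : Env d) (s : Fin m → Step d) :
    wgt β h (sh a x (mxR b t J η ξ)) s ≤ Real.exp (J * Bc β b) *
      wgt β h (sh a x (mxR b t J η ξ')) s := by
  unfold wgt
  rw [← Real.exp_add]
  refine Real.exp_le_exp.2 ?_
  have h1 := energy_mxR hb (t := t) (J := J) (a := a) x η ξ ξ' s
  have h2 : |β * (energy (sh a x (mxR b t J η ξ)) s - energy (sh a x (mxR b t J η ξ')) s)| ≤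
      |β| * (J * (2 * b)) := by
    rw [abs_mul]
    exact mul_le_mul_of_nonneg_left h1 (abs_nonneg β)
  have h3 := le_abs_self (β * (energy (sh a x (mxR b t J η ξ)) s -
    energy (sh a x (mxR b t J η ξ')) s))
  have h4 : |β| * (J * (2 * b)) ≤ J * Bc β b := by
    unfold Bc
    have : (0 : ℝ) ≤ J := Nat.cast_nonneg J
    nlinarith
  nlinarith

lemma sg_mxR_le (β : ℝ) (h : Vec d) {b : ℝ} (hb : 0 ≤ b) (t J a b' : ℕ)
    (x y : Site d) (η ξ ξ' : Env d) :
    sg β h a b' x y (mxR b t J η ξ) ≤ Real.exp (J * Bc β b) *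
      sg β h a b' x y (mxR b t J η ξ') := by
  classical
  rw [sg_eq, sg_eq, Finset.mul_sum]
  refine Finset.sum_le_sum fun s _ => ?_
  by_cases hs : pos s (b' - a) = y - x
  · rw [if_pos hs, if_pos hs]
    exact wgt_mxR β h hb x η ξ ξ' s
  · rw [if_neg hs, if_neg hs, mul_zero]

lemma measurable_mxR (b : ℝ) (t J : ℕ) (η : Env d) : Measurable fun ξ : Env d => mxR b t J η ξ := by
  rw [measurable_pi_iff]
  intro p
  unfold mxR
  by_cases hp : (t < p.1 ∧ p.1 ≤ t + J) ∧ |η p| ≤ b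
  · simp only [if_pos hp]
    exact (measurable_cl b).comp (measurable_pi_apply p)
  · simp only [if_neg hp]
    exact measurable_const

/-- The mean weight of a segment. -/
noncomputable def sm (ρ : Measure ℝ) (β b : ℝ) (h : Vec d) (t J a b' : ℕ) (x y : Site d)
    (η : Env d) : ℝ := ∫ ξ, sg β h a b' x y (mxR b t J η ξ) ∂(law d (rb ρ b))

lemma meas_sg (β b : ℝ) (h : Vec d) (t J a b' : ℕ) (x y : Site d) (η : Env d) :
    Measurable fun ξ : Env d => sg β h a b' x y (mxR b t J η ξ) :=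
  (measurable_sg β h a b' x y).comp (measurable_mxR b t J η)

lemma int_sg [IsProbabilityMeasure ρ] (hb : HB ρ b) (β : ℝ) (h : Vec d) (t J a b' : ℕ)
    (x y : Site d) (η : Env d) :
    Integrable (fun ξ : Env d => sg β h a b' x y (mxR b t J η ξ)) (law d (rb ρ b)) := by
  have := rb_prob hb
  refine Integrable.of_bound (C := Real.exp (J * Bc β b) * sg β h a b' x y (mxR b t J η η))
    (meas_sg β b h t J a b' x y η).aestronglyMeasurable (Filter.Eventually.of_forall fun ξ => ?_)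
  rw [Real.norm_eq_abs, abs_of_nonneg (sg_nonneg _ _ _ _ _ _ _)]
  exact sg_mxR_le β h hb.b0.le t J a b' x y η ξ η

lemma sm_le [IsProbabilityMeasure ρ] (hb : HB ρ b) (β : ℝ) (h : Vec d) (t J a b' : ℕ)
    (x y : Site d) (η ξ : Env d) :
    sm ρ β b h t J a b' x y η ≤ Real.exp (J * Bc β b) * sg β h a b' x y (mxR b t J η ξ) := by
  have := rb_prob hb
  have h1 := integral_mono (int_sg hb β h t J a b' x y η)
    (integrable_const (Real.exp (J * Bc β b) * sg β h a b' x y (mxR b t J η ξ)))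
    (fun ξ' => sg_mxR_le β h hb.b0.le t J a b' x y η ξ' ξ)
  simpa [sm] using h1

lemma le_sm [IsProbabilityMeasure ρ] (hb : HB ρ b) (β : ℝ) (h : Vec d) (t J a b' : ℕ)
    (x y : Site d) (η ξ : Env d) :
    sg β h a b' x y (mxR b t J η ξ) ≤ Real.exp (J * Bc β b) * sm ρ β b h t J a b' x y η := by
  have := rb_prob hb
  have h1 := integral_mono (integrable_const (sg β h a b' x y (mxR b t J η ξ)))
    ((int_sg hb β h t J a b' x y η).const_mul (Real.exp (J * Bc β b)))
    (fun ξ' => sg_mxR_le β h hb.b0.le t J a b' x y η ξ ξ')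
  rw [integral_const_mul] at h1
  simpa [sm] using h1

lemma sm_nonneg (ρ : Measure ℝ) (β b : ℝ) (h : Vec d) (t J a b' : ℕ)
    (x y : Site d) (η : Env d) : 0 ≤ sm ρ β b h t J a b' x y η :=
  integral_nonneg fun _ => sg_nonneg _ _ _ _ _ _ _

/-- The gain of a block. -/
noncomputable def ub (ρ : Measure ℝ) (β b : ℝ) (h : Vec d) (t J a b' : ℕ) (x y : Site d)
    (η ξ : Env d) : ℝ :=
  open Classical in
  if sm ρ β b h t J a b' x y η = 0 then 1
  else sg β h a b' x y (mxR b t J η ξ) / sm ρ β b h t J a b' x y η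

lemma B0 (hb : 0 ≤ b) (β : ℝ) (J : ℕ) : 0 ≤ (J : ℝ) * Bc β b := by
  unfold Bc
  positivity

lemma ub_lo [IsProbabilityMeasure ρ] (hb : HB ρ b) (β : ℝ) (h : Vec d) (t J a b' : ℕ)
    (x y : Site d) (η ξ : Env d) :
    Real.exp (-(J * Bc β b)) ≤ ub ρ β b h t J a b' x y η ξ := by
  unfold ub
  split_ifs with h0
  · rw [← Real.exp_zero]
    exact Real.exp_le_exp.2 (by linarith [B0 hb.b0.le β J])
  · have h1 := (sm_nonneg ρ β b h t J a b' x y η).lt_of_ne' h0
    rw [le_div_iff₀ h1, Real.exp_neg, inv_mul_le_iff₀ (Real.exp_pos _)]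
    exact sm_le hb β h t J a b' x y η ξ

lemma ub_hi [IsProbabilityMeasure ρ] (hb : HB ρ b) (β : ℝ) (h : Vec d) (t J a b' : ℕ)
    (x y : Site d) (η ξ : Env d) :
    ub ρ β b h t J a b' x y η ξ ≤ Real.exp (J * Bc β b) := by
  unfold ub
  split_ifs with h0
  · rw [← Real.exp_zero]
    exact Real.exp_le_exp.2 (B0 hb.b0.le β J)
  · have h1 := (sm_nonneg ρ β b h t J a b' x y η).lt_of_ne' h0
    rw [div_le_iff₀ h1]
    exact le_sm hb β h t J a b' x y η ξ

lemma meas_ub (ρ : Measure ℝ) (β b : ℝ) (h : Vec d) (t J a b' : ℕ)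
    (x y : Site d) (η : Env d) : Measurable fun ξ : Env d => ub ρ β b h t J a b' x y η ξ := by
  unfold ub
  split_ifs
  · exact measurable_const
  · exact (meas_sg β b h t J a b' x y η).div_const _

lemma int_ub [IsProbabilityMeasure ρ] (hb : HB ρ b) (β : ℝ) (h : Vec d) (t J a b' : ℕ)
    (x y : Site d) (η : Env d) :
    ∫ ξ, ub ρ β b h t J a b' x y η ξ ∂(law d (rb ρ b)) = 1 := by
  have := rb_prob hb
  unfold ub
  by_cases h0 : sm ρ β b h t J a b' x y η = 0
  · simp [h0]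
  · simp only [if_neg h0]
    rw [integral_div]
    exact div_self h0

lemma sm_mul_ub [IsProbabilityMeasure ρ] (hb : HB ρ b) (β : ℝ) (h : Vec d) (t J a b' : ℕ)
    (x y : Site d) (η ξ : Env d) :
    sm ρ β b h t J a b' x y η * ub ρ β b h t J a b' x y η ξ =
      sg β h a b' x y (mxR b t J η ξ) := by
  unfold ub
  split_ifs with h0
  · have h1 := le_sm hb β h t J a b' x y η ξ
    rw [h0, mul_zero] at h1
    rw [h0, zero_mul]
    exact (le_antisymm h1 (sg_nonneg _ _ _ _ _ _ _)).symm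
  · field_simp

/-! ### The times -/

section Times

variable {n q J : ℕ} {t : Fin q → ℕ} {r : Fin (q + 1) → ℕ}

lemma ordB_le (h : OrdB n J t r) (i : Fin q) : r i.castSucc ≤ r i.succ := by
  have := h.1 i
  omega

lemma ordB_mono (h : OrdB n J t r) : Monotone r :=
  Fin.monotone_iff_le_succ.2 fun i => ordB_le h i

lemma ordB_uniq (h : OrdB n J t r) {i j : Fin q} {m : ℕ} (h1 : r i.castSucc < m)
    (h2 : m ≤ r i.succ) (h3 : t j < m) (h4 : m ≤ t j + J) : j = i := by
  have hm := ordB_mono h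
  rcases lt_trichotomy j i with hj | hj | hj
  · exfalso
    have h5 : r j.succ ≤ r i.castSucc := hm (by
      rw [Fin.le_def, Fin.val_succ, Fin.val_castSucc]
      exact hj)
    have := (h.1 j).2
    omega
  · exact hj
  · exfalso
    have h5 : r i.succ ≤ r j.castSucc := hm (by
      rw [Fin.le_def, Fin.val_succ, Fin.val_castSucc]
      exact hj)
    have := (h.1 j).1
    omega

lemma mxB_seg (h : OrdB n J t r) (b : ℝ) (η : Env d) (ξ : Fin q → Env d) (i : Fin q)
    {p : ℕ × Site d} (h1 : r i.castSucc < p.1) (h2 : p.1 ≤ r i.succ) :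
    mxB b J t η ξ p = mxR b (t i) J η (ξ i) p := by
  by_cases hp : t i < p.1 ∧ p.1 ≤ t i + J
  · have hex : ∃ j, t j < p.1 ∧ p.1 ≤ t j + J := ⟨i, hp⟩
    by_cases hη : |η p| ≤ b
    · have h3 : (∃ j, t j < p.1 ∧ p.1 ≤ t j + J) ∧ |η p| ≤ b := ⟨hex, hη⟩
      unfold mxB mxR
      rw [dif_pos h3, if_pos ⟨hp, hη⟩]
      have h4 : h3.1.choose = i := by
        have h5 := h3.1.choose_spec
        exact ordB_uniq h h1 h2 h5.1 h5.2
      rw [h4]
    · unfold mxB mxR
      rw [dif_neg fun h' => hη h'.2, if_neg fun h' => hη h'.2]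
  · unfold mxB mxR
    rw [dif_neg, if_neg fun h' => hp h'.1]
    rintro ⟨⟨j, hj⟩, _⟩
    have h4 := ordB_uniq h h1 h2 hj.1 hj.2
    rw [h4] at hj
    exact hp hj

lemma mxB_out (b : ℝ) (η : Env d) (ξ : Fin q → Env d) {p : ℕ × Site d}
    (h1 : ∀ j, ¬ (t j < p.1 ∧ p.1 ≤ t j + J)) : mxB b J t η ξ p = η p := by
  unfold mxB
  rw [dif_neg]
  rintro ⟨⟨j, hj⟩, _⟩
  exact h1 j hj

lemma sgB_seg (hO : OrdB n J t r) (β : ℝ) (h : Vec d)
    (b : ℝ) (η : Env d) (ξ : Fin q → Env d) (i : Fin q) (x y : Site d) :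
    sg β h (r i.castSucc) (r i.succ) x y (mxB b J t η ξ) =
      sg β h (r i.castSucc) (r i.succ) x y (mxR b (t i) J η (ξ i)) := by
  unfold sg PP
  refine ZT_congr' β h (fun j h1 h2 z => ?_) _
  unfold sh
  exact mxB_seg hO b η ξ i (by simp only; omega) (by simp only; omega)

lemma PPB_head (hO : OrdB n J t r) (β : ℝ) (h : Vec d)
    (b : ℝ) (η : Env d) (ξ : Fin q → Env d) (x : Site d) :
    PP β h (mxB b J t η ξ) (r 0) x = PP β h η (r 0) x := by
  unfold PP
  refine ZT_congr' β h (fun j h1 h2 z => ?_) _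
  refine mxB_out b η ξ fun l => ?_
  have h3 := (hO.1 l).1
  have h4 : r 0 ≤ r l.castSucc := ordB_mono hO (Fin.zero_le _)
  simp only
  omega

lemma ZB_tail (hO : OrdB n J t r) (β : ℝ) (h : Vec d)
    (b : ℝ) (η : Env d) (ξ : Fin q → Env d) (x : Site d) (m : ℕ) :
    Z β h (sh (r (Fin.last q)) x (mxB b J t η ξ)) m = Z β h (sh (r (Fin.last q)) x η) m := by
  unfold Z
  refine ZT_congr' β h (fun j h1 h2 z => ?_) _
  unfold sh
  refine mxB_out b η ξ fun l => ?_
  have h3 := (hO.1 l).2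
  have h4 : r l.succ ≤ r (Fin.last q) := ordB_mono hO (Fin.le_last _)
  simp only
  omega

end Times

/-! ### The model -/

/-- The mass of a class with averaged blocks. -/
noncomputable def wB (ρ : Measure ℝ) (β b : ℝ) (h : Vec d) (n : ℕ) {q : ℕ} (J : ℕ)
    (t : Fin q → ℕ) (r : Fin (q + 1) → ℕ) (η : Env d) (s : Sp d n q) : ℝ :=
  PP β h η (r 0) (s 0) * (∏ i : Fin q,
    sm ρ β b h (t i) J (r i.castSucc) (r i.succ) (s i.castSucc) (s i.succ) η) *
      Z β h (sh (r (Fin.last q)) (s (Fin.last q)) η) (n - r (Fin.last q))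

lemma wB_nonneg (hd : 0 < d) (ρ : Measure ℝ) (β b : ℝ) (h : Vec d) (n : ℕ) {q : ℕ} (J : ℕ)
    (t : Fin q → ℕ) (r : Fin (q + 1) → ℕ) (η : Env d) (s : Sp d n q) :
    0 ≤ wB ρ β b h n J t r η s := by
  unfold wB
  have h1 := PP_nonneg β h η (r 0) (s 0)
  have h2 : 0 ≤ ∏ i : Fin q,
      sm ρ β b h (t i) J (r i.castSucc) (r i.succ) (s i.castSucc) (s i.succ) η :=
    Finset.prod_nonneg fun i _ => sm_nonneg _ _ _ _ _ _ _ _ _ _ _
  have h3 := (Z_pos hd β h (sh (r (Fin.last q)) (s (Fin.last q)) η) (n - r (Fin.last q))).le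
  positivity

lemma wB_mul [IsProbabilityMeasure ρ] (hb : HB ρ b) (β : ℝ) (h : Vec d) {n q J : ℕ}
    {t : Fin q → ℕ} {r : Fin (q + 1) → ℕ} (hO : OrdB n J t r) (η : Env d) (ξ : Fin q → Env d)
    (s : Sp d n q) :
    wB ρ β b h n J t r η s * ∏ i : Fin q,
      ub ρ β b h (t i) J (r i.castSucc) (r i.succ) (s i.castSucc) (s i.succ) η (ξ i) =
      pre β h r s (mxB b J t η ξ) *
        Z β h (sh (r (Fin.last q)) (s (Fin.last q)) (mxB b J t η ξ)) (n - r (Fin.last q)) := by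
  unfold wB pre
  rw [ZB_tail hO, PPB_head hO]
  have h1 : (∏ i : Fin q, sg β h (r i.castSucc) (r i.succ) (s i.castSucc) (s i.succ)
      (mxB b J t η ξ)) =
      (∏ i : Fin q, sm ρ β b h (t i) J (r i.castSucc) (r i.succ) (s i.castSucc) (s i.succ) η) *
        ∏ i : Fin q,
          ub ρ β b h (t i) J (r i.castSucc) (r i.succ) (s i.castSucc) (s i.succ) η (ξ i) := by
    rw [← Finset.prod_mul_distrib]
    refine Finset.prod_congr rfl fun i _ => ?_
    rw [sgB_seg hO]
    exact (sm_mul_ub hb β h (t i) J _ _ _ _ η (ξ i)).symm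
  rw [h1]
  ring

/-- Leaf B. -/
theorem eqB41 (hd : 0 < d) [IsProbabilityMeasure ρ] (hb : HB ρ b) : EqB d ρ β b := by
  intro h n q J t r hJ hO η
  have hprob := rb_prob hb
  set D : ℝ := ∑ s : Sp d n q, wB ρ β b h n J t r η s with hD
  -- the total with the gains
  have htot : ∀ ξ : Fin q → Env d, ∑ s : Sp d n q, wB ρ β b h n J t r η s * ∏ i : Fin q,
      ub ρ β b h (t i) J (r i.castSucc) (r i.succ) (s i.castSucc) (s i.succ) η (ξ i) =
      Z β h (mxB b J t η ξ) n := by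
    intro ξ
    rw [Finset.sum_congr rfl fun s _ => wB_mul hb β h hO η ξ s]
    exact tot_sum β h (mxB b J t η ξ) r (ordB_le hO) hO.2
  have hDpos : 0 < D := by
    have h1 := htot fun _ => η
    have h2 := Z_pos hd β h (mxB b J t η fun _ => η) n
    by_contra hneg
    have h3 : D = 0 := le_antisymm (not_lt.1 hneg)
      (Finset.sum_nonneg fun s _ => wB_nonneg hd ρ β b h n J t r η s)
    have h4 : ∀ s : Sp d n q, wB ρ β b h n J t r η s = 0 := by
      intro s
      exact (Finset.sum_eq_zero_iff_of_nonneg fun s _ => wB_nonneg hd ρ β b h n J t r η s).1 h3 s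
        (Finset.mem_univ s)
    rw [← h1] at h2
    simp only [h4, zero_mul, Finset.sum_const_zero, lt_irrefl] at h2
  have hdT : ∀ ξ : Fin q → Env d, dT (fun s => wB ρ β b h n J t r η s / D)
      (fun i s ξ => ub ρ β b h (t i) J (r i.castSucc) (r i.succ) (s i.castSucc) (s i.succ) η ξ) ξ =
      Z β h (mxB b J t η ξ) n / D := by
    intro ξ
    unfold dT wT
    rw [← htot ξ, Finset.sum_div]
    refine Finset.sum_congr rfl fun s _ => ?_
    ring
  refine ⟨fun s => wB ρ β b h n J t r η s / D,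
    fun i s ξ => ub ρ β b h (t i) J (r i.castSucc) (r i.succ) (s i.castSucc) (s i.succ) η ξ,
    Real.log D, ⟨?_, ?_, ?_, ?_, ?_, ?_⟩, ?_, ?_⟩
  · intro s
    exact div_nonneg (wB_nonneg hd ρ β b h n J t r η s) hDpos.le
  · rw [← Finset.sum_div]
    exact div_self hDpos.ne'
  · intro i s
    exact meas_ub ρ β b h (t i) J _ _ _ _ η
  · intro i s ξ
    exact ub_lo hb β h (t i) J _ _ _ _ η ξ
  · intro i s ξ
    exact ub_hi hb β h (t i) J _ _ _ _ η ξ
  · intro i s
    exact int_ub hb β h (t i) J _ _ _ _ η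
  · intro ξ s
    unfold prT
    rw [hdT ξ, msp_eq]
    unfold wT
    have h1 := wB_mul hb β h hO η ξ s
    have h2 := (Z_pos hd β h (mxB b J t η ξ) n).ne'
    have h3 : wB ρ β b h n J t r η s / D * ∏ i : Fin q,
        ub ρ β b h (t i) J (r i.castSucc) (r i.succ) (s i.castSucc) (s i.succ) η (ξ i) =
        (pre β h r s (mxB b J t η ξ) *
          Z β h (sh (r (Fin.last q)) (s (Fin.last q)) (mxB b J t η ξ)) (n - r (Fin.last q))) / D := by
      rw [← h1]
      ring
    rw [h3]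
    field_simp
  · intro ξ
    rw [hdT ξ, Real.exp_neg, Real.exp_log hDpos]
    ring

end Pool.Agent.W_7d29a1_AC.EqB41
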