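import Pool.Agent.W_7d29a1_AC.Blk6
import Pool.Agent.W_7d29a1_AC.DefsAC8

/-!
Theorem AC, leaf B: the separators and the blocks form a selection model.
-/

namespace Pool.Agent.W_7d29a1_AC

open MeasureTheory ProbabilityTheory Filter Topology Pool.Agent.W_MP_7d29a1_pr
  Pool.Agent.W_7d29a1_h46 Pool.Agent.W_7d29a1_h46u Pool.Agent.W_7d29a1_D2.B35
  Pool.Agent.W_7d29a1_Q29 Pool.Agent.W_7d29a1_NV Pool.Agent.W_7d29a1_NV.Eq41

variable {d : ℕ} {ρ : Measure ℝ} {β b : ℝ}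

/-- The rows of the blocks. -/
def rB (J : ℕ) {q : ℕ} (t : Fin q → ℕ) (i : Fin q) : Finset ℕ := Finset.Ioc (t i) (t i + J)

lemma rB_card (J : ℕ) {q : ℕ} (t : Fin q → ℕ) (i : Fin q) : (rB J t i).card = J := by
  unfold rB
  rw [Nat.card_Ioc]
  omega

section Times

variable {n J q : ℕ} {t : Fin q → ℕ} {r : Fin (q + 1) → ℕ}

lemma ordB_ordS (hO : OrdB n J t r) : OrdS n (rB J t) r := by
  refine ⟨Fin.monotone_iff_le_succ.2 fun i => ?_, fun i l hl => ?_, hO.2⟩
  · have := hO.1 i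
    omega
  · have h1 := hO.1 i
    have h2 := Finset.mem_Ioc.1 hl
    omega

lemma ordB_uniq (hO : OrdB n J t r) {i j : Fin q} {l : ℕ} (hi : t i < l ∧ l ≤ t i + J)
    (hj : t j < l ∧ l ≤ t j + J) : j = i := by
  have h1 := hO.1 i
  exact ordS_uniq (ordB_ordS hO) (i := i) (j := j) (t := l) (Finset.mem_Ioc.2 hj) (by omega)
    (by omega)

lemma mxB_eq (hO : OrdB n J t r) (b : ℝ) (η : Env d) (ξ : Fin q → Env d) :
    mxB b J t η ξ = mxSJ b (rB J t) η ξ := by
  funext p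
  unfold mxB mxSJ
  by_cases hp : (∃ i, t i < p.1 ∧ p.1 ≤ t i + J) ∧ |η p| ≤ b
  · have hp' : (∃ i, p.1 ∈ rB J t i) ∧ |η p| ≤ b := by
      obtain ⟨⟨i, hi⟩, h2⟩ := hp
      exact ⟨⟨i, Finset.mem_Ioc.2 hi⟩, h2⟩
    rw [dif_pos hp, dif_pos hp']
    have h3 := Finset.mem_Ioc.1 hp'.1.choose_spec
    rw [ordB_uniq hO h3 hp.1.choose_spec]
  · have hp' : ¬ ((∃ i, p.1 ∈ rB J t i) ∧ |η p| ≤ b) := by
      rintro ⟨⟨i, hi⟩, h2⟩
      exact hp ⟨⟨i, Finset.mem_Ioc.1 hi⟩, h2⟩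
    rw [dif_neg hp, dif_neg hp']

lemma mxR_eq (b : ℝ) (t J : ℕ) (η ξ : Env d) :
    mxR b t J η ξ = mxS b (Finset.Ioc t (t + J)) η ξ := by
  funext p
  unfold mxR mxS
  by_cases hp : (t < p.1 ∧ p.1 ≤ t + J) ∧ |η p| ≤ b
  · rw [if_pos hp, if_pos ⟨Finset.mem_Ioc.2 hp.1, hp.2⟩]
  · rw [if_neg hp, if_neg fun h' => hp ⟨Finset.mem_Ioc.1 h'.1, h'.2⟩]

/-- One block more. -/
lemma mxR_mxB (hO : OrdB n J t r) (hb : 0 ≤ b) (i : Fin q) (η ζ : Env d) (ξ : Fin q → Env d) :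
    mxR b (t i) J (mxB b J t η ξ) ζ = mxB b J t η (Function.update ξ i ζ) := by
  classical
  funext p
  by_cases hp : t i < p.1 ∧ p.1 ≤ t i + J
  · have hex : ∃ j, t j < p.1 ∧ p.1 ≤ t j + J := ⟨i, hp⟩
    by_cases hη : |η p| ≤ b
    · have h1 : ∀ ξ' : Fin q → Env d, mxB b J t η ξ' p = cl b (ξ' i p) := by
        intro ξ'
        have h3 : (∃ j, t j < p.1 ∧ p.1 ≤ t j + J) ∧ |η p| ≤ b := ⟨hex, hη⟩
        unfold mxB
        rw [dif_pos h3, ordB_uniq hO hp h3.1.choose_spec]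
      have h2 : |mxB b J t η ξ p| ≤ b := by
        rw [h1]
        exact cl_abs hb _
      rw [h1, Function.update_self]
      unfold mxR
      rw [if_pos ⟨hp, h2⟩]
    · have h1 : ∀ ξ' : Fin q → Env d, mxB b J t η ξ' p = η p := by
        intro ξ'
        unfold mxB
        rw [dif_neg fun h' => hη h'.2]
      rw [h1]
      unfold mxR
      rw [h1, if_neg fun h' => hη h'.2]
  · have h0 : mxR b (t i) J (mxB b J t η ξ) ζ p = mxB b J t η ξ p := by
      unfold mxR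
      rw [if_neg fun h' => hp h'.1]
    rw [h0]
    unfold mxB
    by_cases h3 : (∃ j, t j < p.1 ∧ p.1 ≤ t j + J) ∧ |η p| ≤ b
    · rw [dif_pos h3, dif_pos h3]
      have h4 : h3.1.choose ≠ i := by
        intro h5
        have h6 := h3.1.choose_spec
        rw [h5] at h6
        exact hp h6
      rw [Function.update_of_ne h4]
    · rw [dif_neg h3, dif_neg h3]

end Times

/-- Leaf B, the law. -/
theorem mixB6 [IsProbabilityMeasure ρ] (hb : HB ρ b) {n J q : ℕ} {t : Fin q → ℕ}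
    {r : Fin (q + 1) → ℕ} (hO : OrdB n J t r) :
    MeasurePreserving (fun w : Env d × (Fin q → Env d) => mxB b J t w.1 w.2)
      ((law d ρ).prod (Measure.pi fun _ => law d (rb ρ b))) (law d ρ) := by
  have e : (fun w : Env d × (Fin q → Env d) => mxB b J t w.1 w.2) =
      fun w : Env d × (Fin q → Env d) => mxSJ b (rB J t) w.1 w.2 := by
    funext w
    exact mxB_eq hO b w.1 w.2
  rw [e]
  exact mixS6 hb q (rB J t)

/-- The law of the environment with one resampled block. -/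
theorem mixR6 [IsProbabilityMeasure ρ] (hb : HB ρ b) (t J : ℕ) :
    MeasurePreserving (fun w : Env d × Env d => mxR b t J w.1 w.2)
      ((law d ρ).prod (law d (rb ρ b))) (law d ρ) := by
  classical
  have := Eq41.rb_prob hb
  have h := gen96 (ι := ℕ × Site d) ρ (rb ρ b)
    (ψ := fun p q => if (t < p.1 ∧ p.1 ≤ t + J) ∧ |q.1| ≤ b then cl b q.2 else q.1)
    (fun p => by
      by_cases hp : t < p.1 ∧ p.1 ≤ t + J
      · simp only [hp, true_and]
        exact one96_meas b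
      · simp only [hp, false_and, if_false]
        exact measurable_fst)
    (fun p => by
      by_cases hp : t < p.1 ∧ p.1 ≤ t + J
      · simp only [hp, true_and]
        exact one96 hb
      · simp only [hp, false_and, if_false]
        exact measurePreserving_fst.map_eq)
  have e : (fun w : Env d × Env d => mxR b t J w.1 w.2) =
      fun (w : Env d × Env d) (p : ℕ × Site d) =>
        if (t < p.1 ∧ p.1 ≤ t + J) ∧ |w.1 p| ≤ b then cl b (w.2 p) else w.1 p := by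
    funext w p
    unfold mxR
    by_cases hp : (t < p.1 ∧ p.1 ≤ t + J) ∧ |w.1 p| ≤ b
    · rw [if_pos hp]
    · rw [if_neg hp]
  rw [e]
  exact h

lemma mxR_meas {α : Type*} [MeasurableSpace α] (b : ℝ) (t J : ℕ) {f g : α → Env d}
    (hf : Measurable f) (hg : Measurable g) : Measurable fun w => mxR b t J (f w) (g w) := by
  simp only [mxR_eq]
  exact mxS_meas b _ hf hg

lemma mxB_meas {α : Type*} [MeasurableSpace α] (b : ℝ) {n J q : ℕ} {t : Fin q → ℕ}
    {r : Fin (q + 1) → ℕ} (hO : OrdB n J t r) {f : α → Env d} {g : α → Fin q → Env d}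
    (hf : Measurable f) (hg : Measurable g) : Measurable fun w => mxB b J t (f w) (g w) := by
  simp only [mxB_eq hO]
  exact mxSJ_meas b _ hf hg

/-- **Leaf B.** -/
theorem eqB6 (hd : 0 < d) [IsProbabilityMeasure ρ] (hβ : 0 < β) (hb : HB ρ b) :
    EqB d ρ β b := by
  intro h n q J t r _ hO η
  obtain ⟨h1, h2⟩ := eqS6 hd hβ hb h n q J (rB J t) r (ordB_ordS hO)
    (fun i => (rB_card J t i).le) η
  refine ⟨QspS ρ β b h n (rB J t) r η, uspS ρ β b h n (rB J t) r η,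
    Real.log (Z β h (mxSJ b (rB J t) η fun _ _ => c0 ρ β b) n), ?_, fun ξ s => ?_, fun ξ => ?_⟩
  · rw [mul_comm (J : ℝ)]
    exact h1
  · rw [(h2 ξ).1 s, mxB_eq hO]
  · have h3 : 0 < Z β h (mxSJ b (rB J t) η fun _ _ => c0 ρ β b) n := Z_pos hd β h _ n
    rw [dT_eqS (ordB_ordS hO) hb.b0.le ρ β h η ξ, mxB_eq hO, Real.exp_neg, Real.exp_log h3,
      div_eq_inv_mul]

end Pool.Agent.W_7d29a1_AC
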