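import Pool.Agent.W_7d29a1_NV.IncP92
import Pool.Agent.W_7d29a1_NV.Inc27
import Pool.Agent.W_7d29a1_NV.Lim34
import Pool.Agent.W_7d29a1_AC.DefsAC8

/-!
Theorem AC, leaf `FlaC`: a cluster of the law of the free energy, separated from the rest by a ring
of small mass, is flat: after `m` more rows it has moved by `lam m` up to `ε m`.
-/

set_option autoImplicit false

namespace Pool.Agent.W_7d29a1_AC.Fl27

open MeasureTheory ProbabilityTheory Filter Topology Pool.Agent.W_MP_7d29a1_pr
  Pool.Agent.W_7d29a1_h46 Pool.Agent.W_7d29a1_h46u Pool.Agent.W_7d29a1_D2.B35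
  Pool.Agent.W_7d29a1_Q29 Pool.Agent.W_7d29a1_Q29.NT66 Pool.Agent.W_7d29a1_NV

variable {d : ℕ} {ρ : Measure ℝ} [IsProbabilityMeasure ρ]

/-- The constant of the increments. -/
noncomputable def Ci (ρ : Measure ℝ) (β : ℝ) (h : Vec d) : ℝ :=
  Real.sqrt (2 * Real.log (Phi h) ^ 2 +
    2 * ((∫ r, Real.exp (β * r) ∂ρ) + ∫ r, Real.exp (-β * r) ∂ρ)) + 2 * Cp ρ β h

omit [IsProbabilityMeasure ρ] in
lemma Ci_nonneg (β : ℝ) (h : Vec d) : 0 ≤ Ci ρ β h :=
  add_nonneg (Real.sqrt_nonneg _) (mul_nonneg two_pos.le (Cp_nonneg (ρ := ρ) β h))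

/-- The increments of the mean. -/
lemma incA27 (hd : 0 < d) (hρ : EM ρ) (β : ℝ) (h : Vec d) (n m : ℕ) :
    A ρ β h (n + m) - A ρ β h n ≤ Real.sqrt (2 * Real.log (Phi h) ^ 2 +
      2 * ((∫ r, Real.exp (β * r) ∂ρ) + ∫ r, Real.exp (-β * r) ∂ρ)) * m := by
  obtain ⟨C₂, hC₂⟩ : ∃ C₂ : ℝ, C₂ = 2 * Real.log (Phi h) ^ 2 +
    2 * ((∫ r, Real.exp (β * r) ∂ρ) + ∫ r, Real.exp (-β * r) ∂ρ) := ⟨_, rfl⟩
  rw [← hC₂]
  have hX : ∀ k, Integrable (fun η => X β h η k) (law d ρ) := fun k => (concU hd hρ β h k).1
  have h3 := Inc27.steps27 (ρ := ρ) hd hρ β h n m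
  rw [← hC₂] at h3
  have hi : Integrable (fun η : Env d => X β h η (n + m) - X β h η n) (law d ρ) :=
    (hX (n + m)).sub (hX n)
  have hi2 : Integrable (fun η : Env d => (X β h η (n + m) - X β h η n) ^ 2) (law d ρ) := by
    have i1 := N85.Va_int (ρ := ρ) hd hρ β h (n + m)
    have i0 := N85.Va_int (ρ := ρ) hd hρ β h n
    refine (((i1.add i0).const_mul 3).add
      (integrable_const (3 * (A ρ β h (n + m) - A ρ β h n) ^ 2))).mono'
      (((measurable_X β h (n + m)).sub (measurable_X β h n)).pow_const 2).aestronglyMeasurable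
      (Eventually.of_forall fun η => ?_)
    rw [Real.norm_eq_abs, abs_of_nonneg (sq_nonneg _)]
    simp only [Pi.add_apply]
    nlinarith [sq_nonneg ((X β h η (n + m) - A ρ β h (n + m)) + (X β h η n - A ρ β h n)),
      sq_nonneg ((X β h η (n + m) - A ρ β h (n + m)) - (A ρ β h (n + m) - A ρ β h n)),
      sq_nonneg ((X β h η n - A ρ β h n) + (A ρ β h (n + m) - A ρ β h n))]
  have h4 := I34.abs_le_sqrt hi hi2
  have h5 : A ρ β h (n + m) - A ρ β h n ≤ ∫ η, |X β h η (n + m) - X β h η n| ∂(law d ρ) := by
    have h6 : ∫ η, (X β h η (n + m) - X β h η n) ∂(law d ρ) =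
        A ρ β h (n + m) - A ρ β h n := integral_sub (hX (n + m)) (hX n)
    rw [← h6]
    exact integral_mono hi hi.abs fun η => le_abs_self _
  have h6 : Real.sqrt (∫ η, (X β h η (n + m) - X β h η n) ^ 2 ∂(law d ρ)) ≤
      Real.sqrt C₂ * m := by
    refine (Real.sqrt_le_sqrt h3).trans (le_of_eq ?_)
    have hC0 : 0 ≤ C₂ := by
      rw [hC₂]
      have h7 : 0 ≤ ∫ r, Real.exp (β * r) ∂ρ := integral_nonneg fun _ => (Real.exp_pos _).le
      have h8 : 0 ≤ ∫ r, Real.exp (-β * r) ∂ρ := integral_nonneg fun _ => (Real.exp_pos _).le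
      positivity
    rw [Real.sqrt_mul hC0, Real.sqrt_sq (Nat.cast_nonneg m)]
  linarith

/-- The free energy and the free energy seen from the end of a path are close. -/
lemma clo27 (hd : 0 < d) (hρ : EM ρ) (β : ℝ) (h : Vec d) {m : ℕ} (q : Fin m → Step d) (n : ℕ) :
    Integrable (fun η : Env d => |X β h η (m + n) - X β h (sh m (pos q m) η) n|) (law d ρ) ∧
      ∫ η, |X β h η (m + n) - X β h (sh m (pos q m) η) n| ∂(law d ρ) ≤ Ci ρ β h * m := by
  obtain ⟨hc1, hc2⟩ := cost92 (ρ := ρ) hρ β h q
  have hX : ∀ k, Integrable (fun η => X β h η k) (law d ρ) := fun k => (concU hd hρ β h k).1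
  have hS : Integrable (fun η : Env d => X β h (sh m (pos q m) η) n) (law d ρ) :=
    (mp_sh m (pos q m)).integrable_comp_of_integrable (hX n)
  have eS : ∫ η : Env d, X β h (sh m (pos q m) η) n ∂(law d ρ) = A ρ β h n :=
    integral_sh m (pos q m) (measurable_X β h n)
  have hD : Integrable (fun η : Env d => X β h η (m + n) - X β h (sh m (pos q m) η) n)
      (law d ρ) := (hX (m + n)).sub hS
  refine ⟨hD.abs, ?_⟩
  have hpt : ∀ η : Env d, |X β h η (m + n) - X β h (sh m (pos q m) η) n| ≤
      (X β h η (m + n) - X β h (sh m (pos q m) η) n) + 2 * |Real.log (wgt β h η q)| := by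
    intro η
    have h1 := I34.one_walk hd β h η q n
    have h2 := neg_abs_le (Real.log (wgt β h η q))
    have h3 := abs_nonneg (Real.log (wgt β h η q))
    rw [abs_le]
    constructor <;> linarith
  have h1 := integral_mono hD.abs (hD.add (hc1.const_mul 2)) hpt
  have e1 : ∫ η : Env d, ((X β h η (m + n) - X β h (sh m (pos q m) η) n) +
      2 * |Real.log (wgt β h η q)|) ∂(law d ρ) =
      (A ρ β h (m + n) - A ρ β h n) + 2 * ∫ η, |Real.log (wgt β h η q)| ∂(law d ρ) := by
    rw [integral_add hD (hc1.const_mul 2), integral_sub (hX (m + n)) hS, eS, integral_const_mul]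
    rfl
  have h2 : ∫ η, |X β h η (m + n) - X β h (sh m (pos q m) η) n| ∂(law d ρ) ≤
      (A ρ β h (m + n) - A ρ β h n) + 2 * ∫ η, |Real.log (wgt β h η q)| ∂(law d ρ) := by
    rw [← e1]
    exact h1
  have h3 := incA27 (ρ := ρ) hd hρ β h n m
  rw [add_comm n m] at h3
  unfold Ci
  linarith

/-- Markov's inequality for the closeness, at a shifted origin. -/
lemma cloM27 (hd : 0 < d) (hρ : EM ρ) (β : ℝ) (h : Vec d) {m : ℕ} (q : Fin m → Step d) (n : ℕ)
    (t : ℕ) (z : Site d) {K : ℝ} (hK : 0 < K) :
    (law d ρ).real {η | K ≤ |X β h (sh t z η) (m + n) -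
      X β h (sh m (pos q m) (sh t z η)) n|} ≤ Ci ρ β h * m / K := by
  obtain ⟨h1, h2⟩ := clo27 (ρ := ρ) hd hρ β h q n
  have h3 := mul_meas_ge_le_integral_of_nonneg (μ := law d ρ)
    (Eventually.of_forall fun η : Env d => abs_nonneg
      (X β h η (m + n) - X β h (sh m (pos q m) η) n)) h1 K
  have hms : MeasurableSet {η : Env d | K ≤ |X β h η (m + n) - X β h (sh m (pos q m) η) n|} :=
    measurableSet_le measurable_const ((measurable_X β h (m + n)).sub
      ((measurable_X β h n).comp (measurable_sh m (pos q m)))).abs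
  have h4 : (law d ρ).real {η | K ≤ |X β h (sh t z η) (m + n) -
      X β h (sh m (pos q m) (sh t z η)) n|} =
      (law d ρ).real {η : Env d | K ≤ |X β h η (m + n) - X β h (sh m (pos q m) η) n|} := by
    unfold Measure.real
    rw [← (mp_sh (ρ := ρ) t z).measure_preimage hms.nullMeasurableSet]
    rfl
  rw [h4, le_div_iff₀ hK, mul_comm]
  exact h3.trans h2

/-- Upper bound by the maximum over the paths. -/
lemma maxP27 (hd : 0 < d) (β : ℝ) (h : Vec d) (η : Env d) (m l : ℕ) {z : ℝ}
    (hz : ∀ q : Fin m → Step d, X β h (sh m (pos q m) η) l ≤ z) :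
    X β h η (m + l) ≤ X β h η m + z := by
  have h1 : Z β h η (m + l) ≤ Z β h η m * Real.exp z := by
    rw [Z_add, Z_eq β h η m, Finset.sum_mul]
    refine Finset.sum_le_sum fun q _ => mul_le_mul_of_nonneg_left ?_ (wgt_pos _ _ _ _).le
    rw [← Real.log_le_iff_le_exp (Z_pos hd _ _ _ _)]
    exact hz q
  have h2 := Real.log_le_log (Z_pos hd β h η (m + l)) h1
  rwa [Real.log_mul (Z_pos hd β h η m).ne' (Real.exp_pos z).ne', Real.log_exp] at h2

/-- The maximum over the end points of the paths, in a window. -/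
theorem up27 (hd : 0 < d) (hρ : EM ρ) (β : ℝ) (h : Vec d) {m s : ℕ} (l : ℕ) (hm : d * s ≤ m)
    {c : ℝ} (hc : 2 * Cp ρ β h * (d * s : ℕ) < c) (a : ℝ) {R M : ℝ} (hR : 0 ≤ R) (hM : 0 < M) :
    ((s : ℝ) + 1) ^ d * (law d ρ).real {η : Env d | ∃ q : Fin m → Step d,
      a + R + c < X β h (sh m (pos q m) η) l ∧ X β h (sh m (pos q m) η) l ≤ a + M / 2} ≤
      2 * ((boxF d (m + s)).card * ring ρ β h (d * s + l) a R M +
        Fintype.card (Fin m → Step d) * (((s : ℝ) + 1) ^ d *
          (Ci ρ β h * (d * s : ℕ) / (M / 2)))) := by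
  classical
  set S : Set (ℕ × Site d) := (Pa d m)ᶜ with hS
  set E : Site d → Set (Env d) := fun x => {η | R < |X β h (sh (m - d * s) x η) (d * s + l) - a| ∧
    |X β h (sh (m - d * s) x η) (d * s + l) - a| ≤ M} with hE
  set Fr : (Fin m → Step d) → (Fin d → Fin (s + 1)) → Set (Env d) := fun q b =>
    {η | M / 2 ≤ |X β h (sh (m - d * s) (pos q m - vA s b) η) (d * s + l) -
      X β h (sh (d * s) (pos (qA s b) (d * s)) (sh (m - d * s) (pos q m - vA s b) η)) l|} with hFr
  have hXm : ∀ (t : ℕ) (x : Site d) (k : ℕ), Measurable fun η : Env d => X β h (sh t x η) k :=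
    fun t x k => (measurable_X β h _).comp (measurable_sh _ _)
  have hEm : ∀ x, MeasurableSet (E x) := fun x =>
    (measurableSet_lt measurable_const ((hXm _ _ _).sub_const a).abs).inter
      (measurableSet_le ((hXm _ _ _).sub_const a).abs measurable_const)
  have hFrm : ∀ q b, MeasurableSet (Fr q b) := fun q b =>
    measurableSet_le measurable_const ((hXm _ _ _).sub
      ((measurable_X β h _).comp ((measurable_sh _ _).comp (measurable_sh _ _)))).abs
  have hEr : ∀ x, (law d ρ).real (E x) = ring ρ β h (d * s + l) a R M := by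
    intro x
    have hms : MeasurableSet {η : Env d | R < |X β h η (d * s + l) - a| ∧
        |X β h η (d * s + l) - a| ≤ M} :=
      (measurableSet_lt measurable_const ((measurable_X β h _).sub_const a).abs).inter
        (measurableSet_le ((measurable_X β h _).sub_const a).abs measurable_const)
    unfold ring Measure.real
    rw [← (mp_sh (ρ := ρ) (m - d * s) x).measure_preimage hms.nullMeasurableSet]
    rfl
  have hFrr : ∀ q b, (law d ρ).real (Fr q b) ≤ Ci ρ β h * (d * s : ℕ) / (M / 2) := fun q b =>
    cloM27 (ρ := ρ) hd hρ β h (qA s b) l (m - d * s) (pos q m - vA s b) (half_pos hM)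
  set F₁ : Env d → ℝ := fun η => ∑ x ∈ boxF d (m + s), (E x).indicator (fun _ => (1 : ℝ)) η
    with hF₁
  set F₂ : Env d → ℝ := fun η => ∑ q : Fin m → Step d, ∑ b : Fin d → Fin (s + 1),
    (Fr q b).indicator (fun _ => (1 : ℝ)) η with hF₂
  set F : Env d → ℝ := fun η => F₁ η + F₂ η with hF
  have hF1m : Measurable F₁ := Finset.measurable_sum _ fun x _ =>
    measurable_const.indicator (hEm x)
  have hF2m : Measurable F₂ := Finset.measurable_sum _ fun q _ =>
    Finset.measurable_sum _ fun b _ => measurable_const.indicator (hFrm q b)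
  have hFm : Measurable F := hF1m.add hF2m
  have hF10 : ∀ η, 0 ≤ F₁ η := fun η => Finset.sum_nonneg fun x _ =>
    Set.indicator_nonneg (fun _ _ => zero_le_one) _
  have hF20 : ∀ η, 0 ≤ F₂ η := fun η => Finset.sum_nonneg fun q _ => Finset.sum_nonneg fun b _ =>
    Set.indicator_nonneg (fun _ _ => zero_le_one) _
  have hF0 : ∀ η, 0 ≤ F η := fun η => add_nonneg (hF10 η) (hF20 η)
  have hFb : ∀ η, |F η| ≤ ((boxF d (m + s)).card : ℝ) +
      ∑ _q : Fin m → Step d, ∑ _b : Fin d → Fin (s + 1), (1 : ℝ) := by
    intro η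
    rw [abs_of_nonneg (hF0 η)]
    refine add_le_add ?_ ?_
    · have h1 : F₁ η ≤ ∑ _x ∈ boxF d (m + s), (1 : ℝ) := Finset.sum_le_sum fun x _ =>
        Set.indicator_le' (fun _ _ => le_rfl) (fun _ _ => zero_le_one) _
      simpa using h1
    · exact Finset.sum_le_sum fun q _ => Finset.sum_le_sum fun b _ =>
        Set.indicator_le' (fun _ _ => le_rfl) (fun _ _ => zero_le_one) _
  have hFi : Integrable F (law d ρ) := Integrable.mono' (integrable_const _)
    hFm.aestronglyMeasurable (Filter.Eventually.of_forall hFb)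
  have hF1i : Integrable F₁ (law d ρ) :=
    integrable_finsetSum _ fun x _ => (integrable_const (1 : ℝ)).indicator (hEm x)
  have hF2i : Integrable F₂ (law d ρ) := integrable_finsetSum _ fun q _ =>
    integrable_finsetSum _ fun b _ => (integrable_const (1 : ℝ)).indicator (hFrm q b)
  have hFint : ∫ η, F η ∂(law d ρ) ≤ (boxF d (m + s)).card * ring ρ β h (d * s + l) a R M +
      Fintype.card (Fin m → Step d) * (((s : ℝ) + 1) ^ d *
        (Ci ρ β h * (d * s : ℕ) / (M / 2))) := by
    rw [hF, integral_add hF1i hF2i]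
    refine add_le_add (le_of_eq ?_) ?_
    · simp only [hF₁]
      rw [integral_finsetSum _ fun x _ => (integrable_const (1 : ℝ)).indicator (hEm x)]
      have h1 : ∀ x, ∫ η, (E x).indicator (fun _ => (1 : ℝ)) η ∂(law d ρ) =
          ring ρ β h (d * s + l) a R M := by
        intro x
        rw [integral_indicator_const _ (hEm x), hEr x, smul_eq_mul, mul_one]
      rw [Finset.sum_congr rfl fun x _ => h1 x, Finset.sum_const, nsmul_eq_mul]
    · simp only [hF₂]
      rw [integral_finsetSum _ fun q _ => integrable_finsetSum _ fun b _ =>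
        (integrable_const (1 : ℝ)).indicator (hFrm q b)]
      have h1 : ∀ q, ∫ η, ∑ b : Fin d → Fin (s + 1),
          (Fr q b).indicator (fun _ => (1 : ℝ)) η ∂(law d ρ) ≤
          ((s : ℝ) + 1) ^ d * (Ci ρ β h * (d * s : ℕ) / (M / 2)) := by
        intro q
        rw [integral_finsetSum _ fun b _ => (integrable_const (1 : ℝ)).indicator (hFrm q b)]
        have h2 : ∀ b : Fin d → Fin (s + 1), ∫ η,
            (Fr q b).indicator (fun _ => (1 : ℝ)) η ∂(law d ρ) ≤
            Ci ρ β h * (d * s : ℕ) / (M / 2) := by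
          intro b
          rw [integral_indicator_const _ (hFrm q b), smul_eq_mul, mul_one]
          exact hFrr q b
        have h3 := Finset.sum_le_sum fun b (_ : b ∈ (Finset.univ : Finset (Fin d → Fin (s + 1)))) =>
          h2 b
        rw [Finset.sum_const, Finset.card_univ, Fintype.card_fun, Fintype.card_fin,
          Fintype.card_fin, nsmul_eq_mul] at h3
        push_cast at h3 ⊢
        exact h3
      have h2 := Finset.sum_le_sum fun q (_ : q ∈ (Finset.univ : Finset (Fin m → Step d))) => h1 q
      rw [Finset.sum_const, Finset.card_univ, nsmul_eq_mul] at h2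
      exact h2
  set Bd : Set (Env d) := {η | ∃ q : Fin m → Step d,
    a + R + c < X β h (sh m (pos q m) η) l ∧ X β h (sh m (pos q m) η) l ≤ a + M / 2} with hBd
  have hBm : MeasurableSet Bd := by
    have h1 : Bd = ⋃ q : Fin m → Step d, {η : Env d |
        a + R + c < X β h (sh m (pos q m) η) l ∧ X β h (sh m (pos q m) η) l ≤ a + M / 2} := by
      ext η
      simp [hBd]
    rw [h1]
    exact MeasurableSet.iUnion fun q => (measurableSet_lt measurable_const (hXm _ _ _)).inter
      (measurableSet_le (hXm _ _ _) measurable_const)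
  have key : ∀ ζ ∈ Bd, ((s : ℝ) + 1) ^ d / 2 ≤ cE ρ S F ζ := by
    rintro ζ ⟨q, hxy, hxM⟩
    obtain ⟨x, hx⟩ : ∃ x, x = pos q m := ⟨_, rfl⟩
    rw [← hx] at hxy hxM
    have hxb : x ∈ boxF d m := by
      rw [hx]
      exact pos_mem_box q m
    set G : (Fin d → Fin (s + 1)) → Set (Env d) := fun b =>
      {ω | -c < Real.log (wgt β h (sh (m - d * s) (x - vA s b) ω) (qA s b))} with hG
    have hGm : ∀ b, MeasurableSet (G b) := fun b => measurableSet_lt measurable_const
      ((measurable_logw β h _).comp (measurable_sh _ _))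
    have hGr : ∀ b, 1 / 2 ≤ (law d ρ).real (G b) := by
      intro b
      have h1 := cheap92 (ρ := ρ) hρ β h (qA s b) hc
      refine h1.trans (le_of_eq ?_)
      unfold Measure.real
      rw [← (mp_sh (ρ := ρ) (m - d * s) (x - vA s b)).measure_preimage
        (measurableSet_lt measurable_const (measurable_logw β h (qA s b))).nullMeasurableSet]
      rfl
    have h2 : ∀ ω : Env d, ∑ b : Fin d → Fin (s + 1), (G b).indicator (fun _ => (1 : ℝ)) ω ≤
        F (spl S ζ ω) := by
      intro ω
      have h6 : X β h (sh m x (spl S ζ ω)) l = X β h (sh m x ζ) l := by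
        refine FreeU_dep2 β h m l x fun p hp => ?_
        exact spl_mem _ _ hp
      have h3 : ∀ b : Fin d → Fin (s + 1), (G b).indicator (fun _ => (1 : ℝ)) ω ≤
          (E (x - vA s b)).indicator (fun _ => (1 : ℝ)) (spl S ζ ω) +
          (Fr q b).indicator (fun _ => (1 : ℝ)) (spl S ζ ω) := by
        intro b
        have hn1 : 0 ≤ (E (x - vA s b)).indicator (fun _ => (1 : ℝ)) (spl S ζ ω) :=
          Set.indicator_nonneg (fun _ _ => zero_le_one) _
        have hn2 : 0 ≤ (Fr q b).indicator (fun _ => (1 : ℝ)) (spl S ζ ω) :=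
          Set.indicator_nonneg (fun _ _ => zero_le_one) _
        by_cases hb : ω ∈ G b
        · by_cases hf : spl S ζ ω ∈ Fr q b
          · rw [Set.indicator_of_mem hb, Set.indicator_of_mem hf]
            linarith
          · have h4 : spl S ζ ω ∈ E (x - vA s b) := by
              have h5 := super92 (l := l) hd β h (spl S ζ ω) hm x b
              have h7 : wgt β h (sh (m - d * s) (x - vA s b) (spl S ζ ω)) (qA s b) =
                  wgt β h (sh (m - d * s) (x - vA s b) ω) (qA s b) := by
                have h8 : energy (sh (m - d * s) (x - vA s b) (spl S ζ ω)) (qA s b) =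
                    energy (sh (m - d * s) (x - vA s b) ω) (qA s b) := by
                  unfold energy
                  refine Finset.sum_congr rfl fun i _ => ?_
                  refine spl_not_mem _ _ fun hc => hc ?_
                  show (i : ℕ) + 1 + (m - d * s) ≤ m
                  have := i.2
                  omega
                unfold wgt
                rw [h8]
              have h9 : -c < Real.log (wgt β h (sh (m - d * s) (x - vA s b) ω) (qA s b)) := hb
              rw [h6, h7] at h5
              have h10 : |X β h (sh (m - d * s) (x - vA s b) (spl S ζ ω)) (d * s + l) -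
                  X β h (sh (d * s) (pos (qA s b) (d * s))
                    (sh (m - d * s) (x - vA s b) (spl S ζ ω))) l| < M / 2 := by
                rw [hx]
                exact not_le.1 hf
              have h11 : sh (d * s) (pos (qA s b) (d * s))
                  (sh (m - d * s) (x - vA s b) (spl S ζ ω)) = sh m x (spl S ζ ω) := by
                rw [pos_qA]
                funext p
                unfold sh
                simp only
                congr 2
                · omega
                · rw [add_assoc, add_sub_cancel]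
              rw [h11, h6] at h10
              have h12 := (abs_lt.1 h10).2
              have h13 : R < X β h (sh (m - d * s) (x - vA s b) (spl S ζ ω)) (d * s + l) - a := by
                linarith
              refine ⟨lt_of_lt_of_le h13 (le_abs_self _), ?_⟩
              rw [abs_of_nonneg (hR.trans h13.le)]
              linarith
            rw [Set.indicator_of_mem hb, Set.indicator_of_mem h4]
            linarith
        · rw [Set.indicator_of_notMem hb]
          linarith
      refine (Finset.sum_le_sum fun b _ => h3 b).trans ?_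
      rw [Finset.sum_add_distrib]
      refine add_le_add ?_ ?_
      · rw [← Finset.sum_image (s := (Finset.univ : Finset (Fin d → Fin (s + 1))))
          (f := fun x' => (E x').indicator (fun _ => (1 : ℝ)) (spl S ζ ω))
          (g := fun b => x - vA s b) ((vA_inj s x).injOn)]
        refine Finset.sum_le_sum_of_subset_of_nonneg ?_ fun _ _ _ =>
          Set.indicator_nonneg (fun _ _ => zero_le_one) _
        intro x' hx'
        rw [Finset.mem_image] at hx'
        obtain ⟨b, _, rfl⟩ := hx'
        exact vA_box s m hxb b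
      · exact Finset.single_le_sum (s := (Finset.univ : Finset (Fin m → Step d)))
          (f := fun q => ∑ b : Fin d → Fin (s + 1),
            (Fr q b).indicator (fun _ => (1 : ℝ)) (spl S ζ ω))
          (fun q _ => Finset.sum_nonneg fun b _ =>
            Set.indicator_nonneg (fun _ _ => zero_le_one) _) (Finset.mem_univ q)
    have h3 : Integrable (fun ω : Env d => ∑ b : Fin d → Fin (s + 1),
        (G b).indicator (fun _ => (1 : ℝ)) ω) (law d ρ) :=
      integrable_finsetSum _ fun b _ => (integrable_const (1 : ℝ)).indicator (hGm b)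
    have h4 := integral_mono h3 (integrable_spl hFm hFb S ζ) h2
    rw [integral_finsetSum _ fun b _ => (integrable_const (1 : ℝ)).indicator (hGm b)] at h4
    have h5 : ((s : ℝ) + 1) ^ d / 2 ≤ ∑ b : Fin d → Fin (s + 1),
        ∫ ω, (G b).indicator (fun _ => (1 : ℝ)) ω ∂(law d ρ) := by
      have h6 : ∀ b : Fin d → Fin (s + 1), (1 / 2 : ℝ) ≤
          ∫ ω, (G b).indicator (fun _ => (1 : ℝ)) ω ∂(law d ρ) := by
        intro b
        rw [integral_indicator_const _ (hGm b), smul_eq_mul, mul_one]
        exact hGr b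
      have h7 := Finset.sum_le_sum fun (b : Fin d → Fin (s + 1))
        (_ : b ∈ (Finset.univ : Finset (Fin d → Fin (s + 1)))) => h6 b
      rw [Finset.sum_const, Finset.card_univ, Fintype.card_fun, Fintype.card_fin,
        Fintype.card_fin, nsmul_eq_mul] at h7
      refine le_trans (le_of_eq ?_) h7
      push_cast
      ring
    exact h5.trans h4
  have h8 : ∀ ζ, Bd.indicator (fun _ => ((s : ℝ) + 1) ^ d / 2) ζ ≤ cE ρ S F ζ := by
    intro ζ
    by_cases hζ : ζ ∈ Bd
    · rw [Set.indicator_of_mem hζ]
      exact key ζ hζ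
    · rw [Set.indicator_of_notMem hζ]
      exact cE_nonneg hF0 S ζ
  have h9 := integral_mono ((integrable_const _).indicator hBm) (int_abs_cE hFi S).1 h8
  rw [integral_indicator_const _ hBm, int_cE S hFi, smul_eq_mul] at h9
  linarith

end Pool.Agent.W_7d29a1_AC.Fl27
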