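import Pool.Agent.W_7d29a1_AC.FlaC27

/-!
Theorem AC, leaf `FlaC`: the lower half and the assembly.
-/

set_option autoImplicit false

namespace Pool.Agent.W_7d29a1_AC.Fl27

open MeasureTheory ProbabilityTheory Filter Topology Pool.Agent.W_MP_7d29a1_pr
  Pool.Agent.W_7d29a1_h46 Pool.Agent.W_7d29a1_h46u Pool.Agent.W_7d29a1_D2.B35
  Pool.Agent.W_7d29a1_Q29 Pool.Agent.W_7d29a1_Q29.NT66 Pool.Agent.W_7d29a1_NV

variable {d : ℕ} {ρ : Measure ℝ} [IsProbabilityMeasure ρ]

/-- Most of the mass of the end points sees the core: the lower bound. -/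
theorem low27 (hd : 0 < d) (β : ℝ) (h : Vec d) (m n : ℕ) (a R M : ℝ) :
    (law d ρ).real {η : Env d | (∀ q : Fin m → Step d, |X β h (sh m (pos q m) η) n - a| ≤ M) ∧
      X β h η (m + n) < X β h η m + (a - R) - Real.log 2} ≤ 2 * ring ρ β h n a R M := by
  classical
  set E : Set (Env d) := {η | R < |X β h η n - a| ∧ |X β h η n - a| ≤ M} with hE
  have hEm : MeasurableSet E :=
    (measurableSet_lt measurable_const ((measurable_X β h n).sub_const a).abs).inter
      (measurableSet_le ((measurable_X β h n).sub_const a).abs measurable_const)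
  set F : Env d → ℝ := E.indicator fun _ => (1 : ℝ) with hF
  have hFm : Measurable F := measurable_const.indicator hEm
  have hFi : Integrable F (law d ρ) := (integrable_const (1 : ℝ)).indicator hEm
  obtain ⟨i1, e1⟩ := I34.mean_fut (ρ := ρ) hd β h m hFm hFi (fun y η η' hη => by
    have h1 := FreeU_dep2 β h m n y hη
    simp only at h1 ⊢
    have h2 : sh m y η ∈ E ↔ sh m y η' ∈ E := by
      show (R < |X β h (sh m y η) n - a| ∧ |X β h (sh m y η) n - a| ≤ M) ↔
        (R < |X β h (sh m y η') n - a| ∧ |X β h (sh m y η') n - a| ≤ M)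
      rw [h1]
    by_cases h3 : sh m y η ∈ E
    · rw [hF, Set.indicator_of_mem h3, Set.indicator_of_mem (h2.1 h3)]
    · rw [hF, Set.indicator_of_notMem h3, Set.indicator_of_notMem fun h4 => h3 (h2.2 h4)])
  have e2 : ∫ η, F η ∂(law d ρ) = ring ρ β h n a R M := by
    rw [hF, integral_indicator_const _ hEm, smul_eq_mul, mul_one]
    rfl
  rw [e2] at e1
  have hF0 : ∀ η, 0 ≤ F η := fun η => Set.indicator_nonneg (fun _ _ => zero_le_one) _
  have hS0 : ∀ η : Env d, 0 ≤ ∑ s : Fin m → Step d, FreeU_p β h m s η * F (sh m (pos s m) η) :=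
    fun η => Finset.sum_nonneg fun s _ => mul_nonneg (FreeU_nonneg hd β h m s η) (hF0 _)
  have h3 := mul_meas_ge_le_integral_of_nonneg (μ := law d ρ) (Eventually.of_forall hS0) i1
    (1 / 2)
  rw [e1] at h3
  have hsub : {η : Env d | (∀ q : Fin m → Step d, |X β h (sh m (pos q m) η) n - a| ≤ M) ∧
      X β h η (m + n) < X β h η m + (a - R) - Real.log 2} ⊆
      {η | 1 / 2 ≤ ∑ s : Fin m → Step d, FreeU_p β h m s η * F (sh m (pos s m) η)} := by
    rintro η ⟨h4, h5⟩
    by_contra hno
    have h6 : ∑ s : Fin m → Step d, FreeU_p β h m s η * F (sh m (pos s m) η) < 1 / 2 :=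
      not_le.1 hno
    have hZ := Z_pos hd β h η m
    have hpt : ∀ s : Fin m → Step d, FreeU_p β h m s η * (1 - F (sh m (pos s m) η)) *
        Real.exp (a - R) ≤ FreeU_p β h m s η * Z β h (sh m (pos s m) η) n := by
      intro s
      have hp := FreeU_nonneg hd β h m s η
      rw [mul_assoc]
      refine mul_le_mul_of_nonneg_left ?_ hp
      by_cases h7 : sh m (pos s m) η ∈ E
      · rw [hF, Set.indicator_of_mem h7, sub_self, zero_mul]
        exact (Z_pos hd β h _ n).le
      · rw [hF, Set.indicator_of_notMem h7, sub_zero, one_mul]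
        have h8 : |X β h (sh m (pos s m) η) n - a| ≤ R := by
          by_contra hc
          exact h7 ⟨not_le.1 hc, h4 s⟩
        rw [← Real.le_log_iff_exp_le (Z_pos hd β h _ n)]
        have h9 := (abs_le.1 h8).1
        show a - R ≤ X β h (sh m (pos s m) η) n
        linarith
    have h7 := Finset.sum_le_sum fun s (_ : s ∈ (Finset.univ : Finset (Fin m → Step d))) => hpt s
    rw [← Finset.sum_mul] at h7
    have h8 : ∑ s : Fin m → Step d, FreeU_p β h m s η * (1 - F (sh m (pos s m) η)) =
        1 - ∑ s : Fin m → Step d, FreeU_p β h m s η * F (sh m (pos s m) η) := by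
      simp only [mul_sub, mul_one]
      rw [Finset.sum_sub_distrib, FreeU_sum hd]
    rw [h8] at h7
    have h9 : Z β h η (m + n) = Z β h η m *
        ∑ s : Fin m → Step d, FreeU_p β h m s η * Z β h (sh m (pos s m) η) n := by
      rw [Z_add, Finset.mul_sum]
      refine Finset.sum_congr rfl fun s _ => ?_
      unfold FreeU_p
      rw [← mul_assoc, mul_div_cancel₀ _ hZ.ne']
    have h10 : Real.exp (a - R) / 2 ≤
        ∑ s : Fin m → Step d, FreeU_p β h m s η * Z β h (sh m (pos s m) η) n := by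
      refine le_trans ?_ h7
      have := Real.exp_pos (a - R)
      nlinarith
    have h11 : Z β h η m * (Real.exp (a - R) / 2) ≤ Z β h η (m + n) := by
      rw [h9]
      exact mul_le_mul_of_nonneg_left h10 hZ.le
    have h12 := Real.log_le_log (mul_pos hZ (half_pos (Real.exp_pos (a - R)))) h11
    rw [Real.log_mul hZ.ne' (half_pos (Real.exp_pos (a - R))).ne',
      Real.log_div (Real.exp_pos _).ne' two_ne_zero, Real.log_exp] at h12
    have h13 : X β h η m + (a - R - Real.log 2) ≤ X β h η (m + n) := h12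
    linarith
  have h4 := measureReal_mono (μ := law d ρ) hsub
  linarith

/-- The union over the paths. -/
lemma farU27 (hd : 0 < d) (hρ : EM ρ) (β : ℝ) (h : Vec d) (m n : ℕ) {K : ℝ} (hK : 0 < K) :
    (law d ρ).real {η | ∃ q : Fin m → Step d,
      K ≤ |X β h η (m + n) - X β h (sh m (pos q m) η) n|} ≤
      Fintype.card (Fin m → Step d) * (Ci ρ β h * m) / K := by
  have h1 : {η : Env d | ∃ q : Fin m → Step d,
      K ≤ |X β h η (m + n) - X β h (sh m (pos q m) η) n|} =
      ⋃ q ∈ (Finset.univ : Finset (Fin m → Step d)), {η : Env d |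
        K ≤ |X β h η (m + n) - X β h (sh m (pos q m) η) n|} := by
    ext η
    simp
  rw [h1]
  refine (measureReal_biUnion_finset_le _ _).trans ?_
  have h2 : ∀ q : Fin m → Step d, (law d ρ).real {η : Env d |
      K ≤ |X β h η (m + n) - X β h (sh m (pos q m) η) n|} ≤ Ci ρ β h * m / K := by
    intro q
    obtain ⟨i1, i2⟩ := clo27 (ρ := ρ) hd hρ β h q n
    have h3 := mul_meas_ge_le_integral_of_nonneg (μ := law d ρ)
      (Eventually.of_forall fun η : Env d => abs_nonneg
        (X β h η (m + n) - X β h (sh m (pos q m) η) n)) i1 K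
    rw [le_div_iff₀ hK, mul_comm]
    exact h3.trans i2
  refine (Finset.sum_le_sum fun q _ => h2 q).trans (le_of_eq ?_)
  rw [Finset.sum_const, Finset.card_univ, nsmul_eq_mul]
  ring

/-- The free energy is not below its limit, up to a small probability. -/
lemma loX27 (hd : 0 < d) (hρ : EM ρ) (β : ℝ) (h : Vec d) {ε κ : ℝ} (hε : 0 < ε) (hκ : 0 < κ) :
    ∃ m₁ : ℕ, ∀ m : ℕ, m₁ ≤ m →
      (law d ρ).real {η | X β h η m < (lam ρ β h - ε) * m} ≤ κ := by
  obtain ⟨m₀, hm₀⟩ := I34.small_m (ρ := ρ) hd hρ β h 0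
    (ε := min (ε / 2) (ε * κ / 2)) (lt_min (by positivity) (by positivity))
  refine ⟨m₀ + 1, fun m hm => ?_⟩
  have hm0 : (0 : ℝ) < m := by
    have : 0 < m := by omega
    exact_mod_cast this
  obtain ⟨h1, h2, -⟩ := hm₀ m (by omega)
  have h3 : min (ε / 2) (ε * κ / 2) ≤ ε / 2 := min_le_left _ _
  have h4 : min (ε / 2) (ε * κ / 2) ≤ ε * κ / 2 := min_le_right _ _
  have h5 : {η : Env d | X β h η m < (lam ρ β h - ε) * m} ⊆
      {η | ε / 2 * m ≤ |X β h η m - A ρ β h m|} := by
    intro η hη
    have h6 : X β h η m < (lam ρ β h - ε) * m := hη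
    show ε / 2 * m ≤ |X β h η m - A ρ β h m|
    have h7 := neg_abs_le (X β h η m - A ρ β h m)
    have h8 : (lam ρ β h - ε / 2) * m ≤ A ρ β h m := by
      refine le_trans ?_ h1
      exact mul_le_mul_of_nonneg_right (by linarith) hm0.le
    nlinarith
  have h6 := mul_meas_ge_le_integral_of_nonneg (μ := law d ρ)
    (Eventually.of_forall fun η : Env d => abs_nonneg (X β h η m - A ρ β h m))
    (I34.dev_le (ρ := ρ) hd hρ β h m).1 (ε / 2 * m)
  have h7 := measureReal_mono (μ := law d ρ) h5
  have h8 : ε / 2 * m * (law d ρ).real {η : Env d | X β h η m < (lam ρ β h - ε) * m} ≤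
      ε / 2 * m * κ := by
    refine (mul_le_mul_of_nonneg_left h7 (by positivity)).trans (h6.trans (h2.trans ?_))
    have h9 := mul_le_mul_of_nonneg_right h4 hm0.le
    linarith
  exact le_of_mul_le_mul_left h8 (by positivity)

end Pool.Agent.W_7d29a1_AC.Fl27
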