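import Pool.Agent.W_7d29a1_AC.FlaE27

/-!
Theorem AC, leaf `FlaC`: the assembly.
-/

set_option autoImplicit false

namespace Pool.Agent.W_7d29a1_AC.Fl27

open MeasureTheory ProbabilityTheory Filter Topology Pool.Agent.W_MP_7d29a1_pr
  Pool.Agent.W_7d29a1_h46 Pool.Agent.W_7d29a1_h46u Pool.Agent.W_7d29a1_D2.B35
  Pool.Agent.W_7d29a1_Q29 Pool.Agent.W_7d29a1_Q29.NT66 Pool.Agent.W_7d29a1_NV

variable {d : ℕ} {ρ : Measure ℝ} [IsProbabilityMeasure ρ]

/-- The box count of `up27`. -/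
lemma cnt27 {κ₀ δ : ℝ} (hκ₀ : 0 < κ₀) {m s : ℕ} (hm : 1 ≤ m) (hs2 : κ₀ * m ≤ s + 1)
    (hsm : s ≤ m) (hds : d * s ≤ m) {P rg D : ℝ} (hrg0 : 0 ≤ rg)
    (hrg : rg ≤ δ * (κ₀ / 7) ^ d)
    (hinp : ((s : ℝ) + 1) ^ d * P ≤ 2 * ((boxF d (m + d * s + s)).card * rg +
      ((s : ℝ) + 1) ^ d * D)) : P ≤ 2 * δ + 2 * D := by
  have hm0 : (1 : ℝ) ≤ m := by exact_mod_cast hm
  rw [card_boxF] at hinp
  push_cast at hinp
  have hs0 : 0 < ((s : ℝ) + 1) ^ d := by positivity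
  have hdsR : (d : ℝ) * s ≤ m := by exact_mod_cast hds
  have h1 : (κ₀ * m) ^ d ≤ ((s : ℝ) + 1) ^ d := pow_le_pow_left₀ (by positivity) hs2 d
  have h2 : (2 * ((m : ℝ) + d * s + s) + 1) ^ d ≤ (7 * (m : ℝ)) ^ d := by
    refine pow_le_pow_left₀ (by positivity) ?_ d
    have h3 : (s : ℝ) ≤ m := by exact_mod_cast hsm
    linarith
  have h3 : (2 * ((m : ℝ) + d * s + s) + 1) ^ d * rg ≤ ((s : ℝ) + 1) ^ d * δ := by
    have hδ0 : 0 ≤ δ * (κ₀ / 7) ^ d := hrg0.trans hrg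
    have hδ1 : 0 ≤ δ := by
      by_contra hc
      have h4 : δ * (κ₀ / 7) ^ d < 0 := mul_neg_of_neg_of_pos (not_le.1 hc) (by positivity)
      linarith
    calc (2 * ((m : ℝ) + d * s + s) + 1) ^ d * rg ≤ (7 * (m : ℝ)) ^ d * (δ * (κ₀ / 7) ^ d) :=
          mul_le_mul h2 hrg hrg0 (by positivity)
      _ = (κ₀ * m) ^ d * δ := by
          have h6 : (7 * (m : ℝ)) ^ d * (κ₀ / 7) ^ d = (κ₀ * m) ^ d := by
            rw [← mul_pow]
            congr 1
            field_simp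
          rw [← h6]
          ring
      _ ≤ _ := mul_le_mul_of_nonneg_right h1 hδ1
  have h4 : ((s : ℝ) + 1) ^ d * P ≤ ((s : ℝ) + 1) ^ d * (2 * δ + 2 * D) := by
    refine hinp.trans ?_
    nlinarith
  exact le_of_mul_le_mul_left h4 hs0

/-- **Leaf E1: the cluster is flat.** -/
theorem flaC27 (hd : 0 < d) (hρ : EM ρ) (β : ℝ) : FlaC d ρ β := by
  classical
  intro h ε κ hε hκ
  have hdR : (1 : ℝ) ≤ d := by exact_mod_cast hd
  have hC0 := Cp_nonneg (ρ := ρ) β h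
  obtain ⟨C₀, hC₀⟩ : ∃ C₀ : ℝ, C₀ = Cp ρ β h := ⟨_, rfl⟩
  rw [← hC₀] at hC0
  obtain ⟨Λ, hΛ⟩ : ∃ Λ : ℝ, Λ = lam ρ β h := ⟨_, rfl⟩
  rw [← hΛ]
  have hΛ0 := abs_nonneg Λ
  obtain ⟨Cc, hCc⟩ : ∃ Cc : ℝ, Cc = Ci ρ β h := ⟨_, rfl⟩
  have hCc0 : 0 ≤ Cc := by
    rw [hCc]
    exact Ci_nonneg (ρ := ρ) β h
  obtain ⟨κ₀, hκ₀⟩ : ∃ κ₀ : ℝ, κ₀ = min (1 / (d : ℝ)) (ε / (8 * d * (|Λ| + 2 * C₀ + 1))) :=
    ⟨_, rfl⟩
  have hκ0 : 0 < κ₀ := by
    rw [hκ₀]
    exact lt_min (by positivity) (by positivity)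
  have hκ1 : d * κ₀ ≤ 1 := by
    have h1 : κ₀ ≤ 1 / (d : ℝ) := by
      rw [hκ₀]
      exact min_le_left _ _
    rw [le_div_iff₀ (by linarith)] at h1
    linarith
  have hκ1' : κ₀ ≤ 1 := by nlinarith
  have hκ2 : d * κ₀ * (|Λ| + 2 * C₀) ≤ ε / 8 := by
    have h1 : κ₀ ≤ ε / (8 * d * (|Λ| + 2 * C₀ + 1)) := by
      rw [hκ₀]
      exact min_le_right _ _
    rw [le_div_iff₀ (by positivity)] at h1
    have h2 : 0 ≤ κ₀ * d := by positivity
    nlinarith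
  obtain ⟨m₂, hm₂⟩ := upX92 (ρ := ρ) hd hρ β h (ε := ε / 8) (δ := κ / 16) (by linarith)
    (by linarith)
  obtain ⟨m₄, hm₄⟩ := loX27 (ρ := ρ) hd hρ β h (ε := ε / 4) (κ := κ / 16) (by linarith)
    (by linarith)
  refine ⟨κ / 16 * (κ₀ / 7) ^ d, by positivity, fun R hR => ?_⟩
  obtain ⟨m₃, hm₃⟩ := exists_nat_gt (8 * (R + 1) / ε)
  refine ⟨m₂ + m₃ + m₄ + 1, fun m hm => ?_⟩
  have hm1 : 1 ≤ m := by omega
  have hm0 : (1 : ℝ) ≤ m := by exact_mod_cast hm1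
  have hεm : 8 * (R + 1) < ε * m := by
    have h1 : 8 * (R + 1) / ε < m := hm₃.trans_le (by exact_mod_cast (by omega : m₃ ≤ m))
    rw [div_lt_iff₀ hε] at h1
    linarith
  obtain ⟨s, hs⟩ : ∃ s : ℕ, s = ⌊κ₀ * m⌋₊ := ⟨_, rfl⟩
  have hs1 : (s : ℝ) ≤ κ₀ * m := by
    rw [hs]
    exact Nat.floor_le (by positivity)
  have hs2 : κ₀ * m ≤ s + 1 := by
    rw [hs]
    exact (Nat.lt_floor_add_one _).le
  have hds' : (d : ℝ) * s ≤ d * κ₀ * m := by
    have h1 : (d : ℝ) * s ≤ d * (κ₀ * m) := mul_le_mul_of_nonneg_left hs1 (by linarith)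
    linarith
  have hdsR : (d : ℝ) * s ≤ m := by
    have h3 : d * κ₀ * m ≤ 1 * m := mul_le_mul_of_nonneg_right hκ1 (by linarith)
    linarith
  have hds : d * s ≤ m := by exact_mod_cast hdsR
  have hsm : s ≤ m := (Nat.le_mul_of_pos_left s hd).trans hds
  -- the constants
  obtain ⟨c, hc⟩ : ∃ c : ℝ, c = 2 * C₀ * (d * s : ℕ) + 1 := ⟨_, rfl⟩
  obtain ⟨N₁, hN₁⟩ : ∃ N₁ : ℝ, N₁ = Fintype.card (Fin (m + d * s) → Step d) := ⟨_, rfl⟩
  obtain ⟨N₂, hN₂⟩ : ∃ N₂ : ℝ, N₂ = Fintype.card (Fin m → Step d) := ⟨_, rfl⟩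
  have hN10 : 0 ≤ N₁ := by
    rw [hN₁]
    exact Nat.cast_nonneg _
  have hN20 : 0 ≤ N₂ := by
    rw [hN₂]
    exact Nat.cast_nonneg _
  obtain ⟨D₁, hD₁⟩ : ∃ D₁ : ℝ, D₁ = N₁ * (Cc * (m + d * s : ℕ)) := ⟨_, rfl⟩
  obtain ⟨D₂, hD₂⟩ : ∃ D₂ : ℝ, D₂ = N₂ * (Cc * m) := ⟨_, rfl⟩
  obtain ⟨D₃, hD₃⟩ : ∃ D₃ : ℝ, D₃ = Cc * m := ⟨_, rfl⟩
  obtain ⟨D₄, hD₄⟩ : ∃ D₄ : ℝ, D₄ = N₁ * (Cc * (d * s : ℕ)) := ⟨_, rfl⟩
  have hD10 : 0 ≤ D₁ := by rw [hD₁]; positivity
  have hD20 : 0 ≤ D₂ := by rw [hD₂]; positivity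
  have hD30 : 0 ≤ D₃ := by rw [hD₃]; positivity
  have hD40 : 0 ≤ D₄ := by rw [hD₄]; positivity
  refine ⟨16 * (R + |Λ| * m) + 1 + 256 / κ * (D₁ + D₂ + D₃ + D₄), fun M hM n a hn hring => ?_⟩
  have hM1 : 16 * (R + |Λ| * m) + 1 ≤ M := by
    have : 0 ≤ 256 / κ * (D₁ + D₂ + D₃ + D₄) := by positivity
    linarith
  have hΛm : 0 ≤ |Λ| * (m : ℝ) := by positivity
  have hM0 : 0 < M := by linarith
  have hMD : 256 * (D₁ + D₂ + D₃ + D₄) ≤ κ * M := by
    have h1 : 256 / κ * (D₁ + D₂ + D₃ + D₄) ≤ M := by linarith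
    have h2 := mul_le_mul_of_nonneg_left h1 hκ.le
    have h3 : κ * (256 / κ * (D₁ + D₂ + D₃ + D₄)) = 256 * (D₁ + D₂ + D₃ + D₄) := by
      field_simp
    linarith
  have hrg0 : 0 ≤ ring ρ β h n a R M := measureReal_nonneg
  have hpow1 : (κ₀ / 7) ^ d ≤ 1 := pow_le_one₀ (by positivity) (by linarith)
  have hrg1 : ring ρ β h n a R M ≤ κ / 16 := by
    refine hring.trans ?_
    have := mul_le_mul_of_nonneg_left hpow1 (show 0 ≤ κ / 16 by linarith)
    linarith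
  have e2 : n + m = m + d * s + (n - d * s) := by omega
  have e3 : d * s + (n - d * s) = n := by omega
  -- the exceptional events
  obtain ⟨B₁, hB₁⟩ : ∃ B₁ : Set (Env d), B₁ = {η | (lam ρ β h + ε / 8) * (m + d * s : ℕ) <
    X β h η (m + d * s)} := ⟨_, rfl⟩
  obtain ⟨B₂, hB₂⟩ : ∃ B₂ : Set (Env d), B₂ = {η | ∃ q : Fin (m + d * s) → Step d,
    M / 4 ≤ |X β h η (m + d * s + (n - d * s)) -
      X β h (sh (m + d * s) (pos q (m + d * s)) η) (n - d * s)|} := ⟨_, rfl⟩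
  obtain ⟨B₃, hB₃⟩ : ∃ B₃ : Set (Env d), B₃ = {η | ∃ q : Fin (m + d * s) → Step d,
    a + R + c < X β h (sh (m + d * s) (pos q (m + d * s)) η) (n - d * s) ∧
      X β h (sh (m + d * s) (pos q (m + d * s)) η) (n - d * s) ≤ a + M / 2} := ⟨_, rfl⟩
  obtain ⟨B₄, hB₄⟩ : ∃ B₄ : Set (Env d), B₄ = {η | X β h η m < (lam ρ β h - ε / 4) * m} :=
    ⟨_, rfl⟩
  obtain ⟨B₅, hB₅⟩ : ∃ B₅ : Set (Env d), B₅ = {η | ∃ q : Fin m → Step d,
    M / 2 ≤ |X β h η (m + n) - X β h (sh m (pos q m) η) n|} := ⟨_, rfl⟩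
  obtain ⟨B₆, hB₆⟩ : ∃ B₆ : Set (Env d), B₆ = {η | (∀ q : Fin m → Step d,
    |X β h (sh m (pos q m) η) n - a| ≤ M) ∧
      X β h η (m + n) < X β h η m + (a - R) - Real.log 2} := ⟨_, rfl⟩
  have hP1 : (law d ρ).real B₁ ≤ κ / 16 := by
    rw [hB₁]
    exact hm₂ (m + d * s) (by omega)
  have hP2 : (law d ρ).real B₂ ≤ κ / 16 := by
    rw [hB₂]
    refine (farU27 (ρ := ρ) hd hρ β h (m + d * s) (n - d * s) (by positivity : 0 < M / 4)).trans ?_
    rw [← hN₁, ← hCc, ← hD₁, div_le_iff₀ (by positivity)]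
    linarith
  have hP3 : (law d ρ).real B₃ ≤ κ / 8 + κ / 32 := by
    have hinp := up27 (ρ := ρ) hd hρ β h (m := m + d * s) (s := s) (n - d * s) (by omega)
      (c := c) (by rw [hc, ← hC₀]; linarith) a hR.le hM0
    rw [e3, ← hB₃, ← hN₁, ← hCc] at hinp
    have h1 := cnt27 (d := d) (δ := κ / 16) (D := N₁ * (Cc * (d * s : ℕ) / (M / 2))) hκ0 hm1 hs2
      hsm hds hrg0 hring (hinp.trans (le_of_eq (by ring)))
    have h2 : N₁ * (Cc * (d * s : ℕ) / (M / 2)) ≤ κ / 64 := by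
      have h3 : N₁ * (Cc * (d * s : ℕ) / (M / 2)) = D₄ / (M / 2) := by
        rw [hD₄]
        ring
      rw [h3, div_le_iff₀ (by positivity)]
      linarith
    linarith
  have hP4 : (law d ρ).real B₄ ≤ κ / 16 := by
    rw [hB₄]
    exact hm₄ m (by omega)
  have hP5 : (law d ρ).real B₅ ≤ κ / 64 := by
    rw [hB₅]
    refine (farU27 (ρ := ρ) hd hρ β h m n (by positivity : 0 < M / 2)).trans ?_
    rw [← hN₂, ← hCc, ← hD₂, div_le_iff₀ (by positivity)]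
    linarith
  have hP6 : (law d ρ).real B₆ ≤ κ / 8 := by
    rw [hB₆]
    refine (low27 (ρ := ρ) hd β h m n a R M).trans ?_
    linarith
  have hlog2 : Real.log 2 ≤ 1 := by
    have := Real.log_two_lt_d9
    linarith
  have hsub : {η : Env d | ε * m < |X β h η (n + m) - (a + Λ * m)| ∧
      |X β h η (n + m) - (a + Λ * m)| ≤ M / 8} ⊆ B₁ ∪ (B₂ ∪ (B₃ ∪ (B₄ ∪ (B₅ ∪ B₆)))) := by
    rintro η ⟨hη1, hη2⟩
    by_contra hno
    simp only [Set.mem_union, not_or] at hno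
    obtain ⟨g1, g2, g3, g4, g5, g6⟩ := hno
    rw [hB₁] at g1
    rw [hB₂] at g2
    rw [hB₃] at g3
    rw [hB₄] at g4
    rw [hB₅] at g5
    rw [hB₆] at g6
    have g1' : X β h η (m + d * s) ≤ (lam ρ β h + ε / 8) * (m + d * s : ℕ) := not_lt.1 g1
    have g4' : (lam ρ β h - ε / 4) * m ≤ X β h η m := not_lt.1 g4
    rw [← hΛ] at g1' g4'
    push_cast at g1'
    have hb := abs_le.1 hη2
    have hΛ1 : Λ * m ≤ |Λ| * m := mul_le_mul_of_nonneg_right (le_abs_self _) (by linarith)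
    have hΛ2 : -(|Λ| * m) ≤ Λ * m := by
      rw [← neg_mul]
      exact mul_le_mul_of_nonneg_right (neg_abs_le _) (by linarith)
    rcases lt_abs.1 hη1 with hu | hl
    · -- the upper half
      have h1 : ∀ q : Fin (m + d * s) → Step d,
          X β h (sh (m + d * s) (pos q (m + d * s)) η) (n - d * s) ≤ a + R + c := by
        intro q
        by_contra hc1
        rw [not_le] at hc1
        refine g3 ⟨q, hc1, ?_⟩
        have h2 : |X β h η (m + d * s + (n - d * s)) -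
            X β h (sh (m + d * s) (pos q (m + d * s)) η) (n - d * s)| < M / 4 := by
          by_contra hc2
          exact g2 ⟨q, not_lt.1 hc2⟩
        rw [← e2] at h2
        have h3 := (abs_lt.1 h2).1
        linarith
      have h3 := maxP27 hd β h η (m + d * s) (n - d * s) h1
      rw [← e2] at h3
      have h5 : (Λ + ε / 8) * (m + d * s) ≤ Λ * m + |Λ| * (d * κ₀ * m) + ε / 4 * m := by
        have h7 : Λ * (d * s) ≤ |Λ| * (d * κ₀ * m) := by
          calc Λ * (d * s) ≤ |Λ| * (d * s) :=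
                mul_le_mul_of_nonneg_right (le_abs_self _) (by positivity)
            _ ≤ _ := mul_le_mul_of_nonneg_left hds' hΛ0
        have h8 : ε / 8 * (d * s) ≤ ε / 8 * m := mul_le_mul_of_nonneg_left hdsR (by linarith)
        have h9 : (Λ + ε / 8) * ((m : ℝ) + d * s) =
            Λ * m + Λ * (d * s) + (ε / 8 * m + ε / 8 * (d * s)) := by ring
        rw [h9]
        have h10 : 0 ≤ ε * (m : ℝ) := by positivity
        linarith only [h7, h8, h10]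
      have h9 : |Λ| * (d * κ₀ * m) + 2 * C₀ * (d * κ₀ * m) ≤ ε / 8 * m := by
        have h10 := mul_le_mul_of_nonneg_right hκ2 (show (0 : ℝ) ≤ m by linarith)
        linarith
      have hc2 : c ≤ 2 * C₀ * (d * κ₀ * m) + 1 := by
        rw [hc]
        push_cast
        have h3 := mul_le_mul_of_nonneg_left hds' (show 0 ≤ 2 * C₀ by linarith)
        linarith
      linarith
    · -- the lower half
      refine g6 ⟨fun q => ?_, ?_⟩
      · have h2 : |X β h η (m + n) - X β h (sh m (pos q m) η) n| < M / 2 := by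
          by_contra hc2
          exact g5 ⟨q, not_lt.1 hc2⟩
        rw [add_comm m n] at h2
        have h3 := abs_lt.1 h2
        rw [abs_le]
        constructor <;> linarith
      · rw [add_comm m n]
        linarith
  have hR1 : ring ρ β h (n + m) (a + Λ * m) (ε * m) (M / 8) ≤ κ / 2 := by
    have h1 := measureReal_mono (μ := law d ρ) hsub
    have h2 := measureReal_union_le (μ := law d ρ) B₁ (B₂ ∪ (B₃ ∪ (B₄ ∪ (B₅ ∪ B₆))))
    have h3 := measureReal_union_le (μ := law d ρ) B₂ (B₃ ∪ (B₄ ∪ (B₅ ∪ B₆)))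
    have h4 := measureReal_union_le (μ := law d ρ) B₃ (B₄ ∪ (B₅ ∪ B₆))
    have h5 := measureReal_union_le (μ := law d ρ) B₄ (B₅ ∪ B₆)
    have h6 := measureReal_union_le (μ := law d ρ) B₅ B₆
    unfold ring
    linarith
  refine ⟨hR1.trans (by linarith), ?_⟩
  -- the window
  set q₀ : Fin m → Step d := fun _ => (⟨0, hd⟩, true) with hq₀
  have hfar := cloM27 (ρ := ρ) hd hρ β h q₀ n 0 0 (show 0 < M / 16 by linarith)
  rw [← hCc, ← hD₃] at hfar
  have hfar2 : D₃ / (M / 16) ≤ κ / 16 := by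
    rw [div_le_iff₀ (by positivity)]
    linarith
  have e4 : (law d ρ).real (win β h n a R) =
      (law d ρ).real {η : Env d | |X β h (sh m (pos q₀ m) (sh 0 0 η)) n - a| ≤ R} := by
    have hms : MeasurableSet (win β h n a R) :=
      measurableSet_le ((measurable_X β h n).sub_const a).abs measurable_const
    have hmp : MeasurePreserving (fun η : Env d => sh m (pos q₀ m) (sh 0 0 η)) (law d ρ)
      (law d ρ) := (mp_sh m (pos q₀ m)).comp (mp_sh 0 0)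
    unfold Measure.real
    rw [← hmp.measure_preimage hms.nullMeasurableSet]
    rfl
  have e5 : (law d ρ).real (win β h (n + m) (a + Λ * m) (ε * m)) =
      (law d ρ).real {η : Env d | |X β h (sh 0 0 η) (m + n) - (a + Λ * m)| ≤ ε * m} := by
    have hms : MeasurableSet (win β h (n + m) (a + Λ * m) (ε * m)) :=
      measurableSet_le ((measurable_X β h (n + m)).sub_const _).abs measurable_const
    unfold Measure.real
    rw [← (mp_sh (ρ := ρ) 0 0).measure_preimage hms.nullMeasurableSet, add_comm m n]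
    rfl
  have e6 : ring ρ β h (n + m) (a + Λ * m) (ε * m) (M / 8) =
      (law d ρ).real {η : Env d | ε * m < |X β h (sh 0 0 η) (m + n) - (a + Λ * m)| ∧
        |X β h (sh 0 0 η) (m + n) - (a + Λ * m)| ≤ M / 8} := by
    have hms : MeasurableSet {η : Env d | ε * m < |X β h η (n + m) - (a + Λ * m)| ∧
        |X β h η (n + m) - (a + Λ * m)| ≤ M / 8} :=
      (measurableSet_lt measurable_const ((measurable_X β h (n + m)).sub_const _).abs).inter
        (measurableSet_le ((measurable_X β h (n + m)).sub_const _).abs measurable_const)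
    unfold ring Measure.real
    rw [← (mp_sh (ρ := ρ) 0 0).measure_preimage hms.nullMeasurableSet, add_comm m n]
    rfl
  rw [e4, e5]
  rw [e6] at hR1
  have hsub2 : {η : Env d | |X β h (sh m (pos q₀ m) (sh 0 0 η)) n - a| ≤ R} ⊆
      {η : Env d | |X β h (sh 0 0 η) (m + n) - (a + Λ * m)| ≤ ε * m} ∪
      ({η : Env d | ε * m < |X β h (sh 0 0 η) (m + n) - (a + Λ * m)| ∧
        |X β h (sh 0 0 η) (m + n) - (a + Λ * m)| ≤ M / 8} ∪
      {η | M / 16 ≤ |X β h (sh 0 0 η) (m + n) -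
      X β h (sh m (pos q₀ m) (sh 0 0 η)) n|}) := by
    intro η hη
    by_contra hno
    simp only [Set.mem_union, not_or] at hno
    obtain ⟨g1, g2, g3⟩ := hno
    have g0 : |X β h (sh m (pos q₀ m) (sh 0 0 η)) n - a| ≤ R := hη
    have g1' : ε * m < |X β h (sh 0 0 η) (m + n) - (a + Λ * m)| := not_le.1 g1
    have g3' : |X β h (sh 0 0 η) (m + n) - X β h (sh m (pos q₀ m) (sh 0 0 η)) n| < M / 16 :=
      not_le.1 g3
    have h1 := abs_le.1 g0
    have h2 := abs_lt.1 g3'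
    have hΛ1 : Λ * m ≤ |Λ| * m := mul_le_mul_of_nonneg_right (le_abs_self _) (by linarith)
    have hΛ2 : -(|Λ| * m) ≤ Λ * m := by
      rw [← neg_mul]
      exact mul_le_mul_of_nonneg_right (neg_abs_le _) (by linarith)
    refine g2 ⟨g1', ?_⟩
    rw [abs_le]
    constructor <;> linarith
  have h1 := measureReal_mono (μ := law d ρ) hsub2
  have h2 := measureReal_union_le (μ := law d ρ)
    {η : Env d | |X β h (sh 0 0 η) (m + n) - (a + Λ * m)| ≤ ε * m}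
    ({η : Env d | ε * m < |X β h (sh 0 0 η) (m + n) - (a + Λ * m)| ∧
        |X β h (sh 0 0 η) (m + n) - (a + Λ * m)| ≤ M / 8} ∪
      {η | M / 16 ≤ |X β h (sh 0 0 η) (m + n) -
      X β h (sh m (pos q₀ m) (sh 0 0 η)) n|})
  have h3 := measureReal_union_le (μ := law d ρ)
    {η : Env d | ε * m < |X β h (sh 0 0 η) (m + n) - (a + Λ * m)| ∧
        |X β h (sh 0 0 η) (m + n) - (a + Λ * m)| ≤ M / 8}
    {η | M / 16 ≤ |X β h (sh 0 0 η) (m + n) - X β h (sh m (pos q₀ m) (sh 0 0 η)) n|}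
  linarith

end Pool.Agent.W_7d29a1_AC.Fl27
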