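import Pool.Agent.W_7d29a1_NV.KapT77
import Pool.Agent.W_7d29a1_AC.DefsAC8

/-!
Theorem AC, leaf C1, first part: the selections of the model are those of the polymer on every set
of environments which does not see the resampled rows.
-/

set_option autoImplicit false

namespace Pool.Agent.W_7d29a1_AC.C30

open MeasureTheory ProbabilityTheory Filter Topology Pool.Agent.W_MP_7d29a1_pr
  Pool.Agent.W_7d29a1_h46 Pool.Agent.W_7d29a1_h46u Pool.Agent.W_7d29a1_D2.B35
  Pool.Agent.W_7d29a1_Q29 Pool.Agent.W_7d29a1_NV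

variable {d : ℕ} {ρ : Measure ℝ} {β b : ℝ}

/-- The set `D` does not see the bounded values of the rows `T i`. -/
def Inv (b : ℝ) {k : ℕ} (T : Fin k → ℕ) (D : Set (Env d)) : Prop :=
  ∀ η η' : Env d, (∀ p, η' p = η p ∨ ((∃ i, T i = p.1) ∧ |η p| ≤ b ∧ |η' p| ≤ b)) →
    (η' ∈ D ↔ η ∈ D)

lemma cl_abs30 (hb : 0 ≤ b) (x : ℝ) : |cl b x| ≤ b := by
  unfold cl
  rw [abs_le]
  exact ⟨le_max_left _ _, max_le (by linarith) (min_le_left _ _)⟩

lemma inv_rest30 (hb : 0 ≤ b) {m : ℕ} {T : Fin (m + 1) → ℕ} {D : Set (Env d)} (hD : Inv b T D)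
    (i : Fin (m + 1)) (η : Env d) (ξ : Fin m → Env d) :
    mxJ b (fun j => T (i.succAbove j)) η ξ ∈ D ↔ η ∈ D := by
  refine hD η _ fun p => ?_
  unfold mxJ
  by_cases h : (∃ j, T (i.succAbove j) = p.1) ∧ |η p| ≤ b
  · right
    rw [dif_pos h]
    exact ⟨⟨_, h.1.choose_spec⟩, h.2, cl_abs30 hb _⟩
  · left
    rw [dif_neg h]

lemma row30 [IsProbabilityMeasure ρ] (hb : HB ρ b) (hW : MixT d ρ b) {m : ℕ}
    {T : Fin (m + 1) → ℕ} (hT : Function.Injective T) (i : Fin (m + 1))
    (F : Env d → Env d → ℝ) (hF : Measurable (Function.uncurry F)) (C : ℝ)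
    (hC : ∀ η ξ, |F η ξ| ≤ C) {D : Set (Env d)} (hDm : MeasurableSet D) (hD : Inv b T D) :
    ∫ η in D, ∫ ξ : Fin (m + 1) → Env d, F (mxJ b (fun j => T (i.succAbove j)) η
      (fun j => ξ (i.succAbove j))) (ξ i) ∂(Measure.pi fun _ => law d (rb ρ b)) ∂(law d ρ) =
    ∫ η in D, ∫ ξ, F η ξ ∂(law d (rb ρ b)) ∂(law d ρ) := by
  classical
  have := M66.prob_rb hb
  have hm : Measurable (Function.uncurry fun η ξ => D.indicator (fun η => F η ξ) η) := by
    have e : (Function.uncurry fun η ξ => D.indicator (fun η => F η ξ) η) =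
        (Prod.fst ⁻¹' D).indicator (Function.uncurry F) := by
      funext w
      by_cases hw : w.1 ∈ D
      · simp [Function.uncurry, hw]
      · simp [Function.uncurry, hw]
    rw [e]
    exact hF.indicator (measurable_fst hDm)
  have hb' : ∀ η ξ, |D.indicator (fun η => F η ξ) η| ≤ C := by
    intro η ξ
    by_cases hη : η ∈ D
    · rw [Set.indicator_of_mem hη]
      exact hC η ξ
    · rw [Set.indicator_of_notMem hη, abs_zero]
      exact (abs_nonneg _).trans (hC η ξ)
  have key := row77 hb hW hT i (fun η ξ => D.indicator (fun η => F η ξ) η) hm C hb'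
  rw [← integral_indicator hDm, ← integral_indicator hDm]
  refine Eq.trans ?_ (key.trans ?_)
  · congr 1
    funext η
    by_cases hη : η ∈ D
    · rw [Set.indicator_of_mem hη]
      congr 1
      funext ξ
      rw [Set.indicator_of_mem ((inv_rest30 hb.b0.le hD i η _).2 hη)]
    · rw [Set.indicator_of_notMem hη]
      have e : (fun ξ : Fin (m + 1) → Env d =>
          D.indicator (fun η => F η (ξ i)) (mxJ b (fun j => T (i.succAbove j)) η
            (fun j => ξ (i.succAbove j)))) = fun _ => 0 := by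
        funext ξ
        exact Set.indicator_of_notMem (fun h => hη ((inv_rest30 hb.b0.le hD i η _).1 h)) _
      rw [e, integral_zero]
  · congr 1
    funext η
    by_cases hη : η ∈ D
    · simp only [Set.indicator_of_mem hη]
    · simp only [Set.indicator_of_notMem hη, integral_zero]

/-- Item 1. -/
theorem kap130 (hd : 0 < d) [IsProbabilityMeasure ρ] (hb : HB ρ b) (hE : EqT d ρ β b)
    (hW : MixT d ρ b) (h : Vec d) (n k : ℕ) (T : Fin k → ℕ) (r : Fin (k + 1) → ℕ)
    (hO : Ord n T r) (i : Fin k) {D : Set (Env d)} (hDm : MeasurableSet D) (hD : Inv b T D) :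
    ∫ η in D, kaT (law d (rb ρ b)) (Qsp ρ β b h n T r η) (usp ρ β b h n T r η) i ∂(law d ρ) =
      ∫ η in D, kapE ρ β b h n (T i) (r i.castSucc) (r i.succ) η ∂(law d ρ) := by
  cases k with
  | zero => exact i.elim0
  | succ m =>
  have hT := hO.strict77.injective
  have hi := hO.1 i
  have hn : r i.succ ≤ n := (hO.mono77 (Fin.le_last _)).trans hO.2
  let F : Env d → Env d → ℝ := fun η ξ => ∑ x ∈ boxF d n, ∑ y ∈ boxF d n,
    pab β h n (r i.castSucc) (r i.succ) x y (mx b (T i) η ξ) *
      (Real.log (uab ρ β b h (T i) (r i.castSucc) (r i.succ) x y η ξ) -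
        psab ρ β b h (T i) (r i.castSucc) (r i.succ) x y η)
  have hF : Measurable (Function.uncurry F) := by
    refine Finset.measurable_sum _ fun x _ => Finset.measurable_sum _ fun y _ => ?_
    refine ((pab_meas77 β h n _ _ x y).comp (M66.mx_meas b (T i) measurable_fst
      measurable_snd)).mul ?_
    exact (Real.measurable_log.comp (M66.uab_meas ρ β b h _ _ _ x y measurable_fst
      measurable_snd)).sub ((M66.psab_meas hb β h _ _ _ x y).comp measurable_fst)
  have hC : ∀ η ξ, |F η ξ| ≤ 2 * Bc β b := fun η ξ =>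
    pab_avg77 hd β h _ (hi.1.le.trans hi.2) hn fun x hx y hy =>
      dev77 hb hE h hi.1 hi.2 hn η ξ hx hy
  have key := row30 hb hW hT i F hF _ hC hDm hD
  unfold kapE
  refine Eq.trans ?_ key
  refine integral_congr_ae (Filter.Eventually.of_forall fun η => ?_)
  unfold kaT
  refine integral_congr_ae (Filter.Eventually.of_forall fun ξ => ?_)
  have hloc : ∀ p : ℕ × Site d, r i.castSucc < p.1 → p.1 ≤ r i.succ →
      η p = mxJ b (fun j => T (i.succAbove j)) η (fun j => ξ (i.succAbove j)) p := by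
    intro p h1 h2
    rw [mxJ_off77]
    intro j h3
    exact hO.out77 (Fin.succAbove_ne i j) ⟨by rw [h3]; exact h1, by rw [h3]; exact h2⟩
  have h1 := marg77 β h (mxJ b T η ξ) r (fun j => hO.mono77 (Fin.castSucc_lt_succ (i := j)).le)
    hO.2 i.castSucc i.succ (Fin.castSucc_lt_succ (i := i)).le (fun x y =>
      Real.log (uab ρ β b h (T i) (r i.castSucc) (r i.succ) x y η (ξ i)) -
        psab ρ β b h (T i) (r i.castSucc) (r i.succ) x y η)
  have h2 : ∑ s, prT (Qsp ρ β b h n T r η) (usp ρ β b h n T r η) ξ s *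
      (Real.log (usp ρ β b h n T r η i s (ξ i)) -
        psT (law d (rb ρ b)) (usp ρ β b h n T r η) i s) =
      ∑ s : Sp d n (m + 1), msp β h n r s (mxJ b T η ξ) *
        (Real.log (uab ρ β b h (T i) (r i.castSucc) (r i.succ) (s i.castSucc) (s i.succ) η (ξ i)) -
        psab ρ β b h (T i) (r i.castSucc) (r i.succ) (s i.castSucc) (s i.succ) η) :=
    Finset.sum_congr rfl fun s _ => by rw [((hE h n (m + 1) T r hO η).2 ξ).1 s]; rfl
  refine h2.trans (h1.trans ?_)
  refine Finset.sum_congr rfl fun x _ => Finset.sum_congr rfl fun y _ => ?_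
  rw [mxJ_insert77 b hT i η ξ, uab_congr77 ρ β b h (T i) hloc x y (ξ i),
    psab_congr77 ρ β b h (T i) hloc x y]

/-- Item 2. -/
theorem kap230 (hd : 0 < d) [IsProbabilityMeasure ρ] (hb : HB ρ b) (hE : EqT d ρ β b)
    (hW : MixT d ρ b) (h : Vec d) (n k : ℕ) (T : Fin k → ℕ) (r : Fin (k + 1) → ℕ)
    (hO : Ord n T r) (i : Fin k) {D : Set (Env d)} (hDm : MeasurableSet D) (hD : Inv b T D) :
    ∫ η in D, ouT (law d (rb ρ b)) fsp (Qsp ρ β b h n T r η) (usp ρ β b h n T r η) i
        ∂(law d ρ) =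
      ∫ η in D, kapE ρ β b h n (T i) (r 0) (r (Fin.last k)) η ∂(law d ρ) := by
  cases k with
  | zero => exact i.elim0
  | succ m =>
  have := M66.prob_rb hb
  have hT := hO.strict77.injective
  have hn := hO.2
  have h0 : r 0 < T i := (hO.mono77 (Fin.zero_le _)).trans_lt (hO.1 i).1
  have h9 : T i ≤ r (Fin.last (m + 1)) := (hO.1 i).2.trans (hO.mono77 (Fin.le_last _))
  have h09 := h0.le.trans h9
  let H : Env d → Env d → Env d → ℝ := fun η ξ x' =>
    ∑ q : {x : Site d // x ∈ boxF d n} × {x : Site d // x ∈ boxF d n},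
      pab β h n (r 0) (r (Fin.last (m + 1))) q.1 q.2 (mx b (T i) η ξ) *
        (Real.log (pab β h n (r 0) (r (Fin.last (m + 1))) q.1 q.2 (mx b (T i) η ξ)) -
          Real.log (pab β h n (r 0) (r (Fin.last (m + 1))) q.1 q.2 (mx b (T i) η x')))
  let F : Env d → Env d → ℝ := fun η ξ => ∫ x', H η ξ x' ∂(law d (rb ρ b))
  have p1 : ∀ η' : Env d, ∑ q : {x : Site d // x ∈ boxF d n} × {x : Site d // x ∈ boxF d n},
      pab β h n (r 0) (r (Fin.last (m + 1))) q.1 q.2 η' = 1 := fun η' => by
    rw [sum_sub77 fun x y => pab β h n (r 0) (r (Fin.last (m + 1))) x y η']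
    exact pab_sum77 hd β h η' h09 hn
  have hHm : Measurable fun w : (Env d × Env d) × Env d => H w.1.1 w.1.2 w.2 := by
    refine Finset.measurable_sum _ fun q _ => ?_
    have m1 : Measurable fun w : (Env d × Env d) × Env d =>
        pab β h n (r 0) (r (Fin.last (m + 1))) q.1 q.2 (mx b (T i) w.1.1 w.1.2) :=
      (pab_meas77 β h n _ _ _ _).comp (M66.mx_meas b (T i) (measurable_fst.comp measurable_fst)
        (measurable_snd.comp measurable_fst))
    have m2 : Measurable fun w : (Env d × Env d) × Env d =>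
        pab β h n (r 0) (r (Fin.last (m + 1))) q.1 q.2 (mx b (T i) w.1.1 w.2) :=
      (pab_meas77 β h n _ _ _ _).comp (M66.mx_meas b (T i) (measurable_fst.comp measurable_fst)
        measurable_snd)
    exact m1.mul ((Real.measurable_log.comp m1).sub (Real.measurable_log.comp m2))
  have hHb : ∀ η ξ x', |H η ξ x'| ≤ 4 * Bc β b := by
    intro η ξ x'
    obtain ⟨Q, D', Q0, Dm, D0, Dl, hp, hu⟩ := pair77 hE h h0 h9 hn η
    have e := s1id77 Q (fun q ξ => uab ρ β b h (T i) (r 0) (r (Fin.last (m + 1))) q.1 q.2 η ξ) D'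
      (fun ξ q => pab β h n (r 0) (r (Fin.last (m + 1))) q.1 q.2 (mx b (T i) η ξ))
      (fun q ξ => (hu q ξ).1) Q0 D0 (fun ξ q => hp q ξ) (fun ξ => p1 _) ξ x'
    have e1 : |∑ q : {x : Site d // x ∈ boxF d n} × {x : Site d // x ∈ boxF d n},
        pab β h n (r 0) (r (Fin.last (m + 1))) q.1 q.2 (mx b (T i) η ξ) *
        (Real.log (uab ρ β b h (T i) (r 0) (r (Fin.last (m + 1))) q.1 q.2 η ξ) -
          Real.log (uab ρ β b h (T i) (r 0) (r (Fin.last (m + 1))) q.1 q.2 η x'))| ≤
        2 * Bc β b := by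
      rw [sum_sub77 fun x y => pab β h n (r 0) (r (Fin.last (m + 1))) x y (mx b (T i) η ξ) *
        (Real.log (uab ρ β b h (T i) (r 0) (r (Fin.last (m + 1))) x y η ξ) -
          Real.log (uab ρ β b h (T i) (r 0) (r (Fin.last (m + 1))) x y η x'))]
      refine pab_avg77 hd β h _ h09 hn fun x hx y hy => ?_
      have h1 := abs_le.1 (lg77 hE h h0 h9 hn η ξ hx hy)
      have h2 := abs_le.1 (lg77 hE h h0 h9 hn η x' hx hy)
      rw [abs_le]
      constructor <;> linarith
    have e2 : H η ξ x' = _ := e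
    rw [e2]
    have h1 := abs_le.1 e1
    have h2 := abs_le.1 (Dl ξ)
    have h3 := abs_le.1 (Dl x')
    rw [abs_le]
    constructor <;> linarith
  have hF : Measurable (Function.uncurry F) :=
    (hHm.stronglyMeasurable.integral_prod_right (ν := law d (rb ρ b))).measurable
  have hC : ∀ η ξ, |F η ξ| ≤ 4 * Bc β b := by
    intro η ξ
    refine (abs_integral_le_integral_abs).trans ?_
    have h2 := integral_mono (ibd77 (P := law d (rb ρ b))
      (hHm.comp (measurable_prodMk_left (x := (η, ξ)))) (hHb η ξ)).abs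
      (integrable_const (4 * Bc β b)) (hHb η ξ)
    simpa using h2
  have key := row30 hb hW hT i F hF _ hC hDm hD
  refine Eq.trans ?_ (key.trans ?_)
  · refine integral_congr_ae (Filter.Eventually.of_forall fun η => ?_)
    unfold ouT
    refine integral_congr_ae (Filter.Eventually.of_forall fun ξ => ?_)
    refine integral_congr_ae (Filter.Eventually.of_forall fun x' => ?_)
    refine Finset.sum_congr rfl fun q _ => ?_
    rw [cl77 hE h hO η ξ q, cl77 hE h hO η (Function.update ξ i x') q,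
      mxJ_insert77 b hT i η ξ, mxJ_insert77 b hT i η (Function.update ξ i x'),
      Function.update_self]
    have h5 : (fun j => Function.update ξ i x' (i.succAbove j)) = fun j => ξ (i.succAbove j) :=
      funext fun j => Function.update_of_ne (Fin.succAbove_ne i j) _ _
    rw [h5]
  · unfold kapE
    refine integral_congr_ae (Filter.Eventually.of_forall fun η => ?_)
    obtain ⟨Q, D', Q0, Dm, D0, Dl, hp, hu⟩ := pair77 hE h h0 h9 hn η
    have e := s177 (law d (rb ρ b)) Q
      (fun q ξ => uab ρ β b h (T i) (r 0) (r (Fin.last (m + 1))) q.1 q.2 η ξ) D'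
      (fun ξ q => pab β h n (r 0) (r (Fin.last (m + 1))) q.1 q.2 (mx b (T i) η ξ)) (Bc β b)
      (fun q => M66.uab_meas ρ β b h _ _ _ _ _ measurable_const measurable_id)
      (fun q ξ => (hu q ξ).1) (fun q ξ => (hu q ξ).2) Q0 Dm D0 Dl (fun ξ q => hp q ξ)
      (fun ξ => p1 _)
    refine Eq.trans e ?_
    refine integral_congr_ae (Filter.Eventually.of_forall fun ξ => ?_)
    exact sum_sub77 fun x y => pab β h n (r 0) (r (Fin.last (m + 1))) x y (mx b (T i) η ξ) *
        (Real.log (uab ρ β b h (T i) (r 0) (r (Fin.last (m + 1))) x y η ξ) -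
          psab ρ β b h (T i) (r 0) (r (Fin.last (m + 1))) x y η)

end Pool.Agent.W_7d29a1_AC.C30
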