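import Mathlib

/-!
The inequality of Erdos, Littlewood and Offord, from Sperner's theorem.
-/

namespace Pool.Agent.W_7d29a1_AC

open Finset

/-- The middle binomial coefficient. -/
theorem cb42 (m : ℕ) : ((m.centralBinom : ℝ)) ^ 2 * (2 * m + 1) ≤ 16 ^ m := by
  induction m with
  | zero => simp
  | succ m ih =>
    have h := Nat.succ_mul_centralBinom_succ m
    have h' : ((m : ℝ) + 1) * ((m + 1).centralBinom : ℝ) =
        2 * (2 * m + 1) * (m.centralBinom : ℝ) := by exact_mod_cast h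
    have hm : (0 : ℝ) < (m : ℝ) + 1 := by positivity
    have e : ((m + 1).centralBinom : ℝ) = 2 * (2 * m + 1) * (m.centralBinom : ℝ) / (m + 1) := by
      rw [eq_div_iff hm.ne']; linarith
    rw [e]
    push_cast
    have h1 : (2 * (2 * (m : ℝ) + 1) * (m.centralBinom : ℝ) / (m + 1)) ^ 2 * (2 * (m + 1) + 1) =
        ((m.centralBinom : ℝ) ^ 2 * (2 * m + 1)) *
          (4 * ((2 * m + 1) * (2 * m + 3)) / (m + 1) ^ 2) := by
      field_simp; ring
    rw [h1, pow_succ (16 : ℝ) m]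
    have h2 : 4 * ((2 * (m : ℝ) + 1) * (2 * m + 3)) / (m + 1) ^ 2 ≤ 16 := by
      rw [div_le_iff₀ (by positivity)]; nlinarith
    exact mul_le_mul ih h2 (by positivity) (by positivity)

theorem ch42 (q : ℕ) : ((q.choose (q / 2) : ℕ) : ℝ) * Real.sqrt (q + 1) ≤ 2 ^ q := by
  obtain ⟨m, hm⟩ := Nat.even_or_odd' q
  rcases hm with rfl | rfl
  · have h1 : (2 * m) / 2 = m := by omega
    rw [h1]
    have h2 : (((2 * m).choose m : ℕ) : ℝ) = (m.centralBinom : ℝ) := by
      rw [Nat.centralBinom]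
    rw [h2]
    apply le_of_sq_le_sq _ (by positivity)
    rw [mul_pow, Real.sq_sqrt (by positivity)]
    have h3 := cb42 m
    push_cast
    calc _ ≤ (16 : ℝ) ^ m := h3
      _ = _ := by rw [← pow_mul, mul_comm (2 * m) 2, ← mul_assoc, pow_mul]; norm_num
  · have h1 : (2 * m + 1) / 2 = m := by omega
    rw [h1]
    have h2 : ((m + 1).centralBinom : ℝ) = 2 * (((2 * m + 1).choose m : ℕ) : ℝ) := by
      have := Nat.succ_mul_centralBinom_succ m
      have h4 : (m + 1).centralBinom = 2 * (2 * m + 1).choose m := by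
        rw [Nat.centralBinom, show 2 * (m + 1) = (2 * m + 1) + 1 by ring, Nat.choose_succ_succ,
          ← Nat.choose_symm_half m]
        ring
      exact_mod_cast h4
    apply le_of_sq_le_sq _ (by positivity)
    rw [mul_pow, Real.sq_sqrt (by positivity)]
    have h3 := cb42 (m + 1)
    rw [h2] at h3
    push_cast at h3 ⊢
    have h5 : (16 : ℝ) ^ (m + 1) = 4 * (2 ^ (2 * m + 1)) ^ 2 := by
      rw [← pow_mul, show (2 * m + 1) * 2 = 4 * m + 2 by ring, pow_add (2 : ℝ), pow_mul,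
        pow_succ (16 : ℝ)]
      norm_num; ring
    rw [h5] at h3
    have h6 : 0 ≤ (((2 * m + 1).choose m : ℕ) : ℝ) ^ 2 := by positivity
    nlinarith

section LO

variable {ι : Type} [Fintype ι] [DecidableEq ι]

/-- The nonnegative case, with a fixed part outside the large indices. -/
theorem fib42 (g : ι → ℝ) (h0 : ∀ i, 0 ≤ g i) (t x : ℝ) (τ : Finset ι) :
    (univ.filter fun ε : Finset ι => (ε \ univ.filter fun i => t ≤ g i) = τ ∧
      x ≤ ∑ i ∈ ε, g i ∧ ∑ i ∈ ε, g i < x + t).card ≤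
      (univ.filter fun i => t ≤ g i).card.choose ((univ.filter fun i => t ≤ g i).card / 2) := by
  classical
  set L : Finset ι := univ.filter fun i => t ≤ g i with hL
  set F : Finset (Finset ι) := univ.filter fun ε : Finset ι => (ε \ L) = τ ∧
      x ≤ ∑ i ∈ ε, g i ∧ ∑ i ∈ ε, g i < x + t with hF
  let φ : Finset ι → Finset L := fun ε => ε.subtype (· ∈ L)
  have hmem : ∀ (ε : Finset ι) (i : L), i ∈ φ ε ↔ (i : ι) ∈ ε := fun ε i => by
    simp [φ]
  have hsub : ∀ ε₁ ∈ F, ∀ ε₂ ∈ F, φ ε₁ ⊆ φ ε₂ → ε₁ ⊆ ε₂ := by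
    intro ε₁ h₁ ε₂ h₂ h i hi
    by_cases hiL : i ∈ L
    · exact (hmem ε₂ ⟨i, hiL⟩).1 (h ((hmem ε₁ ⟨i, hiL⟩).2 hi))
    · have e1 : i ∈ ε₁ \ L := mem_sdiff.2 ⟨hi, hiL⟩
      rw [(mem_filter.1 h₁).2.1, ← (mem_filter.1 h₂).2.1] at e1
      exact (mem_sdiff.1 e1).1
  have hinj : Set.InjOn φ (F : Set (Finset ι)) := fun ε₁ h₁ ε₂ h₂ h =>
    subset_antisymm (hsub ε₁ h₁ ε₂ h₂ h.subset) (hsub ε₂ h₂ ε₁ h₁ h.symm.subset)
  rw [← card_image_of_injOn hinj]
  have hanti : IsAntichain (· ⊆ ·) ((F.image φ : Finset (Finset L)) : Set (Finset L)) := by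
    intro A hA B hB hne hAB
    obtain ⟨ε₁, h₁, rfl⟩ := mem_image.1 (mem_coe.1 hA)
    obtain ⟨ε₂, h₂, rfl⟩ := mem_image.1 (mem_coe.1 hB)
    have hs : ε₁ ⊆ ε₂ := hsub ε₁ h₁ ε₂ h₂ hAB
    have hex : ∃ i : L, i ∈ φ ε₂ ∧ i ∉ φ ε₁ := by
      by_contra hcon
      push Not at hcon
      exact hne (subset_antisymm hAB hcon)
    obtain ⟨i, hi2, hi1⟩ := hex
    have hi2' := (hmem ε₂ i).1 hi2
    have hi1' : (i : ι) ∉ ε₁ := fun h => hi1 ((hmem ε₁ i).2 h)
    have hsum : ∑ j ∈ ε₁, g j + g i ≤ ∑ j ∈ ε₂, g j := by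
      have h3 : insert (i : ι) ε₁ ⊆ ε₂ := insert_subset hi2' hs
      calc ∑ j ∈ ε₁, g j + g i = ∑ j ∈ insert (i : ι) ε₁, g j := by
            rw [sum_insert hi1']; ring
        _ ≤ _ := sum_le_sum_of_subset_of_nonneg h3 fun j _ _ => h0 j
    have hg : t ≤ g i := (mem_filter.1 i.2).2
    have h4 := (mem_filter.1 h₁).2.2.1
    have h5 := (mem_filter.1 h₂).2.2.2
    linarith
  have := hanti.sperner
  rwa [Fintype.card_coe] at this

theorem nn42 (g : ι → ℝ) (h0 : ∀ i, 0 ≤ g i) (t x : ℝ) :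
    ((univ.filter fun ε : Finset ι => x ≤ ∑ i ∈ ε, g i ∧ ∑ i ∈ ε, g i < x + t).card : ℝ) *
      Real.sqrt ((univ.filter fun i => t ≤ g i).card + 1) ≤ 2 ^ Fintype.card ι := by
  classical
  set L : Finset ι := univ.filter fun i => t ≤ g i with hL
  have h1 : (univ.filter fun ε : Finset ι => x ≤ ∑ i ∈ ε, g i ∧ ∑ i ∈ ε, g i < x + t).card ≤
      2 ^ (Lᶜ).card * L.card.choose (L.card / 2) := by
    rw [card_eq_sum_card_fiberwise (f := fun ε : Finset ι => ε \ L) (t := (Lᶜ).powerset)]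
    · calc _ ≤ ∑ _τ ∈ (Lᶜ).powerset, L.card.choose (L.card / 2) := by
            refine sum_le_sum fun τ _ => ?_
            refine le_trans (le_of_eq ?_) (fib42 g h0 t x τ)
            congr 1
            ext ε
            simp only [mem_filter, mem_univ, true_and]
            tauto
        _ = _ := by rw [sum_const, card_powerset, smul_eq_mul]
    · intro ε _
      simp only [coe_powerset, Set.mem_preimage, Set.mem_powerset_iff, coe_subset]
      intro i hi
      exact mem_compl.2 (mem_sdiff.1 hi).2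
  have h2 := ch42 L.card
  have h3 : (Lᶜ).card + L.card = Fintype.card ι := by
    rw [add_comm]; exact card_add_card_compl L
  calc _ ≤ (((2 ^ (Lᶜ).card * L.card.choose (L.card / 2) : ℕ)) : ℝ) * Real.sqrt (L.card + 1) :=
        mul_le_mul_of_nonneg_right (by exact_mod_cast h1) (Real.sqrt_nonneg _)
    _ = 2 ^ (Lᶜ).card * ((L.card.choose (L.card / 2) : ℝ) * Real.sqrt (L.card + 1)) := by
        push_cast; ring
    _ ≤ 2 ^ (Lᶜ).card * 2 ^ L.card := mul_le_mul_of_nonneg_left h2 (by positivity)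
    _ = _ := by rw [← pow_add, h3]

/-- Littlewood and Offord: a window of length `t` catches few subset sums. -/
theorem lo42 (g : ι → ℝ) (t x : ℝ) :
    ((univ.filter fun ε : Finset ι => x ≤ ∑ i ∈ ε, g i ∧ ∑ i ∈ ε, g i < x + t).card : ℝ) *
      Real.sqrt ((univ.filter fun i => t ≤ |g i|).card + 1) ≤ 2 ^ Fintype.card ι := by
  classical
  set N : Finset ι := univ.filter fun i => g i < 0 with hN
  have hkey : ∀ ε : Finset ι, ∑ i ∈ ε, g i = ∑ i ∈ N, g i + ∑ i ∈ symmDiff ε N, |g i| := by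
    intro ε
    have e1 : ∀ s : Finset ι, ∀ f : ι → ℝ, ∑ i ∈ s, f i = ∑ i, if i ∈ s then f i else 0 :=
      fun s f => by rw [← sum_filter]; congr 1; ext i; simp
    rw [e1 ε, e1 N, e1 (symmDiff ε N), ← sum_add_distrib]
    refine sum_congr rfl fun i _ => ?_
    by_cases h1 : i ∈ ε <;> by_cases h2 : i ∈ N
    · have : i ∉ symmDiff ε N := by simp [mem_symmDiff, h1, h2]
      simp [h1, h2, this]
    · have : i ∈ symmDiff ε N := by simp [mem_symmDiff, h1, h2]
      have h3 : 0 ≤ g i := by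
        by_contra h; exact h2 (mem_filter.2 ⟨mem_univ _, not_le.1 h⟩)
      simp [h1, h2, this, abs_of_nonneg h3]
    · have : i ∈ symmDiff ε N := by simp [mem_symmDiff, h1, h2]
      have h3 : g i < 0 := (mem_filter.1 h2).2
      simp [h1, h2, this, abs_of_neg h3]
    · have : i ∉ symmDiff ε N := by simp [mem_symmDiff, h1, h2]
      simp [h1, h2, this]
  have h := nn42 (fun i => |g i|) (fun i => abs_nonneg _) t (x - ∑ i ∈ N, g i)
  refine le_trans (le_of_eq ?_) h
  congr 2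
  refine card_bij (fun ε _ => symmDiff ε N) ?_ ?_ ?_
  · intro ε hε
    have h1 := (mem_filter.1 hε).2
    rw [hkey ε] at h1
    exact mem_filter.2 ⟨mem_univ _, by linarith [h1.1], by linarith [h1.2]⟩
  · intro a _ b _ hab
    exact symmDiff_left_injective N hab
  · intro b hb
    have h1 := (mem_filter.1 hb).2
    have e : symmDiff (symmDiff b N) N = b := by rw [symmDiff_symmDiff_cancel_right]
    refine ⟨symmDiff b N, mem_filter.2 ⟨mem_univ _, ?_⟩, e⟩
    rw [hkey (symmDiff b N), e]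
    exact ⟨by linarith [h1.1], by linarith [h1.2]⟩

end LO

end Pool.Agent.W_7d29a1_AC
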