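import Pool.Agent.W_7d29a1_NV.LOf66

/-!
Theorem AC, leaf A: anti-concentration of the total weight of a selection model.
-/

namespace Pool.Agent.W_7d29a1_AC

open MeasureTheory Filter Pool.Agent.W_7d29a1_NV Pool.Agent.W_7d29a1_NV.LO66

section Fin

variable {Ω S : Type} [MeasurableSpace Ω] [Fintype S] {k : ℕ} {P : Measure Ω}
  [IsProbabilityMeasure P] {Q : S → ℝ} {u : Fin k → S → Ω → ℝ} {B : ℝ}

/-- The signs, integrated. -/
lemma signI (h : HT P Q u B) {a r G : ℝ} (hG : 2 * (r + Real.log 2) < G) :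
    (Measure.pi fun _ : Fin k => P).real {ω | |Real.log (dT Q u ω) - a| ≤ r} ≤
      2 * ∑ i, tT P Q u i + ∫ z, ∑ s, prT Q u (mixF ∅ z) s * hz u G s z
        ∂(Measure.pi fun _ : Fin k => P.prod P) := by
  classical
  set μ : Measure (Fin k → Ω) := Measure.pi fun _ : Fin k => P with hμ
  set ν : Measure (Fin k → Ω × Ω) := Measure.pi fun _ : Fin k => P.prod P with hν
  obtain ⟨A, hA⟩ : ∃ A : Set (Fin k → Ω), A = {ω | |Real.log (dT Q u ω) - a| ≤ r} := ⟨_, rfl⟩
  have hAm : MeasurableSet A := by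
    rw [hA]
    exact measurableSet_le ((Real.measurable_log.comp (dT_meas6 h)).sub_const a).abs
      measurable_const
  rw [← hA]
  have hX : ∀ J : Finset (Fin k), (fun z : Fin k → Ω × Ω =>
      (if |Real.log (dT Q u (mixF J z)) - a| ≤ r then (1 : ℝ) else 0)) =
      fun z => A.indicator (fun _ => (1 : ℝ)) (mixF J z) := by
    intro J
    funext z
    by_cases hz : |Real.log (dT Q u (mixF J z)) - a| ≤ r
    · rw [if_pos hz, Set.indicator_of_mem (show mixF J z ∈ A by rw [hA]; exact hz)]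
    · rw [if_neg hz, Set.indicator_of_notMem (show mixF J z ∉ A by rw [hA]; exact hz)]
  have hAi : Integrable (A.indicator fun _ => (1 : ℝ)) μ := (integrable_const (1 : ℝ)).indicator hAm
  have hXi : ∀ J : Finset (Fin k), Integrable (fun z : Fin k → Ω × Ω =>
      (if |Real.log (dT Q u (mixF J z)) - a| ≤ r then (1 : ℝ) else 0)) ν := by
    intro J
    rw [hX J]
    exact (mp_mixF (P := P) J).integrable_comp_of_integrable hAi
  have hXe : ∀ J : Finset (Fin k), ∫ z, (if |Real.log (dT Q u (mixF J z)) - a| ≤ r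
      then (1 : ℝ) else 0) ∂ν = μ.real A := by
    intro J
    rw [hX J]
    have hmp := mp_mixF (P := P) J
    have h2 := integral_map (μ := ν) (φ := mixF J) hmp.measurable.aemeasurable
      (f := A.indicator fun _ => (1 : ℝ))
      (measurable_const.indicator hAm).aestronglyMeasurable
    rw [hmp.map_eq] at h2
    rw [← h2, integral_indicator_const _ hAm]
    simp [hμ]
  have hmJ : ∀ J : Finset (Fin k), Measurable fun z : Fin k → Ω × Ω =>
      ∑ s, |prT Q u (mixF ∅ z) s - prT Q u (mixF J z) s| := fun J =>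
    Finset.measurable_sum _ fun s _ => (((prT_meas6 h s).comp (mp_mixF (P := P) ∅).measurable).sub
      ((prT_meas6 h s).comp (mp_mixF (P := P) J).measurable)).abs
  have hiJ : ∀ J : Finset (Fin k), Integrable (fun z : Fin k → Ω × Ω =>
      ∑ s, |prT Q u (mixF ∅ z) s - prT Q u (mixF J z) s|) ν := fun J =>
    ib66 (hmJ J) fun z => sum_abs_bd fun s => d1 h _ _ s
  have hR : Integrable (fun z : Fin k → Ω × Ω =>
      ∑ s, prT Q u (mixF ∅ z) s * hz u G s z) ν := by
    refine ib66 (Finset.measurable_sum _ fun s _ =>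
      ((prT_meas6 h s).comp (mp_mixF (P := P) ∅).measurable).mul (hz_meas h G s)) (C := 1)
      fun z => prm6 h _ fun s => ?_
    rw [abs_of_nonneg (hz_nn _ _ _ _)]
    exact hz_le _ _ _ _
  have hpt : ∀ z : Fin k → Ω × Ω,
      (∑ J : Finset (Fin k), if |Real.log (dT Q u (mixF J z)) - a| ≤ r then (1 : ℝ) else 0) ≤
      2 * (∑ J : Finset (Fin k), ∑ s, |prT Q u (mixF ∅ z) s - prT Q u (mixF J z) s|) +
      2 ^ k * ∑ s, prT Q u (mixF ∅ z) s * hz u G s z := fun z => step2 h z hG
  have i1 : Integrable (fun z : Fin k → Ω × Ω => ∑ J : Finset (Fin k),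
      (if |Real.log (dT Q u (mixF J z)) - a| ≤ r then (1 : ℝ) else 0)) ν :=
    integrable_finsetSum _ fun J _ => hXi J
  have i2 : Integrable (fun z : Fin k → Ω × Ω => 2 * (∑ J : Finset (Fin k),
      ∑ s, |prT Q u (mixF ∅ z) s - prT Q u (mixF J z) s|)) ν :=
    (integrable_finsetSum _ fun J _ => hiJ J).const_mul 2
  have i3 : Integrable (fun z : Fin k → Ω × Ω =>
      2 ^ k * ∑ s, prT Q u (mixF ∅ z) s * hz u G s z) ν := hR.const_mul _
  have h1 := integral_mono i1 (i2.add i3) hpt
  have e1 : ∫ z, (∑ J : Finset (Fin k),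
      (if |Real.log (dT Q u (mixF J z)) - a| ≤ r then (1 : ℝ) else 0)) ∂ν =
      2 ^ k * μ.real A := by
    rw [integral_finsetSum _ fun J _ => hXi J, Finset.sum_congr rfl fun J _ => hXe J,
      Finset.sum_const, Finset.card_univ, Fintype.card_finset, Fintype.card_fin, nsmul_eq_mul]
    push_cast
    rfl
  have e2 : ∫ z, ((fun z : Fin k → Ω × Ω => 2 * (∑ J : Finset (Fin k),
      ∑ s, |prT Q u (mixF ∅ z) s - prT Q u (mixF J z) s|)) +
      fun z : Fin k → Ω × Ω => 2 ^ k * ∑ s, prT Q u (mixF ∅ z) s * hz u G s z) z ∂ν =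
      2 * (∑ J : Finset (Fin k), ∫ z, (∑ s, |prT Q u (mixF ∅ z) s -
        prT Q u (mixF J z) s|) ∂ν) +
      2 ^ k * ∫ z, ∑ s, prT Q u (mixF ∅ z) s * hz u G s z ∂ν := by
    rw [integral_add' i2 i3, integral_const_mul, integral_const_mul,
      integral_finsetSum _ fun J _ => hiJ J]
  rw [e1, e2] at h1
  have h3 : ∀ J : Finset (Fin k), ∫ z, (∑ s, |prT Q u (mixF ∅ z) s -
      prT Q u (mixF J z) s|) ∂ν ≤ ∑ i, tT P Q u i := by
    intro J
    have h4 := hyb66 (P := P) (F := fun ω s => prT Q u ω s) (fun s => prT_meas6 h s) (C := 1)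
      (fun ω s => by
        rw [abs_of_nonneg (prT_nn6 h ω s)]
        exact prT_le6 h ω s) J
    refine h4.trans ?_
    exact Finset.sum_le_sum_of_subset_of_nonneg (Finset.subset_univ _)
      fun i _ _ => tT_nn P Q u i
  have h5 : ∑ J : Finset (Fin k), ∫ z, (∑ s, |prT Q u (mixF ∅ z) s -
      prT Q u (mixF J z) s|) ∂ν ≤ 2 ^ k * ∑ i, tT P Q u i := by
    refine (Finset.sum_le_sum fun J _ => h3 J).trans (le_of_eq ?_)
    rw [Finset.sum_const, Finset.card_univ, Fintype.card_finset, Fintype.card_fin, nsmul_eq_mul]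
    push_cast
    rfl
  have h2k : (0 : ℝ) < 2 ^ k := by positivity
  have h6 : 2 ^ k * μ.real A ≤ 2 ^ k * (2 * ∑ i, tT P Q u i +
      ∫ z, ∑ s, prT Q u (mixF ∅ z) s * hz u G s z ∂ν) := by
    linarith
  exact le_of_mul_le_mul_left h6 h2k

/-- The law of the class is replaced by its mean. -/
lemma meanI (h : HT P Q u B) (G : ℝ) :
    ∫ z, ∑ s, prT Q u (mixF ∅ z) s * hz u G s z ∂(Measure.pi fun _ : Fin k => P.prod P) ≤
      ∑ i, tT P Q u i + ∑ s, gb P Q u s *
        ∫ z, hz u G s z ∂(Measure.pi fun _ : Fin k => P.prod P) := by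
  classical
  set μ : Measure (Fin k → Ω) := Measure.pi fun _ : Fin k => P with hμ
  set ν : Measure (Fin k → Ω × Ω) := Measure.pi fun _ : Fin k => P.prod P with hν
  have hgb : ∀ s, 0 ≤ gb P Q u s ∧ gb P Q u s ≤ 1 := by
    intro s
    refine ⟨integral_nonneg fun ω => prT_nn6 h ω s, ?_⟩
    have h2 := norm_integral_le_of_norm_le_const (μ := μ)
      (f := fun ω => prT Q u ω s) (C := 1)
      (Eventually.of_forall fun ω => by
        rw [Real.norm_eq_abs, abs_of_nonneg (prT_nn6 h ω s)]
        exact prT_le6 h ω s)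
    have h3 := (le_abs_self _).trans h2
    simpa [gb] using h3
  have hR : Integrable (fun z : Fin k → Ω × Ω =>
      ∑ s, prT Q u (mixF ∅ z) s * hz u G s z) ν := by
    refine ib66 (Finset.measurable_sum _ fun s _ =>
      ((prT_meas6 h s).comp (mp_mixF (P := P) ∅).measurable).mul (hz_meas h G s)) (C := 1)
      fun z => prm6 h _ fun s => ?_
    rw [abs_of_nonneg (hz_nn _ _ _ _)]
    exact hz_le _ _ _ _
  have hdm : Measurable fun ω : Fin k → Ω => ∑ s, |prT Q u ω s - gb P Q u s| :=
    Finset.measurable_sum _ fun s _ => ((prT_meas6 h s).sub measurable_const).abs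
  have hdi : Integrable (fun ω : Fin k → Ω => ∑ s, |prT Q u ω s - gb P Q u s|) μ :=
    ib66 hdm fun ω => sum_abs_bd fun s => by
      have h1 := prT_le6 h ω s
      have h2 := prT_nn6 h ω s
      obtain ⟨h3, h4⟩ := hgb s
      exact abs_le.2 ⟨by linarith, by linarith⟩
  have hmp := mp_mixF (P := P) (k := k) ∅
  have hdi2 : Integrable (fun z : Fin k → Ω × Ω =>
      ∑ s, |prT Q u (mixF ∅ z) s - gb P Q u s|) ν := hmp.integrable_comp_of_integrable hdi
  have hhi : ∀ s, Integrable (fun z : Fin k → Ω × Ω => gb P Q u s * hz u G s z) ν := fun s =>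
    (ib66 (hz_meas h G s) (C := 1) fun z => by
      rw [abs_of_nonneg (hz_nn _ _ _ _)]
      exact hz_le _ _ _ _).const_mul _
  have hpt : ∀ z : Fin k → Ω × Ω, ∑ s, prT Q u (mixF ∅ z) s * hz u G s z ≤
      (∑ s, |prT Q u (mixF ∅ z) s - gb P Q u s|) + ∑ s, gb P Q u s * hz u G s z := by
    intro z
    rw [← Finset.sum_add_distrib]
    refine Finset.sum_le_sum fun s _ => ?_
    have h1 := le_abs_self (prT Q u (mixF ∅ z) s - gb P Q u s)
    have h2 := hz_nn u G s z
    have h3 := hz_le u G s z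
    have h4 := abs_nonneg (prT Q u (mixF ∅ z) s - gb P Q u s)
    calc prT Q u (mixF ∅ z) s * hz u G s z =
        (prT Q u (mixF ∅ z) s - gb P Q u s) * hz u G s z + gb P Q u s * hz u G s z := by ring
      _ ≤ |prT Q u (mixF ∅ z) s - gb P Q u s| * 1 + gb P Q u s * hz u G s z := by
          refine add_le_add ?_ le_rfl
          exact (mul_le_mul_of_nonneg_right h1 h2).trans (mul_le_mul_of_nonneg_left h3 h4)
      _ = _ := by rw [mul_one]
  have h1 := integral_mono hR (hdi2.add (integrable_finsetSum _ fun s _ => hhi s)) hpt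
  refine h1.trans ?_
  have e1 : ∫ z, ((fun z : Fin k → Ω × Ω => ∑ s, |prT Q u (mixF ∅ z) s - gb P Q u s|) +
      fun z : Fin k → Ω × Ω => ∑ s, gb P Q u s * hz u G s z) z ∂ν =
      ∫ ω, ∑ s, |prT Q u ω s - gb P Q u s| ∂μ + ∑ s, gb P Q u s * ∫ z, hz u G s z ∂ν := by
    rw [integral_add' hdi2 (integrable_finsetSum _ fun s _ => hhi s),
      integral_finsetSum _ fun s _ => hhi s]
    congr 1
    · have h2 := integral_map (μ := ν) (φ := mixF ∅) hmp.measurable.aemeasurable
        (f := fun ω : Fin k → Ω => ∑ s, |prT Q u ω s - gb P Q u s|) hdm.aestronglyMeasurable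
      rw [hmp.map_eq] at h2
      exact h2.symm
    · exact Finset.sum_congr rfl fun s _ => integral_const_mul _ _
  rw [e1]
  exact add_le_add (mean_law h) le_rfl

end Fin

/-- **Leaf A.** -/
theorem loa66 : LOA := by
  intro Ω S _ _ k P _ Q u B G a r hk hB h hG
  have hk0 : (0 : ℝ) < k := by exact_mod_cast hk
  have hlog : Real.log 2 < 0.7 := by
    have := Real.log_two_lt_d9
    linarith
  have hG1 : 2 * (r + Real.log 2) < G - 2 * Real.log 2 := by linarith
  have hT0 : 0 ≤ ∑ i, tT P Q u i := Finset.sum_nonneg fun i _ => tT_nn P Q u i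
  have hA0 : 0 ≤ ∑ i, (Measure.pi fun _ : Fin k => P).real (aS P Q u G i) :=
    Finset.sum_nonneg fun i _ => measureReal_nonneg
  have heB : 1 ≤ Real.exp B := Real.one_le_exp hB
  obtain ⟨x, hx⟩ : ∃ x : ℝ, x = Real.sqrt (Real.exp B / k) := ⟨_, rfl⟩
  have hx0 : 0 ≤ x := by
    rw [hx]
    exact Real.sqrt_nonneg _
  have hx2 : x ^ 2 = Real.exp B / k := by
    rw [hx]
    exact Real.sq_sqrt (by positivity)
  have goal1 : (Measure.pi fun _ : Fin k => P).real {ω | |Real.log (dT Q u ω) - a| ≤ r} ≤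
      13 * Real.exp B * ∑ i, tT P Q u i +
      4 * ((∑ i, (Measure.pi fun _ : Fin k => P).real (aS P Q u G i)) / k) + 10 * x := by
    have hr1 : 0 ≤ 13 * Real.exp B * ∑ i, tT P Q u i := by positivity
    have hr2 : 0 ≤ 4 * ((∑ i, (Measure.pi fun _ : Fin k => P).real (aS P Q u G i)) / k) := by
      positivity
    by_cases hx1 : 1 ≤ 10 * x
    · have h1 : (Measure.pi fun _ : Fin k => P).real {ω | |Real.log (dT Q u ω) - a| ≤ r} ≤ 1 :=
        measureReal_le_one
      linarith
    push Not at hx1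
    have h1 := signI h (a := a) hG1
    have h2 := meanI h (G - 2 * Real.log 2)
    have hgb0 : ∀ s, 0 ≤ gb P Q u s := fun s => integral_nonneg fun ω => prT_nn6 h ω s
    have hgb1 : ∑ s, gb P Q u s = 1 := by
      unfold gb
      rw [← integral_finsetSum _ fun s _ => ib66 (prT_meas6 h s) (C := 1) fun ω => by
        rw [abs_of_nonneg (prT_nn6 h ω s)]
        exact prT_le6 h ω s]
      rw [integral_congr_ae (Eventually.of_forall fun ω => prT_sum6 h ω)]
      simp
    obtain ⟨E, hE⟩ : ∃ E : ℝ, E = 8 / (Real.exp (-B) / 4 * k) +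
        2 / Real.sqrt (Real.exp (-B) / 4 * k) := ⟨_, rfl⟩
    have h3 : ∑ s, gb P Q u s * ∫ z, hz u (G - 2 * Real.log 2) s z
        ∂(Measure.pi fun _ : Fin k => P.prod P) ≤
        E + 4 / k * ∑ i, ((Measure.pi fun _ : Fin k => P).real (aS P Q u G i) +
          3 * Real.exp B * tT P Q u i) := by
      calc ∑ s, gb P Q u s * ∫ z, hz u (G - 2 * Real.log 2) s z
            ∂(Measure.pi fun _ : Fin k => P.prod P)
          ≤ ∑ s, gb P Q u s * (E + 4 / k * ∑ i, qb P u G i s) := by
            refine Finset.sum_le_sum fun s _ => mul_le_mul_of_nonneg_left ?_ (hgb0 s)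
            rw [hE]
            exact hz_int h hk s G
        _ = E + 4 / k * ∑ i, ∑ s, gb P Q u s * qb P u G i s := by
            simp only [mul_add]
            rw [Finset.sum_add_distrib, ← Finset.sum_mul, hgb1, one_mul]
            congr 1
            rw [Finset.sum_comm, Finset.mul_sum]
            refine Finset.sum_congr rfl fun s _ => ?_
            rw [← Finset.mul_sum]
            ring
        _ ≤ _ := by
            refine add_le_add le_rfl (mul_le_mul_of_nonneg_left ?_ (by positivity))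
            exact Finset.sum_le_sum fun i _ => qbar h hB i G
    rw [Finset.sum_add_distrib, ← Finset.mul_sum] at h3
    -- the constants
    have hkx : Real.exp B / k < 1 / 100 := by
      rw [← hx2]
      nlinarith
    have e1 : 8 / (Real.exp (-B) / 4 * k) = 32 * (Real.exp B / k) := by
      rw [Real.exp_neg]
      have := (Real.exp_pos B).ne'
      field_simp
      ring
    have e2 : 2 / Real.sqrt (Real.exp (-B) / 4 * k) = 4 * x := by
      have h4 : Real.exp (-B) / 4 * k = (1 / (2 * x)) ^ 2 := by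
        rw [div_pow, mul_pow, hx2, Real.exp_neg]
        have := (Real.exp_pos B).ne'
        field_simp
        ring
      have hxp : 0 < x := by
        rw [hx]
        exact Real.sqrt_pos.2 (by positivity)
      rw [h4, Real.sqrt_sq (by positivity)]
      field_simp
      ring
    have e3 : E ≤ 10 * x := by
      rw [hE, e1, e2, ← hx2]
      nlinarith
    have e4 : 4 / (k : ℝ) * (∑ i, (Measure.pi fun _ : Fin k => P).real (aS P Q u G i) +
        3 * Real.exp B * ∑ i, tT P Q u i) =
        4 * ((∑ i, (Measure.pi fun _ : Fin k => P).real (aS P Q u G i)) / k) +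
          12 * (Real.exp B / k) * ∑ i, tT P Q u i := by
      field_simp
      ring
    rw [e4] at h3
    have e5 : 12 * (Real.exp B / k) * ∑ i, tT P Q u i ≤ 1 * ∑ i, tT P Q u i :=
      mul_le_mul_of_nonneg_right (by linarith) hT0
    have e6 : 4 * ∑ i, tT P Q u i ≤ 13 * Real.exp B * ∑ i, tT P Q u i :=
      mul_le_mul_of_nonneg_right (by linarith) hT0
    linarith
  rw [hx] at goal1
  exact goal1

end Pool.Agent.W_7d29a1_AC
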