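import Pool.Agent.W_7d29a1_AC.MixB41
import Pool.Agent.W_7d29a1_NV.MeasNV72

/-!
Leaf B2 of Theorem AC: the small ball bound for the polymer.
-/

set_option autoImplicit false

namespace Pool.Agent.W_7d29a1_AC.LoP41

open MeasureTheory ProbabilityTheory Filter Topology Pool.Agent.W_MP_7d29a1_pr
  Pool.Agent.W_7d29a1_h46 Pool.Agent.W_7d29a1_h46u Pool.Agent.W_7d29a1_D2.B35
  Pool.Agent.W_7d29a1_Q29 Pool.Agent.W_7d29a1_NV Pool.Agent.W_7d29a1_AC.EqB41

/-! ### The abstract total weight -/

lemma dT_bd {Ω S : Type} [MeasurableSpace Ω] [Fintype S] {k : ℕ} {P : Measure Ω} {Q : S → ℝ}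
    {u : Fin k → S → Ω → ℝ} {B : ℝ} (hT : HT P Q u B) (ω : Fin k → Ω) :
    Real.exp (-(k * B)) ≤ dT Q u ω ∧ dT Q u ω ≤ Real.exp (k * B) := by
  have h1 : ∀ s, Real.exp (-(k * B)) ≤ ∏ i, u i s (ω i) := by
    intro s
    have h := Finset.prod_le_prod (s := Finset.univ) (f := fun _ : Fin k => Real.exp (-B))
      (g := fun i => u i s (ω i)) (fun _ _ => (Real.exp_pos _).le) (fun i _ => hT.lo i s (ω i))
    rw [Finset.prod_const, Finset.card_univ, Fintype.card_fin, ← Real.exp_nat_mul] at h
    rwa [mul_neg] at h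
  have h2 : ∀ s, ∏ i, u i s (ω i) ≤ Real.exp (k * B) := by
    intro s
    have h := Finset.prod_le_prod (s := Finset.univ) (f := fun i => u i s (ω i))
      (g := fun _ : Fin k => Real.exp B)
      (fun i _ => (Real.exp_pos (-B)).le.trans (hT.lo i s (ω i))) (fun i _ => hT.hi i s (ω i))
    rwa [Finset.prod_const, Finset.card_univ, Fintype.card_fin, ← Real.exp_nat_mul] at h
  unfold dT wT
  constructor
  · calc Real.exp (-(k * B)) = ∑ s, Q s * Real.exp (-(k * B)) := by
          rw [← Finset.sum_mul, hT.q1, one_mul]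
      _ ≤ _ := Finset.sum_le_sum fun s _ => mul_le_mul_of_nonneg_left (h1 s) (hT.q0 s)
  · calc _ ≤ ∑ s, Q s * Real.exp (k * B) :=
          Finset.sum_le_sum fun s _ => mul_le_mul_of_nonneg_left (h2 s) (hT.q0 s)
      _ = Real.exp (k * B) := by rw [← Finset.sum_mul, hT.q1, one_mul]

variable {d : ℕ} {ρ : Measure ℝ} {β b : ℝ}

/-! ### Measurability -/

lemma mxR_meas (b : ℝ) (t J : ℕ) : Measurable fun w : Env d × Env d => mxR b t J w.1 w.2 := by
  classical
  rw [measurable_pi_iff]
  intro p
  have hf : Measurable fun w : Env d × Env d => w.1 p := (measurable_pi_apply p).comp measurable_fst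
  have hg : Measurable fun w : Env d × Env d => w.2 p := (measurable_pi_apply p).comp measurable_snd
  unfold mxR
  by_cases hp : t < p.1 ∧ p.1 ≤ t + J
  · simp only [hp, true_and, and_self]
    exact Measurable.ite (measurableSet_le hf.abs measurable_const)
      ((Eq41.measurable_cl b).comp hg) hf
  · simp only [hp, false_and, if_false]
    exact hf

lemma Z_meas (β : ℝ) (h : Vec d) (n : ℕ) : Measurable fun η : Env d => Z β h η n :=
  measurable_ZT β h _

lemma X_meas (β : ℝ) (h : Vec d) (n : ℕ) : Measurable fun η : Env d => X β h η n :=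
  Real.measurable_log.comp (Z_meas β h n)

lemma zB_meas [IsProbabilityMeasure (rb ρ b)] (β : ℝ) (h : Vec d) (n t J : ℕ) :
    Measurable fun η : Env d => zB ρ β b h n t J η := by
  unfold zB
  have := ((Z_meas β h n).comp (mxR_meas (d := d) b t J)).stronglyMeasurable.integral_prod_right'
    (ν := law d (rb ρ b))
  exact this.measurable

/-- The distance of the laws of the separators when a block is resampled. -/
noncomputable def fi (ρ : Measure ℝ) (β b : ℝ) (h : Vec d) (n t J : ℕ) {q : ℕ}
    (r : Fin (q + 1) → ℕ) (η : Env d) : ℝ :=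
  ∫ ξ, ∑ s : Sp d n q, |msp β h n r s η - msp β h n r s (mxR b t J η ξ)| ∂(law d (rb ρ b))

lemma fi_meas [IsProbabilityMeasure (rb ρ b)] (β : ℝ) (h : Vec d) (n t J : ℕ) {q : ℕ}
    (r : Fin (q + 1) → ℕ) : Measurable fun η : Env d => fi ρ β b h n t J r η := by
  unfold fi
  have h1 : Measurable fun w : Env d × Env d => ∑ s : Sp d n q,
      |msp β h n r s w.1 - msp β h n r s (mxR b t J w.1 w.2)| := by
    refine Finset.measurable_sum _ fun s _ => ?_
    exact (((measurable_msp72 β h n r s).comp measurable_fst).sub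
      ((measurable_msp72 β h n r s).comp (mxR_meas b t J))).abs
  exact (h1.stronglyMeasurable.integral_prod_right' (ν := law d (rb ρ b))).measurable

lemma fi_bd (hd : 0 < d) [IsProbabilityMeasure (rb ρ b)] (β : ℝ) (h : Vec d) (n t J : ℕ) {q : ℕ}
    (r : Fin (q + 1) → ℕ) (hr : ∀ i : Fin q, r i.castSucc ≤ r i.succ) (hn : r (Fin.last q) ≤ n)
    (η : Env d) : 0 ≤ fi ρ β b h n t J r η ∧ fi ρ β b h n t J r η ≤ 2 := by
  unfold fi
  refine ⟨integral_nonneg fun ξ => Finset.sum_nonneg fun s _ => abs_nonneg _, ?_⟩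
  have hpt : ∀ ξ : Env d, ∑ s : Sp d n q,
      |msp β h n r s η - msp β h n r s (mxR b t J η ξ)| ≤ 2 := by
    intro ξ
    calc _ ≤ ∑ s : Sp d n q, (msp β h n r s η + msp β h n r s (mxR b t J η ξ)) :=
          Finset.sum_le_sum fun s _ => by
            have h1 := Eq41.msp_nonneg hd β h n r s η
            have h2 := Eq41.msp_nonneg hd β h n r s (mxR b t J η ξ)
            rw [abs_le]
            constructor <;> linarith
      _ = 2 := by
          rw [Finset.sum_add_distrib, Eq41.msp_sum hd β h η r hr hn,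
            Eq41.msp_sum hd β h (mxR b t J η ξ) r hr hn]
          norm_num
  have hm : Measurable fun ξ : Env d => ∑ s : Sp d n q,
      |msp β h n r s η - msp β h n r s (mxR b t J η ξ)| := by
    refine Finset.measurable_sum _ fun s _ => ?_
    exact (measurable_const.sub ((measurable_msp72 β h n r s).comp
      (measurable_mxR b t J η))).abs
  have hi : Integrable (fun ξ : Env d => ∑ s : Sp d n q,
      |msp β h n r s η - msp β h n r s (mxR b t J η ξ)|) (law d (rb ρ b)) := by
    refine Integrable.of_bound hm.aestronglyMeasurable 2 (Eventually.of_forall fun ξ => ?_)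
    rw [Real.norm_eq_abs, abs_of_nonneg (Finset.sum_nonneg fun s _ => abs_nonneg _)]
    exact hpt ξ
  calc _ ≤ ∫ _ : Env d, (2 : ℝ) ∂(law d (rb ρ b)) := integral_mono hi (integrable_const _) hpt
    _ = 2 := by simp

/-! ### The mixture -/

lemma int_mix [IsProbabilityMeasure ρ] (hb : HB ρ b) (J : ℕ) {q : ℕ} (t : Fin q → ℕ)
    {ψ : Env d → ℝ} (hψ : Measurable ψ) {K : ℝ} (hK : ∀ η, |ψ η| ≤ K) :
    Integrable (fun η : Env d => ∫ ω, ψ (mxB b J t η ω)
      ∂(Measure.pi fun _ : Fin q => law d (rb ρ b))) (law d ρ) ∧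
    ∫ η, ∫ ω, ψ (mxB b J t η ω) ∂(Measure.pi fun _ : Fin q => law d (rb ρ b)) ∂(law d ρ) =
      ∫ η, ψ η ∂(law d ρ) := by
  have := Eq41.rb_prob hb
  have hmix := mixB41 (d := d) hb J t
  have hI : Integrable (fun w : Env d × (Fin q → Env d) => ψ (mxB b J t w.1 w.2))
      ((law d ρ).prod (Measure.pi fun _ : Fin q => law d (rb ρ b))) := by
    refine Integrable.of_bound (hψ.comp hmix.measurable).aestronglyMeasurable K
      (Eventually.of_forall fun w => ?_)
    rw [Real.norm_eq_abs]
    exact hK _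
  refine ⟨hI.integral_prod_left, ?_⟩
  rw [← integral_prod _ hI]
  exact LawU_integral hmix hψ.aestronglyMeasurable

open Classical in
/-- The indicator of a set. -/
noncomputable def ind (E : Set (Env d)) (η : Env d) : ℝ := if η ∈ E then 1 else 0

lemma ind_meas {E : Set (Env d)} (hE : MeasurableSet E) : Measurable (ind E) := by
  classical
  unfold ind
  exact Measurable.ite hE measurable_const measurable_const

lemma ind_nonneg (E : Set (Env d)) (η : Env d) : 0 ≤ ind E η := by
  unfold ind
  split_ifs <;> norm_num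

lemma ind_abs (E : Set (Env d)) (η : Env d) : |ind E η| ≤ 1 := by
  unfold ind
  split_ifs <;> norm_num

lemma ind_int {Ω : Type} [MeasurableSpace Ω] (P : Measure Ω) [IsProbabilityMeasure P]
    (g : Ω → Env d) (hg : Measurable g) {E : Set (Env d)} (hE : MeasurableSet E) :
    P.real {ω | g ω ∈ E} = ∫ ω, ind E (g ω) ∂P := by
  have h1 : (fun ω => ind E (g ω)) = (g ⁻¹' E).indicator 1 := by
    funext ω
    unfold ind
    by_cases h : g ω ∈ E
    · rw [if_pos h, Set.indicator_of_mem (by exact h)]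
      rfl
    · rw [if_neg h, Set.indicator_of_notMem (by exact h)]
  rw [h1, integral_indicator_one (hg hE)]
  rfl

end Pool.Agent.W_7d29a1_AC.LoP41
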