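import Pool.Agent.W_7d29a1_AC.LoP41

/-!
Leaf B2 of Theorem AC: the small ball bound for the polymer.
-/

set_option autoImplicit false

namespace Pool.Agent.W_7d29a1_AC.LoP41

open MeasureTheory ProbabilityTheory Filter Topology Pool.Agent.W_MP_7d29a1_pr
  Pool.Agent.W_7d29a1_h46 Pool.Agent.W_7d29a1_h46u Pool.Agent.W_7d29a1_D2.B35
  Pool.Agent.W_7d29a1_Q29 Pool.Agent.W_7d29a1_NV Pool.Agent.W_7d29a1_AC.EqB41

variable {d : ℕ} {ρ : Measure ℝ} {β b : ℝ}

/-- The event of the second sum. -/
def Ei (ρ : Measure ℝ) (β b : ℝ) (h : Vec d) (n t J : ℕ) (a M G : ℝ) : Set (Env d) :=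
  {η | η ∈ win β h n a M ∧ -G < X β h η n - Real.log (zB ρ β b h n t J η)}

lemma win_meas (β : ℝ) (h : Vec d) (n : ℕ) (a M : ℝ) : MeasurableSet (win β h n a M) :=
  measurableSet_le ((X_meas β h n).sub_const a).abs measurable_const

lemma Ei_meas [IsProbabilityMeasure (rb ρ b)] (β : ℝ) (h : Vec d) (n t J : ℕ) (a M G : ℝ) :
    MeasurableSet (Ei ρ β b h n t J a M G) :=
  (win_meas β h n a M).inter (measurableSet_lt measurable_const
    ((X_meas β h n).sub (Real.measurable_log.comp (zB_meas β h n t J))))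

lemma one41 (hd : 0 < d) [IsProbabilityMeasure ρ] (hb : HB ρ b) (hA : LOA) (h : Vec d)
    {n q J : ℕ} {t : Fin q → ℕ} {r : Fin (q + 1) → ℕ} (hq : 1 ≤ q) (hJ : 1 ≤ J)
    (hO : OrdB n J t r) {G W a M : ℝ} (hG : 2 * W + 3 ≤ G)
    (hWM : W + 4 * Bc β b * (q * J + 1) ≤ M) (η : Env d) :
    ∫ ω, ind (win β h n a W) (mxB b J t η ω) ∂(Measure.pi fun _ : Fin q => law d (rb ρ b)) ≤
      13 * Real.exp (J * Bc β b) * ∑ i : Fin q, (∫ ω, ind (win β h n a M) (mxB b J t η ω) *
        fi ρ β b h n (t i) J r (mxB b J t η ω) ∂(Measure.pi fun _ : Fin q => law d (rb ρ b))) +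
      4 * ((∑ i : Fin q, ∫ ω, ind (Ei ρ β b h n (t i) J a M G) (mxB b J t η ω)
        ∂(Measure.pi fun _ : Fin q => law d (rb ρ b))) / q) +
      10 * Real.sqrt (Real.exp (J * Bc β b) / q) := by
  have hprob := Eq41.rb_prob hb
  obtain ⟨Q, u, c, hT, hpr, hdT⟩ := eqB41 (β := β) hd hb h n q J t r hJ hO η
  have hB0 : 0 ≤ (J : ℝ) * Bc β b := B0 hb.b0.le β J
  set B : ℝ := (J : ℝ) * Bc β b with hB
  have hqR : (0 : ℝ) ≤ q := Nat.cast_nonneg q
  have hZ : ∀ ω, Z β h (mxB b J t η ω) n = Real.exp c * dT Q u ω := by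
    intro ω
    rw [hdT ω, ← mul_assoc, ← Real.exp_add, add_neg_cancel, Real.exp_zero, one_mul]
  have hdpos : ∀ ω, 0 < dT Q u ω := fun ω => (Real.exp_pos _).trans_le (dT_bd hT ω).1
  have hX : ∀ ω, X β h (mxB b J t η ω) n = c + Real.log (dT Q u ω) := by
    intro ω
    have h1 : X β h (mxB b J t η ω) n = Real.log (Z β h (mxB b J t η ω) n) := rfl
    rw [h1, hZ ω, Real.log_mul (Real.exp_pos _).ne' (hdpos ω).ne', Real.log_exp]
  have hlog : ∀ ω, |Real.log (dT Q u ω)| ≤ q * B := by
    intro ω
    rw [abs_le]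
    constructor
    · rw [Real.le_log_iff_exp_le (hdpos ω)]
      exact (dT_bd hT ω).1
    · rw [Real.log_le_iff_le_exp (hdpos ω)]
      exact (dT_bd hT ω).2
  have hosc : ∀ ω ω', |X β h (mxB b J t η ω) n - X β h (mxB b J t η ω') n| ≤ 2 * (q * B) := by
    intro ω ω'
    rw [hX ω, hX ω']
    have h1 := hlog ω
    have h2 := hlog ω'
    rw [abs_le] at h1 h2 ⊢
    constructor <;> linarith
  have hBc : 0 ≤ Bc β b := by
    have := hb.b0.le
    unfold Bc
    positivity
  have hWM' : W + 4 * (q * B) ≤ M := by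
    have h1 : 4 * Bc β b * (q * J + 1) = 4 * (q * B) + 4 * Bc β b := by
      rw [hB]
      ring
    rw [h1] at hWM
    linarith
  have hQ : 0 ≤ (q : ℝ) * B := mul_nonneg hqR hB0
  have hnn : 0 ≤ 13 * Real.exp B * ∑ i : Fin q, (∫ ω, ind (win β h n a M) (mxB b J t η ω) *
        fi ρ β b h n (t i) J r (mxB b J t η ω) ∂(Measure.pi fun _ : Fin q => law d (rb ρ b))) +
      4 * ((∑ i : Fin q, ∫ ω, ind (Ei ρ β b h n (t i) J a M G) (mxB b J t η ω)
        ∂(Measure.pi fun _ : Fin q => law d (rb ρ b))) / q) +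
      10 * Real.sqrt (Real.exp B / q) := by
    have h1 : 0 ≤ ∑ i : Fin q, (∫ ω, ind (win β h n a M) (mxB b J t η ω) *
        fi ρ β b h n (t i) J r (mxB b J t η ω) ∂(Measure.pi fun _ : Fin q => law d (rb ρ b))) :=
      Finset.sum_nonneg fun i _ => integral_nonneg fun ω => mul_nonneg (ind_nonneg _ _)
        (fi_bd hd β h n (t i) J r (ordB_le hO) hO.2 _).1
    have h2 : 0 ≤ ∑ i : Fin q, ∫ ω, ind (Ei ρ β b h n (t i) J a M G) (mxB b J t η ω)
        ∂(Measure.pi fun _ : Fin q => law d (rb ρ b)) :=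
      Finset.sum_nonneg fun i _ => integral_nonneg fun ω => ind_nonneg _ _
    positivity
  by_cases hC : |X β h (mxB b J t η fun _ _ => 0) n - a| ≤ M - 2 * (q * B)
  · have hwin : ∀ ω, mxB b J t η ω ∈ win β h n a M := by
      intro ω
      have h1 := hosc ω (fun _ _ => 0)
      change |X β h (mxB b J t η ω) n - a| ≤ M
      rw [abs_le] at h1 hC ⊢
      constructor <;> linarith
    have hmB : Measurable fun ω : Fin q → Env d => mxB b J t η ω :=
      (mixB41 (d := d) hb J t).measurable.comp (measurable_const.prodMk measurable_id)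
    have key := hA (Env d) (Sp d n q) q (law d (rb ρ b)) Q u B G (a - c) W (by omega) hB0 hT hG
    -- the left hand side
    have e0 : ∫ ω, ind (win β h n a W) (mxB b J t η ω)
        ∂(Measure.pi fun _ : Fin q => law d (rb ρ b)) =
        (Measure.pi fun _ : Fin q => law d (rb ρ b)).real
          {ω | |Real.log (dT Q u ω) - (a - c)| ≤ W} := by
      rw [← ind_int _ _ hmB (win_meas β h n a W)]
      congr 1
      ext ω
      change |X β h (mxB b J t η ω) n - a| ≤ W ↔ |Real.log (dT Q u ω) - (a - c)| ≤ W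
      rw [hX ω, show c + Real.log (dT Q u ω) - a = Real.log (dT Q u ω) - (a - c) by ring]
    have e1 : ∀ i : Fin q, (∫ ω, ∫ x, ∑ s, |prT Q u ω s - prT Q u (Function.update ω i x) s|
        ∂(law d (rb ρ b)) ∂(Measure.pi fun _ : Fin q => law d (rb ρ b))) =
        ∫ ω, ind (win β h n a M) (mxB b J t η ω) *
          fi ρ β b h n (t i) J r (mxB b J t η ω)
            ∂(Measure.pi fun _ : Fin q => law d (rb ρ b)) := by
      intro i
      refine integral_congr_ae (Eventually.of_forall fun ω => ?_)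
      have h1 : ind (win β h n a M) (mxB b J t η ω) = 1 := by
        unfold ind
        rw [if_pos (hwin ω)]
      simp only [h1, one_mul]
      unfold fi
      refine integral_congr_ae (Eventually.of_forall fun x => ?_)
      simp only
      refine Finset.sum_congr rfl fun s _ => ?_
      rw [hpr ω s, hpr (Function.update ω i x) s, mxR_mxB hO hb.b0.le η ω i x]
    have e2 : ∀ i : Fin q, (Measure.pi fun _ : Fin q => law d (rb ρ b)).real
        {ω | -G < Real.log (dT Q u ω) -
          Real.log (∫ x, dT Q u (Function.update ω i x) ∂(law d (rb ρ b)))} =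
        ∫ ω, ind (Ei ρ β b h n (t i) J a M G) (mxB b J t η ω)
          ∂(Measure.pi fun _ : Fin q => law d (rb ρ b)) := by
      intro i
      rw [← ind_int _ _ hmB (Ei_meas β h n (t i) J a M G)]
      congr 1
      ext ω
      have h1 : ∫ x, dT Q u (Function.update ω i x) ∂(law d (rb ρ b)) =
          Real.exp (-c) * zB ρ β b h n (t i) J (mxB b J t η ω) := by
        unfold zB
        rw [← integral_const_mul]
        refine integral_congr_ae (Eventually.of_forall fun x => ?_)
        simp only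
        rw [hdT, mxR_mxB hO hb.b0.le η ω i x]
      have hi : Integrable (fun x : Env d => Z β h (mxR b (t i) J (mxB b J t η ω) x) n)
          (law d (rb ρ b)) := by
        refine Integrable.of_bound
          ((Z_meas β h n).comp (measurable_mxR b (t i) J _)).aestronglyMeasurable
          (Real.exp c * Real.exp (q * B)) (Eventually.of_forall fun x => ?_)
        rw [Real.norm_eq_abs, abs_of_pos (Z_pos hd _ _ _ _), mxR_mxB hO hb.b0.le η ω i x, hZ]
        exact mul_le_mul_of_nonneg_left (dT_bd hT _).2 (Real.exp_pos _).le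
      have hzpos : 0 < zB ρ β b h n (t i) J (mxB b J t η ω) := by
        have h2 : ∫ _ : Env d, Real.exp c * Real.exp (-(q * B)) ∂(law d (rb ρ b)) ≤
            zB ρ β b h n (t i) J (mxB b J t η ω) := by
          refine integral_mono (integrable_const _) hi fun x => ?_
          simp only
          rw [mxR_mxB hO hb.b0.le η ω i x, hZ]
          exact mul_le_mul_of_nonneg_left (dT_bd hT _).1 (Real.exp_pos _).le
        refine lt_of_lt_of_le ?_ h2
        simp only [integral_const, probReal_univ, one_smul]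
        positivity
      have h3 : Real.log (∫ x, dT Q u (Function.update ω i x) ∂(law d (rb ρ b))) =
          -c + Real.log (zB ρ β b h n (t i) J (mxB b J t η ω)) := by
        rw [h1, Real.log_mul (Real.exp_pos _).ne' hzpos.ne', Real.log_exp]
      change -G < Real.log (dT Q u ω) -
          Real.log (∫ x, dT Q u (Function.update ω i x) ∂(law d (rb ρ b))) ↔
        mxB b J t η ω ∈ win β h n a M ∧ -G < X β h (mxB b J t η ω) n -
          Real.log (zB ρ β b h n (t i) J (mxB b J t η ω))
      rw [h3, hX ω, and_iff_right (hwin ω)]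
      rw [show Real.log (dT Q u ω) - (-c + Real.log (zB ρ β b h n (t i) J (mxB b J t η ω))) =
        c + Real.log (dT Q u ω) - Real.log (zB ρ β b h n (t i) J (mxB b J t η ω)) by ring]
    rw [e0]
    rw [Finset.sum_congr rfl fun i _ => e1 i, Finset.sum_congr rfl fun i _ => e2 i] at key
    exact key
  · refine le_trans (le_of_eq ?_) hnn
    have h1 : ∀ ω, ind (win β h n a W) (mxB b J t η ω) = 0 := by
      intro ω
      unfold ind
      rw [if_neg]
      intro h2
      apply hC
      change |X β h (mxB b J t η ω) n - a| ≤ W at h2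
      have h3 := hosc ω (fun _ _ => 0)
      rw [abs_le] at h2 h3 ⊢
      constructor <;> linarith
    simp only [h1, integral_zero]

lemma int3 {α : Type} [MeasurableSpace α] (L : Measure α) [IsProbabilityMeasure L]
    {F1 F2 : α → ℝ} (h1 : Integrable F1 L) (h2 : Integrable F2 L) (c : ℝ) :
    ∫ η, (F1 η + F2 η + c) ∂L = ∫ η, F1 η ∂L + ∫ η, F2 η ∂L + c := by
  have h12 : Integrable (fun η => F1 η + F2 η) L := h1.add h2
  rw [integral_add h12 (integrable_const c), integral_add h1 h2]
  simp

/-- Leaf B2. -/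
theorem loP41 (hd : 0 < d) [IsProbabilityMeasure ρ] (hb : HB ρ b) (hA : LOA) :
    LoP d ρ β b := by
  intro h n q J t r hq hJ hO G W a M hW hG hWM
  have hprob := Eq41.rb_prob hb
  have mW := win_meas β h n a W
  have mM := win_meas β h n a M
  have I0 := int_mix hb J t (ind_meas mW) (ind_abs (win β h n a W))
  have I1 : ∀ i : Fin q, _ := fun i => int_mix hb J t
    (ψ := fun η => ind (win β h n a M) η * fi ρ β b h n (t i) J r η)
    ((ind_meas mM).mul (fi_meas β h n (t i) J r)) (K := 1 * 2) (fun η => by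
      rw [abs_mul]
      have h1 := fi_bd (ρ := ρ) (b := b) hd β h n (t i) J r (ordB_le hO) hO.2 η
      refine mul_le_mul (ind_abs _ _) ?_ (abs_nonneg _) zero_le_one
      rw [abs_of_nonneg h1.1]
      exact h1.2)
  have I2 : ∀ i : Fin q, _ := fun i => int_mix hb J t
    (ind_meas (Ei_meas (ρ := ρ) (b := b) β h n (t i) J a M G))
    (ind_abs (Ei ρ β b h n (t i) J a M G))
  have i1 : Integrable (fun η : Env d => 13 * Real.exp (J * Bc β b) * ∑ i : Fin q,
      (∫ ω, ind (win β h n a M) (mxB b J t η ω) * fi ρ β b h n (t i) J r (mxB b J t η ω)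
        ∂(Measure.pi fun _ : Fin q => law d (rb ρ b)))) (law d ρ) :=
    (integrable_finsetSum _ fun i _ => (I1 i).1).const_mul _
  have i2 : Integrable (fun η : Env d => 4 * ((∑ i : Fin q,
      ∫ ω, ind (Ei ρ β b h n (t i) J a M G) (mxB b J t η ω)
        ∂(Measure.pi fun _ : Fin q => law d (rb ρ b))) / q)) (law d ρ) :=
    ((integrable_finsetSum _ fun i _ => (I2 i).1).div_const _).const_mul _
  have i3 : Integrable (fun _ : Env d => 10 * Real.sqrt (Real.exp (J * Bc β b) / q))
      (law d ρ) := integrable_const _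
  have hmono := integral_mono I0.1 ((i1.add i2).add i3)
    (fun η => one41 hd hb hA h hq hJ hO hG hWM η)
  have hL : (law d ρ).real (win β h n a W) = ∫ η, ind (win β h n a W) η ∂(law d ρ) := by
    have := ind_int (law d ρ) id measurable_id mW
    simpa using this
  have hE : ∀ i : Fin q, ∫ η, ind (Ei ρ β b h n (t i) J a M G) η ∂(law d ρ) =
      (law d ρ).real {η | η ∈ win β h n a M ∧
        -G < X β h η n - Real.log (zB ρ β b h n (t i) J η)} := by
    intro i
    have := ind_int (law d ρ) id measurable_id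
      (Ei_meas (ρ := ρ) (b := b) β h n (t i) J a M G)
    rw [← show ∫ ω, ind (Ei ρ β b h n (t i) J a M G) (id ω) ∂(law d ρ) =
      ∫ η, ind (Ei ρ β b h n (t i) J a M G) η ∂(law d ρ) from rfl, ← this]
    rfl
  have hF : ∀ i : Fin q, ∫ η, ind (win β h n a M) η * fi ρ β b h n (t i) J r η ∂(law d ρ) =
      ∫ η in win β h n a M, ∫ ξ, ∑ s : Sp d n q,
        |msp β h n r s η - msp β h n r s (mxR b (t i) J η ξ)|
          ∂(law d (rb ρ b)) ∂(law d ρ) := by
    intro i
    rw [← integral_indicator mM]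
    refine integral_congr_ae (Eventually.of_forall fun η => ?_)
    simp only
    unfold ind
    by_cases hη : η ∈ win β h n a M
    · rw [if_pos hη, one_mul, Set.indicator_of_mem hη]
      rfl
    · rw [if_neg hη, zero_mul, Set.indicator_of_notMem hη]
  have hR : ∫ η, ((13 * Real.exp (J * Bc β b) * ∑ i : Fin q,
      (∫ ω, ind (win β h n a M) (mxB b J t η ω) * fi ρ β b h n (t i) J r (mxB b J t η ω)
        ∂(Measure.pi fun _ : Fin q => law d (rb ρ b)))) + 4 * ((∑ i : Fin q,
      ∫ ω, ind (Ei ρ β b h n (t i) J a M G) (mxB b J t η ω)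
        ∂(Measure.pi fun _ : Fin q => law d (rb ρ b))) / q) +
      10 * Real.sqrt (Real.exp (J * Bc β b) / q)) ∂(law d ρ) =
      13 * Real.exp (J * Bc β b) * ∑ i : Fin q, (∫ η in win β h n a M, ∫ ξ, ∑ s : Sp d n q,
        |msp β h n r s η - msp β h n r s (mxR b (t i) J η ξ)|
          ∂(law d (rb ρ b)) ∂(law d ρ)) +
      4 * ((∑ i : Fin q, (law d ρ).real {η | η ∈ win β h n a M ∧
        -G < X β h η n - Real.log (zB ρ β b h n (t i) J η)}) / q) +
      10 * Real.sqrt (Real.exp (J * Bc β b) / q) := by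
    refine (int3 (law d ρ) i1 i2 _).trans ?_
    rw [integral_const_mul, integral_const_mul, integral_div,
      integral_finsetSum _ fun i _ => (I1 i).1, integral_finsetSum _ fun i _ => (I2 i).1]
    congr 2
    · congr 1
      refine Finset.sum_congr rfl fun i _ => ?_
      rw [(I1 i).2, hF i]
    · congr 2
      refine Finset.sum_congr rfl fun i _ => ?_
      rw [(I2 i).2, hE i]
  rw [I0.2, ← hL] at hmono
  refine hmono.trans (le_of_eq ?_)
  exact hR

end Pool.Agent.W_7d29a1_AC.LoP41
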