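import Pool.Agent.W_7d29a1_AC.DefsF8

/-!
Leaf F of Theorem AC from its two halves and the flatness.
-/

set_option autoImplicit false

namespace Pool.Agent.W_7d29a1_AC

open MeasureTheory ProbabilityTheory Filter Topology Pool.Agent.W_MP_7d29a1_pr
  Pool.Agent.W_7d29a1_h46 Pool.Agent.W_7d29a1_h46u Pool.Agent.W_7d29a1_D2.B35
  Pool.Agent.W_7d29a1_Q29 Pool.Agent.W_7d29a1_NV

open Classical in
/-- **Leaf F of Theorem AC** from `ZlowC`, `RemC`, `FlaC`. -/
theorem locC86 {d : ℕ} {ρ : Measure ℝ} [IsProbabilityMeasure ρ] {β : ℝ} (hZ : ZlowC d ρ β)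
    (hR : RemC d ρ β) (hF : FlaC d ρ β) : LocC d ρ β := by
  intro h g κ hg hκ hgap
  have hϑ0 : 0 < min (κ / 3) (g / 16) := lt_min (by positivity) (by positivity)
  obtain ⟨b₃, hb₃⟩ := hZ h (min (κ / 3) (g / 16)) hϑ0
  set ϑ : ℝ := min (κ / 3) (g / 16) with hϑ
  have hϑ1 : ϑ ≤ κ / 3 := min_le_left _ _
  have hϑ2 : ϑ ≤ g / 16 := min_le_right _ _
  obtain ⟨C, hC0, hC⟩ := hR h
  obtain ⟨e₁, he₁, hfl⟩ := hF h (g / 16) (κ / 3) (by positivity) (by positivity)
  refine ⟨b₃, fun b hb => ⟨min e₁ (κ / 12), lt_min he₁ (by positivity), fun R hR0 => ?_⟩⟩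
  obtain ⟨m₁, hm₁⟩ := hfl R hR0
  refine ⟨max (max m₁ 1) ⌈8 * (R + 1) / g⌉₊, fun J hJ => ?_⟩
  have hJm : m₁ ≤ J := (le_max_left _ _).trans ((le_max_left _ _).trans hJ)
  have hJ1 : 1 ≤ J := (le_max_right _ _).trans ((le_max_left _ _).trans hJ)
  have hJ2 : R + 1 ≤ g / 8 * J := by
    have h1 : 8 * (R + 1) / g ≤ J := (Nat.le_ceil _).trans (by
      exact_mod_cast (le_max_right _ _).trans hJ)
    rw [div_le_iff₀ hg] at h1
    linarith
  have hJ0 : (0 : ℝ) < J := by exact_mod_cast hJ1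
  obtain ⟨M₁, hM₁⟩ := hm₁ J hJm
  refine ⟨max (max M₁ 1) (12 * C * J / κ), fun M hM => ⟨J, fun n a hn hring t ht => ?_⟩⟩
  have hMa : M₁ ≤ M := (le_max_left _ _).trans ((le_max_left _ _).trans hM)
  have hMb : 1 ≤ M := (le_max_right _ _).trans ((le_max_left _ _).trans hM)
  have hMc : 12 * C * J / κ ≤ M := (le_max_right _ _).trans hM
  have hM0 : 0 < M := by linarith
  have hf := (hM₁ M hMa n a hn (hring.trans (min_le_left _ _))).1
  have hr := hC J t n a R M hJ1 ht hM0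
  have hz := hb₃ b hb J t n a R hJ1 ht
  have hr2 : 2 * (ring ρ β h n a R M + C * J / M) ≤ κ / 3 := by
    have h2 : C * J / M ≤ κ / 12 := by
      rw [div_le_iff₀ hκ] at hMc
      rw [div_le_iff₀ hM0]
      linarith
    have h3 := hring.trans (min_le_right e₁ (κ / 12))
    linarith
  have hsub : {η | η ∈ win β h (n + J) (a + lam ρ β h * J) (M / 16) ∧
      -(g / 2 * J) < X β h η (n + J) - Real.log (zB ρ β b h (n + J) t J η)} ⊆
      ({η | g / 16 * J < |X β h η (n + J) - (a + lam ρ β h * J)| ∧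
        |X β h η (n + J) - (a + lam ρ β h * J)| ≤ M / 8} ∪
      {η | |X β h η (n + J) - (a + lam ρ β h * J)| ≤ M / 16 ∧
        (∑ z ∈ boxF d J, if |X β h (remE J t z η) n - a| ≤ R then PP β h (fun _ => 0) J z
          else 0) < Phi h ^ J / 2}) ∪
      {η | Phi h ^ J / 2 ≤
        (∑ z ∈ boxF d J, if |X β h (remE J t z η) n - a| ≤ R then PP β h (fun _ => 0) J z
          else 0) ∧
        Real.log (zB ρ β b h (n + J) t J η) <
          a - R + J * (Real.log (Phi h) + Real.log (∫ x, Real.exp (β * x) ∂ρ)) - ϑ * J - 1} := by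
    intro η hη
    obtain ⟨hw, hl⟩ := hη
    have hw' : |X β h η (n + J) - (a + lam ρ β h * J)| ≤ M / 16 := hw
    by_cases h1 : g / 16 * J < |X β h η (n + J) - (a + lam ρ β h * J)|
    · exact Or.inl (Or.inl ⟨h1, by linarith⟩)
    · by_cases h2 : (∑ z ∈ boxF d J, if |X β h (remE J t z η) n - a| ≤ R then
          PP β h (fun _ => 0) J z else 0) < Phi h ^ J / 2
      · exact Or.inl (Or.inr ⟨hw', h2⟩)
      · refine Or.inr ⟨not_lt.1 h2, ?_⟩
        push Not at h1
        have h3 := (abs_le.1 h1).2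
        have h4 := mul_le_mul_of_nonneg_left hgap hJ0.le
        have h5 := mul_le_mul_of_nonneg_right hϑ2 hJ0.le
        nlinarith
  have hm := measureReal_mono (μ := law d ρ) hsub
  refine hm.trans ((measureReal_union_le _ _).trans ?_)
  have h6 := measureReal_union_le (μ := law d ρ)
    {η | g / 16 * J < |X β h η (n + J) - (a + lam ρ β h * J)| ∧
        |X β h η (n + J) - (a + lam ρ β h * J)| ≤ M / 8}
    {η | |X β h η (n + J) - (a + lam ρ β h * J)| ≤ M / 16 ∧
        (∑ z ∈ boxF d J, if |X β h (remE J t z η) n - a| ≤ R then PP β h (fun _ => 0) J z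
          else 0) < Phi h ^ J / 2}
  have h7 : (law d ρ).real {η | g / 16 * J < |X β h η (n + J) - (a + lam ρ β h * J)| ∧
        |X β h η (n + J) - (a + lam ρ β h * J)| ≤ M / 8} ≤ κ / 3 := hf
  linarith

end Pool.Agent.W_7d29a1_AC
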