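import Pool.Agent.W_7d29a1_AC.DefsF8

/-!
Theorem AC: leaf F (`LocC`) from the leaves `ZlowC`, `RemC` and `FlaC`.
-/

set_option autoImplicit false

namespace Pool.Agent.W_7d29a1_AC

open MeasureTheory ProbabilityTheory Filter Topology Pool.Agent.W_MP_7d29a1_pr
  Pool.Agent.W_7d29a1_h46 Pool.Agent.W_7d29a1_h46u Pool.Agent.W_7d29a1_D2.B35
  Pool.Agent.W_7d29a1_Q29 Pool.Agent.W_7d29a1_NV

/-- Leaf F from its two halves and the flatness of the cluster. -/
theorem locEnd1 {d : ℕ} {ρ : Measure ℝ} [IsProbabilityMeasure ρ] {β : ℝ} (hZ : ZlowC d ρ β)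
    (hR : RemC d ρ β) (hF : FlaC d ρ β) : LocC d ρ β := by
  classical
  intro h g κ hg hκ hlam
  have hϑ : 0 < min (g / 8) (κ / 4) := lt_min (by positivity) (by positivity)
  obtain ⟨b₃, hb₃⟩ := hZ h (min (g / 8) (κ / 4)) hϑ
  obtain ⟨e₁, he₁, hFla⟩ := hF h (g / 8) (κ / 4) (by positivity) (by positivity)
  obtain ⟨C, hC0, hRem⟩ := hR h
  refine ⟨b₃, fun b hb => ⟨min e₁ (κ / 16), lt_min he₁ (by positivity), fun R hR0 => ?_⟩⟩
  obtain ⟨m₁, hm₁⟩ := hFla R hR0
  refine ⟨max (max m₁ 1) ⌈4 * (R + 1) / g⌉₊, fun J hJ => ?_⟩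
  have hJm : m₁ ≤ J := le_trans (le_trans (le_max_left _ _) (le_max_left _ _)) hJ
  have hJ1 : 1 ≤ J := le_trans (le_trans (le_max_right _ _) (le_max_left _ _)) hJ
  have hJR : 4 * (R + 1) / g ≤ J :=
    le_trans (Nat.le_ceil _) (by exact_mod_cast le_trans (le_max_right _ _) hJ)
  have hJR' : R + 1 ≤ g / 4 * J := by
    rw [div_le_iff₀ hg] at hJR
    linarith
  have hJ0 : (0 : ℝ) < J := by exact_mod_cast hJ1
  obtain ⟨M₁, hM₁⟩ := hm₁ J hJm
  refine ⟨max M₁ (16 * C * J / κ + 1), fun M hM => ⟨J, fun n a hn hring t ht => ?_⟩⟩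
  have hMM : M₁ ≤ M := le_trans (le_max_left _ _) hM
  have hMC : 16 * C * J / κ + 1 ≤ M := le_trans (le_max_right _ _) hM
  have hCJ : 0 ≤ 16 * C * J / κ := by positivity
  have hM0 : 0 < M := by linarith
  have hCM : C * J / M ≤ κ / 16 := by
    rw [div_le_div_iff₀ hM0 (by norm_num)]
    have h1 : 16 * C * J / κ ≤ M := by linarith
    rw [div_le_iff₀ hκ] at h1
    nlinarith
  have hring1 : ring ρ β h n a R M ≤ e₁ := le_trans hring (min_le_left _ _)
  have hring2 : ring ρ β h n a R M ≤ κ / 16 := le_trans hring (min_le_right _ _)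
  obtain ⟨hfl, -⟩ := hM₁ M hMM n a hn hring1
  have hz := hb₃ b hb J t n a R hJ1 ht
  have hr := hRem J t n a R M hJ1 ht hM0
  have hsub : {η : Env d | η ∈ win β h (n + J) (a + lam ρ β h * J) (M / 16) ∧
      -(g / 2 * J) < X β h η (n + J) - Real.log (zB ρ β b h (n + J) t J η)} ⊆
      ({η : Env d | g / 8 * J < |X β h η (n + J) - (a + lam ρ β h * J)| ∧
        |X β h η (n + J) - (a + lam ρ β h * J)| ≤ M / 8} ∪
      {η : Env d | |X β h η (n + J) - (a + lam ρ β h * J)| ≤ M / 16 ∧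
        (∑ z ∈ boxF d J, if |X β h (remE J t z η) n - a| ≤ R then PP β h (fun _ => 0) J z else 0) <
          Phi h ^ J / 2}) ∪
      {η : Env d | Phi h ^ J / 2 ≤
        (∑ z ∈ boxF d J, if |X β h (remE J t z η) n - a| ≤ R then PP β h (fun _ => 0) J z else 0) ∧
      Real.log (zB ρ β b h (n + J) t J η) <
        a - R + J * (Real.log (Phi h) + Real.log (∫ x, Real.exp (β * x) ∂ρ)) -
          min (g / 8) (κ / 4) * J - 1} := by
    rintro η ⟨hw, hx⟩
    have hw' : |X β h η (n + J) - (a + lam ρ β h * J)| ≤ M / 16 := hw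
    by_contra hcon
    simp only [Set.mem_union, Set.mem_ofPred_eq, not_or, not_and, not_lt, not_le] at hcon
    obtain ⟨⟨h1, h2⟩, h3⟩ := hcon
    have h4 : |X β h η (n + J) - (a + lam ρ β h * J)| ≤ g / 8 * J := by
      by_contra h5
      have := h1 (not_le.mp h5)
      linarith
    have h6 := h3 (h2 hw')
    have h7 : X β h η (n + J) ≤ a + lam ρ β h * J + g / 8 * J := by
      have := (abs_le.mp h4).2
      linarith
    have h8 : (J : ℝ) * (lam ρ β h + g) ≤
        J * (Real.log (Phi h) + Real.log (∫ x, Real.exp (β * x) ∂ρ)) :=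
      mul_le_mul_of_nonneg_left hlam hJ0.le
    have h9 : min (g / 8) (κ / 4) * J ≤ g / 8 * J :=
      mul_le_mul_of_nonneg_right (min_le_left _ _) hJ0.le
    nlinarith
  have hu1 := measureReal_union_le (μ := law d ρ)
    ({η : Env d | g / 8 * J < |X β h η (n + J) - (a + lam ρ β h * J)| ∧
        |X β h η (n + J) - (a + lam ρ β h * J)| ≤ M / 8} ∪
      {η : Env d | |X β h η (n + J) - (a + lam ρ β h * J)| ≤ M / 16 ∧
        (∑ z ∈ boxF d J, if |X β h (remE J t z η) n - a| ≤ R then PP β h (fun _ => 0) J z else 0) <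
          Phi h ^ J / 2})
    {η : Env d | Phi h ^ J / 2 ≤
        (∑ z ∈ boxF d J, if |X β h (remE J t z η) n - a| ≤ R then PP β h (fun _ => 0) J z else 0) ∧
      Real.log (zB ρ β b h (n + J) t J η) <
        a - R + J * (Real.log (Phi h) + Real.log (∫ x, Real.exp (β * x) ∂ρ)) -
          min (g / 8) (κ / 4) * J - 1}
  have hu2 := measureReal_union_le (μ := law d ρ)
    {η : Env d | g / 8 * J < |X β h η (n + J) - (a + lam ρ β h * J)| ∧
        |X β h η (n + J) - (a + lam ρ β h * J)| ≤ M / 8}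
    {η : Env d | |X β h η (n + J) - (a + lam ρ β h * J)| ≤ M / 16 ∧
        (∑ z ∈ boxF d J, if |X β h (remE J t z η) n - a| ≤ R then PP β h (fun _ => 0) J z else 0) <
          Phi h ^ J / 2}
  have hmono := measureReal_mono (μ := law d ρ) hsub (measure_ne_top _ _)
  have hfl' : (law d ρ).real {η : Env d | g / 8 * J < |X β h η (n + J) - (a + lam ρ β h * J)| ∧
        |X β h η (n + J) - (a + lam ρ β h * J)| ≤ M / 8} ≤ κ / 4 := hfl
  have hmin : min (g / 8) (κ / 4) ≤ κ / 4 := min_le_right _ _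
  linarith

end Pool.Agent.W_7d29a1_AC
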