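import Pool.Agent.W_7d29a1_AC.MulC27

/-!
Theorem AC, leaf `FlaC`, lower half: on the cluster the free energy does not fall below its line.
-/

set_option autoImplicit false

namespace Pool.Agent.W_7d29a1_AC.L42

open MeasureTheory ProbabilityTheory Filter Topology Pool.Agent.W_MP_7d29a1_pr
  Pool.Agent.W_7d29a1_h46 Pool.Agent.W_7d29a1_h46u Pool.Agent.W_7d29a1_D2.B35
  Pool.Agent.W_7d29a1_Q29 Pool.Agent.W_7d29a1_P89 Pool.Agent.W_7d29a1_P78
  Pool.Agent.W_7d29a1_NV Pool.Agent.W_7d29a1_AC Pool.Agent.W_7d29a1_AC.M27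

variable {d : ℕ} {ρ : Measure ℝ}

/-- The future is not changed by the insertion of the first rows. -/
lemma sh_ins42 (β : ℝ) (h : Vec d) (m n : ℕ) (z : Site d) (η ξ : Env d) :
    X β h (sh m z (insE 0 m z η ξ)) n = X β h η n := by
  unfold X
  congr 1
  refine dependsOn_Z β h n fun p hp => ?_
  have h1 : 1 ≤ p.1 := hp.1
  unfold sh insE
  simp only
  rw [if_neg (by omega), if_neg (by omega)]
  congr 1
  refine Prod.ext ?_ ?_
  · change p.1 + m - m = p.1
    omega
  · change p.2 + z - z = p.2
    abel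

/-- Closeness: the free energy and the free energy from the end point of a path. -/
lemma clo42 [IsProbabilityMeasure ρ] (hd : 0 < d) (hρ : EM ρ) (β : ℝ) (h : Vec d) :
    ∃ C : ℝ, 0 ≤ C ∧ ∀ (n m : ℕ) (q : Fin m → Step d),
      Integrable (fun η : Env d => |X β h η (n + m) - X β h (sh m (pos q m) η) n|) (law d ρ) ∧
      ∫ η, |X β h η (n + m) - X β h (sh m (pos q m) η) n| ∂(law d ρ) ≤ C * m := by
  obtain ⟨C, hC0, hC⟩ := devIns27 (ρ := ρ) hd hρ β h
  refine ⟨C, hC0, fun n m q => ?_⟩
  obtain ⟨h1, h2⟩ := hC n 0 m (Nat.zero_le n) q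
  have hmp := mp_ins (d := d) (ρ := ρ) 0 m (pos q m)
  have hFm : Measurable (fun η : Env d => |X β h η (n + m) - X β h (sh m (pos q m) η) n|) :=
    ((measurable_X β h (n + m)).sub
      ((measurable_X β h n).comp (measurable_sh m (pos q m)))).abs
  have e : (fun w : Env d × Env d => |X β h (insE 0 m (pos q m) w.1 w.2) (n + m) -
      X β h w.1 n|) = (fun η : Env d => |X β h η (n + m) - X β h (sh m (pos q m) η) n|) ∘
        (fun w : Env d × Env d => insE 0 m (pos q m) w.1 w.2) := by
    funext w
    simp only [Function.comp]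
    rw [sh_ins42]
  rw [e] at h1
  have h3 := (hmp.integrable_comp hFm.aestronglyMeasurable).1 h1
  refine ⟨h3, ?_⟩
  rw [← LawU_integral hmp hFm.aestronglyMeasurable]
  refine le_trans (le_of_eq ?_) h2
  refine integral_congr_ae (Eventually.of_forall fun w => ?_)
  simp only
  rw [sh_ins42]

/-- The free energy is not below its limit, up to a small probability. -/
lemma lowX42 [IsProbabilityMeasure ρ] (hd : 0 < d) (hρ : EM ρ) (β : ℝ) (h : Vec d) {ε δ : ℝ}
    (hε : 0 < ε) (hδ : 0 < δ) : ∃ m₁ : ℕ, ∀ m : ℕ, m₁ ≤ m →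
      (law d ρ).real {η | X β h η m < (lam ρ β h - ε) * m} ≤ δ := by
  obtain ⟨C, hC, hmom⟩ := momU (ρ := ρ) hd hρ β 2
  obtain ⟨m₁, hm₁⟩ := exists_nat_gt (C / ((ε / 2) ^ 2 * δ))
  have hev : ∀ᶠ n : ℕ in atTop, lam ρ β h - ε / 2 < A ρ β h n / n :=
    (tendsto_A hd hρ β h).eventually (eventually_gt_nhds (by linarith))
  obtain ⟨m₂, hm₂⟩ := eventually_atTop.1 hev
  refine ⟨max (m₁ + 1) m₂, fun m hm => ?_⟩
  have hma : m₁ + 1 ≤ m := (le_max_left _ _).trans hm
  have hmb : m₂ ≤ m := (le_max_right _ _).trans hm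
  have hm1 : 1 ≤ m := by omega
  have hm0 : (0 : ℝ) < m := by exact_mod_cast hm1
  obtain ⟨i2, h2⟩ := hmom h m hm1
  have h3 : (m : ℝ) ^ ((1 / 2 : ℝ) * (2 : ℕ)) = m := by
    rw [show ((1 / 2 : ℝ) * ((2 : ℕ) : ℝ)) = 1 by norm_num, Real.rpow_one]
  rw [h3] at h2
  have h4 := mul_meas_ge_le_integral_of_nonneg
    (Filter.Eventually.of_forall fun η : Env d => sq_nonneg (|X β h η m - A ρ β h m|)) i2
    ((ε / 2 * m) ^ 2)
  have h5 : {η : Env d | X β h η m < (lam ρ β h - ε) * m} ⊆
      {η | (ε / 2 * m) ^ 2 ≤ |X β h η m - A ρ β h m| ^ 2} := by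
    intro η hη
    have h6 : X β h η m < (lam ρ β h - ε) * m := hη
    have h7 : (lam ρ β h - ε / 2) * m < A ρ β h m := by
      have := hm₂ m hmb
      rwa [lt_div_iff₀ hm0] at this
    have h8 : ε / 2 * m ≤ |X β h η m - A ρ β h m| := by
      refine le_trans ?_ (neg_le_abs _)
      nlinarith
    exact pow_le_pow_left₀ (by positivity) h8 2
  have h8 : (ε / 2 * m) ^ 2 * (law d ρ).real {η : Env d | X β h η m < (lam ρ β h - ε) * m} ≤
      C * m := (mul_le_mul_of_nonneg_left (measureReal_mono h5) (sq_nonneg _)).trans (h4.trans h2)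
  have h9 : C < δ * ((ε / 2) ^ 2 * m) := by
    have h10 : C / ((ε / 2) ^ 2 * δ) < m := hm₁.trans_le (by exact_mod_cast (by omega : m₁ ≤ m))
    rw [div_lt_iff₀ (by positivity)] at h10
    linarith
  have h11 : 0 < (ε / 2 * m) ^ 2 := by positivity
  by_contra hcon
  push Not at hcon
  have h12 : (ε / 2 * m) ^ 2 * δ < C * m := (mul_lt_mul_of_pos_left hcon h11).trans_le h8
  nlinarith

/-- If half of the end points have a good future then the free energy is large. -/
lemma half42 (hd : 0 < d) (β : ℝ) (h : Vec d) (m n : ℕ) (η : Env d) {y : ℝ}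
    (hy : 1 / 2 ≤ ∑ q : Fin m → Step d, FreeU_p β h m q η *
      (if y ≤ X β h (sh m (pos q m) η) n then (1 : ℝ) else 0)) :
    X β h η m + y - Real.log 2 ≤ X β h η (n + m) := by
  classical
  have hZ := Z_pos hd β h η m
  have h1 : Z β h η (m + n) = Z β h η m *
      ∑ s : Fin m → Step d, FreeU_p β h m s η * Z β h (sh m (pos s m) η) n := by
    rw [Z_add, Finset.mul_sum]
    refine Finset.sum_congr rfl fun s _ => ?_
    unfold FreeU_p
    rw [← mul_assoc, mul_div_cancel₀ _ hZ.ne']
  have h2 : Real.exp y * (1 / 2) ≤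
      ∑ s : Fin m → Step d, FreeU_p β h m s η * Z β h (sh m (pos s m) η) n := by
    refine (mul_le_mul_of_nonneg_left hy (Real.exp_pos y).le).trans ?_
    rw [Finset.mul_sum]
    refine Finset.sum_le_sum fun s _ => ?_
    have h3 := FreeU_nonneg hd β h m s η
    have h4 := Z_pos hd β h (sh m (pos s m) η) n
    split_ifs with hc
    · have h5 : Real.exp y ≤ Z β h (sh m (pos s m) η) n := by
        have := Real.exp_le_exp.2 hc
        unfold X at this
        rwa [Real.exp_log h4] at this
      nlinarith [mul_le_mul_of_nonneg_left h5 h3]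
    · rw [mul_zero, mul_zero]
      exact mul_nonneg h3 h4.le
  have h3 : Z β h η m * (Real.exp y * (1 / 2)) ≤ Z β h η (n + m) := by
    rw [add_comm n m, h1]
    exact mul_le_mul_of_nonneg_left h2 hZ.le
  have h4 := Real.log_le_log (by positivity) h3
  rw [Real.log_mul hZ.ne' (by positivity), Real.log_mul (Real.exp_pos y).ne' (by norm_num),
    Real.log_exp] at h4
  have h5 : Real.log (1 / 2 : ℝ) = -Real.log 2 := by
    rw [one_div, Real.log_inv]
  rw [h5] at h4
  unfold X at *
  linarith

/-- **The lower half of the flatness.** -/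
theorem lowF42 [IsProbabilityMeasure ρ] (hd : 0 < d) (hρ : EM ρ) (β : ℝ) (h : Vec d) (ε κ : ℝ)
    (hε : 0 < ε) (hκ : 0 < κ) (R : ℝ) : ∃ m₁ : ℕ, ∀ m : ℕ, m₁ ≤ m → ∃ M₁ : ℝ, ∀ M : ℝ, M₁ ≤ M →
      ∀ (n : ℕ) (a : ℝ), ring ρ β h n a R M ≤ κ / 8 →
        (law d ρ).real {η | |X β h η (n + m) - (a + lam ρ β h * m)| ≤ M / 8 ∧
          X β h η (n + m) < a + lam ρ β h * m - ε * m} ≤ κ := by
  classical
  obtain ⟨C, hC0, hC⟩ := clo42 (ρ := ρ) hd hρ β h
  obtain ⟨m₁, hm₁⟩ := lowX42 (ρ := ρ) hd hρ β h (ε := ε / 2) (δ := κ / 4) (by linarith)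
    (by linarith)
  obtain ⟨m₂, hm₂⟩ := exists_nat_gt ((R + Real.log 2) / (ε / 2))
  refine ⟨max m₁ m₂, fun m hm => ?_⟩
  have hma : m₁ ≤ m := (le_max_left _ _).trans hm
  have hmb : (m₂ : ℝ) ≤ m := by exact_mod_cast (le_max_right _ _).trans hm
  have hR : R + Real.log 2 ≤ ε / 2 * m := by
    have h1 : (R + Real.log 2) / (ε / 2) ≤ m := hm₂.le.trans hmb
    rw [div_le_iff₀ (by linarith)] at h1
    linarith
  obtain ⟨K, hK⟩ : ∃ K : ℝ, K = ((Fintype.card (Fin m → Step d) : ℕ) : ℝ) := ⟨_, rfl⟩
  have hK0 : 0 ≤ K := by rw [hK]; exact Nat.cast_nonneg _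
  refine ⟨max 1 (max (4 * |lam ρ β h| * m) (8 * (K * (C * m)) / κ)), fun M hM n a hring => ?_⟩
  have hM1 : 1 ≤ M := (le_max_left _ _).trans hM
  have hM2 : 4 * |lam ρ β h| * m ≤ M := (le_max_left _ _).trans ((le_max_right _ _).trans hM)
  have hM3 : 8 * (K * (C * m)) / κ ≤ M := (le_max_right _ _).trans ((le_max_right _ _).trans hM)
  have hM0 : 0 < M := by linarith
  have hlm : |lam ρ β h * m| ≤ M / 4 := by
    rw [abs_mul, abs_of_nonneg (Nat.cast_nonneg m : (0 : ℝ) ≤ m)]
    linarith
  obtain ⟨hl1, hl2⟩ := abs_le.1 hlm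
  -- the indicators
  obtain ⟨F, hF⟩ : ∃ F : Env d → ℝ, F = fun η =>
    if R < |X β h η n - a| ∧ |X β h η n - a| ≤ M then (1 : ℝ) else 0 := ⟨_, rfl⟩
  have hXm := measurable_X (d := d) β h n
  have hset : MeasurableSet {η : Env d | R < |X β h η n - a| ∧ |X β h η n - a| ≤ M} :=
    (measurableSet_lt measurable_const (hXm.sub_const a).abs).inter
      (measurableSet_le (hXm.sub_const a).abs measurable_const)
  have hFm : Measurable F := by
    rw [hF]
    exact Measurable.ite hset measurable_const measurable_const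
  have hF01 : ∀ η, 0 ≤ F η ∧ F η ≤ 1 := by
    intro η
    rw [hF]
    simp only
    split_ifs <;> constructor <;> norm_num
  have hFi : Integrable F (law d ρ) := (integrable_const (1 : ℝ)).mono' hFm.aestronglyMeasurable
    (Eventually.of_forall fun η => by
      rw [Real.norm_eq_abs, abs_of_nonneg (hF01 η).1]
      exact (hF01 η).2)
  have hFint : ∫ η, F η ∂(law d ρ) = ring ρ β h n a R M := by
    have e : F = Set.indicator {η : Env d | R < |X β h η n - a| ∧ |X β h η n - a| ≤ M}
        (fun _ => (1 : ℝ)) := by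
      rw [hF]
      funext η
      simp only [Set.indicator_apply, Set.mem_ofPred_eq]
    rw [e, integral_indicator hset]
    simp [ring, Measure.real]
  have hdep : ∀ y : Site d, DependsOn (fun η : Env d => F (sh m y η))
      {p : ℕ × Site d | p.1 ≤ m}ᶜ := by
    intro y η η' hη
    have h1 := FreeU_dep2 β h m n y hη
    simp only at h1 ⊢
    rw [hF]
    simp only
    rw [h1]
  obtain ⟨i1, e1⟩ := Pool.Agent.W_7d29a1_NV.I34.mean_fut (ρ := ρ) hd β h m hFm hFi hdep
  -- the distances
  obtain ⟨D, hD⟩ : ∃ D : (Fin m → Step d) → Env d → ℝ, D = fun q η =>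
    |X β h η (n + m) - X β h (sh m (pos q m) η) n| := ⟨_, rfl⟩
  have hDi : ∀ q, Integrable (D q) (law d ρ) := fun q => by rw [hD]; exact (hC n m q).1
  have hD0 : ∀ q η, 0 ≤ D q η := fun q η => by rw [hD]; exact abs_nonneg _
  have hDC : ∀ q, ∫ η, D q η ∂(law d ρ) ≤ C * m := fun q => by rw [hD]; exact (hC n m q).2
  obtain ⟨L, hL⟩ : ∃ L : Set (Env d), L = {η | X β h η m < (lam ρ β h - ε / 2) * m} := ⟨_, rfl⟩
  have hLm : MeasurableSet L := by
    rw [hL]
    exact measurableSet_lt (measurable_X β h m) measurable_const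
  have hLr : (law d ρ).real L ≤ κ / 4 := by
    rw [hL]
    exact hm₁ m hma
  obtain ⟨Bad, hBad⟩ : ∃ Bad : Set (Env d), Bad =
    {η | |X β h η (n + m) - (a + lam ρ β h * m)| ≤ M / 8 ∧
      X β h η (n + m) < a + lam ρ β h * m - ε * m} := ⟨_, rfl⟩
  have hBm : MeasurableSet Bad := by
    rw [hBad]
    exact (measurableSet_le (((measurable_X β h (n + m)).sub_const _).abs) measurable_const).inter
      (measurableSet_lt (measurable_X β h (n + m)) measurable_const)
  rw [← hBad]
  -- the pointwise bound
  have hpt : ∀ η : Env d, Bad.indicator (fun _ => (1 : ℝ)) η ≤ L.indicator (fun _ => (1 : ℝ)) η +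
      2 * (∑ q : Fin m → Step d, FreeU_p β h m q η * F (sh m (pos q m) η)) +
        4 / M * ∑ q : Fin m → Step d, D q η := by
    intro η
    have hp0 : ∀ q : Fin m → Step d, 0 ≤ FreeU_p β h m q η := fun q =>
      FreeU_nonneg hd β h m q η
    have hs1 : 0 ≤ ∑ q : Fin m → Step d, FreeU_p β h m q η * F (sh m (pos q m) η) :=
      Finset.sum_nonneg fun q _ => mul_nonneg (hp0 q) (hF01 _).1
    have hs2 : 0 ≤ 4 / M * ∑ q : Fin m → Step d, D q η :=
      mul_nonneg (by positivity) (Finset.sum_nonneg fun q _ => hD0 q η)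
    have hs3 : 0 ≤ L.indicator (fun _ => (1 : ℝ)) η :=
      Set.indicator_nonneg (fun _ _ => zero_le_one) η
    by_cases hB : η ∈ Bad
    · rw [Set.indicator_of_mem hB]
      by_cases hl : η ∈ L
      · rw [Set.indicator_of_mem hl]
        linarith
      · rw [Set.indicator_of_notMem hl]
        rw [hBad] at hB
        obtain ⟨hb1, hb2⟩ := hB
        rw [hL] at hl
        have hl' : (lam ρ β h - ε / 2) * m ≤ X β h η m := not_lt.1 hl
        obtain ⟨hb3, hb4⟩ := abs_le.1 hb1
        -- less than half of the mass has a good future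
        have hless : (∑ q : Fin m → Step d, FreeU_p β h m q η *
            (if a - R ≤ X β h (sh m (pos q m) η) n then (1 : ℝ) else 0)) < 1 / 2 := by
          by_contra hcon
          push Not at hcon
          have h1 := half42 hd β h m n η hcon
          have h2 : (lam ρ β h - ε / 2) * m = lam ρ β h * m - ε / 2 * m := by ring
          linarith
        have hterm : ∀ q : Fin m → Step d, FreeU_p β h m q η ≤ FreeU_p β h m q η *
            (if a - R ≤ X β h (sh m (pos q m) η) n then (1 : ℝ) else 0) +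
            FreeU_p β h m q η * F (sh m (pos q m) η) + 2 / M * D q η := by
          intro q
          have h1 := hp0 q
          have h2 := FreeU_le_one hd β h m q η
          have h3 : 0 ≤ 2 / M * D q η := mul_nonneg (by positivity) (hD0 q η)
          have h4 := mul_nonneg h1 (hF01 (sh m (pos q m) η)).1
          by_cases hc : a - R ≤ X β h (sh m (pos q m) η) n
          · rw [if_pos hc]
            linarith
          · rw [if_neg hc]
            push Not at hc
            by_cases hc2 : |X β h (sh m (pos q m) η) n - a| ≤ M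
            · have h5 : F (sh m (pos q m) η) = 1 := by
                rw [hF]
                simp only
                rw [if_pos]
                exact ⟨lt_of_lt_of_le (by linarith) (neg_le_abs _), hc2⟩
              rw [h5]
              linarith
            · have h5 : 1 ≤ 2 / M * D q η := by
                have h6 : M / 2 ≤ D q η := by
                  rw [hD]
                  simp only
                  push Not at hc2
                  have h7 : |X β h (sh m (pos q m) η) n - a| ≤
                      |X β h η (n + m) - X β h (sh m (pos q m) η) n| +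
                        |X β h η (n + m) - a| := by
                    have h8 := abs_sub (X β h η (n + m) - a)
                      (X β h η (n + m) - X β h (sh m (pos q m) η) n)
                    have h9 : X β h η (n + m) - a -
                        (X β h η (n + m) - X β h (sh m (pos q m) η) n) =
                        X β h (sh m (pos q m) η) n - a := by ring
                    rw [h9] at h8
                    linarith
                  have h10 : |X β h η (n + m) - a| ≤ M / 8 + M / 4 := by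
                    rw [abs_le]
                    constructor <;> linarith
                  linarith
                rw [div_mul_eq_mul_div, le_div_iff₀ hM0]
                linarith
              linarith
        have hsum := Finset.sum_le_sum (s := Finset.univ) fun q (_ : q ∈ Finset.univ) => hterm q
        rw [FreeU_sum hd, Finset.sum_add_distrib, Finset.sum_add_distrib, ← Finset.mul_sum] at hsum
        have h4 : 4 / M * ∑ q : Fin m → Step d, D q η =
            2 * (2 / M * ∑ q : Fin m → Step d, D q η) := by ring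
        rw [h4]
        linarith
    · rw [Set.indicator_of_notMem hB]
      linarith
  have iB : Integrable (Bad.indicator fun _ => (1 : ℝ)) (law d ρ) :=
    (integrable_const (1 : ℝ)).indicator hBm
  have iL : Integrable (L.indicator fun _ => (1 : ℝ)) (law d ρ) :=
    (integrable_const (1 : ℝ)).indicator hLm
  have iD : Integrable (fun η : Env d => ∑ q : Fin m → Step d, D q η) (law d ρ) :=
    integrable_finsetSum _ fun q _ => hDi q
  have hfin := integral_mono iB ((iL.add (i1.const_mul 2)).add (iD.const_mul (4 / M))) hpt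
  have iD' : ∫ η, ∑ q : Fin m → Step d, D q η ∂(law d ρ) ≤ K * (C * m) := by
    rw [integral_finsetSum _ fun q _ => hDi q, hK]
    refine (Finset.sum_le_sum fun q _ => hDC q).trans (le_of_eq ?_)
    rw [Finset.sum_const, nsmul_eq_mul, Finset.card_univ]
  have eR : ∫ η, ((L.indicator (fun _ => (1 : ℝ)) η +
      2 * (∑ q : Fin m → Step d, FreeU_p β h m q η * F (sh m (pos q m) η))) +
        4 / M * ∑ q : Fin m → Step d, D q η) ∂(law d ρ) =
      (law d ρ).real L + 2 * ring ρ β h n a R M +
        4 / M * ∫ η, ∑ q : Fin m → Step d, D q η ∂(law d ρ) := by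
    have j1 : Integrable (fun η : Env d => L.indicator (fun _ => (1 : ℝ)) η +
        2 * (∑ q : Fin m → Step d, FreeU_p β h m q η * F (sh m (pos q m) η))) (law d ρ) :=
      iL.add (i1.const_mul 2)
    rw [integral_add j1 (iD.const_mul (4 / M)), integral_add iL (i1.const_mul 2),
      integral_const_mul, integral_const_mul, e1, hFint, integral_indicator hLm]
    simp [Measure.real]
  have eL : ∫ η, Bad.indicator (fun _ => (1 : ℝ)) η ∂(law d ρ) = (law d ρ).real Bad := by
    rw [integral_indicator hBm]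
    simp [Measure.real]
  have hfin' : (law d ρ).real Bad ≤ (law d ρ).real L + 2 * ring ρ β h n a R M +
      4 / M * ∫ η, ∑ q : Fin m → Step d, D q η ∂(law d ρ) := by
    rw [← eL, ← eR]
    exact hfin
  have h1 : 4 / M * ∫ η, ∑ q : Fin m → Step d, D q η ∂(law d ρ) ≤ κ / 2 := by
    refine (mul_le_mul_of_nonneg_left iD' (by positivity)).trans ?_
    rw [div_mul_eq_mul_div, div_le_iff₀ hM0]
    rw [div_le_iff₀ hκ] at hM3
    nlinarith
  linarith

/-- **The transport of the core.** -/
theorem trM42 [IsProbabilityMeasure ρ] (hd : 0 < d) (hρ : EM ρ) (β : ℝ) (h : Vec d) (κ : ℝ)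
    (hκ : 0 < κ) (R : ℝ) (m : ℕ) : ∃ M₁ : ℝ, ∀ M : ℝ, M₁ ≤ M → ∀ (n : ℕ) (a : ℝ),
      (law d ρ).real (win β h n a R) ≤
        (law d ρ).real (win β h (n + m) (a + lam ρ β h * m) (M / 8)) + κ := by
  obtain ⟨C, hC0, hC⟩ := clo42 (ρ := ρ) hd hρ β h
  have e0 : Step d := (⟨0, hd⟩, true)
  obtain ⟨q, -⟩ : ∃ q : Fin m → Step d, q = fun _ => e0 := ⟨_, rfl⟩
  refine ⟨max 1 (max (16 * (R + |lam ρ β h * m|)) (16 * (C * m) / κ)), fun M hM n a => ?_⟩
  have hM1 : 1 ≤ M := (le_max_left _ _).trans hM
  have hM2 : 16 * (R + |lam ρ β h * m|) ≤ M :=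
    (le_max_left _ _).trans ((le_max_right _ _).trans hM)
  have hM3 : 16 * (C * m) / κ ≤ M := (le_max_right _ _).trans ((le_max_right _ _).trans hM)
  have hM0 : 0 < M := by linarith
  have hXm := measurable_X (d := d) β h n
  have hwm : MeasurableSet (win β h n a R : Set (Env d)) :=
    measurableSet_le (hXm.sub_const a).abs measurable_const
  have h1 : (law d ρ).real (win β h n a R) =
      (law d ρ).real {η : Env d | |X β h (sh m (pos q m) η) n - a| ≤ R} := by
    have := (mp_sh (ρ := ρ) m (pos q m)).measure_preimage hwm.nullMeasurableSet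
    unfold Measure.real
    rw [← this]
    rfl
  obtain ⟨hi, hle⟩ := hC n m q
  have h2 := mul_meas_ge_le_integral_of_nonneg (Eventually.of_forall fun η : Env d =>
    abs_nonneg (X β h η (n + m) - X β h (sh m (pos q m) η) n)) hi (M / 16)
  have h3 : (law d ρ).real {η : Env d |
      M / 16 ≤ |X β h η (n + m) - X β h (sh m (pos q m) η) n|} ≤ κ := by
    have h4 := h2.trans hle
    rw [div_le_iff₀ hκ] at hM3
    by_contra hcon
    push Not at hcon
    have h5 : M / 16 * κ < M / 16 * (law d ρ).real {η : Env d |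
      M / 16 ≤ |X β h η (n + m) - X β h (sh m (pos q m) η) n|} :=
      mul_lt_mul_of_pos_left hcon (by positivity)
    linarith
  have h6 : {η : Env d | |X β h (sh m (pos q m) η) n - a| ≤ R} ⊆
      win β h (n + m) (a + lam ρ β h * m) (M / 8) ∪ {η : Env d |
        M / 16 ≤ |X β h η (n + m) - X β h (sh m (pos q m) η) n|} := by
    intro η hη
    have hη' : |X β h (sh m (pos q m) η) n - a| ≤ R := hη
    by_cases hc : M / 16 ≤ |X β h η (n + m) - X β h (sh m (pos q m) η) n|
    · exact Or.inr hc
    · left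
      push Not at hc
      show |X β h η (n + m) - (a + lam ρ β h * m)| ≤ M / 8
      have h7 : X β h η (n + m) - (a + lam ρ β h * m) =
          (X β h η (n + m) - X β h (sh m (pos q m) η) n) +
            ((X β h (sh m (pos q m) η) n - a) - lam ρ β h * m) := by ring
      rw [h7]
      have h8 := abs_add_le (X β h η (n + m) - X β h (sh m (pos q m) η) n)
        ((X β h (sh m (pos q m) η) n - a) - lam ρ β h * m)
      have h9 := abs_sub (X β h (sh m (pos q m) η) n - a) (lam ρ β h * m)
      linarith
  rw [h1]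
  refine (measureReal_mono h6).trans ((measureReal_union_le _ _).trans ?_)
  linarith

end Pool.Agent.W_7d29a1_AC.L42
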