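import Pool.Agent.W_7d29a1_NV.MulT27
import Pool.Agent.W_7d29a1_NV.Inc27
import Pool.Agent.W_7d29a1_NV.Inc34
import Pool.Agent.W_7d29a1_AC.DefsAC8

/-!
Theorem AC, leaf `MulC`: on a flat cluster of the law of the free energy the law of the position is
concentrated on few sites (the insertion of helper79 with the flatness in place of the increment in
probability).
-/

set_option autoImplicit false

namespace Pool.Agent.W_7d29a1_AC.M27

open MeasureTheory ProbabilityTheory Filter Topology Pool.Agent.W_MP_7d29a1_pr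
  Pool.Agent.W_7d29a1_h46 Pool.Agent.W_7d29a1_h46u Pool.Agent.W_7d29a1_D2.B35
  Pool.Agent.W_7d29a1_Q29 Pool.Agent.W_7d29a1_P89 Pool.Agent.W_7d29a1_P78
  Pool.Agent.W_7d29a1_NV Pool.Agent.W_7d29a1_NV.MT27

variable {d : ℕ} {ρ : Measure ℝ}

/-- The insertion: in an environment in which the law of the position is spread out, the insertion
of `m` rows gains `lam m + b` with probability at least one half. -/
theorem gainR27 [IsProbabilityMeasure ρ] (hd : 0 < d) (hρ : EM ρ) (β : ℝ) {h : Vec d}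
    (hV : VSD ρ β h) {ε : ℝ} (hε : 0 < ε) :
    ∃ c₀ C' b₁ : ℝ, 0 < c₀ ∧ 0 < C' ∧ 1 ≤ b₁ ∧ ∀ b : ℝ, b₁ ≤ b → ∃ (m : ℕ) (q : Fin m → Step d),
      c₀ * b ≤ m ∧ m ≤ C' * b ∧ ∀ n τ : ℕ, τ ≤ n → ∀ η : Env d, ¬ GoodN β h n τ b ε η →
        1 / 2 ≤ (law d ρ).real {ξ | X β h η n + (lam ρ β h * m + b) ≤
          X β h (insE τ m (pos q m) η ξ) (n + m)} := by
  classical
  have hLM : LMassP d ρ := lMassP79
  set P : Prm d := ⟨lam ρ β h, β, h, 1⟩ with hP
  have hPP := Pool.Agent.W_7d29a1_P79.hP79 hd hρ hV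
  set θ : ℝ := min (min (ε / 8) (1 / 32)) 1 with hθ
  have hθ0 : 0 < θ := lt_min (lt_min (by positivity) (by norm_num)) one_pos
  have hθ1 : θ ≤ ε / 8 := (min_le_left _ _).trans (min_le_left _ _)
  have hθ2 : θ ≤ 1 / 32 := (min_le_left _ _).trans (min_le_right _ _)
  have hθ3 : θ ≤ 1 := min_le_right _ _
  obtain ⟨k, y, u, hk1, hu1, hp⟩ := Pool.Agent.W_7d29a1_P79.pair79 hd hρ P hPP hθ0 hθ3
  have hu0 : 0 < u := lt_of_lt_of_le one_pos hu1
  have hk0 : (1 : ℝ) ≤ k := by exact_mod_cast hk1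
  set C' : ℝ := k * (2 / u + 1) with hC'
  have hC0 : 0 < C' := by positivity
  set c : ℝ := min (ε / 2) (1 / 4) with hc
  have hc0 : 0 < c := lt_min (by positivity) (by norm_num)
  have hc1 : c ≤ ε / 2 := min_le_left _ _
  have hc2 : c ≤ 1 / 4 := min_le_right _ _
  obtain ⟨b₁, hb11, hb₁⟩ := num79 hc0 d (B := θ * u) (by positivity) C' hC0.le
  refine ⟨2 / u, C', b₁, by positivity, hC0, hb11, fun b hb => ?_⟩
  have hbb1 : b₁ ≤ b := hb
  have hb1 : 1 ≤ b := hb11.trans hbb1
  have hb0 : 0 < b := by linarith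
  set r : ℕ := ⌈2 * b / u⌉₊ with hr
  have hr1 : 2 * b / u ≤ r := Nat.le_ceil _
  have hr2 : (r : ℝ) < 2 * b / u + 1 := Nat.ceil_lt_add_one (by positivity)
  have hU1 : 2 * b ≤ r * u := by
    rw [div_le_iff₀ hu0] at hr1
    exact hr1
  have hU2 : (r : ℝ) * u ≤ 2 * b + u := by
    have := mul_le_mul_of_nonneg_right hr2.le hu0.le
    rw [add_mul, div_mul_cancel₀ _ hu0.ne', one_mul] at this
    exact this
  set m : ℕ := r * k with hm
  have hmC : (m : ℝ) ≤ C' * b := by
    rw [hm, hC']
    push_cast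
    have h1 : (r : ℝ) ≤ (2 / u + 1) * b := by
      have h2 : 2 * b / u + 1 ≤ (2 / u + 1) * b := by
        have : 2 * b / u = 2 / u * b := by ring
        rw [this]
        nlinarith
      linarith
    nlinarith
  have hmc : 2 / u * b ≤ (m : ℝ) := by
    have h1 : (r : ℝ) ≤ m := by
      rw [hm]
      exact_mod_cast Nat.le_mul_of_pos_right r hk1
    refine le_trans (le_of_eq ?_) (hr1.trans h1)
    ring
  have hreach : ∃ q : Fin m → Step d, pos q m = r • y := by
    by_contra hno
    rw [not_exists] at hno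
    have h0 : {ξ : Env d | Lk P (r * k) (r • y) (r * u) ξ} = ∅ := by
      rw [Set.eq_empty_iff_forall_notMem]
      intro ξ hl
      have h5 : Real.exp (r * u) ≤ Real.exp (-((m : ℝ) * lam ρ β h)) * PP β h ξ m (r • y) := hl
      have h6 : PP β h ξ m (r • y) = 0 := by
        unfold PP ZT
        exact Finset.sum_eq_zero fun s _ => if_neg (hno s)
      rw [h6, mul_zero] at h5
      exact absurd h5 (not_le.2 (Real.exp_pos _))
    have h1 := (pow_le_pow_left₀ (Real.exp_pos _).le hp r).trans (concat78 P k y u r)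
    rw [h0, measureReal_empty] at h1
    exact absurd h1 (not_le.2 (pow_pos (Real.exp_pos _) r))
  obtain ⟨q₀, hq₀⟩ := hreach
  refine ⟨m, q₀, hmc, hmC, fun n τ hτn η hη => ?_⟩
  rw [hq₀]
  -- the probability of luck
  set z0 : Site d := r • y with hz0
  set U : ℝ := r * u with hU
  set p : ℝ := (law d ρ).real {ξ : Env d | Lk P m z0 U ξ} with hpd
  have hplow : Real.exp (-(θ * (2 * b + u))) ≤ p := by
    refine le_trans ?_ (concat78 P k y u r)
    refine le_trans ?_ (pow_le_pow_left₀ (Real.exp_pos _).le hp r)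
    rw [← Real.exp_nat_mul, Real.exp_le_exp]
    have : θ * (r * u) ≤ θ * (2 * b + u) := mul_le_mul_of_nonneg_left hU2 hθ0.le
    linarith
  have hp0 : 0 < p := (Real.exp_pos _).trans_le hplow
  have hnum := hb₁ b hbb1 m hmC
  have hpow1 : (1 : ℝ) ≤ (4 * (m : ℝ) + 1) ^ d := one_le_pow₀ (by
    have : (0 : ℝ) ≤ m := Nat.cast_nonneg m
    linarith)
  have hQ0 : ∀ x, 0 ≤ Qt β h n τ x η := fun x => S98.Qt_nonneg hd β h n τ x η
  have hfin : 1 / 2 ≤ (law d ρ).real {ξ | Real.exp (b - U) ≤ ∑ x ∈ boxF d n,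
      if Lk P m z0 U (sh τ x ξ) then Qt β h n τ x η else 0} := by
    -- the conclusion from the lucky mass lemma
    have key : ∀ (A : Finset (Site d)) (q : Site d → ℝ) (M : ℝ), A ⊆ boxF d n →
        (∀ x ∈ A, 0 ≤ q x) → (∀ x ∈ A, q x ≤ M) → 0 < ∑ x ∈ A, q x →
        8 * M * (4 * (m : ℝ) + 1) ^ d ≤ p * ∑ x ∈ A, q x →
        (∀ ξ : Env d, p * (∑ x ∈ A, q x) / 2 <
          (∑ x ∈ A, if Lk P m z0 U (sh τ x ξ) then q x else 0) →
          Real.exp (b - U) ≤ ∑ x ∈ A, if Lk P m z0 U (sh τ x ξ) then Qt β h n τ x η else 0) →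
        1 / 2 ≤ (law d ρ).real {ξ | Real.exp (b - U) ≤ ∑ x ∈ boxF d n,
          if Lk P m z0 U (sh τ x ξ) then Qt β h n τ x η else 0} := by
      intro A q M hAs hq0 hqM hT hnum' hgain
      have h1 := hLM P τ m z0 U A q M hq0 hqM hT hp0
      have hpT : 0 < p * ∑ x ∈ A, q x := mul_pos hp0 hT
      have h2 : 4 * M * (4 * (m : ℝ) + 1) ^ d / (p * ∑ x ∈ A, q x) ≤ 1 / 2 := by
        rw [div_le_iff₀ hpT]
        linarith
      have hmeas : MeasurableSet {ξ : Env d | (∑ x ∈ A,
          if Lk P m z0 U (sh τ x ξ) then q x else 0) ≤ p * (∑ x ∈ A, q x) / 2} := by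
        refine measurableSet_le (Finset.measurable_fun_sum _ fun x _ => ?_) measurable_const
        exact Measurable.ite ((measurable_sh τ x) (measurableSet_Lk78 P m z0 U))
          measurable_const measurable_const
      have h3 := probReal_compl_eq_one_sub (μ := law d ρ) hmeas
      have h4 : {ξ : Env d | (∑ x ∈ A, if Lk P m z0 U (sh τ x ξ) then q x else 0) ≤
          p * (∑ x ∈ A, q x) / 2}ᶜ ⊆ {ξ | Real.exp (b - U) ≤ ∑ x ∈ boxF d n,
          if Lk P m z0 U (sh τ x ξ) then Qt β h n τ x η else 0} := by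
        intro ξ hξ
        have h5 : p * (∑ x ∈ A, q x) / 2 <
          (∑ x ∈ A, if Lk P m z0 U (sh τ x ξ) then q x else 0) := not_le.1 hξ
        refine (hgain ξ h5).trans ?_
        refine Finset.sum_le_sum_of_subset_of_nonneg hAs fun x _ _ => ?_
        split_ifs
        · exact hQ0 x
        · exact le_rfl
      have h5 := measureReal_mono (μ := law d ρ) h4
      rw [h3] at h5
      linarith
    by_cases hi : (((boxF d n).filter fun x => Real.exp (-b) ≤ Qt β h n τ x η).card : ℝ) ≤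
        Real.exp (ε * b)
    · -- the mass of the small atoms is large
      have hii : Real.exp (-(b / 4)) <
          ∑ x ∈ (boxF d n).filter fun x => Qt β h n τ x η < Real.exp (-b), Qt β h n τ x η := by
        by_contra hcon
        exact hη ⟨hi, not_lt.1 hcon⟩
      set A : Finset (Site d) := (boxF d n).filter fun x => Qt β h n τ x η < Real.exp (-b) with hAd
      have hT : 0 < ∑ x ∈ A, Qt β h n τ x η := (Real.exp_pos _).trans hii
      have hpT : Real.exp (-(θ * (2 * b + u))) * Real.exp (-(b / 4)) ≤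
          p * ∑ x ∈ A, Qt β h n τ x η :=
        mul_le_mul hplow hii.le (Real.exp_pos _).le hp0.le
      rw [← Real.exp_add] at hpT
      refine key A (fun x => Qt β h n τ x η) (Real.exp (-b)) (Finset.filter_subset _ _)
        (fun x _ => hQ0 x) (fun x hx => (Finset.mem_filter.1 hx).2.le) hT ?_ ?_
      · refine le_trans ?_ hpT
        have h6 : 8 * (4 * (m : ℝ) + 1) ^ d ≤ Real.exp (c * b - θ * u) := by
          rw [Real.exp_sub, le_div_iff₀ (Real.exp_pos _)]
          exact hnum
        have h7 : 8 * Real.exp (-b) * (4 * (m : ℝ) + 1) ^ d ≤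
            Real.exp (c * b - θ * u) * Real.exp (-b) := by
          have := mul_le_mul_of_nonneg_right h6 (Real.exp_pos (-b)).le
          linarith
        refine h7.trans ?_
        rw [← Real.exp_add, Real.exp_le_exp]
        nlinarith
      · intro ξ hξ
        refine le_trans ?_ hξ.le
        refine le_trans ?_ (div_le_div_of_nonneg_right hpT two_pos.le)
        rw [le_div_iff₀ two_pos]
        have h6 : 8 * Real.exp (θ * u) ≤ Real.exp (c * b) := by
          refine le_trans ?_ hnum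
          have := mul_le_mul_of_nonneg_right hpow1 (Real.exp_pos (θ * u)).le
          linarith
        have h7 : (2 : ℝ) ≤ Real.exp (c * b - θ * u) := by
          rw [Real.exp_sub, le_div_iff₀ (Real.exp_pos _)]
          have := Real.exp_pos (θ * u)
          linarith
        calc Real.exp (b - U) * 2 ≤ Real.exp (b - U) * Real.exp (c * b - θ * u) :=
              mul_le_mul_of_nonneg_left h7 (Real.exp_pos _).le
          _ = Real.exp (b - U + (c * b - θ * u)) := (Real.exp_add _ _).symm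
          _ ≤ _ := by
            rw [Real.exp_le_exp]
            nlinarith
    · -- there are many atoms
      rw [not_le] at hi
      set A : Finset (Site d) := (boxF d n).filter fun x => Real.exp (-b) ≤ Qt β h n τ x η with hAd
      have hsum : ∑ _x ∈ A, (1 : ℝ) = A.card := by simp
      have hcard : 0 < (A.card : ℝ) := (Real.exp_pos _).trans hi
      refine key A (fun _ => 1) 1 (Finset.filter_subset _ _) (fun _ _ => zero_le_one)
        (fun _ _ => le_rfl) (by rw [hsum]; exact hcard) ?_ ?_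
      · rw [hsum]
        have hpT : Real.exp (-(θ * (2 * b + u))) * Real.exp (ε * b) ≤ p * A.card :=
          mul_le_mul hplow hi.le (Real.exp_pos _).le hp0.le
        rw [← Real.exp_add] at hpT
        refine le_trans ?_ hpT
        have h6 : 8 * (4 * (m : ℝ) + 1) ^ d ≤ Real.exp (c * b - θ * u) := by
          rw [Real.exp_sub, le_div_iff₀ (Real.exp_pos _)]
          exact hnum
        rw [mul_one]
        refine h6.trans ?_
        rw [Real.exp_le_exp]
        nlinarith
      · intro ξ hξ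
        have h6 : 0 < ∑ x ∈ A, (if Lk P m z0 U (sh τ x ξ) then (1 : ℝ) else 0) := by
          refine lt_of_le_of_lt ?_ hξ
          rw [hsum]
          positivity
        obtain ⟨x, hxA, hx⟩ := Finset.exists_ne_zero_of_sum_ne_zero h6.ne'
        have hl : Lk P m z0 U (sh τ x ξ) := by
          by_contra hcon
          exact hx (if_neg hcon)
        have h7 : Real.exp (b - U) ≤ Qt β h n τ x η := by
          refine le_trans ?_ (Finset.mem_filter.1 hxA).2
          rw [Real.exp_le_exp]
          linarith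
        refine h7.trans ?_
        have h8 := Finset.single_le_sum (s := A) (a := x)
          (f := fun x => if Lk P m z0 U (sh τ x ξ) then Qt β h n τ x η else 0)
          (fun x _ => by
            split_ifs
            · exact hQ0 x
            · exact le_rfl) hxA
        beta_reduce at h8
        rw [if_pos hl] at h8
        exact h8
  exact hfin.trans (measureReal_mono fun ξ hξ => gainP27 hd β h hτn z0 hξ)


/-- A path is one of the paths. -/
lemma wgt_le_PP27 (β : ℝ) (h : Vec d) (η : Env d) {m : ℕ} (q : Fin m → Step d) :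
    wgt β h η q ≤ PP β h η m (pos q m) := by
  have h1 := ZT_mono β h η (Set.singleton_subset_iff.2
    (show q ∈ {s : Fin m → Step d | pos s m = pos q m} from rfl))
  refine le_trans (le_of_eq ?_) h1
  unfold ZT
  rw [Finset.sum_eq_single q]
  · rw [if_pos (Set.mem_singleton q)]
  · intro s _ hs
    exact if_neg hs
  · intro hq
    exact absurd (Finset.mem_univ q) hq

/-- The loss of the insertion along a path. -/
noncomputable def Ls (β : ℝ) (h : Vec d) (n τ : ℕ) {m : ℕ} (q : Fin m → Step d)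
    (w : Env d × Env d) : ℝ :=
  ∑ x ∈ boxF d τ, Qt β h n τ x w.1 * |Real.log (wgt β h (sh τ x w.2) q)|

/-- The insertion loses at most the cost of a path. -/
lemma insP27 (hd : 0 < d) (β : ℝ) (h : Vec d) {n τ m : ℕ} (hτ : τ ≤ n) (q : Fin m → Step d)
    (η ξ : Env d) : X β h η n - Ls β h n τ q (η, ξ) ≤ X β h (insE τ m (pos q m) η ξ) (n + m) := by
  have hsum := S98.Qt_sum hd β h hτ η
  have h0 : ∀ x ∈ boxF d τ, 0 ≤ Qt β h n τ x η := fun x _ => S98.Qt_nonneg hd β h n τ x η
  have h1 := convexOn_exp.map_sum_le (t := boxF d τ) (w := fun x => Qt β h n τ x η)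
    (p := fun x => Real.log (wgt β h (sh τ x ξ) q)) h0 hsum (fun _ _ => Set.mem_univ _)
  simp only [smul_eq_mul] at h1
  have h2 : Real.exp (∑ x ∈ boxF d τ, Qt β h n τ x η * Real.log (wgt β h (sh τ x ξ) q)) ≤
      ∑ x ∈ boxF d τ, Qt β h n τ x η * PP β h (sh τ x ξ) m (pos q m) := by
    refine h1.trans (Finset.sum_le_sum fun x hx => mul_le_mul_of_nonneg_left ?_ (h0 x hx))
    rw [Real.exp_log (wgt_pos β h (sh τ x ξ) q)]
    exact wgt_le_PP27 β h (sh τ x ξ) q
  have h3 := X_ins hd β h m hτ (pos q m) η ξ (Real.exp_pos _) h2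
  rw [Real.log_exp] at h3
  have h4 : -Ls β h n τ q (η, ξ) ≤
      ∑ x ∈ boxF d τ, Qt β h n τ x η * Real.log (wgt β h (sh τ x ξ) q) := by
    unfold Ls
    rw [← Finset.sum_neg_distrib]
    refine Finset.sum_le_sum fun x hx => ?_
    rw [← mul_neg]
    exact mul_le_mul_of_nonneg_left (neg_abs_le _) (h0 x hx)
  linarith

/-- The mean loss. -/
lemma lsI27 [IsProbabilityMeasure ρ] (hd : 0 < d) (hρ : EM ρ) (β : ℝ) (h : Vec d) {n τ m : ℕ}
    (hτ : τ ≤ n) (q : Fin m → Step d) :
    Integrable (Ls β h n τ q) ((law d ρ).prod (law d ρ)) ∧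
      ∫ w, Ls β h n τ q w ∂((law d ρ).prod (law d ρ)) ≤ Cp ρ β h * m := by
  obtain ⟨hc1, hc2⟩ := cost92 (ρ := ρ) hρ β h q
  have hcx : ∀ x : Site d, Integrable (fun ξ : Env d => |Real.log (wgt β h (sh τ x ξ) q)|)
      (law d ρ) := fun x => (mp_sh (ρ := ρ) τ x).integrable_comp_of_integrable hc1
  have hce : ∀ x : Site d, ∫ ξ : Env d, |Real.log (wgt β h (sh τ x ξ) q)| ∂(law d ρ) =
      ∫ ξ : Env d, |Real.log (wgt β h ξ q)| ∂(law d ρ) := fun x =>
    integral_sh τ x (measurable_logw β h q).abs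
  have hQi : ∀ x : Site d, Integrable (fun η : Env d => Qt β h n τ x η) (law d ρ) := fun x =>
    (integrable_const (1 : ℝ)).mono' (S98.measurable_Qt β h n τ x).aestronglyMeasurable
      (Eventually.of_forall fun η => by
        rw [Real.norm_eq_abs, abs_of_nonneg (S98.Qt_nonneg hd β h n τ x η)]
        exact S98.Qt_le_one hd β h hτ x η)
  have hterm : ∀ x : Site d, Integrable (fun w : Env d × Env d => Qt β h n τ x w.1 *
      |Real.log (wgt β h (sh τ x w.2) q)|) ((law d ρ).prod (law d ρ)) := fun x =>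
    (hQi x).mul_prod (hcx x)
  refine ⟨integrable_finsetSum _ fun x _ => hterm x, ?_⟩
  unfold Ls
  rw [integral_finsetSum _ fun x _ => hterm x]
  have h1 : ∀ x ∈ boxF d τ, ∫ w : Env d × Env d, Qt β h n τ x w.1 *
      |Real.log (wgt β h (sh τ x w.2) q)| ∂((law d ρ).prod (law d ρ)) =
      (∫ η, Qt β h n τ x η ∂(law d ρ)) * ∫ ξ : Env d, |Real.log (wgt β h ξ q)| ∂(law d ρ) := by
    intro x _
    rw [integral_prod_mul (fun η : Env d => Qt β h n τ x η)
      (fun ξ : Env d => |Real.log (wgt β h (sh τ x ξ) q)|), hce x]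
  rw [Finset.sum_congr rfl h1, ← Finset.sum_mul, ← integral_finsetSum _ fun x _ => hQi x]
  simp only [S98.Qt_sum hd β h hτ]
  simpa using hc2

/-- The free energy moves little under the insertion. -/
lemma devIns27 [IsProbabilityMeasure ρ] (hd : 0 < d) (hρ : EM ρ) (β : ℝ) (h : Vec d) :
    ∃ C : ℝ, 0 ≤ C ∧ ∀ (n τ m : ℕ) (_ : τ ≤ n) (q : Fin m → Step d),
      Integrable (fun w : Env d × Env d => |X β h (insE τ m (pos q m) w.1 w.2) (n + m) -
        X β h w.1 n|) ((law d ρ).prod (law d ρ)) ∧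
      ∫ w : Env d × Env d, |X β h (insE τ m (pos q m) w.1 w.2) (n + m) - X β h w.1 n|
        ∂((law d ρ).prod (law d ρ)) ≤ C * m := by
  obtain ⟨C₂, hC₂⟩ : ∃ C₂ : ℝ, C₂ = 2 * Real.log (Phi h) ^ 2 +
    2 * ((∫ r, Real.exp (β * r) ∂ρ) + ∫ r, Real.exp (-β * r) ∂ρ) := ⟨_, rfl⟩
  refine ⟨Real.sqrt C₂ + 2 * Cp ρ β h, add_nonneg (Real.sqrt_nonneg _)
    (mul_nonneg two_pos.le (Cp_nonneg (ρ := ρ) β h)), fun n τ m hτ q => ?_⟩
  obtain ⟨hL1, hL2⟩ := lsI27 (ρ := ρ) hd hρ β h hτ q
  have hmp := mp_ins (d := d) (ρ := ρ) τ m (pos q m)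
  have hX : ∀ k, Integrable (fun η => X β h η k) (law d ρ) := fun k => (concU hd hρ β h k).1
  have hN : Integrable (fun w : Env d × Env d => X β h (insE τ m (pos q m) w.1 w.2) (n + m))
      ((law d ρ).prod (law d ρ)) := hmp.integrable_comp_of_integrable (hX (n + m))
  have hO : Integrable (fun w : Env d × Env d => X β h w.1 n) ((law d ρ).prod (law d ρ)) :=
    (measurePreserving_fst (μ := law d ρ) (ν := law d ρ)).integrable_comp_of_integrable (hX n)
  have eN : ∫ w : Env d × Env d, X β h (insE τ m (pos q m) w.1 w.2) (n + m)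
      ∂((law d ρ).prod (law d ρ)) = A ρ β h (n + m) :=
    LawU_integral hmp (F := fun η : Env d => X β h η (n + m))
      (measurable_X β h (n + m)).aestronglyMeasurable
  have eO : ∫ w : Env d × Env d, X β h w.1 n ∂((law d ρ).prod (law d ρ)) = A ρ β h n :=
    LawU_integral (measurePreserving_fst (μ := law d ρ) (ν := law d ρ))
      (F := fun η : Env d => X β h η n) (measurable_X β h n).aestronglyMeasurable
  have hD : Integrable (fun w : Env d × Env d => X β h (insE τ m (pos q m) w.1 w.2) (n + m) -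
      X β h w.1 n) ((law d ρ).prod (law d ρ)) := hN.sub hO
  refine ⟨hD.abs, ?_⟩
  have hpt : ∀ w : Env d × Env d, |X β h (insE τ m (pos q m) w.1 w.2) (n + m) - X β h w.1 n| ≤
      (X β h (insE τ m (pos q m) w.1 w.2) (n + m) - X β h w.1 n) + 2 * Ls β h n τ q w := by
    intro w
    have h1 := insP27 hd β h hτ q w.1 w.2
    have h2 : 0 ≤ Ls β h n τ q w := Finset.sum_nonneg fun x _ =>
      mul_nonneg (S98.Qt_nonneg hd β h n τ x w.1) (abs_nonneg _)
    have h3 : X β h w.1 n - Ls β h n τ q w ≤ X β h (insE τ m (pos q m) w.1 w.2) (n + m) := h1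
    rw [abs_le]
    constructor <;> linarith
  have h1 := integral_mono hD.abs (hD.add (hL1.const_mul 2)) hpt
  have e1 : ∫ w : Env d × Env d, ((X β h (insE τ m (pos q m) w.1 w.2) (n + m) - X β h w.1 n) +
      2 * Ls β h n τ q w) ∂((law d ρ).prod (law d ρ)) =
      (A ρ β h (n + m) - A ρ β h n) + 2 * ∫ w, Ls β h n τ q w ∂((law d ρ).prod (law d ρ)) := by
    rw [integral_add hD (hL1.const_mul 2), integral_sub hN hO, eN, eO, integral_const_mul]
  have h2 : A ρ β h (n + m) - A ρ β h n ≤ Real.sqrt C₂ * m := by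
    have h3 := Inc27.steps27 (ρ := ρ) hd hρ β h n m
    rw [← hC₂] at h3
    have hi : Integrable (fun η : Env d => X β h η (n + m) - X β h η n) (law d ρ) :=
      (hX (n + m)).sub (hX n)
    have hi2 : Integrable (fun η : Env d => (X β h η (n + m) - X β h η n) ^ 2) (law d ρ) := by
      have i1 := N85.Va_int (ρ := ρ) hd hρ β h (n + m)
      have i0 := N85.Va_int (ρ := ρ) hd hρ β h n
      refine (((i1.add i0).const_mul 3).add
        (integrable_const (3 * (A ρ β h (n + m) - A ρ β h n) ^ 2))).mono'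
        (((measurable_X β h (n + m)).sub (measurable_X β h n)).pow_const 2).aestronglyMeasurable
        (Eventually.of_forall fun η => ?_)
      rw [Real.norm_eq_abs, abs_of_nonneg (sq_nonneg _)]
      simp only [Pi.add_apply]
      nlinarith [sq_nonneg ((X β h η (n + m) - A ρ β h (n + m)) + (X β h η n - A ρ β h n)),
        sq_nonneg ((X β h η (n + m) - A ρ β h (n + m)) - (A ρ β h (n + m) - A ρ β h n)),
        sq_nonneg ((X β h η n - A ρ β h n) + (A ρ β h (n + m) - A ρ β h n))]
    have h4 := Pool.Agent.W_7d29a1_NV.I34.abs_le_sqrt hi hi2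
    have h5 : A ρ β h (n + m) - A ρ β h n ≤ ∫ η, |X β h η (n + m) - X β h η n| ∂(law d ρ) := by
      have h6 : ∫ η, (X β h η (n + m) - X β h η n) ∂(law d ρ) =
          A ρ β h (n + m) - A ρ β h n := integral_sub (hX (n + m)) (hX n)
      rw [← h6]
      exact integral_mono hi hi.abs fun η => le_abs_self _
    have h6 : Real.sqrt (∫ η, (X β h η (n + m) - X β h η n) ^ 2 ∂(law d ρ)) ≤
        Real.sqrt C₂ * m := by
      refine (Real.sqrt_le_sqrt h3).trans (le_of_eq ?_)
      have hC0 : 0 ≤ C₂ := by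
        rw [hC₂]
        have h7 : 0 ≤ ∫ r, Real.exp (β * r) ∂ρ := integral_nonneg fun _ => (Real.exp_pos _).le
        have h8 : 0 ≤ ∫ r, Real.exp (-β * r) ∂ρ := integral_nonneg fun _ => (Real.exp_pos _).le
        positivity
      rw [Real.sqrt_mul hC0, Real.sqrt_sq (Nat.cast_nonneg m)]
    linarith
  have h3 : ∫ w : Env d × Env d, |X β h (insE τ m (pos q m) w.1 w.2) (n + m) - X β h w.1 n|
      ∂((law d ρ).prod (law d ρ)) ≤ (A ρ β h (n + m) - A ρ β h n) +
        2 * ∫ w, Ls β h n τ q w ∂((law d ρ).prod (law d ρ)) := by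
    rw [← e1]
    exact h1
  calc _ ≤ _ := h3
    _ ≤ Real.sqrt C₂ * m + 2 * (Cp ρ β h * m) := by linarith
    _ = _ := by ring

/-- **Leaf E2.** -/
theorem mulC27 [IsProbabilityMeasure ρ] (hd : 0 < d) (hρ : EM ρ) (β : ℝ)
    (hF : FlaC d ρ β) : MulC d ρ β := by
  intro h hV ε δ hε hδ
  obtain ⟨c₀, C', b₁, hc0, hC0, hb11, hg⟩ := gainR27 hd hρ β hV hε
  obtain ⟨CD, hCD0, hCD⟩ := devIns27 (ρ := ρ) hd hρ β h
  obtain ⟨e₁, he₁, hfl⟩ := hF h (1 / (4 * C')) (δ / 8) (by positivity) (by linarith)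
  refine ⟨min e₁ (δ / 8), lt_min he₁ (by linarith), fun R hR => ?_⟩
  obtain ⟨m₁, hm₁⟩ := hfl R hR
  refine ⟨max b₁ (max (m₁ / c₀) (4 * R)), fun b hb => ?_⟩
  have hbb1 : b₁ ≤ b := (le_max_left _ _).trans hb
  have hbb2 : (m₁ : ℝ) / c₀ ≤ b := (le_max_left _ _).trans ((le_max_right _ _).trans hb)
  have hbb3 : 4 * R ≤ b := (le_max_right _ _).trans ((le_max_right _ _).trans hb)
  have hb1 : 1 ≤ b := hb11.trans hbb1
  obtain ⟨m, q, hm1, hm2, hgain⟩ := hg b hbb1
  have hmm : m₁ ≤ m := by
    have h1 : (m₁ : ℝ) ≤ m := by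
      rw [div_le_iff₀ hc0] at hbb2
      linarith
    exact_mod_cast h1
  obtain ⟨M₁, hM₁⟩ := hm₁ m hmm
  refine ⟨max M₁ (max (32 * (|lam ρ β h| * m) + 1) (256 * (CD * m) / δ)), fun M hM => ?_⟩
  have hMM1 : M₁ ≤ M := (le_max_left _ _).trans hM
  have hMM2 : 32 * (|lam ρ β h| * m) + 1 ≤ M :=
    (le_max_left _ _).trans ((le_max_right _ _).trans hM)
  have hMM3 : 256 * (CD * m) / δ ≤ M := (le_max_right _ _).trans ((le_max_right _ _).trans hM)
  have hM0 : 0 < M := by
    have : 0 ≤ |lam ρ β h| * (m : ℝ) := by positivity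
    linarith
  refine ⟨m, fun n a hn hring τ hτ1 hτn => ?_⟩
  obtain ⟨hr1, -⟩ := hM₁ M hMM1 n a hn (hring.trans (min_le_left _ _))
  have hr2 : ring ρ β h n a R M ≤ δ / 8 := hring.trans (min_le_right _ _)
  obtain ⟨hdi, hdv⟩ := hCD n τ m hτn q
  have hmp := mp_ins (d := d) (ρ := ρ) τ m (pos q m)
  set G : Set (Env d × Env d) := {w | w.1 ∈ win β h n a (M / 16) ∧
    X β h w.1 n + (lam ρ β h * m + b) ≤ X β h (insE τ m (pos q m) w.1 w.2) (n + m)} with hG
  have hwm : MeasurableSet (win β h n a (M / 16)) :=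
    measurableSet_le ((measurable_X β h n).sub_const a).abs measurable_const
  have hGm : MeasurableSet G := (measurable_fst hwm).inter (measurableSet_le
    (((measurable_X β h n).comp measurable_fst).add_const _)
    ((measurable_X β h (n + m)).comp hmp.measurable))
  have hfin := sec27 (ρ := ρ) hGm {η | η ∈ win β h n a (M / 16) ∧ ¬ GoodN β h n τ b ε η}
    (fun η hη => by
      refine (hgain n τ hτn η hη.2).trans (measureReal_mono fun ξ hξ => ?_)
      exact ⟨hη.1, hξ⟩)
  have hsub : G ⊆ {w : Env d × Env d | R < |X β h w.1 n - a| ∧ |X β h w.1 n - a| ≤ M} ∪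
      ({w | M / 32 ≤ |X β h (insE τ m (pos q m) w.1 w.2) (n + m) - X β h w.1 n|} ∪
      {w | 1 / (4 * C') * m < |X β h (insE τ m (pos q m) w.1 w.2) (n + m) -
        (a + lam ρ β h * m)| ∧ |X β h (insE τ m (pos q m) w.1 w.2) (n + m) -
        (a + lam ρ β h * m)| ≤ M / 8}) := by
    rintro w ⟨hw1, hw2⟩
    by_contra hno
    rw [Set.mem_union, Set.mem_union, not_or, not_or] at hno
    obtain ⟨h1, h2, h3⟩ := hno
    have hw1' : |X β h w.1 n - a| ≤ M / 16 := hw1
    have h1' : |X β h w.1 n - a| ≤ R := by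
      by_contra hc
      exact h1 ⟨not_le.1 hc, by linarith⟩
    have h2' : |X β h (insE τ m (pos q m) w.1 w.2) (n + m) - X β h w.1 n| < M / 32 := not_le.1 h2
    have h4 : 1 / (4 * C') * (m : ℝ) ≤ b / 4 := by
      have h5 := mul_le_mul_of_nonneg_left hm2 (show (0 : ℝ) ≤ 1 / (4 * C') by positivity)
      refine h5.trans (le_of_eq ?_)
      field_simp
    have h5 := abs_le.1 h1'
    have h6 := abs_le.1 hw1'
    have h7 := abs_lt.1 h2'
    have h8 := neg_abs_le (lam ρ β h)
    have h9 : -(|lam ρ β h| * m) ≤ lam ρ β h * m := by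
      rw [← neg_mul]
      exact mul_le_mul_of_nonneg_right h8 (Nat.cast_nonneg m)
    refine h3 ⟨lt_of_lt_of_le ?_ (le_abs_self _), ?_⟩
    · linarith
    · rw [abs_le]
      constructor <;> linarith
  have hP1 : ((law d ρ).prod (law d ρ)).real
      {w : Env d × Env d | R < |X β h w.1 n - a| ∧ |X β h w.1 n - a| ≤ M} ≤ δ / 8 := by
    refine le_trans (le_of_eq ?_) hr2
    have hms : MeasurableSet {η : Env d | R < |X β h η n - a| ∧ |X β h η n - a| ≤ M} :=
      (measurableSet_lt measurable_const ((measurable_X β h n).sub_const a).abs).inter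
        (measurableSet_le ((measurable_X β h n).sub_const a).abs measurable_const)
    have h1 := (measurePreserving_fst (μ := law d ρ) (ν := law d ρ)).measure_preimage
      hms.nullMeasurableSet
    unfold ring Measure.real
    rw [← h1]
    rfl
  have hP2 : ((law d ρ).prod (law d ρ)).real {w : Env d × Env d | M / 32 ≤
      |X β h (insE τ m (pos q m) w.1 w.2) (n + m) - X β h w.1 n|} ≤ δ / 8 := by
    have h1 := mul_meas_ge_le_integral_of_nonneg (μ := (law d ρ).prod (law d ρ))
      (Eventually.of_forall fun w : Env d × Env d => abs_nonneg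
        (X β h (insE τ m (pos q m) w.1 w.2) (n + m) - X β h w.1 n)) hdi (M / 32)
    have h2 : CD * m ≤ M / 32 * (δ / 8) := by
      rw [div_le_iff₀ hδ] at hMM3
      linarith
    exact le_of_mul_le_mul_left ((h1.trans hdv).trans h2) (by linarith)
  have hP3 : ((law d ρ).prod (law d ρ)).real {w : Env d × Env d | 1 / (4 * C') * m <
      |X β h (insE τ m (pos q m) w.1 w.2) (n + m) - (a + lam ρ β h * m)| ∧
      |X β h (insE τ m (pos q m) w.1 w.2) (n + m) - (a + lam ρ β h * m)| ≤ M / 8} ≤ δ / 8 := by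
    refine le_trans (le_of_eq ?_) hr1
    have hms : MeasurableSet {η : Env d | 1 / (4 * C') * m <
        |X β h η (n + m) - (a + lam ρ β h * m)| ∧
        |X β h η (n + m) - (a + lam ρ β h * m)| ≤ M / 8} :=
      (measurableSet_lt measurable_const ((measurable_X β h (n + m)).sub_const _).abs).inter
        (measurableSet_le ((measurable_X β h (n + m)).sub_const _).abs measurable_const)
    have h1 := hmp.measure_preimage hms.nullMeasurableSet
    unfold ring Measure.real
    rw [← h1]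
    rfl
  have h5 := (measureReal_mono (μ := (law d ρ).prod (law d ρ)) hsub).trans
    ((measureReal_union_le _ _).trans (add_le_add le_rfl (measureReal_union_le _ _)))
  linarith

end Pool.Agent.W_7d29a1_AC.M27
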