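import Pool.Agent.W_7d29a1_AC.One30
import Pool.Agent.W_7d29a1_NV.OneEnd52
import Pool.Agent.W_7d29a1_NV.MarT53
import Pool.Agent.W_7d29a1_NV.Eq41c

/-!
Theorem AC, leaf C1, closed.
-/

set_option autoImplicit false

namespace Pool.Agent.W_7d29a1_AC

open MeasureTheory Pool.Agent.W_7d29a1_NV

/-- **Leaf C1.** -/
theorem oneC30 {d : ℕ} {ρ : Measure ℝ} {β b : ℝ} [IsProbabilityMeasure ρ] (hd : 0 < d)
    (hβ : 0 < β) (hb : HB ρ b) : OneC d ρ β b :=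
  C30.one30 hd hb oneT (Eq41.eqT41 hd hβ hb) (M53.marT53 d) (mix96 hb)

end Pool.Agent.W_7d29a1_AC
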