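import Pool.Agent.W_7d29a1_AC.MulC27
import Pool.Agent.W_7d29a1_AC.DefsF8
import Pool.Agent.W_7d29a1_Q29.Vsd61

/-!
Leaf F2 of Theorem AC: on the cluster the shortened environments are good.
-/

set_option autoImplicit false

namespace Pool.Agent.W_7d29a1_AC.RemC41

open MeasureTheory ProbabilityTheory Filter Topology Pool.Agent.W_MP_7d29a1_pr
  Pool.Agent.W_7d29a1_h46 Pool.Agent.W_7d29a1_h46u Pool.Agent.W_7d29a1_D2.B35
  Pool.Agent.W_7d29a1_Q29 Pool.Agent.W_7d29a1_NV Pool.Agent.W_7d29a1_AC.M27

variable {d : ℕ} {ρ : Measure ℝ}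

/-! ### Removal and insertion -/

lemma remE_insE (J t : ℕ) (z : Site d) (η ξ : Env d) : remE J t z (insE t J z η ξ) = η := by
  funext p
  unfold remE insE
  by_cases hp : p.1 ≤ t
  · rw [if_pos hp, if_pos hp]
  · rw [if_neg hp]
    have h1 : ¬ (p.1 + J ≤ t) := by omega
    have h2 : ¬ (p.1 + J ≤ t + J) := by omega
    rw [if_neg h1, if_neg h2]
    congr 1
    refine Prod.ext ?_ ?_
    · simp only
      omega
    · simp only
      abel

lemma remE_meas (J t : ℕ) (z : Site d) : Measurable fun η : Env d => remE J t z η := by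
  rw [measurable_pi_iff]
  intro p
  unfold remE
  by_cases hp : p.1 ≤ t
  · simp only [if_pos hp]
    exact measurable_pi_apply p
  · simp only [if_neg hp]
    exact measurable_pi_apply _

/-! ### The free walk -/

lemma PP0_nonneg (β : ℝ) (h : Vec d) (J : ℕ) (z : Site d) :
    0 ≤ PP β h (fun _ => 0) J z := PP_nonneg _ _ _ _ _

lemma PP0_sum (β : ℝ) (h : Vec d) (J : ℕ) :
    ∑ z ∈ boxF d J, PP β h (fun _ => 0) J z = Phi h ^ J := by
  rw [← Z_eq_sum, Z_eq, ← sum_walks61]
  refine Finset.sum_congr rfl fun s _ => ?_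
  unfold wgt energy
  simp

lemma PP0_reach (β : ℝ) (h : Vec d) (J : ℕ) {z : Site d}
    (hz : PP β h (fun _ => 0) J z ≠ 0) : ∃ q : Fin J → Step d, pos q J = z := by
  by_contra hno
  rw [not_exists] at hno
  apply hz
  unfold PP ZT
  exact Finset.sum_eq_zero fun s _ => if_neg (hno s)

/-- The bad event of one end point. -/
def Ez (ρ : Measure ℝ) (β : ℝ) (h : Vec d) (J t n : ℕ) (a R M : ℝ) (z : Site d) : Set (Env d) :=
  {η | |X β h η (n + J) - (a + lam ρ β h * J)| ≤ M / 16 ∧ R < |X β h (remE J t z η) n - a|}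

lemma Ez_meas (β : ℝ) (h : Vec d) (J t n : ℕ) (a R M : ℝ) (z : Site d) :
    MeasurableSet (Ez ρ β h J t n a R M z) :=
  (measurableSet_le ((measurable_X β h (n + J)).sub_const _).abs measurable_const).inter
    (measurableSet_lt measurable_const
      (((measurable_X β h n).comp (remE_meas J t z)).sub_const a).abs)

lemma Ez_le [IsProbabilityMeasure ρ] (β : ℝ) (h : Vec d) {C : ℝ}
    (hC : ∀ (n τ m : ℕ) (_ : τ ≤ n) (q : Fin m → Step d),
      Integrable (fun w : Env d × Env d => |X β h (insE τ m (pos q m) w.1 w.2) (n + m) -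
        X β h w.1 n|) ((law d ρ).prod (law d ρ)) ∧
      ∫ w : Env d × Env d, |X β h (insE τ m (pos q m) w.1 w.2) (n + m) - X β h w.1 n|
        ∂((law d ρ).prod (law d ρ)) ≤ C * m) (hC0 : 0 ≤ C)
    {J t n : ℕ} (ht : t ≤ n) (a R : ℝ) {M : ℝ} (hM : 0 < M) {z : Site d}
    (hz : PP β h (fun _ => 0) J z ≠ 0) :
    (law d ρ).real (Ez ρ β h J t n a R M z) ≤
      ring ρ β h n a R M + (2 * C + 4 * |lam ρ β h|) * J / M := by
  have hring : 0 ≤ ring ρ β h n a R M := measureReal_nonneg
  have hJ0 : (0 : ℝ) ≤ J := Nat.cast_nonneg J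
  by_cases hl : |lam ρ β h| * J ≤ M / 4
  · obtain ⟨q, hq⟩ := PP0_reach β h J hz
    obtain ⟨hi, hle⟩ := hC n t J ht q
    rw [hq] at hi hle
    have hmp := mp_ins (d := d) (ρ := ρ) t J z
    have e1 : (law d ρ).real (Ez ρ β h J t n a R M z) = ((law d ρ).prod (law d ρ)).real
        {w : Env d × Env d | insE t J z w.1 w.2 ∈ Ez ρ β h J t n a R M z} := by
      have := hmp.measureReal_preimage (Ez_meas (ρ := ρ) β h J t n a R M z).nullMeasurableSet
      rw [← this]
      rfl
    have hsub : {w : Env d × Env d | insE t J z w.1 w.2 ∈ Ez ρ β h J t n a R M z} ⊆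
        (Prod.fst ⁻¹' {η : Env d | R < |X β h η n - a| ∧ |X β h η n - a| ≤ M}) ∪
          {w : Env d × Env d | M / 2 ≤ |X β h (insE t J z w.1 w.2) (n + J) - X β h w.1 n|} := by
      rintro ⟨η, ξ⟩ ⟨h1, h2⟩
      rw [remE_insE] at h2
      by_cases h3 : |X β h η n - a| ≤ M
      · exact Or.inl ⟨h2, h3⟩
      · refine Or.inr ?_
        change M / 2 ≤ |X β h (insE t J z η ξ) (n + J) - X β h η n|
        rw [not_le] at h3
        have h4 : |lam ρ β h * J| ≤ M / 4 := by
          rw [abs_mul, abs_of_nonneg hJ0]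
          exact hl
        have h5 : |X β h η n - a| ≤ |X β h (insE t J z η ξ) (n + J) - (a + lam ρ β h * J)| +
            |lam ρ β h * J| + |X β h (insE t J z η ξ) (n + J) - X β h η n| := by
          have e : X β h η n - a = (X β h (insE t J z η ξ) (n + J) - (a + lam ρ β h * J)) +
              lam ρ β h * J - (X β h (insE t J z η ξ) (n + J) - X β h η n) := by ring
          rw [e]
          refine (abs_sub _ _).trans ?_
          exact add_le_add (abs_add_le _ _) le_rfl
        simp only at h1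
        linarith
    have hmark : ((law d ρ).prod (law d ρ)).real
        {w : Env d × Env d | M / 2 ≤ |X β h (insE t J z w.1 w.2) (n + J) - X β h w.1 n|} ≤
        2 * C * J / M := by
      have h1 := mul_meas_ge_le_integral_of_nonneg (μ := (law d ρ).prod (law d ρ))
        (f := fun w : Env d × Env d => |X β h (insE t J z w.1 w.2) (n + J) - X β h w.1 n|)
        (Eventually.of_forall fun w => abs_nonneg _) hi (M / 2)
      have h2 := h1.trans hle
      rw [le_div_iff₀ hM]
      nlinarith
    have e2 : ((law d ρ).prod (law d ρ)).real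
        (Prod.fst ⁻¹' {η : Env d | R < |X β h η n - a| ∧ |X β h η n - a| ≤ M}) =
        ring ρ β h n a R M := by
      have hms : MeasurableSet {η : Env d | R < |X β h η n - a| ∧ |X β h η n - a| ≤ M} :=
        (measurableSet_lt measurable_const ((measurable_X β h n).sub_const a).abs).inter
          (measurableSet_le ((measurable_X β h n).sub_const a).abs measurable_const)
      exact (measurePreserving_fst (μ := law d ρ) (ν := law d ρ)).measureReal_preimage
        hms.nullMeasurableSet
    rw [e1]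
    refine (measureReal_mono hsub).trans ((measureReal_union_le _ _).trans ?_)
    rw [e2]
    have h3 : 2 * C * J / M ≤ (2 * C + 4 * |lam ρ β h|) * J / M := by
      refine div_le_div_of_nonneg_right ?_ hM.le
      nlinarith [abs_nonneg (lam ρ β h), mul_nonneg (abs_nonneg (lam ρ β h)) hJ0]
    linarith
  · rw [not_le] at hl
    have h1 : (law d ρ).real (Ez ρ β h J t n a R M z) ≤ 1 := measureReal_le_one
    have h2 : 1 ≤ (2 * C + 4 * |lam ρ β h|) * J / M := by
      rw [le_div_iff₀ hM]
      nlinarith [mul_nonneg hC0 hJ0]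
    linarith

/-- Leaf F2. -/
theorem remC41 [IsProbabilityMeasure ρ] (hd : 0 < d) (hρ : EM ρ) (β : ℝ) : RemC d ρ β := by
  classical
  intro h
  obtain ⟨C, hC0, hC⟩ := devIns27 (ρ := ρ) hd hρ β h
  refine ⟨2 * C + 4 * |lam ρ β h|, by positivity, fun J t n a R M hJ ht hM => ?_⟩
  have hPhi : 0 < Phi h ^ J := pow_pos (Phi_pos61 hd h) J
  set P0 : Site d → ℝ := fun z => PP β h (fun _ => 0) J z with hP0
  have hP0n : ∀ z, 0 ≤ P0 z := fun z => PP0_nonneg β h J z
  have hsum : ∑ z ∈ boxF d J, P0 z = Phi h ^ J := PP0_sum β h J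
  set E : Set (Env d) := {η | |X β h η (n + J) - (a + lam ρ β h * J)| ≤ M / 16 ∧
    (∑ z ∈ boxF d J, if |X β h (remE J t z η) n - a| ≤ R then PP β h (fun _ => 0) J z else 0) <
      Phi h ^ J / 2} with hE
  have hXr : ∀ z, Measurable fun η : Env d => |X β h (remE J t z η) n - a| := fun z =>
    (((measurable_X β h n).comp (remE_meas J t z)).sub_const a).abs
  have hS : Measurable fun η : Env d => ∑ z ∈ boxF d J,
      if |X β h (remE J t z η) n - a| ≤ R then PP β h (fun _ => 0) J z else 0 :=
    Finset.measurable_sum _ fun z _ => Measurable.ite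
      (measurableSet_le (hXr z) measurable_const) measurable_const measurable_const
  have hEm : MeasurableSet E :=
    (measurableSet_le ((measurable_X β h (n + J)).sub_const _).abs measurable_const).inter
      (measurableSet_lt hS measurable_const)
  -- pointwise
  have hpt : ∀ η, E.indicator (1 : Env d → ℝ) η ≤ 2 / Phi h ^ J *
      ∑ z ∈ boxF d J, P0 z * (Ez ρ β h J t n a R M z).indicator (1 : Env d → ℝ) η := by
    intro η
    by_cases hη : η ∈ E
    · rw [Set.indicator_of_mem hη, Pi.one_apply]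
      have h1 := hη.2
      have h2 : ∑ z ∈ boxF d J, P0 z * (Ez ρ β h J t n a R M z).indicator (1 : Env d → ℝ) η =
          Phi h ^ J - ∑ z ∈ boxF d J,
            if |X β h (remE J t z η) n - a| ≤ R then PP β h (fun _ => 0) J z else 0 := by
        rw [← hsum, ← Finset.sum_sub_distrib]
        refine Finset.sum_congr rfl fun z _ => ?_
        by_cases h3 : |X β h (remE J t z η) n - a| ≤ R
        · rw [if_pos h3, Set.indicator_of_notMem (fun h4 => not_lt.2 h3 h4.2), mul_zero, sub_self]
        · rw [if_neg h3, Set.indicator_of_mem (show η ∈ Ez ρ β h J t n a R M z from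
            ⟨hη.1, not_le.1 h3⟩), Pi.one_apply, mul_one, sub_zero]
      rw [h2, div_mul_eq_mul_div, le_div_iff₀ hPhi]
      linarith
    · rw [Set.indicator_of_notMem hη]
      refine mul_nonneg (by positivity) (Finset.sum_nonneg fun z _ => mul_nonneg (hP0n z) ?_)
      exact Set.indicator_nonneg (fun _ _ => zero_le_one) _
  have hI : ∀ z, Integrable ((Ez ρ β h J t n a R M z).indicator (1 : Env d → ℝ)) (law d ρ) :=
    fun z => (integrable_const (1 : ℝ)).indicator (Ez_meas β h J t n a R M z)
  have hIE : Integrable (E.indicator (1 : Env d → ℝ)) (law d ρ) :=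
    (integrable_const (1 : ℝ)).indicator hEm
  have hint := integral_mono hIE
    ((integrable_finsetSum _ fun z _ => (hI z).const_mul (P0 z)).const_mul (2 / Phi h ^ J)) hpt
  rw [integral_indicator_one hEm, integral_const_mul,
    integral_finsetSum _ fun z _ => (hI z).const_mul (P0 z)] at hint
  refine hint.trans ?_
  have h5 : ∀ z ∈ boxF d J, ∫ η, P0 z * (Ez ρ β h J t n a R M z).indicator (1 : Env d → ℝ) η
      ∂(law d ρ) ≤ P0 z * (ring ρ β h n a R M + (2 * C + 4 * |lam ρ β h|) * J / M) := by
    intro z _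
    rw [integral_const_mul, integral_indicator_one (Ez_meas β h J t n a R M z)]
    by_cases hz : P0 z = 0
    · rw [hz, zero_mul, zero_mul]
    · exact mul_le_mul_of_nonneg_left (Ez_le β h hC hC0 ht a R hM hz) (hP0n z)
  calc 2 / Phi h ^ J * ∑ z ∈ boxF d J, ∫ η, P0 z *
        (Ez ρ β h J t n a R M z).indicator (1 : Env d → ℝ) η ∂(law d ρ)
      ≤ 2 / Phi h ^ J * ∑ z ∈ boxF d J,
        P0 z * (ring ρ β h n a R M + (2 * C + 4 * |lam ρ β h|) * J / M) :=
        mul_le_mul_of_nonneg_left (Finset.sum_le_sum h5) (by positivity)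
    _ = 2 * (ring ρ β h n a R M + (2 * C + 4 * |lam ρ β h|) * J / M) := by
        rw [← Finset.sum_mul, hsum]
        field_simp

end Pool.Agent.W_7d29a1_AC.RemC41
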