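import Pool.Agent.W_7d29a1_AC.DefsAC8
import Pool.Agent.W_7d29a1_NV.Mon31
import Pool.Agent.W_7d29a1_NV.CoreF92

/-!
Theorem AC: blocks of rows with small selections in a window (leaf C2).
-/

set_option autoImplicit false

namespace Pool.Agent.W_7d29a1_AC

open MeasureTheory ProbabilityTheory Filter Topology Pool.Agent.W_MP_7d29a1_pr
  Pool.Agent.W_7d29a1_h46 Pool.Agent.W_7d29a1_h46u Pool.Agent.W_7d29a1_D2.B35
  Pool.Agent.W_7d29a1_Q29 Pool.Agent.W_7d29a1_NV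

variable {d : ℕ}

/-- The integrand of the selection, as a sum over the walks. -/
lemma kapE_eq92 (ρ : Measure ℝ) [IsProbabilityMeasure ρ] {β b : ℝ} (hb : HB ρ b) (h : Vec d)
    {n t a b' : ℕ} (hat : a < t) (htb : t ≤ b') (hbn : b' ≤ n) (η : Env d) :
    kapE ρ β b h n t a b' η =
      ∫ ξ, g31 (law d (rb ρ b)) β b h n t a b' η ξ ∂(law d (rb ρ b)) := by
  have := prob_rb31 hb
  unfold kapE
  congr 1
  funext ξ
  rw [sum31 β h _ (show a ≤ b' by omega) hbn
    (fun x y => Real.log (uab ρ β b h t a b' x y η ξ) - psab ρ β b h t a b' x y η)]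
  unfold g31
  refine Finset.sum_congr rfl fun w _ => ?_
  congr 1
  have h0 := integrable_lm31 (law d (rb ρ b)) hb.b0.le β h t a b' w η
  have h1 : psab ρ β b h t a b' (pos w a) (pos w b') η =
      (∫ ξ', lm31 β b h t a b' w η ξ' ∂(law d (rb ρ b))) -
        lm31 β b h t a b' w η fun _ => c0 ρ β b := by
    unfold psab
    have h2 : (fun ξ => Real.log (uab ρ β b h t a b' (pos w a) (pos w b') η ξ)) =
        fun ξ => lm31 β b h t a b' w η ξ - lm31 β b h t a b' w η fun _ => c0 ρ β b := by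
      funext ξ
      exact log_uab31 ρ β b h hat htb hbn w η ξ
    rw [h2, integral_sub h0 (integrable_const _), integral_const, probReal_univ, one_smul]
  rw [h1, log_uab31 ρ β b h hat htb hbn w η ξ]
  ring

/-- The selections in a set: bounds and data processing. -/
lemma monC92 (hd : 0 < d) (ρ : Measure ℝ) [IsProbabilityMeasure ρ] {β b : ℝ} (hb : HB ρ b)
    (h : Vec d) (A : Set (Env d)) {n t a a' b₁ b₂ : ℕ} (haa : a' ≤ a) (hat : a < t)
    (htb : t ≤ b₁) (hbb : b₁ ≤ b₂) (hbn : b₂ ≤ n) :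
    0 ≤ ∫ η in A, kapE ρ β b h n t a b₁ η ∂(law d ρ) ∧
    ∫ η in A, kapE ρ β b h n t a b₁ η ∂(law d ρ) ≤ 4 * |β| * b ∧
    ∫ η in A, kapE ρ β b h n t a' b₂ η ∂(law d ρ) ≤
      ∫ η in A, kapE ρ β b h n t a b₁ η ∂(law d ρ) := by
  have := prob_rb31 hb
  have e1 : (fun η : Env d => kapE ρ β b h n t a b₁ η) = fun η =>
      ∫ ξ, g31 (law d (rb ρ b)) β b h n t a b₁ η ξ ∂(law d (rb ρ b)) := by
    funext η
    exact kapE_eq92 ρ hb h hat htb (by omega) η
  have e2 : (fun η : Env d => kapE ρ β b h n t a' b₂ η) = fun η =>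
      ∫ ξ, g31 (law d (rb ρ b)) β b h n t a' b₂ η ξ ∂(law d (rb ρ b)) := by
    funext η
    exact kapE_eq92 ρ hb h (by omega) (by omega) hbn η
  have i1 := integrable_int_g31 (law d (rb ρ b)) hd hb.b0.le β h n t a b₁ (law d ρ)
  have i2 := integrable_int_g31 (law d (rb ρ b)) hd hb.b0.le β h n t a' b₂ (law d ρ)
  rw [e1, e2]
  have hC : 0 ≤ 2 * |β| * b := by
    have := mul_nonneg (abs_nonneg β) hb.b0.le
    linarith
  refine ⟨integral_nonneg fun η => int_g31_nonneg _ hd hb.b0.le β h n t a b₁ η, ?_, ?_⟩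
  · have h2 : ∫ η in A, (∫ ξ, g31 (law d (rb ρ b)) β b h n t a b₁ η ξ ∂(law d (rb ρ b)))
        ∂(law d ρ) ≤ ∫ _η in A, 2 * |β| * b ∂(law d ρ) := by
      refine integral_mono i1.integrableOn (integrable_const _) fun η => ?_
      exact (le_abs_self _).trans (int_g31_le _ hd hb.b0.le β h n t a b₁ η)
    rw [integral_const, smul_eq_mul, measureReal_restrict_apply_univ] at h2
    have h3 : (law d ρ).real A ≤ 1 := measureReal_le_one
    nlinarith
  · refine integral_mono i2.integrableOn i1.integrableOn fun η => ?_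
    exact integral_mono (integrable_g31 _ hd hb.b0.le β h n t a' b₂ η)
      (integrable_g31 _ hd hb.b0.le β h n t a b₁ η) fun ξ =>
        g31_mono _ hd hb.b0.le β h haa hat htb hbb hbn η ξ

/-- **Leaf C2.** -/
theorem rowsC92 (hd : 0 < d) {ρ : Measure ℝ} [IsProbabilityMeasure ρ] {β b : ℝ} (hb : HB ρ b)
    (h1 : OneC d ρ β b) : RowsC d ρ β b := by
  intro q J₁ s hq1 hJ₁ hs0
  set B := Bc β b with hBd
  have hB : 1 ≤ B := by
    rw [hBd]
    unfold Bc
    have := mul_nonneg (abs_nonneg β) hb.b0.le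
    linarith
  have hq0 : (1 : ℝ) ≤ q := by exact_mod_cast hq1
  have hJ₁0 : (1 : ℝ) ≤ J₁ := by exact_mod_cast hJ₁
  obtain ⟨s', hs'⟩ : ∃ s' : ℝ, s' = min s 1 := ⟨_, rfl⟩
  have hs'0 : 0 < s' := by rw [hs']; exact lt_min hs0 one_pos
  have hs'1 : s' ≤ 1 := by rw [hs']; exact min_le_right _ _
  have hs's : s' ≤ s := by rw [hs']; exact min_le_left _ _
  have hqJ : (1 : ℝ) ≤ q * J₁ := by nlinarith
  obtain ⟨η, hη⟩ : ∃ η : ℝ, η = s' / (q * J₁) := ⟨_, rfl⟩
  have hη0 : 0 < η := by rw [hη]; positivity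
  have hη1 : η ≤ 1 := by
    rw [hη, div_le_one (by linarith)]
    linarith
  obtain ⟨θ, hθ⟩ : ∃ θ : ℝ, θ = η / (40 * B ^ 2) := ⟨_, rfl⟩
  have hθ0 : 0 < θ := by rw [hθ]; positivity
  have hθ1 : θ ≤ 1 / (2 * B) := by
    rw [hθ, div_le_div_iff₀ (by positivity) (by positivity)]
    nlinarith
  obtain ⟨δ, hδ⟩ : ∃ δ : ℝ, δ = η / (40 * B) := ⟨_, rfl⟩
  have hδ0 : 0 < δ := by rw [hδ]; positivity
  obtain ⟨C₁, hC⟩ : ∃ C₁ : ℝ, C₁ = 16 * B + 160 * B / η := ⟨_, rfl⟩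
  have hC0 : 0 < C₁ := by rw [hC]; positivity
  obtain ⟨ε, hε⟩ : ∃ ε : ℝ, ε = η * θ / (40 * C₁) := ⟨_, rfl⟩
  have hε0 : 0 < ε := by rw [hε]; positivity
  refine ⟨ε, δ, C₁ * q * (10 / (η * θ) + 1), hε0, hδ0, fun b₀ hb₀ => ?_⟩
  have hCq : 0 < C₁ * q := by positivity
  have hb₀0 : 0 ≤ b₀ := le_trans (by positivity) hb₀
  obtain ⟨p, hp⟩ : ∃ p : ℕ, p = ⌊b₀ / (C₁ * q)⌋₊ := ⟨_, rfl⟩
  have hp1 : (p : ℝ) ≤ b₀ / (C₁ * q) := by
    rw [hp]
    exact Nat.floor_le (by positivity)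
  have hp2 : b₀ / (C₁ * q) < p + 1 := by
    rw [hp]
    exact Nat.lt_floor_add_one _
  have hp3 : 10 / (η * θ) + 1 ≤ b₀ / (C₁ * q) := by
    rw [le_div_iff₀ hCq]
    linarith
  have hp4 : 10 / (η * θ) ≤ p := by linarith
  have hp5 : 0 < p := by
    have : (0 : ℝ) < p := lt_of_lt_of_le (by positivity) hp4
    exact_mod_cast this
  have hp6 : (1 : ℝ) ≤ p := by exact_mod_cast hp5
  obtain ⟨k, hk⟩ : ∃ k : ℕ, k = q * p := ⟨_, rfl⟩
  have hkR : (k : ℝ) = q * p := by rw [hk]; push_cast; ring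
  have hk1 : 1 ≤ k := by
    rw [hk]
    exact Nat.mul_pos hq1 hp5
  have hk1R : (1 : ℝ) ≤ k := by exact_mod_cast hk1
  have hpk : (p : ℝ) ≤ k := by
    rw [hkR]
    nlinarith
  have hbk1 : C₁ * k ≤ b₀ := by
    rw [le_div_iff₀ hCq] at hp1
    rw [hkR]
    linarith
  have hbk2 : b₀ ≤ 2 * C₁ * k := by
    have h5 : b₀ / (C₁ * q) ≤ 2 * p := by linarith
    rw [div_le_iff₀ hCq] at h5
    rw [hkR]
    linarith
  obtain ⟨ς, hς⟩ : ∃ ς : ℝ, ς = η / (20 * B * k * Real.exp (5 * B * k)) := ⟨_, rfl⟩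
  have hς0 : 0 < ς := by rw [hς]; positivity
  obtain ⟨M₀, hM₀⟩ : ∃ M₀ : ℝ, M₀ = J₁ * (4 * |β| * b) := ⟨_, rfl⟩
  have hM0 : 0 ≤ M₀ := by
    have := hb.b0
    rw [hM₀]
    positivity
  obtain ⟨J, hJ⟩ := exists_nat_gt (4 * k * M₀ / ς ^ 2 + 1)
  have hJ1 : (1 : ℝ) < J := by
    have : 0 ≤ 4 * k * M₀ / ς ^ 2 := by positivity
    linarith
  have hJ2 : 1 ≤ J := by exact_mod_cast hJ1.le
  have hJ3 : 2 * (2 * k * M₀ / J) ≤ ς ^ 2 := by
    have h5 : 4 * k * M₀ / ς ^ 2 < J := by linarith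
    rw [div_lt_iff₀ (by positivity)] at h5
    have h6 : 2 * (2 * k * M₀ / J) = 4 * k * M₀ / J := by ring
    rw [h6, div_le_iff₀ (by linarith)]
    linarith
  -- the scales
  obtain ⟨hh, hhd⟩ : ∃ hh : ℕ, hh = 2 * k + 1 := ⟨_, rfl⟩
  have hh1 : 1 ≤ hh := by omega
  obtain ⟨H, hH⟩ : ∃ H : ℕ, H = J₁ * hh ^ J := ⟨_, rfl⟩
  have hLe : ∀ j ≤ J, J₁ * hh ^ j ≤ H := fun j hj => by
    rw [hH]
    exact Nat.mul_le_mul_left _ (Nat.pow_le_pow_right hh1 hj)
  have hL1 : ∀ j, J₁ ≤ J₁ * hh ^ j := fun j => Nat.le_mul_of_pos_right _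
    (Nat.pos_of_ne_zero (pow_ne_zero _ (by omega)))
  have hH1 : J₁ ≤ H := by
    rw [hH]
    exact hL1 J
  obtain ⟨N, hN⟩ : ∃ N : ℕ, N = 2 * (H * k) := ⟨_, rfl⟩
  have hHk : 1 ≤ H * k := Nat.mul_pos (by omega) hk1
  refine ⟨H + 1 + 2 * N + H + 1, 4 * B * k, by positivity, fun h n aa M hn hM hgood => ?_⟩
  obtain ⟨a, ha⟩ : ∃ a : ℕ, a = H + 1 := ⟨_, rfl⟩
  set W : Set (Env d) := win β h n aa (M + 4 * B * k) with hW
  -- the plateau
  obtain ⟨j, hj, t0, ht0, hsum⟩ := plat92 (k := k) (J := J) (N := N) (a := a) (M := M₀)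
    (f := fun j t => ∑ l ∈ Finset.range J₁, ∫ η in W, kapE ρ β b h n (t + (l + 1))
      (t - J₁ * hh ^ j) (t + J₁ * hh ^ j) η ∂(law d ρ)) (s := fun j => 2 * (J₁ * hh ^ j))
    (by omega) hJ2 (fun j hj => by
      have h5 := hLe j hj.le
      have h6 : J₁ * hh ^ j * k ≤ H * k := Nat.mul_le_mul_right k h5
      calc 2 * (J₁ * hh ^ j) * k = 2 * (J₁ * hh ^ j * k) := by ring
        _ ≤ N := by omega)
    (fun t ht => by
      have h5 := hL1 J
      have h6 := hLe J le_rfl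
      refine Finset.sum_nonneg fun l hl => ?_
      rw [Finset.mem_range] at hl
      exact (monC92 hd ρ hb h W (a' := a + t - J₁ * hh ^ J) (b₂ := a + t + J₁ * hh ^ J)
        le_rfl (by omega) (by omega) le_rfl (by omega)).1)
    (fun t ht => by
      have h5 := hL1 0
      have h6 := hLe 0 (Nat.zero_le _)
      have h7 : ∀ l ∈ Finset.range J₁, ∫ η in W, kapE ρ β b h n (a + t + (l + 1))
          (a + t - J₁ * hh ^ 0) (a + t + J₁ * hh ^ 0) η ∂(law d ρ) ≤ 4 * |β| * b := by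
        intro l hl
        rw [Finset.mem_range] at hl
        exact (monC92 hd ρ hb h W (a' := a + t - J₁ * hh ^ 0) (b₂ := a + t + J₁ * hh ^ 0)
          le_rfl (by omega) (by omega) le_rfl (by omega)).2.1
      refine (Finset.sum_le_sum h7).trans (le_of_eq ?_)
      rw [Finset.sum_const, Finset.card_range, nsmul_eq_mul, hM₀])
    (fun j hj t ht => by
      have h5 := hL1 j
      have h6 := hLe (j + 1) hj
      have h7 : J₁ * hh ^ j ≤ J₁ * hh ^ (j + 1) :=
        Nat.mul_le_mul_left _ (Nat.pow_le_pow_right hh1 (Nat.le_succ j))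
      refine Finset.sum_le_sum fun l hl => ?_
      rw [Finset.mem_range] at hl
      exact (monC92 hd ρ hb h W (by omega) (by omega) (by omega) (by omega) (by omega)).2.2)
  obtain ⟨L, hL⟩ : ∃ L : ℕ, L = J₁ * hh ^ j := ⟨_, rfl⟩
  have hL' : J₁ * hh ^ (j + 1) = 2 * (k * L) + L := by
    rw [pow_succ, ← mul_assoc, ← hL, hhd]
    ring
  have hLH : 2 * (k * L) + L ≤ H := by
    rw [← hL']
    exact hLe (j + 1) hj
  have hL0 : J₁ ≤ L := by
    rw [hL]
    exact hL1 j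
  simp only [hL'] at hsum
  simp only [← hL] at hsum
  obtain ⟨T0, hT0⟩ : ∃ T0 : ℕ, T0 = a + t0 := ⟨_, rfl⟩
  rw [← hT0] at hsum
  have hkL : k * L ≤ H * k := by
    rw [mul_comm H k]
    exact Nat.mul_le_mul_left k (by omega)
  -- the separators
  have hsuc : ∀ i0 i : ℕ, L * (i0 + (i + 1)) = L * (i0 + i) + L := fun i0 i => by ring
  have hordl : ∀ l < J₁, Ord n (fun i : Fin k => T0 + 2 * (L * i) + (l + 1))
      (fun i : Fin (k + 1) => T0 - L + 2 * (L * i)) := by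
    intro l hl
    refine ⟨fun i => ?_, ?_⟩
    · simp only [Fin.val_castSucc, Fin.val_succ]
      have h8 : L * ((i : ℕ) + 1) = L * i + L := by ring
      rw [h8]
      omega
    · simp only [Fin.val_last]
      rw [mul_comm L k]
      omega
  have hLi : ∀ i < k, L * i + L ≤ k * L := fun i hi => by
    have h8 : L * (i + 1) = L * i + L := by ring
    rw [← h8, mul_comm k L]
    exact Nat.mul_le_mul_left L hi
  -- the outer pins
  have hG1 := hgood (T0 - L) (by omega) (by omega)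
  have hG2 := hgood (T0 - L + 2 * (L * k)) (by omega) (by
    rw [mul_comm L k]
    omega)
  -- the selections in the large window
  obtain ⟨κ, hκ⟩ : ∃ κ : ℕ → ℕ → ℝ, κ = fun l i => ∫ η in W, kapE ρ β b h n
    (T0 + 2 * (L * i) + (l + 1)) (T0 + 2 * (L * i) - L) (T0 + 2 * (L * i) + L) η ∂(law d ρ) :=
    ⟨_, rfl⟩
  obtain ⟨κo, hκo⟩ : ∃ κo : ℕ → ℕ → ℝ, κo = fun l i => ∫ η in W, kapE ρ β b h n
    (T0 + 2 * (L * i) + (l + 1)) (T0 - L) (T0 - L + 2 * (L * k)) η ∂(law d ρ) :=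
    ⟨_, rfl⟩
  obtain ⟨κw, hκw⟩ : ∃ κw : ℕ → ℕ → ℝ, κw = fun l i => ∫ η in W, kapE ρ β b h n
    (T0 + 2 * (L * i) + (l + 1)) (T0 + 2 * (L * i) - (2 * (k * L) + L))
    (T0 + 2 * (L * i) + (2 * (k * L) + L)) η ∂(law d ρ) :=
    ⟨_, rfl⟩
  have hd1 : ∀ l < J₁, ∀ i < k, κw l i ≤ κo l i := fun l hl i hi => by
    have h9 := hLi i hi
    rw [hκw, hκo]
    exact (monC92 hd ρ hb h W (by omega) (by omega) (by rw [mul_comm L k]; omega)
      (by rw [mul_comm L k]; omega) (by omega)).2.2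
  have hd2 : ∀ l < J₁, ∀ i < k, κo l i ≤ κ l i := fun l hl i hi => by
    have h9 := hLi i hi
    rw [hκo, hκ]
    exact (monC92 hd ρ hb h W (by omega) (by omega) (by omega)
      (by rw [mul_comm L k]; omega) (by rw [mul_comm L k]; omega)).2.2
  have hsum2 : ∑ i ∈ Finset.range k, ∑ l ∈ Finset.range J₁, (κ l i - κo l i) ≤
      2 * k * M₀ / J := by
    refine le_trans (Finset.sum_le_sum fun i hi => ?_) hsum
    rw [← Finset.sum_sub_distrib]
    refine Finset.sum_le_sum fun l hl => ?_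
    rw [Finset.mem_range] at hi hl
    have h8 := hd1 l hl i hi
    have h9 : 2 * L * i = 2 * (L * i) := by ring
    rw [h9]
    have h10 : κ l i = ∫ η in W, kapE ρ β b h n
        (T0 + 2 * (L * i) + (l + 1)) (T0 + 2 * (L * i) - L) (T0 + 2 * (L * i) + L) η
        ∂(law d ρ) := by rw [hκ]
    have h11 : κw l i = ∫ η in W, kapE ρ β b h n
        (T0 + 2 * (L * i) + (l + 1)) (T0 + 2 * (L * i) - (2 * (k * L) + L))
        (T0 + 2 * (L * i) + (2 * (k * L) + L)) η ∂(law d ρ) := by rw [hκw]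
    rw [← h10, ← h11]
    linarith
  have hsq : ∀ l < J₁, ∀ i < k, Real.sqrt (2 * (κ l i - κo l i)) ≤ ς := by
    intro l hl i hi
    refine Real.sqrt_le_iff.2 ⟨hς0.le, ?_⟩
    have h9 : κ l i - κo l i ≤ ∑ l ∈ Finset.range J₁, (κ l i - κo l i) := by
      refine Finset.single_le_sum (f := fun l => κ l i - κo l i) (fun l' hl' => ?_)
        (Finset.mem_range.2 hl)
      rw [Finset.mem_range] at hl'
      have := hd2 l' hl' i hi
      linarith
    have h10 : ∑ l ∈ Finset.range J₁, (κ l i - κo l i) ≤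
        ∑ i ∈ Finset.range k, ∑ l ∈ Finset.range J₁, (κ l i - κo l i) := by
      refine Finset.single_le_sum (f := fun i => ∑ l ∈ Finset.range J₁, (κ l i - κo l i))
        (fun i' hi' => Finset.sum_nonneg fun l' hl' => ?_) (Finset.mem_range.2 hi)
      rw [Finset.mem_range] at hl' hi'
      have := hd2 l' hl' i' hi'
      linarith
    linarith
  -- the selections in the window
  obtain ⟨κi, hκi⟩ : ∃ κi : ℕ → ℕ → ℝ, κi = fun l i => ∫ η in win β h n aa M, kapE ρ β b h n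
    (T0 + 2 * (L * i) + (l + 1)) (T0 + 2 * (L * i) - L) (T0 + 2 * (L * i) + L) η ∂(law d ρ) :=
    ⟨_, rfl⟩
  have hκi0 : ∀ l < J₁, ∀ i < k, 0 ≤ κi l i := fun l hl i hi => by
    have h9 := hLi i hi
    rw [hκi]
    exact (monC92 hd ρ hb h _ (a' := T0 + 2 * (L * i) - L) (b₂ := T0 + 2 * (L * i) + L)
      le_rfl (by omega) (by omega) le_rfl (by omega)).1
  have hseg : ∀ i : ℕ, T0 - L + 2 * (L * i) = T0 + 2 * (L * i) - L ∧
      T0 - L + 2 * (L * (i + 1)) = T0 + 2 * (L * i) + L := by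
    intro i
    have h8 : L * (i + 1) = L * i + L := by ring
    rw [h8]
    omega
  have hRl : ∀ l < J₁, ∑ i ∈ Finset.range k, κi l i ≤ η * k := by
    intro l hl
    have hO := h1 h n k _ _ (hordl l hl) θ ε b₀ δ aa M hθ0 hθ1 hε0.le hb₀0 hM
      (by simpa only [Fin.val_zero, mul_zero, add_zero] using hG1)
      (by simpa only [Fin.val_last] using hG2)
    have e1 : ∀ i : Fin k, (∫ η in win β h n aa M, kapE ρ β b h n (T0 + 2 * (L * (i : ℕ)) + (l + 1))
        (T0 - L + 2 * (L * ((i.castSucc : Fin (k + 1)) : ℕ)))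
        (T0 - L + 2 * (L * ((i.succ : Fin (k + 1)) : ℕ))) η ∂(law d ρ)) = κi l i := by
      intro i
      obtain ⟨h8, h9⟩ := hseg i
      simp only [Fin.val_castSucc, Fin.val_succ, hκi]
      rw [h8, h9]
    have e2 : ∀ i : Fin k, (∫ η in W, kapE ρ β b h n (T0 + 2 * (L * (i : ℕ)) + (l + 1))
        (T0 - L + 2 * (L * ((i.castSucc : Fin (k + 1)) : ℕ)))
        (T0 - L + 2 * (L * ((i.succ : Fin (k + 1)) : ℕ))) η ∂(law d ρ)) = κ l i := by
      intro i
      obtain ⟨h8, h9⟩ := hseg i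
      simp only [Fin.val_castSucc, Fin.val_succ, hκ]
      rw [h8, h9]
    have e3 : ∀ i : Fin k, (∫ η in W, kapE ρ β b h n (T0 + 2 * (L * (i : ℕ)) + (l + 1))
        (T0 - L + 2 * (L * (((0 : Fin (k + 1))) : ℕ)))
        (T0 - L + 2 * (L * ((Fin.last k : Fin (k + 1)) : ℕ))) η ∂(law d ρ)) = κo l i := by
      intro i
      simp only [Fin.val_zero, Fin.val_last, mul_zero, add_zero, hκo]
    rw [← hBd] at hO
    rw [← hW] at hO
    simp only [e1, e2, e3] at hO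
    have hSg : ∑ i : Fin k, Real.sqrt (2 * (κ l i - κo l i)) ≤ k * ς := by
      have h8 : ∀ i ∈ (Finset.univ : Finset (Fin k)),
          Real.sqrt (2 * (κ l (i : ℕ) - κo l (i : ℕ))) ≤ ς := fun i _ => hsq l hl i.1 i.2
      refine (Finset.sum_le_sum h8).trans (le_of_eq ?_)
      rw [Finset.sum_const, Finset.card_univ, Fintype.card_fin, nsmul_eq_mul]
    have hR := sum92 hB hη0 hθ hδ hC hε hk1R (hp4.trans hpk) hbk1 hbk2 hς hSg hO
    rw [Finset.sum_range]
    exact hR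
  -- the block
  have hblk : ∑ i ∈ Finset.range (q * p), ∑ l ∈ Finset.range J₁, κi l i ≤ s' * p := by
    rw [← hk, Finset.sum_comm]
    refine (Finset.sum_le_sum fun l hl => hRl l (Finset.mem_range.1 hl)).trans (le_of_eq ?_)
    rw [Finset.sum_const, Finset.card_range, nsmul_eq_mul, hη, hkR]
    field_simp
  obtain ⟨m, hm, hm2⟩ := block92 hp5 hblk
  have hmk : q * m + q ≤ k := by
    rw [hk, ← Nat.mul_succ]
    exact Nat.mul_le_mul_left q hm
  refine ⟨fun i : Fin q => T0 + 2 * (L * (q * m + i)),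
    fun i : Fin (q + 1) => T0 - L + 2 * (L * (q * m + i)), ⟨fun i => ?_, ?_⟩, fun i l hl1 hl2 => ?_⟩
  · simp only [Fin.val_castSucc, Fin.val_succ]
    rw [hsuc]
    omega
  · simp only [Fin.val_last]
    have h9 : L * (q * m + q) ≤ k * L := by
      rw [mul_comm k L]
      exact Nat.mul_le_mul_left L hmk
    omega
  · have hi := i.2
    obtain ⟨h8, h9⟩ := hseg (q * m + i)
    simp only at hl1 hl2
    obtain ⟨l', hl'⟩ : ∃ l', l = T0 + 2 * (L * (q * m + i)) + (l' + 1) :=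
      ⟨l - (T0 + 2 * (L * (q * m + i))) - 1, by omega⟩
    have hl'J : l' < J₁ := by omega
    simp only [Fin.val_castSucc, Fin.val_succ]
    rw [h8, ← add_assoc (q * m), h9, hl']
    have e4 : (∫ η in win β h n aa M, kapE ρ β b h n (T0 + 2 * (L * (q * m + i)) + (l' + 1))
        (T0 + 2 * (L * (q * m + i)) - L) (T0 + 2 * (L * (q * m + i)) + L) η ∂(law d ρ)) =
        κi l' (q * m + i) := by rw [hκi]
    rw [e4]
    have h10 : κi l' (q * m + i) ≤ ∑ l ∈ Finset.range J₁, κi l (q * m + i) :=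
      Finset.single_le_sum (f := fun l => κi l (q * m + i))
        (fun l hl => hκi0 l (Finset.mem_range.1 hl) _ (by omega)) (Finset.mem_range.2 hl'J)
    have h11 : ∑ l ∈ Finset.range J₁, κi l (q * m + i) ≤
        ∑ i ∈ Finset.range q, ∑ l ∈ Finset.range J₁, κi l (q * m + i) :=
      Finset.single_le_sum (f := fun i => ∑ l ∈ Finset.range J₁, κi l (q * m + i))
        (fun i' hi' => Finset.sum_nonneg fun l hl => hκi0 l (Finset.mem_range.1 hl) _ (by
          rw [Finset.mem_range] at hi'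
          omega)) (Finset.mem_range.2 hi)
    linarith

end Pool.Agent.W_7d29a1_AC
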