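import Pool.Agent.W_7d29a1_AC.Row77

/-!
Theorem AC, leaf D: the dependence of the law of the separators on one block of rows.
-/

set_option autoImplicit false

namespace Pool.Agent.W_7d29a1_AC

open MeasureTheory ProbabilityTheory Filter Topology Pool.Agent.W_MP_7d29a1_pr
  Pool.Agent.W_7d29a1_h46 Pool.Agent.W_7d29a1_h46u Pool.Agent.W_7d29a1_D2.B35
  Pool.Agent.W_7d29a1_Q29 Pool.Agent.W_7d29a1_NV Pool.Agent.W_7d29a1_NV.Kl38

variable {d : ℕ} {ρ : Measure ℝ} {β b : ℝ}

/-! ### Blocks of rows -/

lemma mxR_zero77 (b : ℝ) (t : ℕ) (η ξ : Env d) : mxR b t 0 η ξ = η := by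
  classical
  funext p
  unfold mxR
  rw [if_neg]
  rintro ⟨⟨h1, h2⟩, -⟩
  omega

lemma mxR_succ77 (b : ℝ) (t J : ℕ) (η ξ : Env d) :
    mxR b t (J + 1) η ξ = mx b (t + J + 1) (mxR b t J η ξ) ξ := by
  classical
  funext p
  unfold mxR mx
  beta_reduce
  by_cases hb : |η p| ≤ b
  · by_cases h1 : t < p.1 ∧ p.1 ≤ t + J
    · have h2 : t < p.1 ∧ p.1 ≤ t + (J + 1) := ⟨h1.1, by omega⟩
      have h3 : ¬ (p.1 = t + J + 1) := by omega
      rw [if_pos ⟨h2, hb⟩, if_neg (fun h4 => h3 h4.1), if_pos ⟨h1, hb⟩]
    · by_cases h3 : p.1 = t + J + 1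
      · have h2 : t < p.1 ∧ p.1 ≤ t + (J + 1) := by omega
        have h5 : (if (t < p.1 ∧ p.1 ≤ t + J) ∧ |η p| ≤ b then cl b (ξ p) else η p) = η p :=
          if_neg fun h4 => h1 h4.1
        rw [if_pos ⟨h2, hb⟩, h5, if_pos ⟨h3, hb⟩]
      · have h2 : ¬ (t < p.1 ∧ p.1 ≤ t + (J + 1)) := by omega
        rw [if_neg (fun h4 => h2 h4.1), if_neg (fun h4 => h3 h4.1), if_neg fun h4 => h1 h4.1]
  · have h5 : (if (t < p.1 ∧ p.1 ≤ t + J) ∧ |η p| ≤ b then cl b (ξ p) else η p) = η p :=
      if_neg fun h4 => hb h4.2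
    rw [if_neg (fun h4 => hb h4.2), h5, if_neg (fun h4 => hb h4.2)]

/-- The environment `ξ` with the row `m` of `ξ'`. -/
def spl77 (m : ℕ) (w : Env d × Env d) : Env d := fun p => if p.1 = m then w.2 p else w.1 p

lemma mp_spl77 {ν : Measure ℝ} [IsProbabilityMeasure ν] (m : ℕ) :
    MeasurePreserving (spl77 m : Env d × Env d → Env d) ((law d ν).prod (law d ν)) (law d ν) := by
  classical
  have hσ : Function.Injective (fun p : ℕ × Site d =>
      if p.1 = m then (Sum.inr p : (ℕ × Site d) ⊕ (ℕ × Site d)) else Sum.inl p) := by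
    intro p q h
    simp only at h
    split_ifs at h <;> simp_all
  have hmp : MeasurePreserving (fun w : Env d × Env d => fun p => Sum.elim w.1 w.2
      (if p.1 = m then (Sum.inr p : (ℕ × Site d) ⊕ (ℕ × Site d)) else Sum.inl p))
      ((law d ν).prod (law d ν)) (law d ν) := LawU_elim hσ
  have e : (spl77 m : Env d × Env d → Env d) = fun w p => Sum.elim w.1 w.2
      (if p.1 = m then (Sum.inr p : (ℕ × Site d) ⊕ (ℕ × Site d)) else Sum.inl p) := by
    funext w p
    unfold spl77
    split_ifs <;> rfl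
  rw [e]
  exact hmp

lemma mxR_spl77 (b : ℝ) (t J : ℕ) (η ξ ξ' : Env d) :
    mxR b t (J + 1) η (spl77 (t + J + 1) (ξ, ξ')) = mx b (t + J + 1) (mxR b t J η ξ) ξ' := by
  classical
  rw [mxR_succ77]
  have e1 : mxR b t J η (spl77 (t + J + 1) (ξ, ξ')) = mxR b t J η ξ := by
    funext p
    unfold mxR
    by_cases h1 : (t < p.1 ∧ p.1 ≤ t + J) ∧ |η p| ≤ b
    · rw [if_pos h1, if_pos h1]
      unfold spl77
      rw [if_neg (by omega)]
    · rw [if_neg h1, if_neg h1]
  rw [e1]
  funext p
  unfold mx
  by_cases h1 : p.1 = t + J + 1 ∧ |mxR b t J η ξ p| ≤ b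
  · rw [if_pos h1, if_pos h1]
    unfold spl77
    rw [if_pos h1.1]
  · rw [if_neg h1, if_neg h1]

open Classical in
/-- The law of the environment with one resampled block. -/
lemma mpR77 [IsProbabilityMeasure ρ] (hb : HB ρ b) (t J : ℕ) :
    MeasurePreserving (fun w : Env d × Env d => mxR b t J w.1 w.2)
      ((law d ρ).prod (law d (rb ρ b))) (law d ρ) := by
  have := prob_rb31 hb
  have h := gen96 (ι := ℕ × Site d) ρ (rb ρ b)
    (ψ := fun p q => if (t < p.1 ∧ p.1 ≤ t + J) ∧ |q.1| ≤ b then cl b q.2 else q.1)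
    (fun p => by
      by_cases hp : t < p.1 ∧ p.1 ≤ t + J
      · simp only [hp, true_and]
        exact one96_meas b
      · simp only [hp, false_and, if_false]
        exact measurable_fst)
    (fun p => by
      by_cases hp : t < p.1 ∧ p.1 ≤ t + J
      · simp only [hp, true_and]
        exact one96 hb
      · simp only [hp, false_and, if_false]
        exact measurePreserving_fst.map_eq)
  have e : (fun w : Env d × Env d => mxR b t J w.1 w.2) =
      fun (w : Env d × Env d) (p : ℕ × Site d) =>
        if (t < p.1 ∧ p.1 ≤ t + J) ∧ |w.1 p| ≤ b then cl b (w.2 p) else w.1 p := by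
    funext w p
    rfl
  rw [e]
  exact h

lemma X_blk77 (hd : 0 < d) (hb : 0 ≤ b) (β : ℝ) (h : Vec d) (n t J : ℕ) (η ξ : Env d) :
    |X β h (mxR b t J η ξ) n - X β h η n| ≤ 2 * |β| * b * J := by
  induction J with
  | zero =>
    rw [mxR_zero77, sub_self]
    simp
  | succ J ih =>
    rw [mxR_succ77]
    have e1 := X_one77 hd hb β h n (t + J + 1) (mxR b t J η ξ) ξ
    have e2 := abs_sub_le (X β h (mx b (t + J + 1) (mxR b t J η ξ) ξ) n)
      (X β h (mxR b t J η ξ) n) (X β h η n)
    push_cast
    linarith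

lemma tvS_self77 (β : ℝ) (h : Vec d) (n : ℕ) {q : ℕ} (r : Fin (q + 1) → ℕ) (ζ : Env d) :
    tvS77 β h n r ζ ζ = 0 := by
  unfold tvS77
  simp

lemma measurable_tvR77 [IsProbabilityMeasure ρ] (hb : HB ρ b) (β : ℝ) (h : Vec d) (n : ℕ) {q : ℕ}
    (r : Fin (q + 1) → ℕ) (t J : ℕ) :
    Measurable fun z : Env d × Env d => tvS77 β h n r z.1 (mxR b t J z.1 z.2) := by
  have h0 : Measurable fun z : Env d × Env d => (z.1, mxR b t J z.1 z.2) :=
    measurable_fst.prodMk (mpR77 hb t J).measurable
  have h1' := (measurable_tvS77 β h n r).comp h0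
  exact h1'

lemma slice77 {F : Env d → Env d → ℝ} (hF : Measurable fun z : Env d × Env d => F z.1 z.2)
    (η : Env d) : Measurable fun ξ : Env d => F η ξ := hF.comp measurable_prodMk_left

lemma comp77 {F : Env d → ℝ} (hF : Measurable F) {φ : Env d × Env d → Env d}
    (hφ : Measurable φ) : Measurable fun z => F (φ z) := hF.comp hφ

/-- **Telescoping over the rows of a block.** -/
theorem tel77 [IsProbabilityMeasure ρ] (hd : 0 < d) (hb : HB ρ b) (β : ℝ) (h : Vec d) {n q : ℕ}
    {r : Fin (q + 1) → ℕ} (hr : Monotone r) (hn : r (Fin.last q) ≤ n) (i : Fin q) {t J' : ℕ}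
    (ht : r i.castSucc ≤ t) (ht' : t + J' ≤ r i.succ) (a M : ℝ) {s c : ℝ} (hc : 0 < c)
    (hs : ∀ l : ℕ, t < l → l ≤ t + J' →
      ∫ η in win β h n a (M + 4 * Bc β b * (J' + 1)),
        kapE ρ β b h n l (r i.castSucc) (r i.succ) η ∂(law d ρ) ≤ s) :
    ∀ J : ℕ, J ≤ J' → ∫ η in win β h n a M, ∫ ξ, tvS77 β h n r η (mxR b t J η ξ)
      ∂(law d (rb ρ b)) ∂(law d ρ) ≤ J * (s / c + c / 2) := by
  classical
  have hP := prob_rb31 hb
  have hr' : ∀ i : Fin q, r i.castSucc ≤ r i.succ := fun i => hr Fin.castSucc_lt_succ.le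
  have hin : r i.succ ≤ n := (hr (Fin.le_last _)).trans hn
  intro J
  induction J with
  | zero =>
    intro _
    simp only [mxR_zero77, tvS_self77]
    simp
  | succ J ih =>
    intro hJ
    have ih' := ih (by omega)
    have hm1 : t < t + J + 1 := by omega
    have hm2 : t + J + 1 ≤ t + J' := by omega
    have hψm := measurable_psiR77 hb β h n r (t + J + 1)
    have hψb := fun η : Env d => psiR_le77 hd hb β h hr' hn (t + J + 1) η
    have hψ0 := fun η : Env d => psiR_nonneg77 ρ β b h n r (t + J + 1) η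
    -- one resampled block, fixed environment
    have tvb : ∀ ζ ζ' : Env d, |tvS77 β h n r ζ ζ'| ≤ 2 := fun ζ ζ' => by
      rw [abs_of_nonneg (tvS_nonneg77 β h n r ζ ζ')]
      exact tvS_le77 β h r hr' hn hd ζ ζ'
    have m1 := measurable_tvR77 hb β h n r t J
    have m2 := measurable_tvR77 hb β h n r t (J + 1)
    have m3 : ∀ η : Env d, Measurable fun ξ : Env d => tvS77 β h n r η (mxR b t J η ξ) :=
      fun η => slice77 (F := fun η ξ => tvS77 β h n r η (mxR b t J η ξ)) m1 η
    have m4 : ∀ η : Env d, Measurable fun ξ : Env d => tvS77 β h n r η (mxR b t (J + 1) η ξ) :=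
      fun η => slice77 (F := fun η ξ => tvS77 β h n r η (mxR b t (J + 1) η ξ)) m2 η
    have m5 : Measurable fun z : Env d × Env d => psiR77 ρ β b h n r (t + J + 1)
        (mxR b t J z.1 z.2) :=
      comp77 (F := fun η => psiR77 ρ β b h n r (t + J + 1) η) hψm (mpR77 hb t J).measurable
    have m6 : ∀ η : Env d, Measurable fun ξ : Env d => psiR77 ρ β b h n r (t + J + 1)
        (mxR b t J η ξ) := fun η =>
      slice77 (F := fun η ξ => psiR77 ρ β b h n r (t + J + 1) (mxR b t J η ξ)) m5 η
    have i1 : ∀ η : Env d, Integrable (fun ξ : Env d => tvS77 β h n r η (mxR b t J η ξ))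
        (law d (rb ρ b)) := fun η =>
      Integrable.of_bound (m3 η).aestronglyMeasurable 2 (Eventually.of_forall fun ξ => by
        rw [Real.norm_eq_abs]
        exact tvb _ _)
    have i2 : ∀ η : Env d, Integrable (fun ξ : Env d => psiR77 ρ β b h n r (t + J + 1)
        (mxR b t J η ξ)) (law d (rb ρ b)) := fun η =>
      Integrable.of_bound (m6 η).aestronglyMeasurable 2 (Eventually.of_forall fun ξ => by
        rw [Real.norm_eq_abs]
        exact hψb _)
    have e1 : ∀ η : Env d, ∫ ξ, tvS77 β h n r η (mxR b t (J + 1) η ξ) ∂(law d (rb ρ b)) ≤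
        ∫ ξ, tvS77 β h n r η (mxR b t J η ξ) ∂(law d (rb ρ b)) +
          ∫ ξ, psiR77 ρ β b h n r (t + J + 1) (mxR b t J η ξ) ∂(law d (rb ρ b)) := by
      intro η
      rw [mp_int77 (mp_spl77 (ν := rb ρ b) (t + J + 1)) (m4 η) (K := 2) (fun ξ => tvb _ _),
        ← integral_add (i1 η) (i2 η)]
      refine integral_mono_of_nonneg (Eventually.of_forall fun ξ => integral_nonneg fun ξ' =>
        tvS_nonneg77 β h n r _ _) ((i1 η).add (i2 η)) (Eventually.of_forall fun ξ => ?_)
      simp only [mxR_spl77]
      obtain ⟨ζ, hζ⟩ : ∃ ζ, ζ = mxR b t J η ξ := ⟨_, rfl⟩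
      rw [← hζ]
      have m7 : Measurable fun ξ' : Env d => tvS77 β h n r ζ (mx b (t + J + 1) ζ ξ') := by
        have h0 : Measurable fun z : Env d × Env d => (z.1, mx b (t + J + 1) z.1 z.2) :=
          measurable_fst.prodMk (measurable_mx31 b (t + J + 1))
        have h1' := (measurable_tvS77 β h n r).comp h0
        exact slice77 (F := fun ζ ξ' => tvS77 β h n r ζ (mx b (t + J + 1) ζ ξ')) h1' ζ
      have i3 : Integrable (fun ξ' : Env d => tvS77 β h n r ζ (mx b (t + J + 1) ζ ξ'))
          (law d (rb ρ b)) :=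
        Integrable.of_bound m7.aestronglyMeasurable 2 (Eventually.of_forall fun ξ' => by
          rw [Real.norm_eq_abs]
          exact tvb _ _)
      have e2 : ∫ ξ', (tvS77 β h n r η ζ + tvS77 β h n r ζ (mx b (t + J + 1) ζ ξ'))
          ∂(law d (rb ρ b)) = tvS77 β h n r η ζ + psiR77 ρ β b h n r (t + J + 1) ζ := by
        rw [integral_add (integrable_const _) i3, integral_const, probReal_univ, one_smul]
        rfl
      rw [← e2]
      exact integral_mono_of_nonneg (Eventually.of_forall fun ξ' => tvS_nonneg77 β h n r _ _)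
        ((integrable_const _).add i3) (Eventually.of_forall fun ξ' => tvS_tri77 β h n r _ _ _)
    -- integrate over the window
    have m8 : Measurable fun η : Env d => ∫ ξ, tvS77 β h n r η (mxR b t J η ξ)
        ∂(law d (rb ρ b)) := (StronglyMeasurable.integral_prod_right
          (f := fun η ξ => tvS77 β h n r η (mxR b t J η ξ)) m1.stronglyMeasurable).measurable
    have m9 : Measurable fun η : Env d => ∫ ξ, psiR77 ρ β b h n r (t + J + 1) (mxR b t J η ξ)
        ∂(law d (rb ρ b)) := (StronglyMeasurable.integral_prod_right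
          (f := fun η ξ => psiR77 ρ β b h n r (t + J + 1) (mxR b t J η ξ))
            m5.stronglyMeasurable).measurable
    have b8 : ∀ η : Env d, |∫ ξ, tvS77 β h n r η (mxR b t J η ξ) ∂(law d (rb ρ b))| ≤ 2 := by
      intro η
      have h2 := norm_integral_le_of_norm_le_const (μ := law d (rb ρ b))
        (f := fun ξ => tvS77 β h n r η (mxR b t J η ξ)) (C := 2)
        (Eventually.of_forall fun ξ => by
          rw [Real.norm_eq_abs]
          exact tvb _ _)
      rwa [probReal_univ, mul_one, Real.norm_eq_abs] at h2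
    have b9 : ∀ η : Env d, |∫ ξ, psiR77 ρ β b h n r (t + J + 1) (mxR b t J η ξ)
        ∂(law d (rb ρ b))| ≤ 2 := by
      intro η
      have h2 := norm_integral_le_of_norm_le_const (μ := law d (rb ρ b))
        (f := fun ξ => psiR77 ρ β b h n r (t + J + 1) (mxR b t J η ξ)) (C := 2)
        (Eventually.of_forall fun ξ => by
          rw [Real.norm_eq_abs]
          exact hψb _)
      rwa [probReal_univ, mul_one, Real.norm_eq_abs] at h2
    have i8 : Integrable (fun η : Env d => ∫ ξ, tvS77 β h n r η (mxR b t J η ξ)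
        ∂(law d (rb ρ b))) (law d ρ) :=
      Integrable.of_bound m8.aestronglyMeasurable 2 (Eventually.of_forall fun η => by
        rw [Real.norm_eq_abs]
        exact b8 η)
    have i9 : Integrable (fun η : Env d => ∫ ξ, psiR77 ρ β b h n r (t + J + 1)
        (mxR b t J η ξ) ∂(law d (rb ρ b))) (law d ρ) :=
      Integrable.of_bound m9.aestronglyMeasurable 2 (Eventually.of_forall fun η => by
        rw [Real.norm_eq_abs]
        exact b9 η)
    have e3 : ∫ η in win β h n a M, ∫ ξ, tvS77 β h n r η (mxR b t (J + 1) η ξ)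
        ∂(law d (rb ρ b)) ∂(law d ρ) ≤
        ∫ η in win β h n a M, ∫ ξ, tvS77 β h n r η (mxR b t J η ξ) ∂(law d (rb ρ b)) ∂(law d ρ) +
        ∫ η in win β h n a M, ∫ ξ, psiR77 ρ β b h n r (t + J + 1) (mxR b t J η ξ)
          ∂(law d (rb ρ b)) ∂(law d ρ) := by
      rw [← integral_add i8.integrableOn i9.integrableOn]
      exact integral_mono_of_nonneg (Eventually.of_forall fun η => integral_nonneg fun ξ =>
        tvS_nonneg77 β h n r _ _) (i8.integrableOn.add i9.integrableOn)
        (Eventually.of_forall fun η => e1 η)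
    -- the window moves little
    have hW : MeasurableSet (win β h n a (M + 2 * |β| * b * J)) :=
      measurableSet_win77 β h n a _
    have hW0 : MeasurableSet (win β h n a M) := measurableSet_win77 β h n a _
    have e4 : ∫ η in win β h n a M, ∫ ξ, psiR77 ρ β b h n r (t + J + 1) (mxR b t J η ξ)
          ∂(law d (rb ρ b)) ∂(law d ρ) ≤
        ∫ η in win β h n a (M + 2 * |β| * b * J), psiR77 ρ β b h n r (t + J + 1) η
          ∂(law d ρ) := by
      rw [← integral_indicator hW, mp_int77 (mpR77 hb t J) (hψm.indicator hW) (K := 2)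
        (fun η => by
          by_cases hη : η ∈ win β h n a (M + 2 * |β| * b * J)
          · rw [Set.indicator_of_mem hη]
            exact hψb η
          · rw [Set.indicator_of_notMem hη]
            norm_num), ← integral_indicator hW0]
      have m10 : Measurable fun z : Env d × Env d =>
          (win β h n a (M + 2 * |β| * b * J)).indicator
            (fun η => psiR77 ρ β b h n r (t + J + 1) η) (mxR b t J z.1 z.2) :=
        comp77 (F := fun η => (win β h n a (M + 2 * |β| * b * J)).indicator
            (fun η => psiR77 ρ β b h n r (t + J + 1) η) η) (hψm.indicator hW)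
          (mpR77 hb t J).measurable
      have b10 : ∀ η : Env d, |(win β h n a (M + 2 * |β| * b * J)).indicator
            (fun η => psiR77 ρ β b h n r (t + J + 1) η) η| ≤ 2 := by
        intro η
        by_cases hη : η ∈ win β h n a (M + 2 * |β| * b * J)
        · rw [Set.indicator_of_mem hη]
          exact hψb η
        · rw [Set.indicator_of_notMem hη]
          norm_num
      have m11 : Measurable fun η : Env d => ∫ ξ, (win β h n a (M + 2 * |β| * b * J)).indicator
            (fun η => psiR77 ρ β b h n r (t + J + 1) η) (mxR b t J η ξ) ∂(law d (rb ρ b)) :=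
        (StronglyMeasurable.integral_prod_right
          (f := fun η ξ => (win β h n a (M + 2 * |β| * b * J)).indicator
            (fun η => psiR77 ρ β b h n r (t + J + 1) η) (mxR b t J η ξ))
            m10.stronglyMeasurable).measurable
      have i11 : Integrable (fun η : Env d => ∫ ξ, (win β h n a
          (M + 2 * |β| * b * J)).indicator (fun η => psiR77 ρ β b h n r (t + J + 1) η)
            (mxR b t J η ξ) ∂(law d (rb ρ b))) (law d ρ) :=
        Integrable.of_bound m11.aestronglyMeasurable 2 (Eventually.of_forall fun η => by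
          have h2 := norm_integral_le_of_norm_le_const (μ := law d (rb ρ b))
            (f := fun ξ => (win β h n a (M + 2 * |β| * b * J)).indicator
              (fun η => psiR77 ρ β b h n r (t + J + 1) η) (mxR b t J η ξ)) (C := 2)
            (Eventually.of_forall fun ξ => by
              rw [Real.norm_eq_abs]
              exact b10 _)
          rwa [probReal_univ, mul_one] at h2)
      refine integral_mono_of_nonneg (Eventually.of_forall fun η => Set.indicator_nonneg
        (fun η _ => integral_nonneg fun ξ => hψ0 _) _) i11 (Eventually.of_forall fun η => ?_)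
      by_cases hη : η ∈ win β h n a M
      · rw [Set.indicator_of_mem hη]
        refine le_of_eq (integral_congr_ae (Eventually.of_forall fun ξ => ?_))
        simp only
        rw [Set.indicator_of_mem]
        change |X β h (mxR b t J η ξ) n - a| ≤ M + 2 * |β| * b * J
        have f1 : |X β h η n - a| ≤ M := hη
        have f2 := X_blk77 hd hb.b0.le β h n t J η ξ
        have f3 := abs_sub_le (X β h (mxR b t J η ξ) n) (X β h η n) a
        linarith
      · rw [Set.indicator_of_notMem hη]
        exact integral_nonneg fun ξ => Set.indicator_nonneg (fun η _ => hψ0 η) _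
    have hβb : 0 ≤ |β| * b := mul_nonneg (abs_nonneg β) hb.b0.le
    have e5 : ∫ η in win β h n a (M + 2 * |β| * b * J), psiR77 ρ β b h n r (t + J + 1) η
          ∂(law d ρ) ≤ s / c + c / 2 := by
      have hsub : win β h n a (M + 2 * |β| * b * J + 4 * |β| * b) ⊆
          win β h n a (M + 4 * Bc β b * (J' + 1)) := by
        intro η hη
        have f1 : |X β h η n - a| ≤ M + 2 * |β| * b * J + 4 * |β| * b := hη
        change |X β h η n - a| ≤ M + 4 * Bc β b * (J' + 1)
        refine f1.trans ?_
        unfold Bc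
        have f2 : (J : ℝ) ≤ J' := by exact_mod_cast (by omega : J ≤ J')
        have f3 : (0 : ℝ) ≤ J := Nat.cast_nonneg J
        have f4 : |β| * b * J ≤ |β| * b * J' := mul_le_mul_of_nonneg_left f2 hβb
        have f5 : 0 ≤ |β| * b * J := mul_nonneg hβb f3
        nlinarith
      refine row77 hd hb β h hr hn i (by omega) (by omega) a _ hc ?_
      exact (setIntegral_mono_set (kapE_int77 hd hb β h (by omega) (by omega) hin).integrableOn
        (Eventually.of_forall fun η => kapE_nonneg77 hd hb β h (by omega) (by omega) hin η)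
        hsub.eventuallyLE).trans (hs (t + J + 1) hm1 hm2)
    have e6 : ((J + 1 : ℕ) : ℝ) * (s / c + c / 2) = J * (s / c + c / 2) + (s / c + c / 2) := by
      push_cast
      ring
    rw [e6]
    linarith

/-- **Leaf D.** -/
theorem tvB77 [IsProbabilityMeasure ρ] (hd : 0 < d) (hb : HB ρ b) : TvB d ρ β b := by
  intro h n q J t r _ hO i a M s _ hs0 hs
  have hr : Monotone r := Fin.monotone_iff_le_succ.2 fun j =>
    (hO.1 j).1.trans ((Nat.le_add_right _ _).trans (hO.1 j).2)
  have h1 : ∀ c : ℝ, 0 < c → (∫ η in win β h n a M,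
      ∫ ξ, ∑ s : Sp d n q, |msp β h n r s η - msp β h n r s (mxR b (t i) J η ξ)|
        ∂(law d (rb ρ b)) ∂(law d ρ)) ≤ J * (s / c + c / 2) := fun c hc =>
    tel77 hd hb β h hr hO.2 i (hO.1 i).1 (hO.1 i).2 a M hc hs J le_rfl
  rcases hs0.eq_or_lt with h2 | h2
  · rw [← h2, mul_zero, Real.sqrt_zero, mul_zero]
    refine le_of_forall_pos_le_add fun ε hε => ?_
    have hJ : (0 : ℝ) ≤ J := Nat.cast_nonneg J
    have h3 := h1 (ε / (J + 1)) (by positivity)
    rw [← h2, zero_div, zero_add] at h3
    refine h3.trans ?_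
    rw [zero_add, mul_div_assoc', mul_div_assoc', div_div, div_le_iff₀ (by positivity)]
    nlinarith
  · have h3 : 0 < Real.sqrt (2 * s) := Real.sqrt_pos.2 (by linarith)
    refine (h1 _ h3).trans (le_of_eq ?_)
    congr 1
    have h4 : Real.sqrt (2 * s) * Real.sqrt (2 * s) = 2 * s := Real.mul_self_sqrt (by linarith)
    have h5 : s / Real.sqrt (2 * s) = Real.sqrt (2 * s) / 2 := by
      rw [div_eq_div_iff h3.ne' two_ne_zero]
      linarith
    rw [h5]
    ring

end Pool.Agent.W_7d29a1_AC
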