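import Pool.Agent.W_7d29a1_AC.ZlowA21
import Pool.Agent.W_7d29a1_NV.BigB21

/-!
Leaf F1: the partition function averaged over a block is large if the shortened environments are
good.
-/

set_option autoImplicit false

namespace Pool.Agent.W_7d29a1_AC

open MeasureTheory ProbabilityTheory Filter Topology Pool.Agent.W_MP_7d29a1_pr
  Pool.Agent.W_7d29a1_h46 Pool.Agent.W_7d29a1_h46u Pool.Agent.W_7d29a1_D2.B35
  Pool.Agent.W_7d29a1_Q29 Pool.Agent.W_7d29a1_Q29.Csy42 Pool.Agent.W_7d29a1_NV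

variable {d : ℕ} {ρ : Measure ℝ} [IsProbabilityMeasure ρ] {β : ℝ}

lemma measurable_lf21 (ρ : Measure ℝ) (β b : ℝ) : Measurable (lf21 ρ β b) := by
  unfold lf21
  exact Measurable.ite (measurableSet_le measurable_norm measurable_const) measurable_const
    (measurable_const.max (measurable_const.sub measurable_id))

lemma lf_le21 (ρ : Measure ℝ) (β b v : ℝ) : lf21 ρ β b v ≤ |v| + |c0 ρ β b| := by
  unfold lf21
  have h1 := abs_nonneg v
  have h2 := abs_nonneg (c0 ρ β b)
  split_ifs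
  · linarith
  · refine max_le (by linarith) ?_
    have h3 := neg_abs_le v
    have h4 := le_abs_self (c0 ρ β b)
    linarith

lemma integrable_lf21 (hρ : EM ρ) (β b : ℝ) : Integrable (lf21 ρ β b) ρ := by
  refine ((integrable_id21 hρ).add (integrable_const |c0 ρ β b|)).mono'
    (measurable_lf21 ρ β b).aestronglyMeasurable (Eventually.of_forall fun v => ?_)
  rw [Real.norm_eq_abs, abs_of_nonneg (lf_nonneg21 ρ β b v)]
  exact lf_le21 ρ β b v

lemma tendsto_lf21 (hρ : EM ρ) (hβ : 0 < β) :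
    Tendsto (fun b : ℝ => ∫ v, lf21 ρ β b v ∂ρ) atTop (𝓝 0) := by
  have h1 := tendsto_c021 hρ hβ.ne'
  have h2 : Tendsto (fun b : ℝ => ∫ v, lf21 ρ β b v ∂ρ) atTop (𝓝 (∫ _ : ℝ, (0 : ℝ) ∂ρ)) := by
    refine tendsto_integral_filter_of_dominated_convergence
      (fun v => |v| + (|cb ρ β| + 1) / β) ?_ ?_
      ((integrable_id21 hρ).add (integrable_const _)) ?_
    · exact Eventually.of_forall fun b => (measurable_lf21 ρ β b).aestronglyMeasurable
    · have h3 := (h1.sub_const (cb ρ β)).abs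
      rw [sub_self, abs_zero] at h3
      filter_upwards [h3.eventually (gt_mem_nhds (by norm_num : (0 : ℝ) < 1))] with b hb
      refine Eventually.of_forall fun v => ?_
      rw [Real.norm_eq_abs, abs_of_nonneg (lf_nonneg21 ρ β b v)]
      have h4 : |c0 ρ β b| ≤ (|cb ρ β| + 1) / β := by
        rw [le_div_iff₀ hβ]
        have h5 : |β * c0 ρ β b| ≤ |cb ρ β| + 1 := by
          have h6 := abs_sub_abs_le_abs_sub (β * c0 ρ β b) (cb ρ β)
          linarith
        rw [abs_mul, abs_of_pos hβ] at h5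
        linarith
      exact (lf_le21 ρ β b v).trans (by linarith)
    · refine Eventually.of_forall fun v => ?_
      refine tendsto_const_nhds.congr' ?_
      filter_upwards [eventually_ge_atTop |v|] with b hb
      unfold lf21
      rw [if_pos hb]
  rwa [integral_zero] at h2

/-- The sites of the block. -/
def Bk21 (d t J : ℕ) : Set (ℕ × Site d) := {p | t < p.1 ∧ p.1 ≤ t + J}

lemma measurable_remE21 (J t : ℕ) (z : Site d) : Measurable (remE J t z) := by
  rw [measurable_pi_iff]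
  intro p
  unfold remE
  by_cases hp : p.1 ≤ t
  · simp only [if_pos hp]
    exact measurable_pi_apply p
  · simp only [if_neg hp]
    exact measurable_pi_apply _

lemma remE_congr21 {J t : ℕ} {η η' : Env d} (hη : ∀ p ∈ (Bk21 d t J)ᶜ, η p = η' p) (z : Site d) :
    remE J t z η = remE J t z η' := by
  funext p
  unfold remE
  split_ifs with hp
  · exact hη p fun h => by
      have := h.1
      omega
  · refine hη _ fun h => ?_
    have h2 : p.1 + J ≤ t + J := h.2
    omega

lemma Wt_congr21 (β : ℝ) (h : Vec d) {t J : ℕ} (m : ℕ) {η η' : Env d}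
    (hη : ∀ p ∈ (Bk21 d t J)ᶜ, η p = η' p) (s : Fin t → Step d) (q : Fin J → Step d) :
    Wt21 β h t J m η s q = Wt21 β h t J m η' s q := by
  unfold Wt21
  rw [wgt_congr21 β h (fun p _ h2 => hη p fun h3 => by
    have := h3.1
    omega) s]
  congr 2
  refine Z_congr21 β h fun p h1 _ => ?_
  unfold sh
  refine hη _ fun h3 => ?_
  have h2 : p.1 + J + t ≤ t + J := h3.2
  omega

lemma measurable_Wt21 (β : ℝ) (h : Vec d) (t J m : ℕ) (s : Fin t → Step d)
    (q : Fin J → Step d) : Measurable fun η : Env d => Wt21 β h t J m η s q := by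
  unfold Wt21
  exact (measurable_wgt β h s).mul (measurable_const.mul ((measurable_Z β h m).comp
    ((measurable_sh J (pos q J)).comp (measurable_sh t (pos s t)))))

lemma measurable_Ls21 (ρ : Measure ℝ) (β b : ℝ) (t J : ℕ) (s : Fin t → Step d)
    (q : Fin J → Step d) : Measurable fun η : Env d => Ls21 ρ β b t J η s q := by
  unfold Ls21
  exact Finset.measurable_sum _ fun i _ => (measurable_lf21 ρ β b).comp (measurable_pi_apply _)

lemma integrable_Ls21 (hρ : EM ρ) (β b : ℝ) (t J : ℕ) (s : Fin t → Step d)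
    (q : Fin J → Step d) : Integrable (fun η : Env d => Ls21 ρ β b t J η s q) (law d ρ) := by
  unfold Ls21
  refine integrable_finsetSum _ fun i _ => ?_
  have hm : MeasurePreserving (fun η : Env d =>
      η (((i : ℕ) + 1) + t, pos q ((i : ℕ) + 1) + pos s t)) (law d ρ) ρ :=
    measurePreserving_eval_infinitePi (fun _ : ℕ × Site d => ρ) _
  exact hm.integrable_comp_of_integrable (integrable_lf21 hρ β b)

lemma integral_Ls21 (hρ : EM ρ) (β b : ℝ) (t J : ℕ) (s : Fin t → Step d)
    (q : Fin J → Step d) : ∫ η : Env d, Ls21 ρ β b t J η s q ∂(law d ρ) =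
      J * ∫ v, lf21 ρ β b v ∂ρ := by
  unfold Ls21
  have hm : ∀ i : Fin J, MeasurePreserving (fun η : Env d =>
      η (((i : ℕ) + 1) + t, pos q ((i : ℕ) + 1) + pos s t)) (law d ρ) ρ := fun i =>
    measurePreserving_eval_infinitePi (fun _ : ℕ × Site d => ρ) _
  have hi : ∀ i : Fin J, Integrable (fun η : Env d => lf21 ρ β b
      (η (((i : ℕ) + 1) + t, pos q ((i : ℕ) + 1) + pos s t))) (law d ρ) := fun i =>
    (hm i).integrable_comp_of_integrable (integrable_lf21 hρ β b)
  rw [integral_finsetSum _ fun i _ => hi i]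
  have h1 : ∀ i : Fin J, ∫ η : Env d, lf21 ρ β b
      (η (((i : ℕ) + 1) + t, pos q ((i : ℕ) + 1) + pos s t)) ∂(law d ρ) =
      ∫ v, lf21 ρ β b v ∂ρ := fun i =>
    LawU_integral (hm i) (measurable_lf21 ρ β b).aestronglyMeasurable
  rw [Finset.sum_congr rfl fun i _ => h1 i, Finset.sum_const, Finset.card_univ, Fintype.card_fin,
    nsmul_eq_mul]

lemma Ls_dep21 (ρ : Measure ℝ) (β b : ℝ) (t J : ℕ) (s : Fin t → Step d)
    (q : Fin J → Step d) : DependsOn (fun η : Env d => Ls21 ρ β b t J η s q) (Bk21 d t J) := by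
  intro η η' hη
  simp only
  unfold Ls21
  refine Finset.sum_congr rfl fun i _ => ?_
  rw [hη (((i : ℕ) + 1) + t, pos q ((i : ℕ) + 1) + pos s t) ?_]
  refine ⟨?_, ?_⟩
  · simp only
    omega
  · simp only
    have := i.2
    omega

open Classical in
/-- The weight of a good path. -/
noncomputable def wg21 (β : ℝ) (h : Vec d) (t J m : ℕ) (a R : ℝ) (η : Env d)
    (i : (Fin t → Step d) × (Fin J → Step d)) : ℝ :=
  if |X β h (remE J t (pos i.2 J) η) (t + m) - a| ≤ R then Wt21 β h t J m η i.1 i.2 else 0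

lemma wg_nonneg21 (hd : 0 < d) (β : ℝ) (h : Vec d) (t J m : ℕ) (a R : ℝ) (η : Env d)
    (i : (Fin t → Step d) × (Fin J → Step d)) : 0 ≤ wg21 β h t J m a R η i := by
  unfold wg21
  split_ifs
  · exact (Wt_pos21 hd β h t J m η i.1 i.2).le
  · exact le_rfl

lemma measurable_wg21 (β : ℝ) (h : Vec d) (t J m : ℕ) (a R : ℝ)
    (i : (Fin t → Step d) × (Fin J → Step d)) :
    Measurable fun η : Env d => wg21 β h t J m a R η i := by
  unfold wg21
  refine Measurable.ite ?_ (measurable_Wt21 β h t J m i.1 i.2) measurable_const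
  have h1 : Measurable fun η : Env d => |X β h (remE J t (pos i.2 J) η) (t + m) - a| :=
    ((((measurable_X β h (t + m)).comp (measurable_remE21 J t (pos i.2 J))).sub_const a)).norm
  exact measurableSet_le h1 measurable_const

lemma wg_congr21 (β : ℝ) (h : Vec d) {t J : ℕ} (m : ℕ) (a R : ℝ) {η η' : Env d}
    (hη : ∀ p ∈ (Bk21 d t J)ᶜ, η p = η' p) (i : (Fin t → Step d) × (Fin J → Step d)) :
    wg21 β h t J m a R η i = wg21 β h t J m a R η' i := by
  unfold wg21
  rw [remE_congr21 hη, Wt_congr21 β h m hη]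

/-- The mean loss of the good paths. -/
noncomputable def Fl21 (ρ : Measure ℝ) (β b : ℝ) (h : Vec d) (t J m : ℕ) (a R : ℝ)
    (η : Env d) : ℝ :=
  ∑ i, wg21 β h t J m a R η i / (∑ j, wg21 β h t J m a R η j) * Ls21 ρ β b t J η i.1 i.2

lemma Fl_int21 (hd : 0 < d) (hρ : EM ρ) (β b : ℝ) (h : Vec d) (t J m : ℕ) (a R : ℝ) :
    Integrable (Fl21 ρ β b h t J m a R) (law d ρ) ∧
      ∫ η, Fl21 ρ β b h t J m a R η ∂(law d ρ) ≤ J * ∫ v, lf21 ρ β b v ∂ρ := by
  have hr0 : ∀ (η : Env d) (i : (Fin t → Step d) × (Fin J → Step d)),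
      0 ≤ wg21 β h t J m a R η i / (∑ j, wg21 β h t J m a R η j) := fun η i =>
    div_nonneg (wg_nonneg21 hd β h t J m a R η i)
      (Finset.sum_nonneg fun j _ => wg_nonneg21 hd β h t J m a R η j)
  have hsum : ∀ η : Env d,
      ∑ i, wg21 β h t J m a R η i / (∑ j, wg21 β h t J m a R η j) ≤ 1 := by
    intro η
    rw [← Finset.sum_div]
    exact div_self_le_one _
  have hr1 : ∀ (η : Env d) (i : (Fin t → Step d) × (Fin J → Step d)),
      wg21 β h t J m a R η i / (∑ j, wg21 β h t J m a R η j) ≤ 1 := fun η i =>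
    (Finset.single_le_sum (f := fun i => wg21 β h t J m a R η i /
      (∑ j, wg21 β h t J m a R η j)) (fun i _ => hr0 η i) (Finset.mem_univ i)).trans (hsum η)
  have hrm : ∀ i : (Fin t → Step d) × (Fin J → Step d), Measurable fun η : Env d =>
      wg21 β h t J m a R η i / (∑ j, wg21 β h t J m a R η j) := fun i =>
    (measurable_wg21 β h t J m a R i).div
      (Finset.measurable_sum _ fun j _ => measurable_wg21 β h t J m a R j)
  have hri : ∀ i : (Fin t → Step d) × (Fin J → Step d), Integrable (fun η : Env d =>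
      wg21 β h t J m a R η i / (∑ j, wg21 β h t J m a R η j)) (law d ρ) := fun i =>
    Integrable.of_bound (hrm i).aestronglyMeasurable 1 (Eventually.of_forall fun η => by
      rw [Real.norm_eq_abs, abs_of_nonneg (hr0 η i)]
      exact hr1 η i)
  have hpi : ∀ i : (Fin t → Step d) × (Fin J → Step d), Integrable (fun η : Env d =>
      wg21 β h t J m a R η i / (∑ j, wg21 β h t J m a R η j) * Ls21 ρ β b t J η i.1 i.2)
        (law d ρ) := fun i => by
    refine (integrable_Ls21 hρ β b t J i.1 i.2).mono'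
      ((hrm i).mul (measurable_Ls21 ρ β b t J i.1 i.2)).aestronglyMeasurable
      (Eventually.of_forall fun η => ?_)
    have h1 : 0 ≤ Ls21 ρ β b t J η i.1 i.2 :=
      Finset.sum_nonneg fun j _ => lf_nonneg21 ρ β b _
    rw [Real.norm_eq_abs, abs_of_nonneg (mul_nonneg (hr0 η i) h1)]
    exact mul_le_of_le_one_left h1 (hr1 η i)
  have hind : ∀ i : (Fin t → Step d) × (Fin J → Step d), ∫ η : Env d,
      wg21 β h t J m a R η i / (∑ j, wg21 β h t J m a R η j) * Ls21 ρ β b t J η i.1 i.2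
        ∂(law d ρ) = (∫ η : Env d, wg21 β h t J m a R η i /
          (∑ j, wg21 β h t J m a R η j) ∂(law d ρ)) * (J * ∫ v, lf21 ρ β b v ∂ρ) := by
    intro i
    rw [integral_indep (Bk21 d t J)ᶜ (hrm i) (measurable_Ls21 ρ β b t J i.1 i.2) ?_ ?_,
      integral_Ls21 hρ]
    · intro η η' hη
      simp only
      rw [wg_congr21 β h m a R hη i]
      congr 1
      exact Finset.sum_congr rfl fun j _ => wg_congr21 β h m a R hη j
    · rw [compl_compl]
      exact Ls_dep21 ρ β b t J i.1 i.2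
  have hJ : 0 ≤ (J : ℝ) * ∫ v, lf21 ρ β b v ∂ρ :=
    mul_nonneg (Nat.cast_nonneg _) (integral_nonneg fun v => lf_nonneg21 ρ β b v)
  unfold Fl21
  refine ⟨integrable_finsetSum _ fun i _ => hpi i, ?_⟩
  rw [integral_finsetSum _ fun i _ => hpi i, Finset.sum_congr rfl fun i _ => hind i,
    ← Finset.sum_mul, ← integral_finsetSum _ fun i _ => hri i]
  refine mul_le_of_le_one_left hJ ?_
  calc ∫ η : Env d, ∑ i, wg21 β h t J m a R η i / (∑ j, wg21 β h t J m a R η j) ∂(law d ρ) ≤
      ∫ _ : Env d, (1 : ℝ) ∂(law d ρ) :=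
        integral_mono (integrable_finsetSum _ fun i _ => hri i) (integrable_const 1) hsum
    _ = 1 := by simp

open Classical in
/-- The lower bound of the averaged partition function. -/
lemma zB_low21 (hd : 0 < d) (hβ : 0 < β) {b : ℝ} (hb : HB ρ b) (h : Vec d) (t J m : ℕ)
    (a R : ℝ) (η : Env d) (hPhi : 0 < Phi h) (hG : Phi h ^ J / 2 ≤
      (∑ z ∈ boxF d J, if |X β h (remE J t z η) (t + m) - a| ≤ R
        then PP β h (fun _ => 0) J z else 0)) :
    a - R + J * Real.log (Phi h) - Real.log 2 + J * (β * c0 ρ β b) -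
      β * Fl21 ρ β b h t J m a R η ≤ Real.log (zB ρ β b h (t + m + J) t J η) := by
  obtain ⟨W, hW⟩ : ∃ W : ℝ, W = ∑ i, wg21 β h t J m a R η i := ⟨_, rfl⟩
  have h1 := Wtot_low21 hd β h t J m η a R
  have h2 : (∑ s : Fin t → Step d, ∑ q : Fin J → Step d,
      if |X β h (remE J t (pos q J) η) (t + m) - a| ≤ R then Wt21 β h t J m η s q else 0) = W := by
    rw [hW, Fintype.sum_prod_type]
    rfl
  rw [h2] at h1
  have h3 : Real.exp (a - R) * (Phi h ^ J / 2) ≤ W :=
    (mul_le_mul_of_nonneg_left hG (Real.exp_pos _).le).trans h1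
  have h3' : 0 < Real.exp (a - R) * (Phi h ^ J / 2) := by positivity
  have hW0 : 0 < W := lt_of_lt_of_le h3' h3
  have h4 := jensen21 (Finset.univ : Finset ((Fin t → Step d) × (Fin J → Step d)))
    (fun i => wg21 β h t J m a R η i) (fun i => β * Ls21 ρ β b t J η i.1 i.2)
    (J * (β * c0 ρ β b)) (fun i _ => wg_nonneg21 hd β h t J m a R η i) (by
      rw [← hW]
      exact hW0)
  rw [← hW] at h4
  have h5 : (∑ i, wg21 β h t J m a R η i * (β * Ls21 ρ β b t J η i.1 i.2)) / W =
      β * Fl21 ρ β b h t J m a R η := by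
    unfold Fl21
    rw [← hW, Finset.sum_div, Finset.mul_sum]
    refine Finset.sum_congr rfl fun i _ => ?_
    ring
  rw [h5] at h4
  have h6 : ∑ i, wg21 β h t J m a R η i *
      Real.exp (J * (β * c0 ρ β b) - β * Ls21 ρ β b t J η i.1 i.2) ≤
      Z β h (mxS b (Finset.Ioc t (t + J)) η fun _ => c0 ρ β b) (t + (J + m)) := by
    refine le_trans ?_ (Zlow_path21 hd hβ hb h t J m η)
    rw [Fintype.sum_prod_type]
    refine Finset.sum_le_sum fun s _ => Finset.sum_le_sum fun q _ => ?_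
    refine mul_le_mul_of_nonneg_right ?_ (Real.exp_pos _).le
    unfold wg21
    split_ifs
    · exact le_rfl
    · exact (Wt_pos21 hd β h t J m η s q).le
  have hN : t + m + J = t + (J + m) := by omega
  rw [zB_eq21 hβ hb h (by omega) η, hN]
  have h7 : Real.exp (a - R) * (Phi h ^ J / 2) *
      Real.exp (J * (β * c0 ρ β b) - β * Fl21 ρ β b h t J m a R η) ≤
      Z β h (mxS b (Finset.Ioc t (t + J)) η fun _ => c0 ρ β b) (t + (J + m)) :=
    (mul_le_mul_of_nonneg_right h3 (Real.exp_pos _).le).trans (h4.trans h6)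
  have h8 := Real.log_le_log (by positivity) h7
  rw [Real.log_mul h3'.ne' (Real.exp_pos _).ne', Real.log_exp,
    Real.log_mul (Real.exp_pos _).ne' (by positivity), Real.log_exp,
    Real.log_div (by positivity) two_ne_zero, Real.log_pow] at h8
  linarith

/-- **Leaf F1.** -/
theorem zlowC21 (hd : 0 < d) (hρ : EM ρ) (hnc : ∀ c : ℝ, ρ {c} ≠ 1) (hβ : 0 < β) :
    ZlowC d ρ β := by
  intro h ϑ hϑ
  have hc := (tendsto_c021 hρ hβ.ne').eventually
    (lt_mem_nhds (show cb ρ β - ϑ / 2 < cb ρ β by linarith))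
  have hl := (tendsto_lf21 hρ hβ).eventually
    (gt_mem_nhds (show 0 < ϑ ^ 2 / (2 * β) by positivity))
  obtain ⟨b₃, hb₃⟩ := eventually_atTop.1 ((eventually_HB21 hnc).and (hc.and hl))
  refine ⟨b₃, fun b hb J t n a R hJ htn => ?_⟩
  obtain ⟨hHB, hc1, hl1⟩ := hb₃ b hb
  obtain ⟨m, rfl⟩ := Nat.exists_eq_add_of_le htn
  have hJ0 : (0 : ℝ) < J := by exact_mod_cast hJ
  have hPhi : 0 < Phi h := by
    unfold Phi
    refine Finset.sum_pos (fun e _ => Real.exp_pos _) ⟨(⟨0, hd⟩, true), Finset.mem_univ _⟩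
  obtain ⟨hFi, hFl⟩ := Fl_int21 (ρ := ρ) hd hρ β b h t J m a R
  have hF0 : ∀ η : Env d, 0 ≤ Fl21 ρ β b h t J m a R η := by
    intro η
    unfold Fl21
    refine Finset.sum_nonneg fun i _ => mul_nonneg (div_nonneg (wg_nonneg21 hd β h t J m a R η i)
      (Finset.sum_nonneg fun j _ => wg_nonneg21 hd β h t J m a R η j))
      (Finset.sum_nonneg fun j _ => lf_nonneg21 ρ β b _)
  have hε : 0 < ϑ * J / (2 * β) := by positivity
  have hsub : {η : Env d | Phi h ^ J / 2 ≤
        (∑ z ∈ boxF d J, open Classical in if |X β h (remE J t z η) (t + m) - a| ≤ R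
          then PP β h (fun _ => 0) J z else 0) ∧
      Real.log (zB ρ β b h (t + m + J) t J η) <
        a - R + J * (Real.log (Phi h) + Real.log (∫ x, Real.exp (β * x) ∂ρ)) - ϑ * J - 1} ⊆
      {η : Env d | ϑ * J / (2 * β) ≤ Fl21 ρ β b h t J m a R η} := by
    rintro η ⟨h1, h2⟩
    have h3 := zB_low21 hd hβ hHB h t J m a R η hPhi h1
    have h4 : Real.log (∫ x, Real.exp (β * x) ∂ρ) = cb ρ β := rfl
    rw [h4] at h2
    have h5 : Real.log 2 ≤ 1 := by
      have := Real.log_two_lt_d9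
      linarith
    have h6 := mul_le_mul_of_nonneg_left hc1.le hJ0.le
    show ϑ * J / (2 * β) ≤ Fl21 ρ β b h t J m a R η
    rw [div_le_iff₀ (by positivity)]
    nlinarith
  refine (measureReal_mono hsub).trans ?_
  have hmk := mul_meas_ge_le_integral_of_nonneg (μ := law d ρ)
    (Eventually.of_forall hF0) hFi (ϑ * J / (2 * β))
  have h7 : (ϑ * J / (2 * β)) * (law d ρ).real
      {η : Env d | ϑ * J / (2 * β) ≤ Fl21 ρ β b h t J m a R η} ≤
      (ϑ * J / (2 * β)) * ϑ := by
    refine hmk.trans (hFl.trans ?_)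
    calc (J : ℝ) * ∫ v, lf21 ρ β b v ∂ρ ≤ J * (ϑ ^ 2 / (2 * β)) :=
          mul_le_mul_of_nonneg_left hl1.le hJ0.le
      _ = (ϑ * J / (2 * β)) * ϑ := by ring
  exact le_of_mul_le_mul_left h7 hε

end Pool.Agent.W_7d29a1_AC
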