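import Pool.Agent.W_7d29a1_AC.End8
import Pool.Agent.W_7d29a1_AC.DefsF8
import Pool.Agent.W_7d29a1_AC.LOA66
import Pool.Agent.W_7d29a1_AC.LoP41b
import Pool.Agent.W_7d29a1_AC.OneC30
import Pool.Agent.W_7d29a1_AC.RowsC92
import Pool.Agent.W_7d29a1_AC.Clo71
import Pool.Agent.W_7d29a1_AC.FlaF27
import Pool.Agent.W_7d29a1_AC.MulC27
import Pool.Agent.W_7d29a1_AC.ZlowC21
import Pool.Agent.W_7d29a1_AC.RemC41
import Pool.Agent.W_7d29a1_AC.LocEnd1
import Pool.Agent.W_7d29a1_AC.Pig9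
import Pool.Agent.W_7d29a1_AC.TvB77
import Pool.Agent.W_7d29a1_NV.BigB21

/-!
Theorem AC: in every dimension and at every tilt of very strong disorder the law of the free energy
spreads out completely along all lengths.
-/

set_option autoImplicit false

namespace Pool.Agent.W_7d29a1_AC

open MeasureTheory ProbabilityTheory Filter Topology Pool.Agent.W_MP_7d29a1_pr
  Pool.Agent.W_7d29a1_h46 Pool.Agent.W_7d29a1_h46u Pool.Agent.W_7d29a1_D2.B35
  Pool.Agent.W_7d29a1_Q29 Pool.Agent.W_7d29a1_NV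

/-- The theorem. -/
theorem mainAC8 {d : ℕ} {ρ : Measure ℝ} [IsProbabilityMeasure ρ] {β : ℝ} (hd : 0 < d)
    (hρ : EM ρ) (hnc : ∀ c : ℝ, ρ {c} ≠ 1) (hβ : 0 < β) : MainAC d ρ β :=
  finAC8 (eventually_atTop.1 (eventually_HB21 hnc)) (fun _ hb => LoP41.loP41 hd hb loa66)
    (fun _ hb => tvB77 hd hb)
    (fun _ hb => rowsC92 hd hb (oneC30 hd hβ hb)) (cloC71 hd hρ β) (Fl27.flaC27 hd hρ β)
    (M27.mulC27 hd hρ β (Fl27.flaC27 hd hρ β))
    (locEnd1 (zlowC21 hd hρ hnc hβ) (RemC41.remC41 hd hρ β) (Fl27.flaC27 hd hρ β)) pig9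

end Pool.Agent.W_7d29a1_AC
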