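import Pool.Agent.W_7d29a1_AC.DefsAC8
import Pool.Agent.W_7d29a1_AC.Blk6
import Pool.Agent.W_7d29a1_AC.EqB41

/-!
The law of the environment with resampled blocks.
-/

set_option autoImplicit false

namespace Pool.Agent.W_7d29a1_AC.EqB41

open MeasureTheory ProbabilityTheory Filter Topology Pool.Agent.W_MP_7d29a1_pr
  Pool.Agent.W_7d29a1_h46 Pool.Agent.W_7d29a1_h46u Pool.Agent.W_7d29a1_D2.B35
  Pool.Agent.W_7d29a1_Q29 Pool.Agent.W_7d29a1_NV Pool.Agent.W_7d29a1_NV.Eq41

variable {d : ℕ} {ρ : Measure ℝ} {β b : ℝ}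

lemma mxB_eq_mxSJ (b : ℝ) (J : ℕ) {q : ℕ} (t : Fin q → ℕ) (η : Env d) (ξ : Fin q → Env d) :
    mxB b J t η ξ = mxSJ b (fun i => Finset.Ioc (t i) (t i + J)) η ξ := by
  funext p
  have e : (fun i : Fin q => p.1 ∈ Finset.Ioc (t i) (t i + J)) =
      fun i : Fin q => t i < p.1 ∧ p.1 ≤ t i + J := by
    funext i
    exact propext Finset.mem_Ioc
  unfold mxB mxSJ
  by_cases hp : (∃ i, t i < p.1 ∧ p.1 ≤ t i + J) ∧ |η p| ≤ b
  · have hp' : (∃ i, p.1 ∈ Finset.Ioc (t i) (t i + J)) ∧ |η p| ≤ b := by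
      simpa only [Finset.mem_Ioc] using hp
    rw [dif_pos hp, dif_pos hp']
    have h3 : hp'.1.choose = hp.1.choose := by
      congr 1
    rw [h3]
  · have hp' : ¬ ((∃ i, p.1 ∈ Finset.Ioc (t i) (t i + J)) ∧ |η p| ≤ b) := by
      simpa only [Finset.mem_Ioc] using hp
    rw [dif_neg hp, dif_neg hp']

/-- The law of the environment with resampled blocks. -/
theorem mixB41 [IsProbabilityMeasure ρ] (hb : HB ρ b) (J : ℕ) {q : ℕ} (t : Fin q → ℕ) :
    MeasurePreserving (fun w : Env d × (Fin q → Env d) => mxB b J t w.1 w.2)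
      ((law d ρ).prod (Measure.pi fun _ => law d (rb ρ b))) (law d ρ) := by
  have h := mixS6 (d := d) hb q (fun i => Finset.Ioc (t i) (t i + J))
  have e : (fun w : Env d × (Fin q → Env d) => mxB b J t w.1 w.2) =
      fun w : Env d × (Fin q → Env d) =>
        mxSJ b (fun i => Finset.Ioc (t i) (t i + J)) w.1 w.2 := by
    funext w
    exact mxB_eq_mxSJ b J t w.1 w.2
  rw [e]
  exact h

/-- The law of the environment with one resampled block. -/
theorem mixR41 [IsProbabilityMeasure ρ] (hb : HB ρ b) (t J : ℕ) :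
    MeasurePreserving (fun w : Env d × Env d => mxR b t J w.1 w.2)
      ((law d ρ).prod (law d (rb ρ b))) (law d ρ) := by
  classical
  have := Eq41.rb_prob hb
  have h := gen96 (ι := ℕ × Site d) ρ (rb ρ b)
    (ψ := fun p q => if (t < p.1 ∧ p.1 ≤ t + J) ∧ |q.1| ≤ b then cl b q.2 else q.1)
    (fun p => by
      by_cases hp : t < p.1 ∧ p.1 ≤ t + J
      · simp only [hp, true_and, and_self]
        exact one96_meas b
      · simp only [hp, false_and, if_false]
        exact measurable_fst)
    (fun p => by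
      by_cases hp : t < p.1 ∧ p.1 ≤ t + J
      · simp only [hp, true_and, and_self]
        exact one96 hb
      · simp only [hp, false_and, if_false]
        exact measurePreserving_fst.map_eq)
  exact h

/-- A block resampled twice. -/
lemma mxR_mxB {n q J : ℕ} {t : Fin q → ℕ} {r : Fin (q + 1) → ℕ} (hO : OrdB n J t r) {b : ℝ}
    (hb : 0 ≤ b) (η : Env d) (ω : Fin q → Env d) (i : Fin q) (x : Env d) :
    mxR b (t i) J (mxB b J t η ω) x = mxB b J t η (Function.update ω i x) := by
  classical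
  funext p
  by_cases hp : t i < p.1 ∧ p.1 ≤ t i + J
  · have hi := hO.1 i
    have h1 : r i.castSucc < p.1 := by omega
    have h2 : p.1 ≤ r i.succ := by omega
    rw [mxB_seg hO b η (Function.update ω i x) i h1 h2, Function.update_self]
    by_cases hη : |η p| ≤ b
    · have h3 : mxB b J t η ω p = cl b (ω i p) := by
        rw [mxB_seg hO b η ω i h1 h2]
        unfold mxR
        rw [if_pos ⟨hp, hη⟩]
      have h4 : |mxB b J t η ω p| ≤ b := by
        rw [h3]
        exact cl_abs hb _
      unfold mxR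
      rw [if_pos ⟨hp, h4⟩, if_pos ⟨hp, hη⟩]
    · have h3 : mxB b J t η ω p = η p := by
        rw [mxB_seg hO b η ω i h1 h2]
        unfold mxR
        rw [if_neg fun h => hη h.2]
      have h4 : ¬ |mxB b J t η ω p| ≤ b := by
        rw [h3]
        exact hη
      unfold mxR
      rw [if_neg fun h => h4 h.2, if_neg fun h => hη h.2, h3]
  · rw [mxR_out hp]
    by_cases hη : (∃ j, t j < p.1 ∧ p.1 ≤ t j + J) ∧ |η p| ≤ b
    · unfold mxB
      rw [dif_pos hη, dif_pos hη]
      have hne : hη.1.choose ≠ i := by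
        intro h
        have h5 := hη.1.choose_spec
        rw [h] at h5
        exact hp h5
      rw [Function.update_of_ne hne]
    · unfold mxB
      rw [dif_neg hη, dif_neg hη]

end Pool.Agent.W_7d29a1_AC.EqB41
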