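import Pool.Agent.W_7d29a1_AC.KapC30
import Pool.Agent.W_7d29a1_NV.OneP72
import Pool.Agent.W_7d29a1_NV.Mon31

/-!
Theorem AC, leaf C1: `OneP` in a window.
-/

set_option autoImplicit false

namespace Pool.Agent.W_7d29a1_AC.C30

open MeasureTheory ProbabilityTheory Filter Topology Pool.Agent.W_MP_7d29a1_pr
  Pool.Agent.W_7d29a1_h46 Pool.Agent.W_7d29a1_h46u Pool.Agent.W_7d29a1_D2.B35
  Pool.Agent.W_7d29a1_Q29 Pool.Agent.W_7d29a1_NV Pool.Agent.W_7d29a1_NV.M66
  Pool.Agent.W_7d29a1_NV.O72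

variable {d : ℕ} {ρ : Measure ℝ} {β b : ℝ}

lemma kapE_eq30 [IsProbabilityMeasure ρ] (hb : HB ρ b) (h : Vec d)
    {n t a b' : ℕ} (hat : a < t) (htb : t ≤ b') (hbn : b' ≤ n) (η : Env d) :
    kapE ρ β b h n t a b' η =
      ∫ ξ, g31 (law d (rb ρ b)) β b h n t a b' η ξ ∂(law d (rb ρ b)) := by
  have := prob_rb31 hb
  unfold kapE
  congr 1
  funext ξ
  rw [sum31 β h _ (show a ≤ b' by omega) hbn
    (fun x y => Real.log (uab ρ β b h t a b' x y η ξ) - psab ρ β b h t a b' x y η)]
  unfold g31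
  refine Finset.sum_congr rfl fun w _ => ?_
  congr 1
  have h0 := integrable_lm31 (law d (rb ρ b)) hb.b0.le β h t a b' w η
  have h1 : psab ρ β b h t a b' (pos w a) (pos w b') η =
      (∫ ξ', lm31 β b h t a b' w η ξ' ∂(law d (rb ρ b))) -
        lm31 β b h t a b' w η fun _ => c0 ρ β b := by
    unfold psab
    have h2 : (fun ξ => Real.log (uab ρ β b h t a b' (pos w a) (pos w b') η ξ)) =
        fun ξ => lm31 β b h t a b' w η ξ - lm31 β b h t a b' w η fun _ => c0 ρ β b := by
      funext ξ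
      exact log_uab31 ρ β b h hat htb hbn w η ξ
    rw [h2, integral_sub h0 (integrable_const _), integral_const, probReal_univ, one_smul]
  rw [h1, log_uab31 ρ β b h hat htb hbn w η ξ]
  ring

lemma kapE_facts30 [IsProbabilityMeasure ρ] (hd : 0 < d) (hb : HB ρ b) (h : Vec d)
    {n t a a' b₁ b₂ : ℕ} (haa : a' ≤ a) (hat : a < t) (htb : t ≤ b₁) (hbb : b₁ ≤ b₂)
    (hbn : b₂ ≤ n) :
    (∀ η, 0 ≤ kapE ρ β b h n t a b₁ η) ∧
    (∀ η, kapE ρ β b h n t a' b₂ η ≤ kapE ρ β b h n t a b₁ η) ∧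
    Integrable (fun η => kapE ρ β b h n t a b₁ η) (law d ρ) ∧
    Integrable (fun η => kapE ρ β b h n t a' b₂ η) (law d ρ) := by
  have := prob_rb31 hb
  have e1 : ∀ η, kapE ρ β b h n t a b₁ η =
      ∫ ξ, g31 (law d (rb ρ b)) β b h n t a b₁ η ξ ∂(law d (rb ρ b)) := fun η =>
    kapE_eq30 hb h hat htb (by omega) η
  have e2 : ∀ η, kapE ρ β b h n t a' b₂ η =
      ∫ ξ, g31 (law d (rb ρ b)) β b h n t a' b₂ η ξ ∂(law d (rb ρ b)) := fun η =>
    kapE_eq30 hb h (by omega) (by omega) hbn η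
  simp only [e1, e2]
  refine ⟨fun η => int_g31_nonneg _ hd hb.b0.le β h n t a b₁ η, fun η => ?_,
    integrable_int_g31 _ hd hb.b0.le β h n t a b₁ _,
    integrable_int_g31 _ hd hb.b0.le β h n t a' b₂ _⟩
  exact integral_mono (integrable_g31 _ hd hb.b0.le β h n t a' b₂ η)
    (integrable_g31 _ hd hb.b0.le β h n t a b₁ η) fun ξ =>
      g31_mono _ hd hb.b0.le β h haa hat htb hbb hbn η ξ

/-- Jensen for the square root on a set. -/
lemma set_sqrt30 {Ω : Type*} [MeasurableSpace Ω] {μ : Measure Ω} [IsProbabilityMeasure μ]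
    {g : Ω → ℝ} (hg : Integrable g μ) (h0 : ∀ x, 0 ≤ g x) {D : Set Ω} (hD : MeasurableSet D) :
    ∫ x in D, Real.sqrt (g x) ∂μ ≤ Real.sqrt (∫ x in D, g x ∂μ) := by
  have h1 := (int_sqrt (hg.indicator hD) (fun x => Set.indicator_nonneg (fun x _ => h0 x) x)).2
  rw [integral_indicator hD] at h1
  rw [← integral_indicator hD]
  refine le_trans (le_of_eq ?_) h1
  congr 1
  funext x
  by_cases hx : x ∈ D
  · rw [Set.indicator_of_mem hx, Set.indicator_of_mem hx]
  · rw [Set.indicator_of_notMem hx, Set.indicator_of_notMem hx, Real.sqrt_zero]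

lemma mxJ_inv30 {k : ℕ} {T : Fin k → ℕ} (c : ℝ) {η η' : Env d}
    (hp : ∀ p, η' p = η p ∨ ((∃ i, T i = p.1) ∧ |η p| ≤ b ∧ |η' p| ≤ b)) :
    mxJ b T η' (fun _ _ => c) = mxJ b T η (fun _ _ => c) := by
  classical
  funext p
  unfold mxJ
  rcases hp p with e | ⟨hi, h1, h2⟩
  · by_cases hc : (∃ i, T i = p.1) ∧ |η p| ≤ b
    · rw [dif_pos (show (∃ i, T i = p.1) ∧ |η' p| ≤ b from ⟨hc.1, e ▸ hc.2⟩), dif_pos hc]
    · rw [dif_neg (show ¬ ((∃ i, T i = p.1) ∧ |η' p| ≤ b) from fun h => hc ⟨h.1, e ▸ h.2⟩),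
        dif_neg hc, e]
  · rw [dif_pos (show (∃ i, T i = p.1) ∧ |η' p| ≤ b from ⟨hi, h2⟩),
      dif_pos (show (∃ i, T i = p.1) ∧ |η p| ≤ b from ⟨hi, h1⟩)]

lemma measurable_mxc30 {k : ℕ} (b : ℝ) (T : Fin k → ℕ) (c : ℝ) :
    Measurable fun η : Env d => mxJ b T η (fun _ _ => c) := by
  have h1 : Measurable fun η : Env d => (η, (fun _ _ => c : Fin k → Env d)) :=
    measurable_id.prodMk measurable_const
  exact (measurable_mxJ72 b T).comp h1

open Classical in
/-- **Leaf C1.** -/
theorem one30 [IsProbabilityMeasure ρ] (hd : 0 < d) (hb : HB ρ b) (h1 : OneT)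
    (hE : EqT d ρ β b) (hM : MarT d) (hW : MixT d ρ b) : OneC d ρ β b := by
  intro h n k T r hO θ ε b₀ δ a M hθ hθ' hε hb₀ hM0 hg0 hgk
  have := prob_rb hb
  set B := Bc β b with hBdef
  have hB1 : 1 ≤ B := by
    rw [hBdef]; unfold Bc
    have := mul_nonneg (mul_nonneg zero_le_two (abs_nonneg β)) hb.b0.le
    linarith
  have hB0 : 0 < B := lt_of_lt_of_le one_pos hB1
  set P := law d (rb ρ b) with hP
  have hH : ∀ η, HT P (Qsp ρ β b h n T r η) (usp ρ β b h n T r η) B := fun η =>
    (hE h n k T r hO η).1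
  set ka : Env d → Fin k → ℝ := fun η i => kaT P (Qsp ρ β b h n T r η) (usp ρ β b h n T r η) i
    with hka
  set ou : Env d → Fin k → ℝ := fun η i => ouT P fsp (Qsp ρ β b h n T r η)
    (usp ρ β b h n T r η) i with hou
  have hle : ∀ η i, ou η i ≤ ka η i := fun η i =>
    (h1 (Env d) (Sp d n k) _ k P (Qsp ρ β b h n T r η) (usp ρ β b h n T r η) B fsp ∅
      (1 / (2 * B)) hB1 (by positivity) le_rfl (hH η)).1 i
  have hou0 : ∀ η i, 0 ≤ ou η i := fun η i => ou_nonneg (hH η) fsp i
  have hka0 : ∀ η i, 0 ≤ ka η i := fun η i => (hou0 η i).trans (hle η i)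
  have hkaB : ∀ η i, ka η i ≤ 2 * B := fun η i => (le_abs_self _).trans (kaT_bd (hH η) i)
  have hmQ : ∀ s, Measurable fun η : Env d => Qsp ρ β b h n T r η s := fun s =>
    measurable_Qsp72 ρ β b h n T r s
  have hmu : ∀ i s, Measurable fun w : Env d × Env d => usp ρ β b h n T r w.1 i s w.2 :=
    fun i s => measurable_usp72 ρ β b h n T r i s
  have hmka : ∀ i, Measurable fun η => ka η i := fun i => am_kaT72 hmQ hmu i
  have hmou : ∀ i, Measurable fun η => ou η i := fun i => am_ouT72 hmQ hmu fsp i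
  have hika : ∀ i, Integrable (fun η => ka η i) (law d ρ) := fun i => by
    refine (integrable_const (2 * B)).mono' (hmka i).aestronglyMeasurable
      (Eventually.of_forall fun η => ?_)
    rw [Real.norm_eq_abs, abs_of_nonneg (hka0 η i)]
    exact hkaB η i
  have hiou : ∀ i, Integrable (fun η => ou η i) (law d ρ) := fun i => by
    refine (integrable_const (2 * B)).mono' (hmou i).aestronglyMeasurable
      (Eventually.of_forall fun η => ?_)
    rw [Real.norm_eq_abs, abs_of_nonneg (hou0 η i)]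
    exact (hle η i).trans (hkaB η i)
  -- the invariant set
  set D : Set (Env d) := {η | |X β h (mxJ b T η fun _ _ => c0 ρ β b) n - a| ≤ M + B * k} with hD
  have hXc : ∀ η, |X β h η n - X β h (mxJ b T η fun _ _ => c0 ρ β b) n| ≤ B * k := by
    intro η
    have h2 := ((hE h n k T r hO η).2 fun _ => η).2
    rw [mxJ_self] at h2
    rw [← h2]
    exact log_dT (hH η) _
  have hDm : MeasurableSet D := by
    have m1 : Measurable fun η : Env d => |X β h (mxJ b T η fun _ _ => c0 ρ β b) n - a| :=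
      (((measurable_X β h n).comp (measurable_mxc30 b T _)).sub_const a).abs
    exact measurableSet_le m1 measurable_const
  have hDi : Inv b T D := by
    intro η η' hp
    simp only [hD, Set.mem_ofPred_eq, mxJ_inv30 _ hp]
  have hBk : 0 ≤ B * k := by positivity
  set W1 : Set (Env d) := win β h n a M with hW1
  set W4 : Set (Env d) := win β h n a (M + 4 * B * k) with hW4
  have hWD : W1 ⊆ D := by
    intro η hη
    have h2 : |X β h η n - a| ≤ M := hη
    have h3 := abs_le.1 (hXc η)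
    have h4 := abs_le.1 h2
    simp only [hD, Set.mem_ofPred_eq, abs_le]
    constructor <;> linarith
  have hDW : D ⊆ W4 := by
    intro η hη
    have h2 : |X β h (mxJ b T η fun _ _ => c0 ρ β b) n - a| ≤ M + B * k := hη
    have h3 := abs_le.1 (hXc η)
    have h4 := abs_le.1 h2
    change |X β h η n - a| ≤ M + 4 * B * k
    rw [abs_le]
    constructor <;> linarith
  have hW4m : MeasurableSet W4 :=
    measurableSet_le ((measurable_X β h n).sub_const a).abs measurable_const
  -- the selections of the polymer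
  have hr : ∀ i : Fin k, r 0 ≤ r i.castSucc ∧ r i.castSucc < T i ∧ T i ≤ r i.succ ∧
      r i.succ ≤ r (Fin.last k) ∧ r (Fin.last k) ≤ n := fun i =>
    ⟨hO.mono77 (Fin.zero_le _), (hO.1 i).1, (hO.1 i).2, hO.mono77 (Fin.le_last _), hO.2⟩
  have hF := fun i : Fin k => kapE_facts30 (ρ := ρ) (β := β) hd hb h (hr i).1 (hr i).2.1
    (hr i).2.2.1 (hr i).2.2.2.1 (hr i).2.2.2.2
  have eka : ∀ i, ∫ η in D, ka η i ∂(law d ρ) =
      ∫ η in D, kapE ρ β b h n (T i) (r i.castSucc) (r i.succ) η ∂(law d ρ) := fun i =>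
    kap130 hd hb hE hW h n k T r hO i hDm hDi
  have eou : ∀ i, ∫ η in D, ou η i ∂(law d ρ) =
      ∫ η in D, kapE ρ β b h n (T i) (r 0) (r (Fin.last k)) η ∂(law d ρ) := fun i =>
    kap230 hd hb hE hW h n k T r hO i hDm hDi
  -- the bad set
  set U1 := toMeasurable (law d ρ) {η | η ∈ W4 ∧ ¬ GoodN β h n (r 0) b₀ ε η} with hU1
  set U2 := toMeasurable (law d ρ) {η | η ∈ W4 ∧ ¬ GoodN β h n (r (Fin.last k)) b₀ ε η} with hU2
  have hU1m : MeasurableSet U1 := measurableSet_toMeasurable _ _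
  have hU2m : MeasurableSet U2 := measurableSet_toMeasurable _ _
  have hU1d : (law d ρ).real U1 ≤ δ := by
    rw [Measure.real, hU1, measure_toMeasurable]
    exact hg0
  have hU2d : (law d ρ).real U2 ≤ δ := by
    rw [Measure.real, hU2, measure_toMeasurable]
    exact hgk
  set R : ℝ := Real.log (1 + Real.exp (2 * ε * b₀)) / θ + 4 * B ^ 2 * θ * k +
    4 * B * k * Real.exp (4 * B * k - b₀ / 4) with hR
  set c : ℝ := 2 * B * k * Real.exp (5 * B * k) with hc
  have hc0 : 0 ≤ c := by rw [hc]; positivity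
  have hR0 : 0 ≤ R := by
    have : 0 ≤ Real.log (1 + Real.exp (2 * ε * b₀)) :=
      Real.log_nonneg (by linarith [Real.exp_pos (2 * ε * b₀)])
    rw [hR]; positivity
  have hpt : ∀ η ∈ D, ∑ i, ka η i ≤ R + (U1.indicator (fun _ => 2 * B * k) η +
      U2.indicator (fun _ => 2 * B * k) η) +
      c * ∑ i, Real.sqrt (2 * (ka η i - ou η i)) := by
    intro η hηD
    have hs0 : 0 ≤ ∑ i, Real.sqrt (2 * (ka η i - ou η i)) :=
      Finset.sum_nonneg fun i _ => Real.sqrt_nonneg _
    have hcs := mul_nonneg hc0 hs0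
    have hi1 : 0 ≤ U1.indicator (fun _ => 2 * B * (k : ℝ)) η :=
      Set.indicator_nonneg (fun _ _ => by positivity) η
    have hi2 : 0 ≤ U2.indicator (fun _ => 2 * B * (k : ℝ)) η :=
      Set.indicator_nonneg (fun _ _ => by positivity) η
    have htriv : ∑ i, ka η i ≤ 2 * B * k := by
      calc ∑ i, ka η i ≤ ∑ _i : Fin k, 2 * B := Finset.sum_le_sum fun i _ => hkaB η i
        _ = 2 * B * k := by
          rw [Finset.sum_const, Finset.card_univ, Fintype.card_fin, nsmul_eq_mul]; ring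
    by_cases hu1 : η ∈ U1
    · rw [Set.indicator_of_mem hu1]
      linarith
    by_cases hu2 : η ∈ U2
    · rw [Set.indicator_of_mem hu2]
      linarith
    have hgd0 : GoodN β h n (r 0) b₀ ε η := by
      by_contra hn
      exact hu1 (subset_toMeasurable _ _ ⟨hDW hηD, hn⟩)
    have hgdk : GoodN β h n (r (Fin.last k)) b₀ ε η := by
      by_contra hn
      exact hu2 (subset_toMeasurable _ _ ⟨hDW hηD, hn⟩)
    have hpr : ∀ s, prT (Qsp ρ β b h n T r η) (usp ρ β b h n T r η) (fun _ => η) s =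
        msp β h n r s η := fun s => by
      rw [((hE h n k T r hO η).2 fun _ => η).1 s, mxJ_self]
    obtain ⟨AA, hAA, hout⟩ := out72 hO hM η b₀ ε (hH η) hpr hgd0 hgdk
    have hmain := (h1 (Env d) (Sp d n k) _ k P (Qsp ρ β b h n T r η) (usp ρ β b h n T r η) B fsp
      AA θ hB1 hθ hθ' (hH η)).2
    have hl : Real.log (1 + AA.card) / θ ≤ Real.log (1 + Real.exp (2 * ε * b₀)) / θ := by
      refine div_le_div_of_nonneg_right (Real.log_le_log (by positivity) (by linarith)) hθ.le
    have hout' : 2 * B * k * Real.exp (2 * B * k) *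
        (∑ s : Sp d n k, if fsp s ∈ AA then 0 else Qsp ρ β b h n T r η s) ≤
        4 * B * k * Real.exp (4 * B * k - b₀ / 4) := by
      refine (mul_le_mul_of_nonneg_left hout (by positivity)).trans (le_of_eq ?_)
      have : Real.exp (4 * B * k - b₀ / 4) =
          Real.exp (2 * B * k) * Real.exp (2 * B * k - b₀ / 4) := by
        rw [← Real.exp_add]; congr 1; ring
      rw [this]; ring
    rw [Set.indicator_of_notMem hu1, Set.indicator_of_notMem hu2]
    have hm' : ∑ i, ka η i ≤ Real.log (1 + AA.card) / θ + 4 * B ^ 2 * θ * k +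
      2 * B * k * Real.exp (2 * B * k) *
        (∑ s : Sp d n k, if fsp s ∈ AA then 0 else Qsp ρ β b h n T r η s) +
      c * ∑ i, Real.sqrt (2 * (ka η i - ou η i)) := by
      convert hmain
    rw [hR]
    linarith
  -- integrate
  have hg2 : ∀ i, Integrable (fun η => 2 * (ka η i - ou η i)) (law d ρ) := fun i =>
    ((hika i).sub (hiou i)).const_mul 2
  have hg20 : ∀ i η, 0 ≤ 2 * (ka η i - ou η i) := fun i η => by
    have := hle η i
    linarith
  have hsqi : ∀ i, Integrable (fun η => Real.sqrt (2 * (ka η i - ou η i))) (law d ρ) := fun i =>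
    (int_sqrt (hg2 i) (hg20 i)).1
  have hsq : ∀ i, ∫ η in D, Real.sqrt (2 * (ka η i - ou η i)) ∂(law d ρ) ≤
      Real.sqrt (2 * ((∫ η in W4, kapE ρ β b h n (T i) (r i.castSucc) (r i.succ) η ∂(law d ρ)) -
        ∫ η in W4, kapE ρ β b h n (T i) (r 0) (r (Fin.last k)) η ∂(law d ρ))) := by
    intro i
    refine (set_sqrt30 (hg2 i) (hg20 i) hDm).trans (Real.sqrt_le_sqrt ?_)
    rw [integral_const_mul, integral_sub (hika i).integrableOn (hiou i).integrableOn, eka, eou,
      ← integral_sub (hF i).2.2.1.integrableOn (hF i).2.2.2.integrableOn,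
      ← integral_sub (hF i).2.2.1.integrableOn (hF i).2.2.2.integrableOn]
    refine mul_le_mul_of_nonneg_left ?_ zero_le_two
    refine setIntegral_mono_set ((hF i).2.2.1.sub (hF i).2.2.2).integrableOn
      (Eventually.of_forall fun η => ?_) (LE.le.eventuallyLE hDW)
    have := (hF i).2.1 η
    simp only [Pi.zero_apply]
    linarith
  have hi1 : Integrable (U1.indicator (fun _ => 2 * B * (k : ℝ))) (law d ρ) :=
    (integrable_const _).indicator hU1m
  have hi2 : Integrable (U2.indicator (fun _ => 2 * B * (k : ℝ))) (law d ρ) :=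
    (integrable_const _).indicator hU2m
  have hi12 : Integrable (fun η => U1.indicator (fun _ => 2 * B * (k : ℝ)) η +
      U2.indicator (fun _ => 2 * B * (k : ℝ)) η) (law d ρ) := hi1.add hi2
  have hiR : Integrable (fun η => R + (U1.indicator (fun _ => 2 * B * (k : ℝ)) η +
      U2.indicator (fun _ => 2 * B * (k : ℝ)) η)) (law d ρ) := (integrable_const R).add hi12
  have hsum : Integrable (fun η => c * ∑ i, Real.sqrt (2 * (ka η i - ou η i))) (law d ρ) :=
    (integrable_finsetSum _ fun i _ => hsqi i).const_mul c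
  have hI1 : ∫ η in D, U1.indicator (fun _ => 2 * B * (k : ℝ)) η ∂(law d ρ) ≤
      2 * B * k * δ := by
    refine (setIntegral_le_integral hi1 (Eventually.of_forall fun η =>
      Set.indicator_nonneg (fun _ _ => by positivity) η)).trans ?_
    rw [integral_indicator hU1m, setIntegral_const, smul_eq_mul, mul_comm]
    exact mul_le_mul_of_nonneg_left hU1d (by positivity)
  have hI2 : ∫ η in D, U2.indicator (fun _ => 2 * B * (k : ℝ)) η ∂(law d ρ) ≤
      2 * B * k * δ := by
    refine (setIntegral_le_integral hi2 (Eventually.of_forall fun η =>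
      Set.indicator_nonneg (fun _ _ => by positivity) η)).trans ?_
    rw [integral_indicator hU2m, setIntegral_const, smul_eq_mul, mul_comm]
    exact mul_le_mul_of_nonneg_left hU2d (by positivity)
  have hIR : ∫ _ in D, R ∂(law d ρ) ≤ R := by
    rw [setIntegral_const, smul_eq_mul]
    exact mul_le_of_le_one_left hR0 measureReal_le_one
  have hint := setIntegral_mono_on (μ := law d ρ) (s := D)
    (integrable_finsetSum _ fun i _ => hika i).integrableOn
    (hiR.add hsum).integrableOn hDm (fun η hη => hpt η hη)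
  have hL : ∫ η in D, ∑ i, ka η i ∂(law d ρ) =
      ∑ i, ∫ η in D, kapE ρ β b h n (T i) (r i.castSucc) (r i.succ) η ∂(law d ρ) := by
    rw [integral_finsetSum _ fun i _ => (hika i).integrableOn]
    exact Finset.sum_congr rfl fun i _ => eka i
  have hRt : ∫ η in D, (R + (U1.indicator (fun _ => 2 * B * (k : ℝ)) η +
      U2.indicator (fun _ => 2 * B * (k : ℝ)) η) +
      c * ∑ i, Real.sqrt (2 * (ka η i - ou η i))) ∂(law d ρ) ≤
      R + (2 * B * k * δ + 2 * B * k * δ) + c * ∑ i, Real.sqrt (2 *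
        ((∫ η in W4, kapE ρ β b h n (T i) (r i.castSucc) (r i.succ) η ∂(law d ρ)) -
        ∫ η in W4, kapE ρ β b h n (T i) (r 0) (r (Fin.last k)) η ∂(law d ρ))) := by
    rw [integral_add hiR.integrableOn hsum.integrableOn,
      integral_add (integrable_const R).integrableOn hi12.integrableOn,
      integral_add hi1.integrableOn hi2.integrableOn,
      integral_const_mul, integral_finsetSum _ fun i _ => (hsqi i).integrableOn]
    have hss := mul_le_mul_of_nonneg_left (Finset.sum_le_sum fun i (_ : i ∈ Finset.univ) => hsq i)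
      hc0
    linarith
  have hfirst : ∑ i, ∫ η in W1, kapE ρ β b h n (T i) (r i.castSucc) (r i.succ) η ∂(law d ρ) ≤
      ∑ i, ∫ η in D, kapE ρ β b h n (T i) (r i.castSucc) (r i.succ) η ∂(law d ρ) :=
    Finset.sum_le_sum fun i _ => setIntegral_mono_set (hF i).2.2.1.integrableOn
      (Eventually.of_forall fun η => (hF i).1 η) (LE.le.eventuallyLE hWD)
  have hfin := hfirst.trans (hL.symm.le.trans (hint.trans hRt))
  refine hfin.trans (le_of_eq ?_)
  rw [hR, hc]
  ring

end Pool.Agent.W_7d29a1_AC.C30
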