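import Pool.Agent.W_7d29a1_AC.DefsAC8

/-!
Leaf G1 of theorem AC: the two level pigeonhole.
-/

set_option autoImplicit false

namespace Pool.Agent.W_7d29a1_AC

open MeasureTheory

/-- One of many disjoint rings has a small mass. -/
theorem ring_pig9 (ν : Measure ℝ) [IsProbabilityMeasure ν] (a : ℝ) (f : ℕ → ℝ) (hf : Monotone f)
    (N : ℕ) (e : ℝ) (hN : 1 ≤ N * e) (hN0 : N ≠ 0) :
    ∃ i, i < N ∧ ν.real {x | f i < |x - a| ∧ |x - a| ≤ f (i + 1)} ≤ e := by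
  classical
  set A : ℕ → Set ℝ := fun i => {x | f i < |x - a| ∧ |x - a| ≤ f (i + 1)} with hA
  have hm : ∀ i, MeasurableSet (A i) := by
    intro i
    have h1 : Measurable fun x : ℝ => |x - a| := by fun_prop
    exact (measurableSet_lt measurable_const h1).inter (measurableSet_le h1 measurable_const)
  have hd : Set.PairwiseDisjoint (↑(Finset.range N)) A := by
    intro i _ j _ hij
    rw [Function.onFun, Set.disjoint_left]
    rintro x ⟨h1, h2⟩ ⟨h3, h4⟩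
    rcases lt_or_gt_of_ne hij with h | h
    · have := hf (show i + 1 ≤ j from h)
      linarith
    · have := hf (show j + 1 ≤ i from h)
      linarith
  have hs : ∑ i ∈ Finset.range N, ν.real (A i) ≤ 1 := by
    rw [← measureReal_biUnion_finset hd (fun i _ => hm i)]
    exact measureReal_le_one
  have hs2 : ∑ i ∈ Finset.range N, ν.real (A i) ≤ ∑ _i ∈ Finset.range N, e := by
    rw [Finset.sum_const, Finset.card_range, nsmul_eq_mul]
    linarith
  obtain ⟨i, hi, hle⟩ := Finset.exists_le_of_sum_le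
    (Finset.nonempty_range_iff.mpr hN0) hs2
  exact ⟨i, Finset.mem_range.mp hi, hle⟩

/-- The inner radii. -/
noncomputable def sub9 (F : ℝ → ℝ) (F' : ℝ → ℝ → ℝ) (S : ℝ) : ℕ → ℝ
  | 0 => max (F S) S
  | j + 1 => max (F' S (sub9 F F' S j)) (sub9 F F' S j)

/-- The number of inner radii. -/
noncomputable def num9 (ψ : ℝ → ℝ) (S : ℝ) : ℕ := ⌈1 / ψ S⌉₊ + 1

/-- The outer radii. -/
noncomputable def out9 (R₀ : ℝ) (ψ F : ℝ → ℝ) (F' : ℝ → ℝ → ℝ) : ℕ → ℝ
  | 0 => R₀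
  | i + 1 => sub9 F F' (out9 R₀ ψ F F' i) (num9 ψ (out9 R₀ ψ F F' i))

theorem sub9_mono (F : ℝ → ℝ) (F' : ℝ → ℝ → ℝ) (S : ℝ) : Monotone (sub9 F F' S) :=
  monotone_nat_of_le_succ fun j => by rw [sub9]; exact le_max_right _ _

theorem sub9_zero_le (F : ℝ → ℝ) (F' : ℝ → ℝ → ℝ) (S : ℝ) (j : ℕ) :
    max (F S) S ≤ sub9 F F' S j := by
  have := sub9_mono F F' S (Nat.zero_le j)
  rwa [sub9] at this

theorem out9_mono (R₀ : ℝ) (ψ F : ℝ → ℝ) (F' : ℝ → ℝ → ℝ) : Monotone (out9 R₀ ψ F F') :=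
  monotone_nat_of_le_succ fun i => by
    rw [out9]
    exact (le_max_right _ _).trans (sub9_zero_le F F' _ _)

theorem num9_mul (ψ : ℝ → ℝ) (S : ℝ) (h : 0 < ψ S) : 1 ≤ (num9 ψ S : ℝ) * ψ S := by
  have h1 : 1 / ψ S ≤ (⌈1 / ψ S⌉₊ : ℝ) := Nat.le_ceil _
  rw [div_le_iff₀ h] at h1
  rw [num9]
  push_cast
  nlinarith

/-- Leaf G1. -/
theorem pig9 : PigC := by
  classical
  intro η₀ e₀ R₀ ψ F F' hη he hR hψ
  set O : ℕ → ℝ := out9 R₀ ψ F F' with hO
  set I : ℕ := ⌈1 / e₀⌉₊ + 1 with hI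
  have hI1 : 1 ≤ (I : ℝ) * e₀ := num9_mul (fun _ => e₀) 0 he
  have hOm : Monotone O := out9_mono R₀ ψ F F'
  have hO0 : O 0 = R₀ := by rw [hO, out9]
  have hOR : ∀ i, R₀ ≤ O i := fun i => by rw [← hO0]; exact hOm (Nat.zero_le i)
  have hOs : ∀ i, O (i + 1) = sub9 F F' (O i) (num9 ψ (O i)) := fun i => by rw [hO, out9]
  refine ⟨(Finset.range I).biUnion fun i => (Finset.range (num9 ψ (O i))).image fun j =>
    (O i, sub9 F F' (O i) j, sub9 F F' (O i) (j + 1)), ?_, ?_⟩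
  · intro k hk
    rw [Finset.mem_biUnion] at hk
    obtain ⟨i, _, hk⟩ := hk
    rw [Finset.mem_image] at hk
    obtain ⟨j, _, rfl⟩ := hk
    have h1 := sub9_zero_le F F' (O i) j
    refine ⟨hOR i, (le_max_left _ _).trans h1, (le_max_right _ _).trans h1, ?_, ?_⟩
    · show F' (O i) (sub9 F F' (O i) j) ≤ sub9 F F' (O i) (j + 1)
      rw [sub9]; exact le_max_left _ _
    · exact sub9_mono F F' (O i) (Nat.le_succ j)
  · intro ν _ hν
    obtain ⟨a, ha⟩ := hν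
    obtain ⟨i, hi, hie⟩ := ring_pig9 ν a O hOm I e₀ hI1 (Nat.succ_ne_zero _)
    obtain ⟨j, hj, hje⟩ := ring_pig9 ν a (sub9 F F' (O i)) (sub9_mono F F' (O i))
      (num9 ψ (O i)) (ψ (O i)) (num9_mul ψ _ (hψ _)) (Nat.succ_ne_zero _)
    refine ⟨(O i, sub9 F F' (O i) j, sub9 F F' (O i) (j + 1)), ?_, a, ?_, ?_, hje⟩
    · rw [Finset.mem_biUnion]
      exact ⟨i, Finset.mem_range.mpr hi, Finset.mem_image.mpr ⟨j, Finset.mem_range.mpr hj, rfl⟩⟩
    · have h1 : ν.real {x | |x - a| ≤ R₀} ≤ ν.real {x | |x - a| ≤ O i} :=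
        measureReal_mono (fun x (hx : |x - a| ≤ R₀) => hx.trans (hOR i))
      show η₀ / 2 ≤ ν.real {x | |x - a| ≤ O i}
      linarith
    · refine le_trans (measureReal_mono ?_) hie
      rintro x ⟨h1, h2⟩
      refine ⟨h1, h2.trans ?_⟩
      rw [hOs i]
      exact sub9_mono F F' (O i) hj

end Pool.Agent.W_7d29a1_AC
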