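import Pool.Agent.W_7d29a1_AC.DefsAC8
import Pool.Agent.W_7d29a1_NV.Mon31
import Pool.Agent.W_7d29a1_NV.Marg77
import Pool.Agent.W_7d29a1_NV.Mix96
import Pool.Agent.W_7d29a1_NV.Pin85
import Pool.Agent.W_7d29a1_NV.MeasNV72
import Pool.Agent.W_7d29a1_NV.Kap20
import Pool.Agent.W_7d29a1_NV.Eq41c

/-!
Theorem AC: the dependence of the law of the separators on one row.
-/

set_option autoImplicit false

namespace Pool.Agent.W_7d29a1_AC

open MeasureTheory ProbabilityTheory Filter Topology Pool.Agent.W_MP_7d29a1_pr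
  Pool.Agent.W_7d29a1_h46 Pool.Agent.W_7d29a1_h46u Pool.Agent.W_7d29a1_D2.B35
  Pool.Agent.W_7d29a1_Q29 Pool.Agent.W_7d29a1_NV Pool.Agent.W_7d29a1_NV.Kl38

variable {d : ℕ} {ρ : Measure ℝ} {β b : ℝ}

/-! ### The separators as classes of walks -/

/-- The total variation of the laws of the separators in two environments. -/
noncomputable def tvS77 (β : ℝ) (h : Vec d) (n : ℕ) {q : ℕ} (r : Fin (q + 1) → ℕ)
    (ζ ζ' : Env d) : ℝ := ∑ s : Sp d n q, |msp β h n r s ζ - msp β h n r s ζ'|

section Sep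

variable (β) (h : Vec d) {n q : ℕ} (r : Fin (q + 1) → ℕ)
  (hr : ∀ i : Fin q, r i.castSucc ≤ r i.succ) (hn : r (Fin.last q) ≤ n)

include hr hn

open Classical in
lemma msp_w77 (η : Env d) (s : Sp d n q) :
    msp β h n r s η = ∑ w : Fin n → Step d, if spw r w = s then pw β h n η w else 0 := by
  have h1 := sum_msp77 β h η r hr hn fun s' => if s' = s then (1 : ℝ) else 0
  simp only [mul_ite, mul_one, mul_zero] at h1
  rw [Finset.sum_ite_eq', if_pos (Finset.mem_univ _)] at h1
  rw [h1, Finset.sum_div]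
  refine Finset.sum_congr rfl fun w _ => ?_
  unfold pw
  split_ifs <;> simp

lemma mass_spw77 [DecidableEq (Sp d n q)] (η : Env d) (w : Fin n → Step d) :
    mass (spw r) (pw β h n η) w = msp β h n r (spw r w) η := by
  classical
  rw [msp_w77 β h r hr hn]
  unfold mass
  rw [Finset.sum_filter]
  exact Finset.sum_congr rfl fun v _ => by congr

lemma msp_zero77 (hd : 0 < d) (η : Env d) (s : Sp d n q) :
    msp β h n r s η = 0 ↔ ∀ w : Fin n → Step d, spw r w ≠ s := by
  classical
  rw [msp_w77 β h r hr hn, Finset.sum_eq_zero_iff_of_nonneg]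
  · constructor
    · intro h1 w hw
      have h2 := h1 w (Finset.mem_univ _)
      rw [if_pos hw] at h2
      exact (pw_pos hd β h n η w).ne' h2
    · intro h1 w _
      rw [if_neg (h1 w)]
  · intro w _
    split_ifs
    · exact (pw_pos hd β h n η w).le
    · exact le_rfl

lemma msp_nn77 (hd : 0 < d) (η : Env d) (s : Sp d n q) : 0 ≤ msp β h n r s η := by
  classical
  rw [msp_w77 β h r hr hn]
  refine Finset.sum_nonneg fun w _ => ?_
  split_ifs
  · exact (pw_pos hd β h n η w).le
  · exact le_rfl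

lemma msp_one77 (hd : 0 < d) (η : Env d) : ∑ s : Sp d n q, msp β h n r s η = 1 := by
  have h1 := sum_msp77 β h η r hr hn fun _ => 1
  simp only [mul_one] at h1
  rw [h1, ← Z_eq, div_self (Z_pos hd β h η n).ne']

lemma tvS_le77 (hd : 0 < d) (ζ ζ' : Env d) : tvS77 β h n r ζ ζ' ≤ 2 := by
  unfold tvS77
  calc ∑ s : Sp d n q, |msp β h n r s ζ - msp β h n r s ζ'|
      ≤ ∑ s : Sp d n q, (msp β h n r s ζ + msp β h n r s ζ') := by
        refine Finset.sum_le_sum fun s _ => ?_
        have h1 := msp_nn77 β h r hr hn hd ζ s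
        have h2 := msp_nn77 β h r hr hn hd ζ' s
        rw [abs_le]
        constructor <;> linarith
    _ = 2 := by
        rw [Finset.sum_add_distrib, msp_one77 β h r hr hn hd, msp_one77 β h r hr hn hd]
        norm_num

/-- Pinsker's inequality for the separators. -/
lemma tvc77 [DecidableEq (Sp d n q)] (hd : 0 < d) (ζ ζ' : Env d) {c : ℝ} (hc : 0 < c) :
    tvS77 β h n r ζ ζ' ≤ kl (spw r) (pw β h n ζ) (pw β h n ζ') / c + c / 2 := by
  have h1 := P85.pinsker (Finset.univ : Finset (Sp d n q)) (fun s => msp β h n r s ζ)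
    (fun s => msp β h n r s ζ') (fun s _ => msp_nn77 β h r hr hn hd ζ s)
    (fun s _ => msp_nn77 β h r hr hn hd ζ' s)
    (fun s _ => by rw [msp_zero77 β h r hr hn hd, msp_zero77 β h r hr hn hd])
    (msp_one77 β h r hr hn hd ζ) (msp_one77 β h r hr hn hd ζ')
  have h2 : ∑ s : Sp d n q, msp β h n r s ζ *
      (Real.log (msp β h n r s ζ) - Real.log (msp β h n r s ζ')) =
      kl (spw r) (pw β h n ζ) (pw β h n ζ') := by
    rw [sum_msp77 β h ζ r hr hn fun s =>
      Real.log (msp β h n r s ζ) - Real.log (msp β h n r s ζ'), Finset.sum_div]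
    unfold kl
    refine Finset.sum_congr rfl fun w _ => ?_
    rw [Real.log_div (mass_pos _ (fun v => pw_pos hd β h n ζ v) w).ne'
      (mass_pos _ (fun v => pw_pos hd β h n ζ' v) w).ne', mass_spw77 β h r hr hn,
      mass_spw77 β h r hr hn]
    unfold pw
    ring
  rw [h2] at h1
  change (tvS77 β h n r ζ ζ') ^ 2 ≤ _ at h1
  obtain ⟨T, hT⟩ : ∃ T, T = tvS77 β h n r ζ ζ' := ⟨_, rfl⟩
  obtain ⟨K, hK⟩ : ∃ K, K = kl (spw r) (pw β h n ζ) (pw β h n ζ') := ⟨_, rfl⟩
  rw [← hT, ← hK] at h1
  rw [← hT, ← hK]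
  have h3 : K / c + c / 2 - T = ((2 * K - T ^ 2) + (T - c) ^ 2) / (2 * c) := by
    field_simp
    ring
  have h4 : 0 ≤ ((2 * K - T ^ 2) + (T - c) ^ 2) / (2 * c) :=
    div_nonneg (add_nonneg (by linarith) (sq_nonneg _)) (by linarith)
  linarith

end Sep

lemma spw_blind77 {n q : ℕ} {r : Fin (q + 1) → ℕ} (hr : Monotone r) (i : Fin q) :
    Blind (spw r : (Fin n → Step d) → Sp d n q) (r i.castSucc) (r i.succ) := by
  intro v w h1 h2
  funext j
  apply Subtype.ext
  rcases le_or_gt j i.castSucc with hj | hj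
  · exact pos_mix_le _ _ (hr hj)
  · exact pos_mix_ge h1 h2 (hr (Fin.castSucc_lt_succ).le) (hr (Fin.castSucc_lt_iff_succ_le.1 hj))

/-! ### The relative entropy of one row -/

/-- The integrand of the selection, as a sum over the walks. -/
lemma kapE_eq77 [IsProbabilityMeasure ρ] (hb : HB ρ b) (β : ℝ) (h : Vec d) {n t a b' : ℕ}
    (hat : a < t) (htb : t ≤ b') (hbn : b' ≤ n) (η : Env d) : kapE ρ β b h n t a b' η =
      ∫ ξ, g31 (law d (rb ρ b)) β b h n t a b' η ξ ∂(law d (rb ρ b)) := by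
  have := prob_rb31 hb
  unfold kapE
  congr 1
  funext ξ
  rw [sum31 β h _ (show a ≤ b' by omega) hbn
    (fun x y => Real.log (uab ρ β b h t a b' x y η ξ) - psab ρ β b h t a b' x y η)]
  unfold g31
  refine Finset.sum_congr rfl fun w _ => ?_
  congr 1
  have h0 := integrable_lm31 (law d (rb ρ b)) hb.b0.le β h t a b' w η
  have h1 : psab ρ β b h t a b' (pos w a) (pos w b') η =
      (∫ ξ', lm31 β b h t a b' w η ξ' ∂(law d (rb ρ b))) -
        lm31 β b h t a b' w η fun _ => c0 ρ β b := by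
    unfold psab
    have h2 : (fun ξ => Real.log (uab ρ β b h t a b' (pos w a) (pos w b') η ξ)) =
        fun ξ => lm31 β b h t a b' w η ξ - lm31 β b h t a b' w η fun _ => c0 ρ β b := by
      funext ξ
      exact log_uab31 ρ β b h hat htb hbn w η ξ
    rw [h2, integral_sub h0 (integrable_const _), integral_const, probReal_univ, one_smul]
  rw [h1, log_uab31 ρ β b h hat htb hbn w η ξ]
  ring

lemma kapE_nonneg77 [IsProbabilityMeasure ρ] (hd : 0 < d) (hb : HB ρ b) (β : ℝ) (h : Vec d)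
    {n t a b' : ℕ} (hat : a < t) (htb : t ≤ b') (hbn : b' ≤ n) (η : Env d) :
    0 ≤ kapE ρ β b h n t a b' η := by
  have := prob_rb31 hb
  rw [kapE_eq77 hb β h hat htb hbn]
  exact int_g31_nonneg _ hd hb.b0.le β h n t a b' η

lemma kapE_int77 [IsProbabilityMeasure ρ] (hd : 0 < d) (hb : HB ρ b) (β : ℝ) (h : Vec d)
    {n t a b' : ℕ} (hat : a < t) (htb : t ≤ b') (hbn : b' ≤ n) :
    Integrable (fun η => kapE ρ β b h n t a b' η) (law d ρ) := by
  have := prob_rb31 hb
  have e : (fun η => kapE ρ β b h n t a b' η) = fun η => ∫ ξ, g31 (law d (rb ρ b)) β b h n t a b'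
      η ξ ∂(law d (rb ρ b)) := by
    funext η
    exact kapE_eq77 hb β h hat htb hbn η
  rw [e]
  exact integrable_int_g31 _ hd hb.b0.le β h n t a b' _

/-- The mean of the total variation over two values of one row. -/
lemma two77 [IsProbabilityMeasure ρ] (hd : 0 < d) (hb : HB ρ b) (β : ℝ) (h : Vec d) {n q : ℕ}
    {r : Fin (q + 1) → ℕ} (hr : Monotone r) (hn : r (Fin.last q) ≤ n) (i : Fin q) {l : ℕ}
    (hl : r i.castSucc < l) (hl' : l ≤ r i.succ) (η : Env d) {c : ℝ} (hc : 0 < c) :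
    ∫ ξ, ∫ ξ', tvS77 β h n r (mx b l η ξ) (mx b l η ξ') ∂(law d (rb ρ b)) ∂(law d (rb ρ b)) ≤
      kapE ρ β b h n l (r i.castSucc) (r i.succ) η / c + c / 2 := by
  classical
  have hP := prob_rb31 hb
  have hr' : ∀ i : Fin q, r i.castSucc ≤ r i.succ := fun i => hr Fin.castSucc_lt_succ.le
  have hin : r i.succ ≤ n := (hr (Fin.le_last _)).trans hn
  obtain ⟨P, hPd⟩ : ∃ P, P = law d (rb ρ b) := ⟨_, rfl⟩
  have hPP : IsProbabilityMeasure P := by rw [hPd]; infer_instance
  have hX := integrable_X31 P hd hb.b0.le β h n l η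
  have hg := integrable_g31 P hd hb.b0.le β h n l (r i.castSucc) (r i.succ) η
  have h1 : ∀ ξ ξ' : Env d, tvS77 β h n r (mx b l η ξ) (mx b l η ξ') ≤
      (∑ w : Fin n → Step d, pw β h n (mx b l η ξ) w *
        (lm31 β b h l (r i.castSucc) (r i.succ) w η ξ -
          lm31 β b h l (r i.castSucc) (r i.succ) w η ξ') -
        (X β h (mx b l η ξ) n - X β h (mx b l η ξ') n)) / c + c / 2 := by
    intro ξ ξ'
    have e1 := tvc77 β h r hr' hn hd (mx b l η ξ) (mx b l η ξ') hc
    have e2 := kl_out34 hd (n := n) (hr' i) hin β h (η := mx b l η ξ) (ζ := mx b l η ξ')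
      (fun p hp => mx_eq31 η ξ ξ' (fun h2 => hp (by omega))) (spw_blind77 hr i)
    have e3 := F31_eq hd β b h n l (r i.castSucc) (r i.succ) η ξ ξ'
    rw [e3, add_sub_cancel_right]
    have e4 := div_le_div_of_nonneg_right e2 hc.le
    have e5 := add_le_add_left e4 (c / 2)
    exact le_trans e1 e5
  have h2 : ∀ ξ : Env d, ∫ ξ', tvS77 β h n r (mx b l η ξ) (mx b l η ξ') ∂P ≤
      (g31 P β b h n l (r i.castSucc) (r i.succ) η ξ -
        (X β h (mx b l η ξ) n - ∫ ξ', X β h (mx b l η ξ') n ∂P)) / c + c / 2 := by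
    intro ξ
    have i1 := integrable_F31 P hb.b0.le β h n l (r i.castSucc) (r i.succ) η ξ
    have i2 : Integrable (fun ξ' => X β h (mx b l η ξ) n - X β h (mx b l η ξ') n) P :=
      (integrable_const _).sub hX
    have i3 : Integrable (fun ξ' => (∑ w : Fin n → Step d, pw β h n (mx b l η ξ) w *
        (lm31 β b h l (r i.castSucc) (r i.succ) w η ξ -
          lm31 β b h l (r i.castSucc) (r i.succ) w η ξ') -
        (X β h (mx b l η ξ) n - X β h (mx b l η ξ') n)) / c) P := (i1.sub i2).div_const c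
    have e1 : ∫ ξ', ((∑ w : Fin n → Step d, pw β h n (mx b l η ξ) w *
        (lm31 β b h l (r i.castSucc) (r i.succ) w η ξ -
          lm31 β b h l (r i.castSucc) (r i.succ) w η ξ') -
        (X β h (mx b l η ξ) n - X β h (mx b l η ξ') n)) / c + c / 2) ∂P =
        (g31 P β b h n l (r i.castSucc) (r i.succ) η ξ -
        (X β h (mx b l η ξ) n - ∫ ξ', X β h (mx b l η ξ') n ∂P)) / c + c / 2 := by
      rw [integral_add i3 (integrable_const _), integral_div, integral_sub i1 i2,
        integral_sub (integrable_const _) hX, integral_const, integral_const, probReal_univ,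
        one_smul, one_smul, g31_eq P hb.b0.le]
    rw [← e1]
    exact integral_mono_of_nonneg (Eventually.of_forall fun ξ' =>
      Finset.sum_nonneg fun s _ => abs_nonneg _) (i3.add (integrable_const _))
      (Eventually.of_forall fun ξ' => h1 ξ ξ')
  have i4 : Integrable (fun ξ => X β h (mx b l η ξ) n - ∫ ξ', X β h (mx b l η ξ') n ∂P) P :=
    hX.sub (integrable_const _)
  have i5 : Integrable (fun ξ => (g31 P β b h n l (r i.castSucc) (r i.succ) η ξ -
        (X β h (mx b l η ξ) n - ∫ ξ', X β h (mx b l η ξ') n ∂P)) / c) P := (hg.sub i4).div_const c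
  have h3 : ∫ ξ, ((g31 P β b h n l (r i.castSucc) (r i.succ) η ξ -
        (X β h (mx b l η ξ) n - ∫ ξ', X β h (mx b l η ξ') n ∂P)) / c + c / 2) ∂P =
      kapE ρ β b h n l (r i.castSucc) (r i.succ) η / c + c / 2 := by
    rw [integral_add i5 (integrable_const _), integral_div, integral_sub hg i4,
      integral_sub hX (integrable_const _), integral_const, integral_const, probReal_univ,
      one_smul, one_smul, sub_self, sub_zero, kapE_eq77 hb β h hl hl' hin, hPd]
  rw [← hPd, ← h3]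
  exact integral_mono_of_nonneg (Eventually.of_forall fun ξ => integral_nonneg fun ξ' =>
      Finset.sum_nonneg fun s _ => abs_nonneg _) (i5.add (integrable_const _))
      (Eventually.of_forall fun ξ => h2 ξ)

/-! ### One row in a window -/

lemma measurable_tvS77 (β : ℝ) (h : Vec d) (n : ℕ) {q : ℕ} (r : Fin (q + 1) → ℕ) :
    Measurable fun z : Env d × Env d => tvS77 β h n r z.1 z.2 := by
  unfold tvS77
  exact Finset.measurable_sum _ fun s _ =>
    (((measurable_msp72 β h n r s).comp measurable_fst).sub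
      ((measurable_msp72 β h n r s).comp measurable_snd)).abs

lemma tvS_nonneg77 (β : ℝ) (h : Vec d) (n : ℕ) {q : ℕ} (r : Fin (q + 1) → ℕ) (ζ ζ' : Env d) :
    0 ≤ tvS77 β h n r ζ ζ' := Finset.sum_nonneg fun _ _ => abs_nonneg _

lemma tvS_tri77 (β : ℝ) (h : Vec d) (n : ℕ) {q : ℕ} (r : Fin (q + 1) → ℕ) (ζ ζ' ζ'' : Env d) :
    tvS77 β h n r ζ ζ'' ≤ tvS77 β h n r ζ ζ' + tvS77 β h n r ζ' ζ'' := by
  unfold tvS77
  rw [← Finset.sum_add_distrib]
  exact Finset.sum_le_sum fun s _ => abs_sub_le _ _ _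

lemma measurableSet_win77 (β : ℝ) (h : Vec d) (n : ℕ) (a M : ℝ) :
    MeasurableSet (win β h n a M) :=
  measurableSet_le ((measurable_X β h n).sub measurable_const).abs measurable_const

/-- Fubini for a measure preserving map. -/
lemma mp_int77 {P Q ν : Measure (Env d)} [IsProbabilityMeasure P] [IsProbabilityMeasure Q]
    {φ : Env d × Env d → Env d} (hφ : MeasurePreserving φ (P.prod Q) ν)
    {G : Env d → ℝ} (hG : Measurable G) {K : ℝ} (hK : ∀ η, |G η| ≤ K) :
    ∫ η, G η ∂ν = ∫ η, ∫ ξ, G (φ (η, ξ)) ∂Q ∂P := by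
  rw [← LawU_integral hφ hG.aestronglyMeasurable]
  exact integral_prod (fun w => G (φ w)) (Integrable.of_bound
    (hG.comp hφ.measurable).aestronglyMeasurable K (Eventually.of_forall fun w => by
      rw [Real.norm_eq_abs]
      exact hK _))

lemma mx_self77 (b : ℝ) (l : ℕ) (η : Env d) : mx b l η η = η := by
  classical
  funext p
  unfold mx
  by_cases h1 : p.1 = l ∧ |η p| ≤ b
  · rw [if_pos h1]
    have h2 := abs_le.1 h1.2
    unfold cl
    rw [min_eq_right h2.2, max_eq_right h2.1]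
  · rw [if_neg h1]

lemma X_one77 (hd : 0 < d) (hb : 0 ≤ b) (β : ℝ) (h : Vec d) (n l : ℕ) (η ξ : Env d) :
    |X β h (mx b l η ξ) n - X β h η n| ≤ 2 * |β| * b := by
  have h1 := X_mx31 hd hb β h n l η ξ η
  rwa [mx_self77] at h1

/-- The mean change when one row is resampled. -/
noncomputable def psiR77 (ρ : Measure ℝ) (β b : ℝ) (h : Vec d) (n : ℕ) {q : ℕ}
    (r : Fin (q + 1) → ℕ) (l : ℕ) (η : Env d) : ℝ :=
  ∫ ξ, tvS77 β h n r η (mx b l η ξ) ∂(law d (rb ρ b))

lemma psiR_nonneg77 (ρ : Measure ℝ) (β b : ℝ) (h : Vec d) (n : ℕ) {q : ℕ}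
    (r : Fin (q + 1) → ℕ) (l : ℕ) (η : Env d) : 0 ≤ psiR77 ρ β b h n r l η :=
  integral_nonneg fun ξ => tvS_nonneg77 β h n r _ _

lemma measurable_psiR77 [IsProbabilityMeasure ρ] (hb : HB ρ b) (β : ℝ) (h : Vec d) (n : ℕ) {q : ℕ}
    (r : Fin (q + 1) → ℕ) (l : ℕ) : Measurable fun η : Env d => psiR77 ρ β b h n r l η := by
  have := prob_rb31 hb
  have h0 : Measurable fun z : Env d × Env d => (z.1, mx b l z.1 z.2) :=
    measurable_fst.prodMk (measurable_mx31 b l)
  have h1' := (measurable_tvS77 β h n r).comp h0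
  have h1 : Measurable fun z : Env d × Env d => tvS77 β h n r z.1 (mx b l z.1 z.2) := h1'
  have h2 : StronglyMeasurable fun η : Env d => ∫ ξ, tvS77 β h n r η (mx b l η ξ)
      ∂(law d (rb ρ b)) :=
    StronglyMeasurable.integral_prod_right (f := fun η ξ => tvS77 β h n r η (mx b l η ξ))
      h1.stronglyMeasurable
  exact h2.measurable

lemma psiR_le77 [IsProbabilityMeasure ρ] (hd : 0 < d) (hb : HB ρ b) (β : ℝ) (h : Vec d) {n q : ℕ}
    {r : Fin (q + 1) → ℕ} (hr : ∀ i : Fin q, r i.castSucc ≤ r i.succ) (hn : r (Fin.last q) ≤ n)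
    (l : ℕ) (η : Env d) : |psiR77 ρ β b h n r l η| ≤ 2 := by
  have := prob_rb31 hb
  rw [abs_of_nonneg (psiR_nonneg77 ρ β b h n r l η)]
  have h1 : psiR77 ρ β b h n r l η ≤ ∫ _ξ : Env d, (2 : ℝ) ∂(law d (rb ρ b)) :=
    integral_mono_of_nonneg (Eventually.of_forall fun _ => tvS_nonneg77 β h n r _ _)
      (integrable_const _) (Eventually.of_forall fun _ => tvS_le77 β h r hr hn hd _ _)
  simpa using h1

/-- **One row.** -/
theorem row77 [IsProbabilityMeasure ρ] (hd : 0 < d) (hb : HB ρ b) (β : ℝ) (h : Vec d) {n q : ℕ}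
    {r : Fin (q + 1) → ℕ} (hr : Monotone r) (hn : r (Fin.last q) ≤ n) (i : Fin q) {l : ℕ}
    (hl : r i.castSucc < l) (hl' : l ≤ r i.succ) (a M : ℝ) {s c : ℝ} (hc : 0 < c)
    (hs : ∫ η in win β h n a (M + 4 * |β| * b), kapE ρ β b h n l (r i.castSucc) (r i.succ) η
      ∂(law d ρ) ≤ s) :
    ∫ η in win β h n a M, psiR77 ρ β b h n r l η ∂(law d ρ) ≤ s / c + c / 2 := by
  classical
  have hP := prob_rb31 hb
  have hr' : ∀ i : Fin q, r i.castSucc ≤ r i.succ := fun i => hr Fin.castSucc_lt_succ.le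
  have hin : r i.succ ≤ n := (hr (Fin.le_last _)).trans hn
  have hmp : MeasurePreserving (fun w : Env d × Env d => mx b l w.1 w.2)
      ((law d ρ).prod (law d (rb ρ b))) (law d ρ) := mix1_96 hb l
  obtain ⟨C, hCd⟩ : ∃ C : Set (Env d), C = {η | |X β h (mx b l η fun _ => c0 ρ β b) n - a| ≤
      M + 2 * |β| * b} := ⟨_, rfl⟩
  have hXm : Measurable fun η : Env d => X β h (mx b l η fun _ => c0 ρ β b) n :=
    (measurable_X β h n).comp ((measurable_mx31 b l).comp (measurable_id.prodMk measurable_const))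
  have hC : MeasurableSet C := by
    rw [hCd]
    exact measurableSet_le (hXm.sub measurable_const).abs measurable_const
  have hsub1 : win β h n a M ⊆ C := by
    intro η hη
    rw [hCd]
    change |X β h (mx b l η fun _ => c0 ρ β b) n - a| ≤ M + 2 * |β| * b
    have e1 : |X β h η n - a| ≤ M := hη
    have e2 := X_one77 hd hb.b0.le β h n l η fun _ => c0 ρ β b
    have e3 := abs_sub_le (X β h (mx b l η fun _ => c0 ρ β b) n) (X β h η n) a
    linarith
  have hsub2 : C ⊆ win β h n a (M + 4 * |β| * b) := by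
    intro η hη
    rw [hCd] at hη
    have e1 : |X β h (mx b l η fun _ => c0 ρ β b) n - a| ≤ M + 2 * |β| * b := hη
    change |X β h η n - a| ≤ M + 4 * |β| * b
    have e2 := X_one77 hd hb.b0.le β h n l η fun _ => c0 ρ β b
    rw [abs_sub_comm] at e2
    have e3 := abs_sub_le (X β h η n) (X β h (mx b l η fun _ => c0 ρ β b) n) a
    linarith
  have hCinv : ∀ η ξ : Env d, mx b l η ξ ∈ C ↔ η ∈ C := by
    intro η ξ
    rw [hCd]
    change |X β h (mx b l (mx b l η ξ) fun _ => c0 ρ β b) n - a| ≤ _ ↔ _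
    rw [K20.mx_mx20 hb.b0.le]
    rfl
  have hψm := measurable_psiR77 hb β h n r l
  have hψi : Integrable (fun η => psiR77 ρ β b h n r l η) (law d ρ) :=
    Integrable.of_bound hψm.aestronglyMeasurable 2 (Eventually.of_forall fun η => by
      rw [Real.norm_eq_abs]
      exact psiR_le77 hd hb β h hr' hn l η)
  have hki := kapE_int77 hd hb β h hl hl' hin
  -- the set `C`
  have h1 : ∫ η in win β h n a M, psiR77 ρ β b h n r l η ∂(law d ρ) ≤
      ∫ η in C, psiR77 ρ β b h n r l η ∂(law d ρ) :=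
    setIntegral_mono_set hψi.integrableOn
      (Eventually.of_forall fun η => psiR_nonneg77 ρ β b h n r l η) hsub1.eventuallyLE
  -- resampling
  have h2 : ∫ η in C, psiR77 ρ β b h n r l η ∂(law d ρ) =
      ∫ η, ∫ ξ, C.indicator (fun η => psiR77 ρ β b h n r l η) (mx b l η ξ) ∂(law d (rb ρ b))
        ∂(law d ρ) := by
    rw [← integral_indicator hC]
    refine mp_int77 hmp (hψm.indicator hC) (K := 2) fun η => ?_
    by_cases hη : η ∈ C
    · rw [Set.indicator_of_mem hη]
      exact psiR_le77 hd hb β h hr' hn l η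
    · rw [Set.indicator_of_notMem hη]
      norm_num
  have h3 : ∀ η : Env d, ∫ ξ, C.indicator (fun η => psiR77 ρ β b h n r l η) (mx b l η ξ)
      ∂(law d (rb ρ b)) ≤ C.indicator (fun η =>
        kapE ρ β b h n l (r i.castSucc) (r i.succ) η / c + c / 2) η := by
    intro η
    by_cases hη : η ∈ C
    · rw [Set.indicator_of_mem hη]
      have e1 : ∀ ξ : Env d, C.indicator (fun η => psiR77 ρ β b h n r l η) (mx b l η ξ) =
          ∫ ξ', tvS77 β h n r (mx b l η ξ) (mx b l η ξ') ∂(law d (rb ρ b)) := by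
        intro ξ
        rw [Set.indicator_of_mem ((hCinv η ξ).2 hη)]
        unfold psiR77
        simp only [K20.mx_mx20 hb.b0.le]
      simp only [e1]
      exact two77 hd hb β h hr hn i hl hl' η hc
    · rw [Set.indicator_of_notMem hη]
      have e1 : ∀ ξ : Env d, C.indicator (fun η => psiR77 ρ β b h n r l η) (mx b l η ξ) = 0 :=
        fun ξ => Set.indicator_of_notMem (fun h4 => hη ((hCinv η ξ).1 h4)) _
      simp only [e1]
      simp
  have i1 : Integrable (fun η => kapE ρ β b h n l (r i.castSucc) (r i.succ) η / c + c / 2)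
      (law d ρ) := (hki.div_const c).add (integrable_const _)
  have h4 : ∫ η, ∫ ξ, C.indicator (fun η => psiR77 ρ β b h n r l η) (mx b l η ξ)
      ∂(law d (rb ρ b)) ∂(law d ρ) ≤ ∫ η, C.indicator (fun η =>
        kapE ρ β b h n l (r i.castSucc) (r i.succ) η / c + c / 2) η ∂(law d ρ) :=
    integral_mono_of_nonneg (Eventually.of_forall fun η => integral_nonneg fun ξ =>
      Set.indicator_nonneg (fun η _ => psiR_nonneg77 ρ β b h n r l η) _) (i1.indicator hC)
      (Eventually.of_forall h3)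
  have h5 : ∫ η, C.indicator (fun η =>
        kapE ρ β b h n l (r i.castSucc) (r i.succ) η / c + c / 2) η ∂(law d ρ) ≤
      s / c + c / 2 := by
    rw [integral_indicator hC, integral_add (hki.div_const c).integrableOn
      (integrable_const _), integral_div, setIntegral_const, smul_eq_mul]
    have e1 : ∫ η in C, kapE ρ β b h n l (r i.castSucc) (r i.succ) η ∂(law d ρ) ≤ s :=
      (setIntegral_mono_set hki.integrableOn
        (Eventually.of_forall fun η => kapE_nonneg77 hd hb β h hl hl' hin η)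
        hsub2.eventuallyLE).trans hs
    have e2 : (law d ρ).real C ≤ 1 := measureReal_le_one
    have e3 := div_le_div_of_nonneg_right e1 hc.le
    have e4 : (law d ρ).real C * (c / 2) ≤ 1 * (c / 2) :=
      mul_le_mul_of_nonneg_right e2 (by linarith)
    linarith
  rw [h2] at h1
  exact h1.trans (h4.trans h5)

end Pool.Agent.W_7d29a1_AC
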