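import Pool.Agent.W_7d29a1_AC.Main8
import Pool.Agent.W_7d29a1_Q29.Tr29

/-!
Theorem AC: the transfer to the letters of the problem.
-/

set_option autoImplicit false

namespace Pool.Agent.W_7d29a1_AC

open MeasureTheory ProbabilityTheory Filter Topology Pool.Agent.W_MP_7d29a1_pr
  Pool.Agent.W_7d29a1_h46 Pool.Agent.W_7d29a1_h46u Pool.Agent.W_7d29a1_D2.B35
  Pool.Agent.W_7d29a1_Q29 Pool.Agent.W_7d29a1_NV

variable {Ω : Type*} [MeasurableSpace Ω] {μ : Measure Ω} [IsProbabilityMeasure μ] {d : ℕ}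
  {ρ : Measure ℝ} [IsProbabilityMeasure ρ] {ω : ℕ × Site d → Ω → ℝ} {β : ℝ}

/-- The law of the free energy spreads out completely, in the letters of the problem. -/
theorem trAC8 (hd : 0 < d) (hω : IID μ ρ ω) (hM : MainAC d ρ β) (h : Vec d) (hh : VSD ρ β h)
    (R κ : ℝ) (hκ : 0 < κ) : ∀ᶠ n : ℕ in atTop, ∀ a : ℝ,
      μ.real {x | |Real.log (Zn β h (fun p => ω p x) n) - a| ≤ R} ≤ κ := by
  filter_upwards [hM h hh R κ hκ] with n hn a
  refine le_trans (le_of_eq ?_) (hn (a + Real.log ((2 * d : ℝ) ^ n)))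
  have hmp := mp_env hω
  have hX := measurable_X (d := d) β h n
  have hS : MeasurableSet {η : Env d | |X β h η n - (a + Real.log ((2 * d : ℝ) ^ n))| ≤ R} :=
    measurableSet_le (hX.sub_const _).abs measurable_const
  have h1 : {x | |Real.log (Zn β h (fun p => ω p x) n) - a| ≤ R} =
      (fun x => fun p => ω p x) ⁻¹'
        {η : Env d | |X β h η n - (a + Real.log ((2 * d : ℝ) ^ n))| ≤ R} := by
    ext x
    simp only [Set.mem_ofPred_eq, Set.mem_preimage]
    rw [StrA_log hd β h _ n]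
    rw [sub_sub, add_comm (Real.log _) a]
  rw [h1]
  exact hmp.measureReal_preimage hS.nullMeasurableSet

/-- The law of the free energy spreads out completely, closed form. -/
theorem clauseAC8 (hd : 0 < d) (hω : IID μ ρ ω) (hρ : EM ρ) (hnc : ∀ c : ℝ, ρ {c} ≠ 1)
    (hβ : 0 < β) (h : Vec d) (hh : VSD ρ β h) (R κ : ℝ) (hκ : 0 < κ) :
    ∀ᶠ n : ℕ in atTop, ∀ a : ℝ,
      μ.real {x | |Real.log (Zn β h (fun p => ω p x) n) - a| ≤ R} ≤ κ :=
  trAC8 hd hω (mainAC8 hd hρ hnc hβ) h hh R κ hκ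

/-- A law which spreads out completely along all lengths is not tight along any sequence. -/
theorem notTight8 {P : Measure Ω} [IsProbabilityMeasure P] {Y : ℕ → Ω → ℝ}
    (hY : ∀ n, Measurable (Y n))
    (hA : ∀ R κ : ℝ, 0 < κ → ∀ᶠ n : ℕ in atTop, ∀ a : ℝ, P.real {x | |Y n x - a| ≤ R} ≤ κ)
    (φ : ℕ → ℕ) (a : ℕ → ℝ) (hφ : StrictMono φ) (M κ : ℝ) (hκ : 0 < κ) :
    ∀ᶠ j : ℕ in atTop, 1 - κ ≤ P.real {x | M < |Y (φ j) x - a j|} := by
  filter_upwards [hφ.tendsto_atTop.eventually (hA M κ hκ)] with j hj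
  have h1 := hj (a j)
  have h2 : {x | M < |Y (φ j) x - a j|} = {x | |Y (φ j) x - a j| ≤ M}ᶜ := by
    ext x
    simp
  rw [h2, measureReal_compl (measurableSet_le ((hY _).sub_const _).abs measurable_const)]
  simp only [probReal_univ]
  linarith

end Pool.Agent.W_7d29a1_AC
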