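import Pool.Agent.W_7d29a1_AC.TvB92b

/-!
Theorem AC: the dependence of the separators on one block (leaf D).
-/

set_option autoImplicit false

namespace Pool.Agent.W_7d29a1_AC.TV92

open MeasureTheory ProbabilityTheory Filter Topology Pool.Agent.W_MP_7d29a1_pr
  Pool.Agent.W_7d29a1_h46 Pool.Agent.W_7d29a1_h46u Pool.Agent.W_7d29a1_D2.B35
  Pool.Agent.W_7d29a1_Q29 Pool.Agent.W_7d29a1_NV Pool.Agent.W_7d29a1_NV.K20
  Pool.Agent.W_7d29a1_NV.Kl38 Pool.Agent.W_7d29a1_NV.Eq41

variable {d n q : ℕ}

lemma win_meas (β : ℝ) (h : Vec d) (n : ℕ) (a M : ℝ) : MeasurableSet (win β h n a M) := by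
  unfold win
  exact measurableSet_le ((measurable_X β h n).sub measurable_const).abs measurable_const

/-- The indicator of the window. -/
noncomputable def iw (β : ℝ) (h : Vec d) (n : ℕ) (a M : ℝ) : Env d → ℝ :=
  (win β h n a M).indicator fun _ => 1

lemma iw_meas (β : ℝ) (h : Vec d) (n : ℕ) (a M : ℝ) : Measurable (iw β h n a M) :=
  measurable_const.indicator (win_meas β h n a M)

lemma iw_nonneg (β : ℝ) (h : Vec d) (n : ℕ) (a M : ℝ) (η : Env d) : 0 ≤ iw β h n a M η := by
  unfold iw
  exact Set.indicator_nonneg (fun _ _ => zero_le_one) _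

lemma iw_le (β : ℝ) (h : Vec d) (n : ℕ) (a M : ℝ) (η : Env d) : iw β h n a M η ≤ 1 := by
  unfold iw
  exact Set.indicator_le_self' (fun _ _ => zero_le_one) _

lemma iw_shift (β : ℝ) (h : Vec d) (n : ℕ) {a M M' δ : ℝ} {η ζ : Env d}
    (hX : |X β h η n - X β h ζ n| ≤ δ) (hM : M + δ ≤ M') : iw β h n a M η ≤ iw β h n a M' ζ := by
  unfold iw
  by_cases h1 : η ∈ win β h n a M
  · have h2 : ζ ∈ win β h n a M' := by
      unfold win at h1 ⊢
      have h1' : |X β h η n - a| ≤ M := h1
      have h3 : |X β h ζ n - a| ≤ M' := by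
        rw [abs_le] at h1' hX ⊢
        constructor <;> linarith [h1'.1, h1'.2, hX.1, hX.2]
      exact h3
    rw [Set.indicator_of_mem h1, Set.indicator_of_mem h2]
  · rw [Set.indicator_of_notMem h1]
    exact Set.indicator_nonneg (fun _ _ => zero_le_one) _

lemma int_iw (Q : Measure (Env d)) (β : ℝ) (h : Vec d) (n : ℕ) (a M : ℝ) (f : Env d → ℝ) :
    ∫ η, iw β h n a M η * f η ∂Q = ∫ η in win β h n a M, f η ∂Q := by
  rw [← integral_indicator (win_meas β h n a M)]
  refine integral_congr_ae (Eventually.of_forall fun η => ?_)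
  simp only [iw]
  by_cases h1 : η ∈ win β h n a M
  · rw [Set.indicator_of_mem h1, Set.indicator_of_mem h1, one_mul]
  · rw [Set.indicator_of_notMem h1, Set.indicator_of_notMem h1, zero_mul]

/-- Bounded measurable functions are integrable. -/
lemma bint {α : Type*} [MeasurableSpace α] (μ : Measure α) [IsFiniteMeasure μ] {f : α → ℝ}
    (hf : Measurable f) {C : ℝ} (h : ∀ x, |f x| ≤ C) : Integrable f μ :=
  Integrable.of_bound hf.aestronglyMeasurable C (Eventually.of_forall fun x => by
    rw [Real.norm_eq_abs]; exact h x)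

lemma mx_self92 {b : ℝ} (t : ℕ) (η : Env d) : mx b t η η = η := by
  classical
  funext p
  unfold mx
  split_ifs with h1
  · unfold cl
    have h2 := abs_le.1 h1.2
    rw [min_eq_right h2.2, max_eq_right h2.1]
  · rfl

/-- One row. -/
lemma row92 (hd : 0 < d) (ρ : Measure ℝ) [IsProbabilityMeasure ρ] {β b : ℝ} (hb : HB ρ b)
    (h : Vec d) {r : Fin (q + 1) → ℕ} (hr : Monotone r) (hn : r (Fin.last q) ≤ n) (i : Fin q)
    {l : ℕ} (hl1 : r i.castSucc < l) (hl2 : l ≤ r i.succ) {a M c : ℝ} (hc : 0 < c) :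
    ∫ w : Env d × Env d, iw β h n a M w.1 * tv β h n r w.1 (mx b l w.1 w.2)
        ∂((law d ρ).prod (law d (rb ρ b))) ≤
      (∫ η in win β h n a (M + Bc β b), kapE ρ β b h n l (r i.castSucc) (r i.succ) η
        ∂(law d ρ)) / c + c / 2 := by
  have := prob_rb31 hb
  have hb0 := hb.b0.le
  have hBc : 2 * |β| * b ≤ Bc β b := by unfold Bc; linarith
  set P := law d (rb ρ b) with hP
  set Q := law d ρ with hQ
  have hmp : MeasurePreserving (fun w : Env d × Env d => mx b l w.1 w.2) (Q.prod P) Q :=
    mix1_96 hb l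
  have hΦ : MeasurePreserving (Prod.map (fun w : Env d × Env d => mx b l w.1 w.2)
      (id : Env d → Env d)) ((Q.prod P).prod P) (Q.prod P) :=
    hmp.prod (MeasurePreserving.id P)
  have hbn : r i.succ ≤ n := (hr (Fin.le_last _)).trans hn
  have hF0 : Measurable fun w : Env d × Env d => iw β h n a M w.1 := by
    have f1 : Measurable (Prod.fst : Env d × Env d → Env d) := measurable_fst
    have e := (iw_meas β h n a M).comp f1
    exact e
  have hF1 : Measurable fun w : Env d × Env d => tv β h n r w.1 (mx b l w.1 w.2) := by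
    have f1 : Measurable (Prod.fst : Env d × Env d → Env d) := measurable_fst
    have e := tv_meas (α := Env d × Env d) β h n r f1 (measurable_mx31 b l)
    exact e
  have hF : Measurable fun w : Env d × Env d =>
      iw β h n a M w.1 * tv β h n r w.1 (mx b l w.1 w.2) := hF0.mul hF1
  rw [← hΦ.map_eq, integral_map hΦ.measurable.aemeasurable hF.aestronglyMeasurable]
  -- the pointwise bound
  have hK0 : ∀ η ξ ξ' : Env d, 0 ≤ K3 β b h n l (r i.castSucc) (r i.succ) η ξ ξ' := by
    intro η ξ ξ'
    rw [K3_eq hd]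
    exact kl_nonneg (pr (r i.castSucc) (r i.succ)) (fun w => pw_pos hd β h n (mx b l η ξ) w)
      (fun w => pw_pos hd β h n (mx b l η ξ') w) (pw_sum hd β h n _) (pw_sum hd β h n _)
  have hpt : ∀ w : (Env d × Env d) × Env d,
      iw β h n a M (mx b l w.1.1 w.1.2) * tv β h n r (mx b l w.1.1 w.1.2)
        (mx b l (mx b l w.1.1 w.1.2) w.2) ≤
      iw β h n a (M + Bc β b) w.1.1 *
        (K3 β b h n l (r i.castSucc) (r i.succ) w.1.1 w.1.2 w.2 / c + c / 2) := by
    rintro ⟨⟨η, ξ⟩, ξ'⟩
    simp only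
    rw [mx_mx20 hb0]
    have h1 : iw β h n a M (mx b l η ξ) ≤ iw β h n a (M + Bc β b) η := by
      refine iw_shift β h n (δ := 2 * |β| * b) ?_ (by linarith)
      have h2 := X_mx31 hd hb0 β h n l η ξ η
      rwa [mx_self92] at h2
    have h3 := tv_kl hd β h hr hn i (η := mx b l η ξ) (ζ := mx b l η ξ')
      (fun p hp => mx_eq31 η ξ ξ' (fun h2 => hp (by omega))) hc
    rw [← K3_eq hd] at h3
    have h4 := tv_nonneg β h n r (mx b l η ξ) (mx b l η ξ')
    exact mul_le_mul h1 h3 h4 (iw_nonneg _ _ _ _ _ _)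
  have hI1 : Measurable fun w : (Env d × Env d) × Env d =>
      iw β h n a (M + Bc β b) w.1.1 := by
    have f1 : Measurable fun w : (Env d × Env d) × Env d => w.1.1 :=
      measurable_fst.comp measurable_fst
    have e := (iw_meas β h n a (M + Bc β b)).comp f1
    exact e
  have hK2 := K3_meas3 (d := d) β b h n l (r i.castSucc) (r i.succ)
  have hGm : Measurable fun w : (Env d × Env d) × Env d => iw β h n a (M + Bc β b) w.1.1 *
      (K3 β b h n l (r i.castSucc) (r i.succ) w.1.1 w.1.2 w.2 / c + c / 2) :=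
    hI1.mul ((hK2.div_const c).add_const _)
  have hGb : ∀ w : (Env d × Env d) × Env d, |iw β h n a (M + Bc β b) w.1.1 *
      (K3 β b h n l (r i.castSucc) (r i.succ) w.1.1 w.1.2 w.2 / c + c / 2)| ≤
      4 * |β| * b / c + c / 2 := by
    intro w
    have h1 := iw_nonneg β h n a (M + Bc β b) w.1.1
    have h2 := iw_le β h n a (M + Bc β b) w.1.1
    have h3 := hK0 w.1.1 w.1.2 w.2
    have h4 := (le_abs_self _).trans
      (K3_abs hd hb0 β h n l (r i.castSucc) (r i.succ) w.1.1 w.1.2 w.2)
    have h5 : 0 ≤ K3 β b h n l (r i.castSucc) (r i.succ) w.1.1 w.1.2 w.2 / c + c / 2 := by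
      positivity
    have h6 : K3 β b h n l (r i.castSucc) (r i.succ) w.1.1 w.1.2 w.2 / c ≤ 4 * |β| * b / c :=
      div_le_div_of_nonneg_right h4 hc.le
    rw [abs_of_nonneg (mul_nonneg h1 h5)]
    calc _ ≤ 1 * (K3 β b h n l (r i.castSucc) (r i.succ) w.1.1 w.1.2 w.2 / c + c / 2) :=
          mul_le_mul_of_nonneg_right h2 h5
      _ ≤ _ := by rw [one_mul]; linarith
  have hGi := bint ((Q.prod P).prod P) hGm hGb
  have hFi : Integrable (fun w : (Env d × Env d) × Env d =>
      iw β h n a M (mx b l w.1.1 w.1.2) * tv β h n r (mx b l w.1.1 w.1.2)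
        (mx b l (mx b l w.1.1 w.1.2) w.2)) ((Q.prod P).prod P) := by
    have hFm := hF.comp hΦ.measurable
    refine bint _ (f := fun w : (Env d × Env d) × Env d =>
      iw β h n a M (mx b l w.1.1 w.1.2) * tv β h n r (mx b l w.1.1 w.1.2)
        (mx b l (mx b l w.1.1 w.1.2) w.2)) hFm (C := 2) fun w => ?_
    have h1 := iw_nonneg β h n a M (mx b l w.1.1 w.1.2)
    have h2 := iw_le β h n a M (mx b l w.1.1 w.1.2)
    have h3 := tv_nonneg β h n r (mx b l w.1.1 w.1.2) (mx b l (mx b l w.1.1 w.1.2) w.2)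
    have h4 := tv_le hd β h hr hn (mx b l w.1.1 w.1.2) (mx b l (mx b l w.1.1 w.1.2) w.2)
    rw [abs_of_nonneg (mul_nonneg h1 h3)]
    nlinarith
  refine (integral_mono hFi hGi hpt).trans ?_
  -- the integral of the bound
  rw [integral_prod _ hGi]
  have hG1 := hGi.integral_prod_left
  rw [integral_prod _ hG1]
  simp only
  have e1 : ∀ η : Env d, ∫ ξ, ∫ ξ', iw β h n a (M + Bc β b) η *
      (K3 β b h n l (r i.castSucc) (r i.succ) η ξ ξ' / c + c / 2) ∂P ∂P =
      iw β h n a (M + Bc β b) η *
        (kapE ρ β b h n l (r i.castSucc) (r i.succ) η / c + c / 2) := by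
    intro η
    have f1 : Measurable (Prod.fst : Env d × Env d → Env d) := measurable_fst
    have f2 : Measurable (Prod.snd : Env d × Env d → Env d) := measurable_snd
    have hKm := K3_meas (α := Env d × Env d) β b h n l (r i.castSucc) (r i.succ)
      (f := fun _ => η) measurable_const f1 f2
    have hKi : Integrable (fun w : Env d × Env d =>
        K3 β b h n l (r i.castSucc) (r i.succ) η w.1 w.2) (P.prod P) :=
      bint _ hKm fun w => K3_abs hd hb0 β h n l _ _ η w.1 w.2
    have hK1 := hKi.integral_prod_left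
    have e2 : ∀ ξ : Env d, ∫ ξ', iw β h n a (M + Bc β b) η *
        (K3 β b h n l (r i.castSucc) (r i.succ) η ξ ξ' / c + c / 2) ∂P =
        iw β h n a (M + Bc β b) η *
          ((∫ ξ', K3 β b h n l (r i.castSucc) (r i.succ) η ξ ξ' ∂P) / c + c / 2) := by
      intro ξ
      have hKx0 := K3_meas (α := Env d) β b h n l (r i.castSucc) (r i.succ)
        (f := fun _ => η) (g := fun _ => ξ) measurable_const measurable_const measurable_id
      have hKx : Integrable (fun ξ' => K3 β b h n l (r i.castSucc) (r i.succ) η ξ ξ') P :=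
        bint P hKx0 fun ξ' => K3_abs hd hb0 β h n l _ _ η ξ ξ'
      rw [integral_const_mul, integral_add (hKx.div_const c) (integrable_const _),
        integral_div, integral_const, probReal_univ, one_smul]
    rw [integral_congr_ae (Eventually.of_forall e2), integral_const_mul,
      integral_add (hK1.div_const c) (integrable_const _), integral_div, integral_const,
      probReal_univ, one_smul]
    have e3 := int_K3 (β := β) hd ρ hb h hl1 hl2 hbn η
    rw [← hP] at e3
    rw [← e3]
  rw [integral_congr_ae (Eventually.of_forall e1)]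
  have hki : Integrable (fun η : Env d => kapE ρ β b h n l (r i.castSucc) (r i.succ) η) Q := by
    have e4 : (fun η : Env d => kapE ρ β b h n l (r i.castSucc) (r i.succ) η) = fun η =>
        ∫ ξ, g31 (law d (rb ρ b)) β b h n l (r i.castSucc) (r i.succ) η ξ
          ∂(law d (rb ρ b)) := by
      funext η
      exact kapE_eq92 ρ hb h hl1 hl2 hbn η
    rw [e4]
    exact integrable_int_g31 (law d (rb ρ b)) hd hb0 β h n l _ _ (law d ρ)
  rw [int_iw]
  rw [integral_add (hki.integrableOn.div_const c) (integrable_const _), integral_div,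
    integral_const, smul_eq_mul, measureReal_restrict_apply_univ]
  have h7 : Q.real (win β h n a (M + Bc β b)) ≤ 1 := measureReal_le_one
  have h8 : Q.real (win β h n a (M + Bc β b)) * (c / 2) ≤ 1 * (c / 2) :=
    mul_le_mul_of_nonneg_right h7 (by positivity)
  linarith

end Pool.Agent.W_7d29a1_AC.TV92
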