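import Pool.Agent.W_7d29a1_AC.RowsC92
import Pool.Agent.W_7d29a1_NV.Chn20
import Pool.Agent.W_7d29a1_NV.Pin85
import Pool.Agent.W_7d29a1_NV.Eq41c
import Pool.Agent.W_7d29a1_NV.MeasNV72
import Pool.Agent.W_7d29a1_NV.Kap20
import Pool.Agent.W_7d29a1_NV.Mix96

/-!
Theorem AC: the dependence of the separators on one row (first part of leaf D).
-/

set_option autoImplicit false

namespace Pool.Agent.W_7d29a1_AC.TV92

open MeasureTheory ProbabilityTheory Filter Topology Pool.Agent.W_MP_7d29a1_pr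
  Pool.Agent.W_7d29a1_h46 Pool.Agent.W_7d29a1_h46u Pool.Agent.W_7d29a1_D2.B35
  Pool.Agent.W_7d29a1_Q29 Pool.Agent.W_7d29a1_NV Pool.Agent.W_7d29a1_NV.K20
  Pool.Agent.W_7d29a1_NV.Kl38 Pool.Agent.W_7d29a1_NV.Eq41

variable {d n q : ℕ}

/-- The separators of a walk. -/
def spw (r : Fin (q + 1) → ℕ) (w : Fin n → Step d) : Sp d n q :=
  fun i => ⟨pos w (r i), pos_mem_box w (r i)⟩

open Classical in
lemma msp_eq92 (β : ℝ) (h : Vec d) (η : Env d) {r : Fin (q + 1) → ℕ} (s : Sp d n q)
    (hr : Monotone r) (hn : r (Fin.last q) ≤ n) :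
    msp β h n r s η = ∑ w : Fin n → Step d, if spw r w = s then pw β h n η w else 0 := by
  rw [msp_eq20 β h η s hr hn]
  refine Finset.sum_congr rfl fun w _ => ?_
  unfold pw spw
  split_ifs <;> simp

lemma mass_eq92 (β : ℝ) (h : Vec d) (η : Env d) {r : Fin (q + 1) → ℕ}
    (hr : Monotone r) (hn : r (Fin.last q) ≤ n) (w : Fin n → Step d) :
    mass (spw r) (pw β h n η) w = msp β h n r (spw r w) η := by
  classical
  rw [msp_eq92 β h η _ hr hn]
  unfold mass
  rw [Finset.sum_filter]

lemma blind92 {r : Fin (q + 1) → ℕ} (hr : Monotone r) (i : Fin q) :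
    Blind (spw (d := d) (n := n) r) (r i.castSucc) (r i.succ) := by
  intro v w h1 h2
  funext j
  refine Subtype.ext ?_
  simp only [spw]
  rcases le_or_gt j i.castSucc with hj | hj
  · exact pos_mix_le _ _ (hr hj)
  · have hj2 : i.succ ≤ j := by
      rw [Fin.lt_def] at hj
      rw [Fin.le_def]
      simp only [Fin.val_succ, Fin.val_castSucc] at *
      omega
    exact pos_mix_ge h1 h2 (hr (Fin.castSucc_lt_succ).le) (hr hj2)

/-- The total variation of the laws of the separators. -/
noncomputable def tv (β : ℝ) (h : Vec d) (n : ℕ) (r : Fin (q + 1) → ℕ) (η ζ : Env d) : ℝ :=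
  ∑ s : Sp d n q, |msp β h n r s η - msp β h n r s ζ|

lemma tv_nonneg (β : ℝ) (h : Vec d) (n : ℕ) (r : Fin (q + 1) → ℕ) (η ζ : Env d) :
    0 ≤ tv β h n r η ζ := Finset.sum_nonneg fun _ _ => abs_nonneg _

lemma tv_tri (β : ℝ) (h : Vec d) (n : ℕ) (r : Fin (q + 1) → ℕ) (η ζ ξ : Env d) :
    tv β h n r η ξ ≤ tv β h n r η ζ + tv β h n r ζ ξ := by
  unfold tv
  rw [← Finset.sum_add_distrib]
  exact Finset.sum_le_sum fun s _ => abs_sub_le _ _ _

lemma tv_self (β : ℝ) (h : Vec d) (n : ℕ) (r : Fin (q + 1) → ℕ) (η : Env d) :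
    tv β h n r η η = 0 := by
  unfold tv
  simp

lemma tv_le (hd : 0 < d) (β : ℝ) (h : Vec d) {r : Fin (q + 1) → ℕ}
    (hr : Monotone r) (hn : r (Fin.last q) ≤ n) (η ζ : Env d) : tv β h n r η ζ ≤ 2 := by
  have h1 := msp_sum hd β h (n := n) η r (fun i => hr (Fin.castSucc_lt_succ).le) hn
  have h2 := msp_sum hd β h (n := n) ζ r (fun i => hr (Fin.castSucc_lt_succ).le) hn
  unfold tv
  calc ∑ s : Sp d n q, |msp β h n r s η - msp β h n r s ζ|
      ≤ ∑ s : Sp d n q, (msp β h n r s η + msp β h n r s ζ) := by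
        refine Finset.sum_le_sum fun s _ => ?_
        have h3 := msp_nonneg hd β h n r s η
        have h4 := msp_nonneg hd β h n r s ζ
        rw [abs_le]
        constructor <;> linarith
    _ = 2 := by rw [Finset.sum_add_distrib, h1, h2]; norm_num

lemma tv_meas {α : Type*} [MeasurableSpace α] (β : ℝ) (h : Vec d) (n : ℕ) (r : Fin (q + 1) → ℕ)
    {f g : α → Env d} (hf : Measurable f) (hg : Measurable g) :
    Measurable fun x => tv β h n r (f x) (g x) := by
  unfold tv
  refine Finset.measurable_sum _ fun s _ => ?_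
  exact (((measurable_msp72 β h n r s).comp hf).sub ((measurable_msp72 β h n r s).comp hg)).abs

/-- Pinsker for the separators, in linear form. -/
lemma tv_kl (hd : 0 < d) (β : ℝ) (h : Vec d) {r : Fin (q + 1) → ℕ}
    (hr : Monotone r) (hn : r (Fin.last q) ≤ n) (i : Fin q) {η ζ : Env d}
    (he : ∀ p : ℕ × Site d, ¬ (r i.castSucc < p.1 ∧ p.1 ≤ r i.succ) → η p = ζ p) {c : ℝ}
    (hc : 0 < c) :
    tv β h n r η ζ ≤
      kl (pr (r i.castSucc) (r i.succ)) (pw β h n η) (pw β h n ζ) / c + c / 2 := by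
  classical
  have hr' : ∀ i : Fin q, r i.castSucc ≤ r i.succ := fun i => hr (Fin.castSucc_lt_succ).le
  have h1 := P85.pinsker (Finset.univ : Finset (Sp d n q)) (fun s => msp β h n r s η)
    (fun s => msp β h n r s ζ) (fun s _ => msp_nonneg hd β h n r s η)
    (fun s _ => msp_nonneg hd β h n r s ζ)
    (fun s _ => by
      have key : ∀ η ζ : Env d, msp β h n r s η = 0 → msp β h n r s ζ = 0 := by
        intro η ζ h0
        rw [msp_eq92 β h _ s hr hn] at h0 ⊢
        refine Finset.sum_eq_zero fun w _ => ?_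
        rw [if_neg]
        intro hw
        have h3 := (Finset.sum_eq_zero_iff_of_nonneg (fun w _ => by
          split_ifs
          · exact (pw_pos hd β h n η w).le
          · exact le_rfl)).1 h0 w (Finset.mem_univ _)
        rw [if_pos hw] at h3
        exact (pw_pos hd β h n η w).ne' h3
      exact ⟨key η ζ, key ζ η⟩)
    (msp_sum hd β h η r hr' hn) (msp_sum hd β h ζ r hr' hn)
  have h2 : ∑ s : Sp d n q, msp β h n r s η *
      (Real.log (msp β h n r s η) - Real.log (msp β h n r s ζ)) =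
      kl (spw r) (pw β h n η) (pw β h n ζ) := by
    rw [sum_msp20 β h η hr hn fun s => Real.log (msp β h n r s η) - Real.log (msp β h n r s ζ)]
    unfold kl
    refine Finset.sum_congr rfl fun w _ => ?_
    have e1 := mass_eq92 β h η hr hn w
    have e2 := mass_eq92 β h ζ hr hn w
    have p1 := mass_pos (spw r) (fun v => pw_pos hd β h n η v) w
    have p2 := mass_pos (spw r) (fun v => pw_pos hd β h n ζ v) w
    rw [e1] at p1
    rw [e2] at p2
    rw [e1, e2, Real.log_div p1.ne' p2.ne']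
    rfl
  have h3 := kl_out34 hd (hr' i) ((hr (Fin.le_last _)).trans hn) β h he (blind92 hr i)
  have h4 : tv β h n r η ζ ^ 2 ≤
      2 * kl (pr (r i.castSucc) (r i.succ)) (pw β h n η) (pw β h n ζ) := by
    refine h1.trans ?_
    rw [h2]
    linarith
  have h5 := tv_nonneg β h n r η ζ
  set K := kl (pr (r i.castSucc) (r i.succ)) (pw β h n η) (pw β h n ζ) with hK
  set t := tv β h n r η ζ with ht
  have h6 : c * t ≤ K + c ^ 2 / 2 := by nlinarith [sq_nonneg (t - c)]
  have h7 : K / c + c / 2 = (K + c ^ 2 / 2) / c := by field_simp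
  rw [h7, le_div_iff₀ hc]
  linarith

/-- The relative entropy of the two sites, as a difference. -/
noncomputable def K3 (β b : ℝ) (h : Vec d) (n t a b' : ℕ) (η ξ ξ' : Env d) : ℝ :=
  (∑ w : Fin n → Step d, pw β h n (mx b t η ξ) w *
      (lm31 β b h t a b' w η ξ - lm31 β b h t a b' w η ξ')) -
    (X β h (mx b t η ξ) n - X β h (mx b t η ξ') n)

lemma K3_eq (hd : 0 < d) (β b : ℝ) (h : Vec d) (n t a b' : ℕ) (η ξ ξ' : Env d) :
    K3 β b h n t a b' η ξ ξ' =
      kl (pr a b') (pw β h n (mx b t η ξ)) (pw β h n (mx b t η ξ')) := by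
  unfold K3
  rw [F31_eq hd]
  ring

lemma K3_abs (hd : 0 < d) {b : ℝ} (hb : 0 ≤ b) (β : ℝ) (h : Vec d) (n t a b' : ℕ)
    (η ξ ξ' : Env d) : |K3 β b h n t a b' η ξ ξ'| ≤ 4 * |β| * b := by
  unfold K3
  have h1 : |∑ w : Fin n → Step d, pw β h n (mx b t η ξ) w *
      (lm31 β b h t a b' w η ξ - lm31 β b h t a b' w η ξ')| ≤ 2 * |β| * b := by
    refine (Finset.abs_sum_le_sum_abs _ _).trans ?_
    calc ∑ w : Fin n → Step d, |pw β h n (mx b t η ξ) w *
          (lm31 β b h t a b' w η ξ - lm31 β b h t a b' w η ξ')|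
        ≤ ∑ w : Fin n → Step d, pw β h n (mx b t η ξ) w * (2 * |β| * b) := by
          refine Finset.sum_le_sum fun w _ => ?_
          rw [abs_mul, abs_of_pos (pw_pos hd β h n _ w)]
          exact mul_le_mul_of_nonneg_left (lm_sub31 hb β h t a b' w η ξ ξ')
            (pw_pos hd β h n _ w).le
      _ = 2 * |β| * b := by rw [← Finset.sum_mul, pw_sum hd, one_mul]
  have h2 := X_mx31 hd hb β h n t η ξ ξ'
  rw [abs_le] at h1 h2 ⊢
  constructor <;> linarith [h1.1, h1.2, h2.1, h2.2]

lemma K3_meas3 (β b : ℝ) (h : Vec d) (n t a b' : ℕ) :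
    Measurable fun x : (Env d × Env d) × Env d => K3 β b h n t a b' x.1.1 x.1.2 x.2 := by
  have m0 : Measurable fun x : (Env d × Env d) × Env d => (x.1.1, x.2) :=
    (measurable_fst.comp measurable_fst).prodMk measurable_snd
  have m1 : Measurable fun x : (Env d × Env d) × Env d => mx b t x.1.1 x.1.2 :=
    (measurable_mx31 b t).comp measurable_fst
  have m2 : Measurable fun x : (Env d × Env d) × Env d => mx b t x.1.1 x.2 :=
    (measurable_mx31 b t).comp m0
  have m3 : ∀ w : Fin n → Step d, Measurable fun x : (Env d × Env d) × Env d =>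
      lm31 β b h t a b' w x.1.1 x.1.2 := fun w =>
    (measurable_lm31 β b h t a b' w).comp measurable_fst
  have m4 : ∀ w : Fin n → Step d, Measurable fun x : (Env d × Env d) × Env d =>
      lm31 β b h t a b' w x.1.1 x.2 := fun w => by
    have e := (measurable_lm31 β b h t a b' w).comp m0
    exact e
  have m5 : ∀ w : Fin n → Step d, Measurable fun x : (Env d × Env d) × Env d =>
      pw β h n (mx b t x.1.1 x.1.2) w := fun w => (measurable_pw31 β h w).comp m1
  have m6 : Measurable fun x : (Env d × Env d) × Env d => X β h (mx b t x.1.1 x.1.2) n :=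
    (measurable_X β h n).comp m1
  have m7 : Measurable fun x : (Env d × Env d) × Env d => X β h (mx b t x.1.1 x.2) n :=
    (measurable_X β h n).comp m2
  have m8 : Measurable fun x : (Env d × Env d) × Env d => ∑ w : Fin n → Step d,
      pw β h n (mx b t x.1.1 x.1.2) w *
        (lm31 β b h t a b' w x.1.1 x.1.2 - lm31 β b h t a b' w x.1.1 x.2) := by
    refine Finset.measurable_sum _ fun w _ => ?_
    exact (m5 w).mul ((m3 w).sub (m4 w))
  have m9 : Measurable fun x : (Env d × Env d) × Env d =>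
      X β h (mx b t x.1.1 x.1.2) n - X β h (mx b t x.1.1 x.2) n := m6.sub m7
  have e : (fun x : (Env d × Env d) × Env d => K3 β b h n t a b' x.1.1 x.1.2 x.2) = fun x =>
      (∑ w : Fin n → Step d, pw β h n (mx b t x.1.1 x.1.2) w *
        (lm31 β b h t a b' w x.1.1 x.1.2 - lm31 β b h t a b' w x.1.1 x.2)) -
        (X β h (mx b t x.1.1 x.1.2) n - X β h (mx b t x.1.1 x.2) n) := by
    funext x
    unfold K3
    ring
  rw [e]
  exact m8.sub m9

lemma K3_meas {α : Type*} [MeasurableSpace α] (β b : ℝ) (h : Vec d) (n t a b' : ℕ)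
    {f g k : α → Env d} (hf : Measurable f) (hg : Measurable g) (hk : Measurable k) :
    Measurable fun x => K3 β b h n t a b' (f x) (g x) (k x) := by
  have e := (K3_meas3 β b h n t a b').comp ((hf.prodMk hg).prodMk hk)
  exact e

end Pool.Agent.W_7d29a1_AC.TV92
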