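import Pool.Agent.W_7d29a1_AC.TvB92a

/-!
Theorem AC: the selection is the mean relative entropy (second part of leaf D).
-/

set_option autoImplicit false

namespace Pool.Agent.W_7d29a1_AC.TV92

open MeasureTheory ProbabilityTheory Filter Topology Pool.Agent.W_MP_7d29a1_pr
  Pool.Agent.W_7d29a1_h46 Pool.Agent.W_7d29a1_h46u Pool.Agent.W_7d29a1_D2.B35
  Pool.Agent.W_7d29a1_Q29 Pool.Agent.W_7d29a1_NV Pool.Agent.W_7d29a1_NV.K20
  Pool.Agent.W_7d29a1_NV.Kl38 Pool.Agent.W_7d29a1_NV.Eq41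

variable {d n q : ℕ}

/-- The mean of the relative entropy over two copies of the row is the selection. -/
lemma int_K3 (hd : 0 < d) (ρ : Measure ℝ) [IsProbabilityMeasure ρ] {β b : ℝ} (hb : HB ρ b)
    (h : Vec d) {n t a b' : ℕ} (hat : a < t) (htb : t ≤ b') (hbn : b' ≤ n) (η : Env d) :
    ∫ ξ, (∫ ξ', K3 β b h n t a b' η ξ ξ' ∂(law d (rb ρ b))) ∂(law d (rb ρ b)) =
      kapE ρ β b h n t a b' η := by
  have := prob_rb31 hb
  obtain ⟨P, hP⟩ : ∃ P : Measure (Env d), P = law d (rb ρ b) := ⟨_, rfl⟩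
  have hPp : IsProbabilityMeasure P := by rw [hP]; infer_instance
  have hX := integrable_X31 P hd hb.b0.le β h n t η
  have e1 : (fun ξ : Env d => ∫ ξ', K3 β b h n t a b' η ξ ξ' ∂P) = fun ξ =>
      g31 P β b h n t a b' η ξ - (X β h (mx b t η ξ) n - ∫ ξ', X β h (mx b t η ξ') n ∂P) := by
    funext ξ
    have i1 := integrable_F31 P hb.b0.le β h n t a b' η ξ
    have i2 : Integrable (fun ξ' => X β h (mx b t η ξ) n - X β h (mx b t η ξ') n) P :=
      (integrable_const _).sub hX
    have e2 : ∫ ξ', (X β h (mx b t η ξ) n - X β h (mx b t η ξ') n) ∂P =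
        X β h (mx b t η ξ) n - ∫ ξ', X β h (mx b t η ξ') n ∂P := by
      rw [integral_sub (integrable_const _) hX, integral_const, probReal_univ, one_smul]
    have e5 := integral_sub i1 i2
    have e6 : (fun ξ' => K3 β b h n t a b' η ξ ξ') = fun ξ' =>
        (∑ w : Fin n → Step d, pw β h n (mx b t η ξ) w *
          (lm31 β b h t a b' w η ξ - lm31 β b h t a b' w η ξ')) -
          (X β h (mx b t η ξ) n - X β h (mx b t η ξ') n) := by
      funext ξ'
      unfold K3
      ring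
    rw [e6, e5, e2, g31_eq P hb.b0.le]
  have i3 := integrable_g31 P hd hb.b0.le β h n t a b' η
  have i4 : Integrable (fun ξ => X β h (mx b t η ξ) n - ∫ ξ', X β h (mx b t η ξ') n ∂P) P :=
    hX.sub (integrable_const _)
  have e3 : ∫ ξ, (X β h (mx b t η ξ) n - ∫ ξ', X β h (mx b t η ξ') n ∂P) ∂P = 0 := by
    rw [integral_sub hX (integrable_const _), integral_const, probReal_univ, one_smul, sub_self]
  rw [← hP, e1, integral_sub i3 i4, e3, sub_zero, kapE_eq92 ρ hb h hat htb hbn η, ← hP]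

end Pool.Agent.W_7d29a1_AC.TV92
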