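import Pool.Agent.W_7d29a1_AC.TvB92
import Pool.Agent.W_7d29a1_AC.MixB41

/-!
Theorem AC: the dependence of the separators on one block, row by row (leaf D).
-/

set_option autoImplicit false

namespace Pool.Agent.W_7d29a1_AC.TV92

open MeasureTheory ProbabilityTheory Filter Topology Pool.Agent.W_MP_7d29a1_pr
  Pool.Agent.W_7d29a1_h46 Pool.Agent.W_7d29a1_h46u Pool.Agent.W_7d29a1_D2.B35
  Pool.Agent.W_7d29a1_Q29 Pool.Agent.W_7d29a1_NV Pool.Agent.W_7d29a1_NV.K20
  Pool.Agent.W_7d29a1_NV.Kl38 Pool.Agent.W_7d29a1_NV.Eq41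

variable {d n q : ℕ}

lemma mxR_zero (b : ℝ) (t : ℕ) (η ξ : Env d) : mxR b t 0 η ξ = η := by
  classical
  funext p
  unfold mxR
  rw [if_neg]
  rintro ⟨⟨h1, h2⟩, -⟩
  omega

lemma mxR_succ (b : ℝ) (t m : ℕ) (η ξ : Env d) :
    mxR b t (m + 1) η ξ = mx b (t + m + 1) (mxR b t m η ξ) ξ := by
  classical
  funext p
  by_cases hp : p.1 = t + m + 1
  · have h0 : mxR b t m η ξ p = η p := by
      unfold mxR
      rw [if_neg]
      rintro ⟨⟨h1, h2⟩, -⟩
      omega
    unfold mx
    rw [h0]
    unfold mxR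
    by_cases h2 : |η p| ≤ b
    · rw [if_pos ⟨⟨by omega, by omega⟩, h2⟩, if_pos ⟨hp, h2⟩]
    · rw [if_neg fun h3 => h2 h3.2, if_neg fun h3 => h2 h3.2]
  · unfold mx
    rw [if_neg fun h3 => hp h3.1]
    unfold mxR
    have e : (t < p.1 ∧ p.1 ≤ t + (m + 1)) ↔ (t < p.1 ∧ p.1 ≤ t + m) := by
      constructor
      · rintro ⟨h1, h2⟩
        exact ⟨h1, by omega⟩
      · rintro ⟨h1, h2⟩
        exact ⟨h1, by omega⟩
    simp only [e]

lemma X_mxR (hd : 0 < d) {b : ℝ} (hb : 0 ≤ b) (β : ℝ) (h : Vec d) (n t m : ℕ) (η ξ : Env d) :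
    |X β h η n - X β h (mxR b t m η ξ) n| ≤ m * (2 * |β| * b) := by
  induction m with
  | zero =>
    rw [mxR_zero]
    simp
  | succ m ih =>
    rw [mxR_succ]
    have h1 := X_mx31 hd hb β h n (t + m + 1) (mxR b t m η ξ) (mxR b t m η ξ) ξ
    rw [mx_self92] at h1
    have h2 := abs_sub_le (X β h η n) (X β h (mxR b t m η ξ) n)
      (X β h (mx b (t + m + 1) (mxR b t m η ξ) ξ) n)
    push_cast
    linarith

open Classical in
/-- The row `l` from the second environment. -/
noncomputable def cmb (l : ℕ) (w : Env d × Env d) : Env d := fun p => if p.1 = l then w.2 p else w.1 p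

lemma mp_cmb (ν : Measure ℝ) [IsProbabilityMeasure ν] (l : ℕ) :
    MeasurePreserving (cmb (d := d) l) ((law d ν).prod (law d ν)) (law d ν) := by
  classical
  have h := gen96 (ι := ℕ × Site d) ν ν (ψ := fun p q => if p.1 = l then q.2 else q.1)
    (fun p => by
      by_cases hp : p.1 = l
      · simp only [hp, if_true]
        exact measurable_snd
      · simp only [hp, if_false]
        exact measurable_fst)
    (fun p => by
      by_cases hp : p.1 = l
      · simp only [hp, if_true]
        exact measurePreserving_snd.map_eq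
      · simp only [hp, if_false]
        exact measurePreserving_fst.map_eq)
  exact h

lemma mxR_cmb (b : ℝ) (t m : ℕ) (η : Env d) (w : Env d × Env d) :
    mxR b t m η (cmb (t + m + 1) w) = mxR b t m η w.1 := by
  classical
  funext p
  unfold mxR
  by_cases hp : (t < p.1 ∧ p.1 ≤ t + m) ∧ |η p| ≤ b
  · rw [if_pos hp, if_pos hp]
    unfold cmb
    rw [if_neg (by omega)]
  · rw [if_neg hp, if_neg hp]

lemma mx_cmb (b : ℝ) (l : ℕ) (ζ : Env d) (w : Env d × Env d) :
    mx b l ζ (cmb l w) = mx b l ζ w.2 := by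
  classical
  funext p
  unfold mx
  by_cases hp : p.1 = l ∧ |ζ p| ≤ b
  · rw [if_pos hp, if_pos hp]
    unfold cmb
    rw [if_pos hp.1]
  · rw [if_neg hp, if_neg hp]

lemma mxR_meas92 (b : ℝ) (t m : ℕ) : Measurable fun w : Env d × Env d => mxR b t m w.1 w.2 := by
  induction m with
  | zero =>
    have e : (fun w : Env d × Env d => mxR b t 0 w.1 w.2) = Prod.fst := by
      funext w
      exact mxR_zero b t w.1 w.2
    rw [e]
    exact measurable_fst
  | succ m ih =>
    have e : (fun w : Env d × Env d => mxR b t (m + 1) w.1 w.2) = fun w =>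
        mx b (t + m + 1) (mxR b t m w.1 w.2) w.2 := by
      funext w
      exact mxR_succ b t m w.1 w.2
    rw [e]
    have f2 : Measurable (Prod.snd : Env d × Env d → Env d) := measurable_snd
    have g := (measurable_mx31 b (t + m + 1)).comp (ih.prodMk f2)
    exact g

/-- The next row, after `m` rows. -/
lemma next92 (ρ : Measure ℝ) [IsProbabilityMeasure ρ] {b : ℝ} (hb : HB ρ b) (t m : ℕ)
    {H : Env d × Env d → ℝ} (hH : Measurable H)
    (hl : ∀ (ζ : Env d) (w : Env d × Env d), H (ζ, cmb (t + m + 1) w) = H (ζ, w.2)) :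
    ∫ w : Env d × Env d, H (mxR b t m w.1 w.2, w.2) ∂((law d ρ).prod (law d (rb ρ b))) =
      ∫ w : Env d × Env d, H w ∂((law d ρ).prod (law d (rb ρ b))) := by
  have := prob_rb31 hb
  obtain ⟨P, hP⟩ : ∃ P : Measure (Env d), P = law d (rb ρ b) := ⟨_, rfl⟩
  obtain ⟨Q, hQ⟩ : ∃ Q : Measure (Env d), Q = law d ρ := ⟨_, rfl⟩
  have hPp : IsProbabilityMeasure P := by rw [hP]; infer_instance
  have hQp : IsProbabilityMeasure Q := by rw [hQ]; infer_instance
  have hc := mp_cmb (d := d) (rb ρ b) (t + m + 1)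
  rw [← hP] at hc
  have hR : MeasurePreserving (fun w : Env d × Env d => mxR b t m w.1 w.2) (Q.prod P) Q := by
    rw [hP, hQ]
    exact EqB41.mixR41 hb t m
  rw [← hP, ← hQ]
  have hΘ : MeasurePreserving (fun w : (Env d × Env d) × Env d =>
      (w.1.1, cmb (t + m + 1) (w.1.2, w.2))) ((Q.prod P).prod P) (Q.prod P) :=
    ((MeasurePreserving.id Q).prod hc).comp (measurePreserving_prodAssoc Q P P)
  have hΨ : MeasurePreserving (Prod.map (fun w : Env d × Env d => mxR b t m w.1 w.2)
      (id : Env d → Env d)) ((Q.prod P).prod P) (Q.prod P) := hR.prod (MeasurePreserving.id P)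
  have f2 : Measurable (Prod.snd : Env d × Env d → Env d) := measurable_snd
  have hG : Measurable fun w : Env d × Env d => H (mxR b t m w.1 w.2, w.2) := by
    have e := hH.comp ((mxR_meas92 (d := d) b t m).prodMk f2)
    exact e
  have e1 := integral_map hΘ.measurable.aemeasurable (hG.aestronglyMeasurable (μ :=
    ((Q.prod P).prod P).map fun w : (Env d × Env d) × Env d =>
      (w.1.1, cmb (t + m + 1) (w.1.2, w.2))))
  rw [hΘ.map_eq] at e1
  have e2 := integral_map hΨ.measurable.aemeasurable (hH.aestronglyMeasurable (μ :=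
    ((Q.prod P).prod P).map (Prod.map (fun w : Env d × Env d => mxR b t m w.1 w.2)
      (id : Env d → Env d))))
  rw [hΨ.map_eq] at e2
  rw [e1, e2]
  refine integral_congr_ae (Eventually.of_forall fun w => ?_)
  simp only [mxR_cmb, Prod.map, id]
  rw [hl]

end Pool.Agent.W_7d29a1_AC.TV92
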