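import Pool.Agent.W_7d29a1_AC.TvB92c

/-!
Theorem AC: the dependence of the separators on one block (leaf D), end.
-/

set_option autoImplicit false

namespace Pool.Agent.W_7d29a1_AC

open MeasureTheory ProbabilityTheory Filter Topology Pool.Agent.W_MP_7d29a1_pr
  Pool.Agent.W_7d29a1_h46 Pool.Agent.W_7d29a1_h46u Pool.Agent.W_7d29a1_D2.B35
  Pool.Agent.W_7d29a1_Q29 Pool.Agent.W_7d29a1_NV Pool.Agent.W_7d29a1_AC.TV92

variable {d : ℕ}

/-- **Leaf D.** -/
theorem tvB92 (hd : 0 < d) {ρ : Measure ℝ} [IsProbabilityMeasure ρ] {β b : ℝ} (hb : HB ρ b) :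
    TvB d ρ β b := by
  intro h n q J t r hJ hO i a M s hM hs hk
  have := prob_rb31 hb
  have hb0 := hb.b0.le
  have hBc : 2 * |β| * b ≤ Bc β b := by unfold Bc; linarith
  have hBc0 : 0 ≤ 2 * |β| * b := by
    have := mul_nonneg (abs_nonneg β) hb0
    linarith
  have hr : Monotone r := Fin.monotone_iff_le_succ.2 fun j => by
    have := hO.1 j
    omega
  have hn : r (Fin.last q) ≤ n := hO.2
  obtain ⟨P, hP⟩ : ∃ P : Measure (Env d), P = law d (rb ρ b) := ⟨_, rfl⟩
  obtain ⟨Q, hQ⟩ : ∃ Q : Measure (Env d), Q = law d ρ := ⟨_, rfl⟩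
  have hPp : IsProbabilityMeasure P := by rw [hP]; infer_instance
  have hQp : IsProbabilityMeasure Q := by rw [hQ]; infer_instance
  have hi := hO.1 i
  -- the rows
  have hrow : ∀ (m : ℕ), m < J → ∀ c : ℝ, 0 < c →
      ∫ w : Env d × Env d, iw β h n a (M + m * (2 * |β| * b)) w.1 *
        tv β h n r w.1 (mx b (t i + m + 1) w.1 w.2) ∂(Q.prod P) ≤ s / c + c / 2 := by
    intro m hm c hc
    have h1 := row92 hd ρ (β := β) hb h hr hn i (l := t i + m + 1) (by omega) (by omega) (a := a)
      (M := M + m * (2 * |β| * b)) hc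
    rw [← hP, ← hQ] at h1
    have h2 := hk (t i + m + 1) (by omega) (by omega)
    rw [← hQ] at h2
    have hmJ : (m : ℝ) ≤ J := by exact_mod_cast hm.le
    have hB1 : 0 ≤ Bc β b := hBc0.trans hBc
    have hJ0 : (0 : ℝ) ≤ J := Nat.cast_nonneg J
    have h3 : (m : ℝ) * (2 * |β| * b) ≤ J * Bc β b := mul_le_mul hmJ hBc hBc0 hJ0
    have h4 : win β h n a (M + m * (2 * |β| * b) + Bc β b) ⊆
        win β h n a (M + 4 * Bc β b * (J + 1)) := by
      intro η hη
      have hη' : |X β h η n - a| ≤ M + m * (2 * |β| * b) + Bc β b := hη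
      have hη2 : |X β h η n - a| ≤ M + 4 * Bc β b * (J + 1) := by
        nlinarith
      exact hη2
    have e1 : (fun η : Env d => kapE ρ β b h n (t i + m + 1) (r i.castSucc) (r i.succ) η) =
        fun η => ∫ ξ, g31 (law d (rb ρ b)) β b h n (t i + m + 1) (r i.castSucc) (r i.succ) η ξ
          ∂(law d (rb ρ b)) := by
      funext η
      exact kapE_eq92 ρ hb h (by omega) (by omega) ((hr (Fin.le_last _)).trans hn) η
    have i1 := integrable_int_g31 (law d (rb ρ b)) hd hb0 β h n (t i + m + 1) (r i.castSucc)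
      (r i.succ) Q
    have h5 : ∫ η in win β h n a (M + m * (2 * |β| * b) + Bc β b),
        kapE ρ β b h n (t i + m + 1) (r i.castSucc) (r i.succ) η ∂Q ≤
        ∫ η in win β h n a (M + 4 * Bc β b * (J + 1)),
          kapE ρ β b h n (t i + m + 1) (r i.castSucc) (r i.succ) η ∂Q := by
      rw [e1]
      refine setIntegral_mono_set i1.integrableOn (Eventually.of_forall fun η => ?_)
        (Eventually.of_forall h4)
      exact int_g31_nonneg _ hd hb0 β h n (t i + m + 1) (r i.castSucc) (r i.succ) η
    have h6 := div_le_div_of_nonneg_right (h5.trans h2) hc.le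
    linarith
  -- the blocks, row by row
  have hW : Measurable fun w : Env d × Env d => iw β h n a M w.1 := by
    have f1 : Measurable (Prod.fst : Env d × Env d → Env d) := measurable_fst
    have e := (iw_meas β h n a M).comp f1
    exact e
  have hT : ∀ m : ℕ, Measurable fun w : Env d × Env d =>
      tv β h n r w.1 (mxR b (t i) m w.1 w.2) := by
    intro m
    have f1 : Measurable (Prod.fst : Env d × Env d → Env d) := measurable_fst
    have e := tv_meas (α := Env d × Env d) β h n r f1 (mxR_meas92 (d := d) b (t i) m)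
    exact e
  have hbd : ∀ (M' : ℝ) (η ζ ξ : Env d), |iw β h n a M' η * tv β h n r ζ ξ| ≤ 2 := by
    intro M' η ζ ξ
    have h1 := iw_nonneg β h n a M' η
    have h2 := iw_le β h n a M' η
    have h3 := tv_nonneg β h n r ζ ξ
    have h4 := tv_le hd β h hr hn ζ ξ
    rw [abs_of_nonneg (mul_nonneg h1 h3)]
    nlinarith
  have hS : ∀ c : ℝ, 0 < c → ∀ m : ℕ, m ≤ J →
      ∫ w : Env d × Env d, iw β h n a M w.1 * tv β h n r w.1 (mxR b (t i) m w.1 w.2)
        ∂(Q.prod P) ≤ m * (s / c + c / 2) := by
    intro c hc m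
    induction m with
    | zero =>
      intro _
      have e : (fun w : Env d × Env d => iw β h n a M w.1 *
          tv β h n r w.1 (mxR b (t i) 0 w.1 w.2)) = fun _ => 0 := by
        funext w
        rw [mxR_zero, tv_self, mul_zero]
      rw [e]
      simp
    | succ m ih =>
      intro hm
      have ih' := ih (by omega)
      obtain ⟨H, hHd⟩ : ∃ H : Env d × Env d → ℝ, H = fun w =>
          iw β h n a (M + m * (2 * |β| * b)) w.1 *
            tv β h n r w.1 (mx b (t i + m + 1) w.1 w.2) := ⟨_, rfl⟩
      have hHm : Measurable H := by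
        have f1 : Measurable (Prod.fst : Env d × Env d → Env d) := measurable_fst
        have e1 := (iw_meas β h n a (M + m * (2 * |β| * b))).comp f1
        have e2 := tv_meas (α := Env d × Env d) β h n r f1 (measurable_mx31 b (t i + m + 1))
        rw [hHd]
        exact e1.mul e2
      have hnx := next92 ρ hb (t i) m hHm (fun ζ w => by
        rw [hHd]
        simp only
        rw [mx_cmb])
      rw [← hP, ← hQ] at hnx
      have hHint : ∫ w, H w ∂(Q.prod P) ≤ s / c + c / 2 := by
        rw [hHd]
        exact hrow m (by omega) c hc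
      have f2 : Measurable (Prod.snd : Env d × Env d → Env d) := measurable_snd
      have hHm2 : Measurable fun w : Env d × Env d => H (mxR b (t i) m w.1 w.2, w.2) := by
        have e := hHm.comp ((mxR_meas92 (d := d) b (t i) m).prodMk f2)
        exact e
      have i1 : Integrable (fun w : Env d × Env d => iw β h n a M w.1 *
          tv β h n r w.1 (mxR b (t i) m w.1 w.2)) (Q.prod P) :=
        bint _ (hW.mul (hT m)) (C := 2) fun w => hbd M w.1 w.1 _
      have i2 : Integrable (fun w : Env d × Env d => iw β h n a M w.1 *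
          tv β h n r w.1 (mxR b (t i) (m + 1) w.1 w.2)) (Q.prod P) :=
        bint _ (hW.mul (hT (m + 1))) (C := 2) fun w => hbd M w.1 w.1 _
      have i3 : Integrable (fun w : Env d × Env d => H (mxR b (t i) m w.1 w.2, w.2))
          (Q.prod P) := by
        refine bint _ hHm2 (C := 2) fun w => ?_
        rw [hHd]
        exact hbd _ _ _ _
      have hpt : ∀ w : Env d × Env d, iw β h n a M w.1 *
          tv β h n r w.1 (mxR b (t i) (m + 1) w.1 w.2) ≤
          iw β h n a M w.1 * tv β h n r w.1 (mxR b (t i) m w.1 w.2) +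
            H (mxR b (t i) m w.1 w.2, w.2) := by
        intro w
        have h1 := tv_tri β h n r w.1 (mxR b (t i) m w.1 w.2) (mxR b (t i) (m + 1) w.1 w.2)
        have h2 := iw_nonneg β h n a M w.1
        have h3 : iw β h n a M w.1 ≤
            iw β h n a (M + m * (2 * |β| * b)) (mxR b (t i) m w.1 w.2) :=
          iw_shift β h n (X_mxR hd hb0 β h n (t i) m w.1 w.2) le_rfl
        have h4 := tv_nonneg β h n r (mxR b (t i) m w.1 w.2) (mxR b (t i) (m + 1) w.1 w.2)
        have h5 : iw β h n a M w.1 *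
            tv β h n r (mxR b (t i) m w.1 w.2) (mxR b (t i) (m + 1) w.1 w.2) ≤
            H (mxR b (t i) m w.1 w.2, w.2) := by
          rw [hHd]
          simp only
          rw [← mxR_succ]
          exact mul_le_mul_of_nonneg_right h3 h4
        have h6 := mul_le_mul_of_nonneg_left h1 h2
        rw [mul_add] at h6
        linarith
      have h7 := integral_mono i2 (i1.add i3) hpt
      have h8 : ∫ w : Env d × Env d, ((fun w : Env d × Env d => iw β h n a M w.1 *
          tv β h n r w.1 (mxR b (t i) m w.1 w.2)) + fun w : Env d × Env d =>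
            H (mxR b (t i) m w.1 w.2, w.2)) w ∂(Q.prod P) =
          (∫ w : Env d × Env d, iw β h n a M w.1 *
            tv β h n r w.1 (mxR b (t i) m w.1 w.2) ∂(Q.prod P)) +
          ∫ w : Env d × Env d, H (mxR b (t i) m w.1 w.2, w.2) ∂(Q.prod P) :=
        integral_add i1 i3
      rw [h8, hnx] at h7
      push_cast
      linarith
  -- the end
  have hE : (∫ η in win β h n a M, ∫ ξ, ∑ s : Sp d n q,
      |msp β h n r s η - msp β h n r s (mxR b (t i) J η ξ)| ∂P ∂Q) =
      ∫ w : Env d × Env d, iw β h n a M w.1 * tv β h n r w.1 (mxR b (t i) J w.1 w.2)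
        ∂(Q.prod P) := by
    have i2 : Integrable (fun w : Env d × Env d => iw β h n a M w.1 *
        tv β h n r w.1 (mxR b (t i) J w.1 w.2)) (Q.prod P) :=
      bint _ (hW.mul (hT J)) (C := 2) fun w => hbd M w.1 w.1 _
    rw [integral_prod _ i2, ← int_iw]
    refine integral_congr_ae (Eventually.of_forall fun η => ?_)
    simp only
    rw [← integral_const_mul]
    rfl
  rw [← hP, ← hQ, hE]
  have hJ0 : (0 : ℝ) < J := by exact_mod_cast hJ
  rcases hs.eq_or_lt with h0 | h0
  · -- `s = 0`
    rw [← h0, mul_zero, Real.sqrt_zero, mul_zero]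
    by_contra hcon
    push Not at hcon
    obtain ⟨I, hI⟩ : ∃ I : ℝ, I = ∫ w : Env d × Env d, iw β h n a M w.1 *
        tv β h n r w.1 (mxR b (t i) J w.1 w.2) ∂(Q.prod P) := ⟨_, rfl⟩
    have h1 := hS (I / J) (by rw [hI]; positivity) J le_rfl
    rw [← hI] at h1 hcon
    rw [← h0, zero_div, zero_add] at h1
    have h2 : (J : ℝ) * (I / J / 2) = I / 2 := by field_simp
    rw [h2] at h1
    linarith
  · have hc : 0 < Real.sqrt (2 * s) := Real.sqrt_pos.2 (by linarith)
    refine (hS _ hc J le_rfl).trans (le_of_eq ?_)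
    congr 1
    have h1 := Real.mul_self_sqrt (show 0 ≤ 2 * s by linarith)
    have h2 : s / Real.sqrt (2 * s) = Real.sqrt (2 * s) / 2 := by
      rw [div_eq_iff hc.ne']
      linarith
    rw [h2]
    ring

end Pool.Agent.W_7d29a1_AC
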