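import Pool.Agent.W_7d29a1_AC.DefsF8
import Pool.Agent.W_7d29a1_AC.Blk6

/-!
The partition function averaged over a block: lower bound by the shortened environments.
-/

set_option autoImplicit false

namespace Pool.Agent.W_7d29a1_AC

open MeasureTheory ProbabilityTheory Filter Topology Pool.Agent.W_MP_7d29a1_pr
  Pool.Agent.W_7d29a1_h46 Pool.Agent.W_7d29a1_h46u Pool.Agent.W_7d29a1_D2.B35
  Pool.Agent.W_7d29a1_Q29 Pool.Agent.W_7d29a1_NV Pool.Agent.W_7d29a1_NV.Eq41

variable {d : ℕ} {ρ : Measure ℝ} {β b : ℝ}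

lemma mxR_eq21 (b : ℝ) (t J : ℕ) (η ξ : Env d) :
    mxR b t J η ξ = mxS b (Finset.Ioc t (t + J)) η ξ := by
  funext p
  unfold mxR mxS
  simp only [Finset.mem_Ioc]

lemma sh_zero21 (η : Env d) : sh 0 0 η = η := by
  funext p
  unfold sh
  simp

lemma PP_sg21 (β : ℝ) (h : Vec d) (η : Env d) (N : ℕ) (z : Site d) :
    PP β h η N z = sg β h 0 N 0 z η := by
  unfold sg
  rw [sh_zero21, Nat.sub_zero, sub_zero]

/-- The averaged partition function is the partition function of the base environment. -/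
lemma zB_eq21 [IsProbabilityMeasure ρ] (hβ : 0 < β) (hb : HB ρ b) (h : Vec d) {N t J : ℕ}
    (hN : t + J ≤ N) (η : Env d) :
    zB ρ β b h N t J η = Z β h (mxS b (Finset.Ioc t (t + J)) η fun _ => c0 ρ β b) N := by
  classical
  haveI := Eq41.rb_prob hb
  have hR : ∀ l ∈ Finset.Ioc t (t + J), 0 < l ∧ l ≤ N := fun l hl => by
    have := Finset.mem_Ioc.1 hl
    omega
  have h1 : ∀ (z : Site d) (ξ : Env d), PP β h (mxS b (Finset.Ioc t (t + J)) η ξ) N z =
      PP β h (mxS b (Finset.Ioc t (t + J)) η fun _ => c0 ρ β b) N z *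
        uabS ρ β b h (Finset.Ioc t (t + J)) 0 N 0 z η ξ := by
    intro z ξ
    rw [PP_sg21, PP_sg21]
    exact (sg_mul_uabS ρ β h hb.b0.le (Nat.zero_le N) hR 0 z η ξ).symm
  have hint : ∀ z : Site d, Integrable (fun ξ : Env d =>
      uabS ρ β b h (Finset.Ioc t (t + J)) 0 N 0 z η ξ) (law d (rb ρ b)) := by
    intro z
    by_contra hcon
    have h2 := int_uabS hβ hb h (Nat.zero_le N) hR 0 z η
    rw [integral_undef hcon] at h2
    exact zero_ne_one h2
  unfold zB
  simp only [mxR_eq21, Z_eq_sum]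
  rw [integral_finsetSum]
  · refine Finset.sum_congr rfl fun z _ => ?_
    rw [integral_congr_ae (Eventually.of_forall (h1 z)), integral_const_mul,
      int_uabS hβ hb h (Nat.zero_le N) hR 0 z η, mul_one]
  · intro z _
    exact ((hint z).const_mul _).congr (Eventually.of_forall fun ξ => (h1 z ξ).symm)

lemma energy_congr21 {n : ℕ} {η η' : Env d} (h : ∀ p : ℕ × Site d, 1 ≤ p.1 → p.1 ≤ n → η p = η' p)
    (s : Fin n → Step d) : energy η s = energy η' s := by
  unfold energy
  exact Finset.sum_congr rfl fun i _ => h _ (Nat.le_add_left 1 _) i.2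

lemma wgt_congr21 (β : ℝ) (h : Vec d) {n : ℕ} {η η' : Env d}
    (hη : ∀ p : ℕ × Site d, 1 ≤ p.1 → p.1 ≤ n → η p = η' p) (s : Fin n → Step d) :
    wgt β h η s = wgt β h η' s := by
  unfold wgt
  rw [energy_congr21 hη]

lemma Z_congr21 (β : ℝ) (h : Vec d) {n : ℕ} {η η' : Env d}
    (hη : ∀ p : ℕ × Site d, 1 ≤ p.1 → p.1 ≤ n → η p = η' p) : Z β h η n = Z β h η' n := by
  rw [Z_eq, Z_eq]
  exact Finset.sum_congr rfl fun s _ => wgt_congr21 β h hη s

/-- The weight of a path with the block of length `J` removed. -/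
noncomputable def Wt21 (β : ℝ) (h : Vec d) (t J m : ℕ) (η : Env d) (s : Fin t → Step d)
    (q : Fin J → Step d) : ℝ :=
  wgt β h η s * (Real.exp (inner ℝ h (emb (pos q J))) *
    Z β h (sh J (pos q J) (sh t (pos s t) η)) m)

/-- The loss of a site. -/
noncomputable def lf21 (ρ : Measure ℝ) (β b v : ℝ) : ℝ :=
  if |v| ≤ b then 0 else max 0 (c0 ρ β b - v)

lemma lf_nonneg21 (ρ : Measure ℝ) (β b v : ℝ) : 0 ≤ lf21 ρ β b v := by
  unfold lf21
  split_ifs
  · exact le_rfl
  · exact le_max_left _ _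

/-- The loss of a path in the block. -/
noncomputable def Ls21 (ρ : Measure ℝ) (β b : ℝ) (t J : ℕ) (η : Env d) (s : Fin t → Step d)
    (q : Fin J → Step d) : ℝ :=
  ∑ i : Fin J, lf21 ρ β b (η (((i : ℕ) + 1) + t, pos q ((i : ℕ) + 1) + pos s t))

lemma Wt_pos21 (hd : 0 < d) (β : ℝ) (h : Vec d) (t J m : ℕ) (η : Env d) (s : Fin t → Step d)
    (q : Fin J → Step d) : 0 < Wt21 β h t J m η s q :=
  mul_pos (wgt_pos _ _ _ _) (mul_pos (Real.exp_pos _) (Z_pos hd _ _ _ _))

/-- Pathwise lower bound. -/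
lemma Zlow_path21 [IsProbabilityMeasure ρ] (hd : 0 < d) (hβ : 0 < β) (hb : HB ρ b) (h : Vec d)
    (t J m : ℕ) (η : Env d) :
    ∑ s : Fin t → Step d, ∑ q : Fin J → Step d, Wt21 β h t J m η s q *
      Real.exp (J * (β * c0 ρ β b) - β * Ls21 ρ β b t J η s q) ≤
    Z β h (mxS b (Finset.Ioc t (t + J)) η fun _ => c0 ρ β b) (t + (J + m)) := by
  obtain ⟨η', hη'⟩ : ∃ η' : Env d, η' = mxS b (Finset.Ioc t (t + J)) η fun _ => c0 ρ β b :=
    ⟨_, rfl⟩
  rw [← hη', Z_add]
  refine Finset.sum_le_sum fun s _ => ?_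
  rw [Z_add, Finset.mul_sum]
  refine Finset.sum_le_sum fun q _ => ?_
  have hout : ∀ p : ℕ × Site d, ¬ (t < p.1 ∧ p.1 ≤ t + J) → η' p = η p := by
    intro p hp
    rw [hη']
    exact mxS_out fun h' => hp (Finset.mem_Ioc.1 h')
  have hin : ∀ p : ℕ × Site d, t < p.1 ∧ p.1 ≤ t + J → c0 ρ β b - lf21 ρ β b (η p) ≤ η' p := by
    intro p hp
    have hc := abs_le.1 (Eq41.c0_abs (ρ := ρ) hβ hb)
    rw [hη']
    unfold mxS lf21 cl
    by_cases h1 : |η p| ≤ b
    · rw [if_pos h1, if_pos ⟨Finset.mem_Ioc.2 hp, h1⟩, min_eq_right hc.2, max_eq_right hc.1]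
      linarith
    · rw [if_neg h1, if_neg fun h' => h1 h'.2]
      have := le_max_right 0 (c0 ρ β b - η p)
      linarith
  have e1 : wgt β h η' s = wgt β h η s := wgt_congr21 β h (fun p _ h2 => hout p (by omega)) s
  have e2 : Z β h (sh J (pos q J) (sh t (pos s t) η')) m =
      Z β h (sh J (pos q J) (sh t (pos s t) η)) m := by
    refine Z_congr21 β h fun p h1 _ => ?_
    unfold sh
    exact hout _ (by simp only; omega)
  have e3 : Real.exp (inner ℝ h (emb (pos q J))) *
      Real.exp (J * (β * c0 ρ β b) - β * Ls21 ρ β b t J η s q) ≤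
      wgt β h (sh t (pos s t) η') q := by
    unfold wgt
    rw [← Real.exp_add]
    refine Real.exp_le_exp.2 ?_
    have h2 : (J : ℝ) * c0 ρ β b - Ls21 ρ β b t J η s q ≤ energy (sh t (pos s t) η') q := by
      unfold energy Ls21
      have h3 : (J : ℝ) * c0 ρ β b = ∑ _ : Fin J, c0 ρ β b := by
        rw [Finset.sum_const, Finset.card_univ, Fintype.card_fin, nsmul_eq_mul]
      rw [h3, ← Finset.sum_sub_distrib]
      refine Finset.sum_le_sum fun i _ => ?_
      refine hin (((i : ℕ) + 1) + t, pos q ((i : ℕ) + 1) + pos s t) ⟨?_, ?_⟩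
      · simp only
        omega
      · simp only
        have := i.2
        omega
    have h4 := mul_le_mul_of_nonneg_left h2 hβ.le
    linarith
  rw [e1, e2]
  unfold Wt21
  have h5 : 0 < wgt β h η s * Z β h (sh J (pos q J) (sh t (pos s t) η)) m :=
    mul_pos (wgt_pos _ _ _ _) (Z_pos hd _ _ _ _)
  calc wgt β h η s * (Real.exp (inner ℝ h (emb (pos q J))) *
        Z β h (sh J (pos q J) (sh t (pos s t) η)) m) *
        Real.exp (J * (β * c0 ρ β b) - β * Ls21 ρ β b t J η s q)
      = (wgt β h η s * Z β h (sh J (pos q J) (sh t (pos s t) η)) m) *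
        (Real.exp (inner ℝ h (emb (pos q J))) *
          Real.exp (J * (β * c0 ρ β b) - β * Ls21 ρ β b t J η s q)) := by ring
    _ ≤ (wgt β h η s * Z β h (sh J (pos q J) (sh t (pos s t) η)) m) *
        wgt β h (sh t (pos s t) η') q := mul_le_mul_of_nonneg_left e3 h5.le
    _ = wgt β h η s * (wgt β h (sh t (pos s t) η') q *
        Z β h (sh J (pos q J) (sh t (pos s t) η)) m) := by ring

/-- The shortened environment. -/
lemma Z_rem21 (β : ℝ) (h : Vec d) (t J m : ℕ) (η : Env d) (z : Site d) :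
    Z β h (remE J t z η) (t + m) =
      ∑ s : Fin t → Step d, wgt β h η s * Z β h (sh J z (sh t (pos s t) η)) m := by
  rw [Z_add]
  refine Finset.sum_congr rfl fun s _ => ?_
  have e1 : wgt β h (remE J t z η) s = wgt β h η s :=
    wgt_congr21 β h (fun p _ h2 => if_pos h2) s
  have e2 : Z β h (sh t (pos s t) (remE J t z η)) m = Z β h (sh J z (sh t (pos s t) η)) m := by
    refine Z_congr21 β h fun p h1 _ => ?_
    unfold sh remE
    simp only
    rw [if_neg (by omega)]
    congr 1
    refine Prod.ext ?_ ?_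
    · simp only
      omega
    · simp only
      abel
  rw [e1, e2]

open Classical in
/-- The total weight of the good paths. -/
lemma Wtot_low21 (hd : 0 < d) (β : ℝ) (h : Vec d) (t J m : ℕ) (η : Env d) (a R : ℝ) :
    Real.exp (a - R) * (∑ z ∈ boxF d J, if |X β h (remE J t z η) (t + m) - a| ≤ R
      then PP β h (fun _ => 0) J z else 0) ≤
    ∑ s : Fin t → Step d, ∑ q : Fin J → Step d,
      if |X β h (remE J t (pos q J) η) (t + m) - a| ≤ R then Wt21 β h t J m η s q else 0 := by
  have h1 : (∑ z ∈ boxF d J, if |X β h (remE J t z η) (t + m) - a| ≤ R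
      then PP β h (fun _ => 0) J z else 0) =
      ∑ q : Fin J → Step d, if |X β h (remE J t (pos q J) η) (t + m) - a| ≤ R
        then Real.exp (inner ℝ h (emb (pos q J))) else 0 := by
    have h2 : ∀ z : Site d, (if |X β h (remE J t z η) (t + m) - a| ≤ R
        then PP β h (fun _ => 0) J z else 0) =
        ∑ q : Fin J → Step d, if pos q J = z then
          (if |X β h (remE J t (pos q J) η) (t + m) - a| ≤ R
            then Real.exp (inner ℝ h (emb (pos q J))) else 0) else 0 := by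
      intro z
      unfold PP ZT
      by_cases h3 : |X β h (remE J t z η) (t + m) - a| ≤ R
      · rw [if_pos h3]
        refine Finset.sum_congr rfl fun q _ => ?_
        by_cases h4 : pos q J = z
        · have h5 : q ∈ {s : Fin J → Step d | pos s J = z} := h4
          rw [if_pos h5, if_pos h4, h4, if_pos h3]
          unfold wgt
          rw [h4]
          congr 1
          have : energy (fun _ : ℕ × Site d => (0 : ℝ)) q = 0 := by
            unfold energy
            exact Finset.sum_const_zero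
          rw [this, mul_zero, add_zero]
        · have h5 : q ∉ {s : Fin J → Step d | pos s J = z} := h4
          rw [if_neg h5, if_neg h4]
      · rw [if_neg h3]
        symm
        refine Finset.sum_eq_zero fun q _ => ?_
        by_cases h4 : pos q J = z
        · rw [if_pos h4, h4, if_neg h3]
        · rw [if_neg h4]
    rw [Finset.sum_congr rfl fun z _ => h2 z, Finset.sum_comm]
    refine Finset.sum_congr rfl fun q _ => ?_
    rw [Finset.sum_ite_eq, if_pos (pos_mem_box q J)]
  rw [h1, Finset.sum_comm, Finset.mul_sum]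
  refine Finset.sum_le_sum fun q _ => ?_
  by_cases h3 : |X β h (remE J t (pos q J) η) (t + m) - a| ≤ R
  · simp only [if_pos h3]
    have h4 : ∑ s : Fin t → Step d, Wt21 β h t J m η s q =
        Real.exp (inner ℝ h (emb (pos q J))) * Z β h (remE J t (pos q J) η) (t + m) := by
      rw [Z_rem21, Finset.mul_sum]
      refine Finset.sum_congr rfl fun s _ => ?_
      unfold Wt21
      ring
    rw [h4, mul_comm]
    refine mul_le_mul_of_nonneg_left ?_ (Real.exp_pos _).le
    have h5 := (abs_le.1 h3).1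
    unfold X at h5
    rw [← Real.le_log_iff_exp_le (Z_pos hd _ _ _ _)]
    linarith
  · simp only [if_neg h3]
    rw [mul_zero, Finset.sum_const_zero]

/-- Jensen for a finite sum. -/
lemma jensen21 {ι : Type*} (I : Finset ι) (w l : ι → ℝ) (c : ℝ) (hw : ∀ i ∈ I, 0 ≤ w i)
    (hW : 0 < ∑ i ∈ I, w i) :
    (∑ i ∈ I, w i) * Real.exp (c - (∑ i ∈ I, w i * l i) / ∑ i ∈ I, w i) ≤
      ∑ i ∈ I, w i * Real.exp (c - l i) := by
  obtain ⟨W, hWd⟩ : ∃ W : ℝ, W = ∑ i ∈ I, w i := ⟨_, rfl⟩
  obtain ⟨u, hu⟩ : ∃ u : ℝ, u = (∑ i ∈ I, w i * l i) / W := ⟨_, rfl⟩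
  rw [← hWd] at hW ⊢
  rw [← hu]
  have h1 : ∀ i ∈ I, Real.exp (c - u) * (w i * (1 + u) - w i * l i) ≤
      w i * Real.exp (c - l i) := by
    intro i hi
    have h2 : Real.exp (c - l i) = Real.exp (c - u) * Real.exp (u - l i) := by
      rw [← Real.exp_add]
      congr 1
      ring
    rw [h2]
    have h3 := Real.add_one_le_exp (u - l i)
    have h4 : Real.exp (c - u) * (u - l i + 1) ≤ Real.exp (c - u) * Real.exp (u - l i) :=
      mul_le_mul_of_nonneg_left h3 (Real.exp_pos _).le
    have h5 := mul_le_mul_of_nonneg_left h4 (hw i hi)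
    calc Real.exp (c - u) * (w i * (1 + u) - w i * l i) =
        w i * (Real.exp (c - u) * (u - l i + 1)) := by ring
      _ ≤ _ := h5
  have h6 : ∑ i ∈ I, w i * l i = W * u := by
    rw [hu]
    field_simp
  calc W * Real.exp (c - u) = Real.exp (c - u) * (W * (1 + u) - W * u) := by ring
    _ = ∑ i ∈ I, Real.exp (c - u) * (w i * (1 + u) - w i * l i) := by
        rw [← Finset.mul_sum, Finset.sum_sub_distrib, ← Finset.sum_mul, ← hWd, h6]
    _ ≤ _ := Finset.sum_le_sum h1

end Pool.Agent.W_7d29a1_AC
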