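import Pool.Agent.W_7d29a1_AC.DefsF8
import Pool.Agent.W_7d29a1_AC.EqB41
import Pool.Agent.W_7d29a1_NV.BigB21
import Pool.Agent.W_7d29a1_Q29.Vsd61

/-!
Leaf F1 of Theorem AC: the averaged partition function is large if the shortened environments are
good. The pathwise lower bound.
-/

set_option autoImplicit false

namespace Pool.Agent.W_7d29a1_AC.Z86

open MeasureTheory ProbabilityTheory Filter Topology Pool.Agent.W_MP_7d29a1_pr
  Pool.Agent.W_7d29a1_h46 Pool.Agent.W_7d29a1_h46u Pool.Agent.W_7d29a1_D2.B35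
  Pool.Agent.W_7d29a1_Q29 Pool.Agent.W_7d29a1_Q29.Csy42 Pool.Agent.W_7d29a1_NV
  Pool.Agent.W_7d29a1_NV.Eq41 Pool.Agent.W_7d29a1_AC.EqB41

variable {d : ℕ} {ρ : Measure ℝ} {β b : ℝ}

/-- The loss at one site. -/
noncomputable def el (ρ : Measure ℝ) (β b v : ℝ) : ℝ :=
  if |v| ≤ b then 0 else |cb ρ β| + 1 + |β| * |v|

lemma el_nonneg (ρ : Measure ℝ) (β b v : ℝ) : 0 ≤ el ρ β b v := by
  unfold el
  split_ifs
  · exact le_rfl
  · positivity

lemma measurable_el (ρ : Measure ℝ) (β b : ℝ) : Measurable (el ρ β b) := by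
  unfold el
  refine Measurable.ite ?_ measurable_const ?_
  · exact measurableSet_le measurable_norm measurable_const
  · exact (measurable_norm.const_mul |β|).const_add _

/-- The loss of a path in the block. -/
noncomputable def Ls (ρ : Measure ℝ) (β b : ℝ) (t : ℕ) (x : Site d) {J : ℕ} (q : Fin J → Step d)
    (η : Env d) : ℝ :=
  ∑ i : Fin J, el ρ β b (sh t x η ((i : ℕ) + 1, pos q ((i : ℕ) + 1)))

lemma Ls_nonneg (ρ : Measure ℝ) (β b : ℝ) (t : ℕ) (x : Site d) {J : ℕ} (q : Fin J → Step d)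
    (η : Env d) : 0 ≤ Ls ρ β b t x q η := Finset.sum_nonneg fun _ _ => el_nonneg _ _ _ _

/-- The mean factor of one site. -/
lemma site86 [IsProbabilityMeasure ρ] (hβ : 0 < β) (hb : HB ρ b)
    (hc : |β * c0 ρ β b - cb ρ β| ≤ 1) (v : ℝ) (p : ℕ × Site d) :
    Real.exp (β * c0 ρ β b - el ρ β b v) ≤
      ∫ ξ, Real.exp (β * (if |v| ≤ b then cl b (ξ p) else v)) ∂(law d (rb ρ b)) := by
  have := rb_prob hb
  by_cases hv : |v| ≤ b
  · simp only [if_pos hv]
    have hme : MeasurePreserving (fun ξ : Env d => ξ p) (law d (rb ρ b)) (rb ρ b) :=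
      measurePreserving_eval_infinitePi (fun _ : ℕ × Site d => rb ρ b) p
    have hg : AEStronglyMeasurable (fun x : ℝ => Real.exp (β * cl b x)) (rb ρ b) := by
      have := measurable_cl b
      fun_prop
    have h2 := LawU_integral (F := fun x : ℝ => Real.exp (β * cl b x)) hme hg
    rw [h2]
    have h3 : ∫ x, Real.exp (β * cl b x) ∂(rb ρ b) = ∫ x, Real.exp (β * x) ∂(rb ρ b) := by
      refine integral_congr_ae ?_
      filter_upwards [rb_ae (ρ := ρ) b] with x hx
      rw [cl_eq hx]
    rw [h3, ← exp_c0 hβ hb]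
    unfold el
    rw [if_pos hv, sub_zero]
  · simp only [if_neg hv]
    rw [integral_const, probReal_univ, one_smul]
    refine Real.exp_le_exp.2 ?_
    unfold el
    rw [if_neg hv]
    have h1 := abs_le.1 hc
    have h2 := le_abs_self (cb ρ β)
    have h3 : -(|β| * |v|) ≤ β * v := by
      rw [← abs_mul]
      exact neg_abs_le _
    linarith [h1.2]

/-- The mean weight of a path in the block. -/
lemma path86 [IsProbabilityMeasure ρ] (hβ : 0 < β) (hb : HB ρ b)
    (hc : |β * c0 ρ β b - cb ρ β| ≤ 1) (h : Vec d) (t : ℕ) (x : Site d) {J : ℕ}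
    (q : Fin J → Step d) (η : Env d) :
    Real.exp (inner ℝ h (emb (pos q J)) + (J * (β * c0 ρ β b) - Ls ρ β b t x q η)) ≤
      ∫ ξ, wgt β h (sh t x (mxR b t J η ξ)) q ∂(law d (rb ρ b)) := by
  classical
  have := rb_prob hb
  set p : Fin J → ℕ × Site d := fun i => ((i : ℕ) + 1 + t, pos q ((i : ℕ) + 1) + x) with hp
  have e2 : ∀ ξ : Env d, wgt β h (sh t x (mxR b t J η ξ)) q =
      Real.exp (inner ℝ h (emb (pos q J))) * ∏ i : Fin J,
        (fun v : ℝ => Real.exp (β * (if |η (p i)| ≤ b then cl b v else η (p i)))) (ξ (p i)) := by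
    intro ξ
    unfold wgt energy
    rw [Real.exp_add, Finset.mul_sum, Real.exp_sum]
    congr 1
    refine Finset.prod_congr rfl fun i _ => ?_
    simp only
    congr 2
    unfold sh mxR
    have hi := i.2
    by_cases hη : |η (p i)| ≤ b
    · rw [if_pos ⟨⟨by simp only; omega, by simp only; omega⟩, hη⟩, if_pos hη]
    · rw [if_neg (fun h' => hη h'.2), if_neg hη]
  have hind : iIndepFun (fun (i : Fin J) (ξ : Env d) => ξ (p i)) (law d (rb ρ b)) := by
    have h3 : iIndepFun (fun (p : ℕ × Site d) (ξ : Env d) => ξ p) (law d (rb ρ b)) :=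
      iIndepFun_infinitePi (P := fun _ : ℕ × Site d => rb ρ b)
        (X := fun _ v => v) fun _ => measurable_id
    refine h3.precomp (g := p) fun i j hij => ?_
    have h4 := (Prod.mk.inj hij).1
    ext
    omega
  have hmG : ∀ i : Fin J, Measurable fun v : ℝ =>
      Real.exp (β * (if |η (p i)| ≤ b then cl b v else η (p i))) := by
    intro i
    by_cases hη : |η (p i)| ≤ b
    · simp only [if_pos hη]
      exact Real.measurable_exp.comp ((measurable_cl b).const_mul β)
    · simp only [if_neg hη]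
      exact measurable_const
  have e3 := hind.integral_fun_prod_comp (𝕜 := ℝ)
    (f := fun (i : Fin J) (v : ℝ) => Real.exp (β * (if |η (p i)| ≤ b then cl b v else η (p i))))
    (fun i => (measurable_pi_apply _).aemeasurable) (fun i => (hmG i).aestronglyMeasurable)
  rw [integral_congr_ae (Filter.Eventually.of_forall e2), integral_const_mul, e3, Real.exp_add]
  refine mul_le_mul_of_nonneg_left ?_ (Real.exp_pos _).le
  have e4 : Real.exp (J * (β * c0 ρ β b) - Ls ρ β b t x q η) =
      ∏ i : Fin J, Real.exp (β * c0 ρ β b - el ρ β b (η (p i))) := by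
    rw [← Real.exp_sum]
    congr 1
    rw [Finset.sum_sub_distrib, Finset.sum_const, Finset.card_univ, Fintype.card_fin, nsmul_eq_mul]
    rfl
  rw [e4]
  exact Finset.prod_le_prod (fun i _ => (Real.exp_pos _).le) fun i _ =>
    site86 hβ hb hc (η (p i)) (p i)

/-! ### The decomposition -/

lemma Z_rem86 (β : ℝ) (h : Vec d) (J t m : ℕ) (z : Site d) (η : Env d) :
    Z β h (remE J t z η) (t + m) = ∑ s : Fin t → Step d, wgt β h η s *
      Z β h (sh t (pos s t) (remE J t z η)) m := by
  rw [Z_add]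
  refine Finset.sum_congr rfl fun s _ => ?_
  congr 1
  refine wgt_congr' β h (fun i _ hi y => ?_) s
  unfold remE
  rw [if_pos hi]

lemma Z_mx86 (β : ℝ) (h : Vec d) (b : ℝ) (J t m : ℕ) (η ξ : Env d) :
    Z β h (mxR b t J η ξ) (t + (J + m)) = ∑ s : Fin t → Step d, ∑ q : Fin J → Step d,
      wgt β h η s * Z β h (sh t (pos s t) (remE J t (pos q J) η)) m *
        wgt β h (sh t (pos s t) (mxR b t J η ξ)) q := by
  rw [Z_add]
  refine Finset.sum_congr rfl fun s _ => ?_
  rw [Z_add, Finset.mul_sum]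
  refine Finset.sum_congr rfl fun q _ => ?_
  have h1 : wgt β h (mxR b t J η ξ) s = wgt β h η s := by
    refine wgt_congr' β h (fun i _ hi y => ?_) s
    exact mxR_out (by simp only; omega)
  have h2 : Z β h (sh J (pos q J) (sh t (pos s t) (mxR b t J η ξ))) m =
      Z β h (sh t (pos s t) (remE J t (pos q J) η)) m := by
    refine ZT_congr' β h (fun i hi _ y => ?_) _
    unfold sh remE
    simp only
    rw [mxR_out (by simp only; omega), if_neg (by omega)]
    congr 2
    · omega
    · abel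
  rw [h1, h2]
  ring

end Pool.Agent.W_7d29a1_AC.Z86
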