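import Pool.Agent.W_7d29a1_AC.ZlowA86

/-!
Leaf F1 of Theorem AC: the averaged partition function is large if the shortened environments are
good.
-/

set_option autoImplicit false

namespace Pool.Agent.W_7d29a1_AC.Z86

open MeasureTheory ProbabilityTheory Filter Topology Pool.Agent.W_MP_7d29a1_pr
  Pool.Agent.W_7d29a1_h46 Pool.Agent.W_7d29a1_h46u Pool.Agent.W_7d29a1_D2.B35
  Pool.Agent.W_7d29a1_Q29 Pool.Agent.W_7d29a1_Q29.Csy42 Pool.Agent.W_7d29a1_NV
  Pool.Agent.W_7d29a1_NV.Eq41 Pool.Agent.W_7d29a1_AC.EqB41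

variable {d : ℕ} {ρ : Measure ℝ} {β b : ℝ}

/-- The lower bound of the averaged partition function. -/
lemma zB_low86 [IsProbabilityMeasure ρ] (hβ : 0 < β) (hb : HB ρ b)
    (hc : |β * c0 ρ β b - cb ρ β| ≤ 1) (h : Vec d) (J t m : ℕ) (η : Env d) :
    ∑ s : Fin t → Step d, ∑ q : Fin J → Step d,
      wgt β h η s * Z β h (sh t (pos s t) (remE J t (pos q J) η)) m *
        Real.exp (inner ℝ h (emb (pos q J)) +
          (J * (β * c0 ρ β b) - Ls ρ β b t (pos s t) q η)) ≤
      zB ρ β b h (t + m + J) t J η := by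
  have := rb_prob hb
  unfold zB
  have hint : ∀ (s : Fin t → Step d) (q : Fin J → Step d),
      Integrable (fun ξ => wgt β h (sh t (pos s t) (mxR b t J η ξ)) q) (law d (rb ρ b)) := by
    intro s q
    refine Integrable.of_bound (C := Real.exp (J * Bc β b) *
      wgt β h (sh t (pos s t) (mxR b t J η η)) q) ?_ (Filter.Eventually.of_forall fun ξ => ?_)
    · have h1 : Measurable fun g : Env d => wgt β h g q := by
        unfold wgt energy
        fun_prop
      exact (h1.comp ((Eq41.measurable_sh t (pos s t)).comp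
        (measurable_mxR b t J η))).aestronglyMeasurable
    · rw [Real.norm_eq_abs, abs_of_pos (wgt_pos _ _ _ _)]
      exact wgt_mxR β h hb.b0.le (pos s t) η ξ η q
  have e1 : ∀ ξ : Env d, Z β h (mxR b t J η ξ) (t + m + J) = ∑ s : Fin t → Step d,
      ∑ q : Fin J → Step d, wgt β h η s * Z β h (sh t (pos s t) (remE J t (pos q J) η)) m *
        wgt β h (sh t (pos s t) (mxR b t J η ξ)) q := by
    intro ξ
    rw [show t + m + J = t + (J + m) by omega]
    exact Z_mx86 β h b J t m η ξ
  rw [integral_congr_ae (Filter.Eventually.of_forall e1),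
    integral_finsetSum _ fun s _ => integrable_finsetSum _ fun q _ => (hint s q).const_mul _]
  refine Finset.sum_le_sum fun s _ => ?_
  rw [integral_finsetSum _ fun q _ => (hint s q).const_mul _]
  refine Finset.sum_le_sum fun q _ => ?_
  rw [integral_const_mul]
  refine mul_le_mul_of_nonneg_left (path86 hβ hb hc h t (pos s t) q η) ?_
  exact mul_nonneg (wgt_pos _ _ _ _).le (ZT_nonneg _ _ _ _)

/-- Jensen. -/
lemma jensen86 {ι : Type*} (I : Finset ι) (p L : ι → ℝ) (hp : ∀ i ∈ I, 0 ≤ p i) {S G : ℝ}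
    (hS : 0 < S) (hSe : ∑ i ∈ I, p i = S) (hG : ∑ i ∈ I, p i * L i ≤ G) :
    S * Real.exp (-(G / S)) ≤ ∑ i ∈ I, p i * Real.exp (-L i) := by
  have h1 : ∀ i ∈ I, p i * (Real.exp (-(G / S)) * (1 + G / S - L i)) ≤
      p i * Real.exp (-L i) := by
    intro i hi
    refine mul_le_mul_of_nonneg_left ?_ (hp i hi)
    have h2 := Real.add_one_le_exp (G / S - L i)
    calc Real.exp (-(G / S)) * (1 + G / S - L i) ≤
        Real.exp (-(G / S)) * Real.exp (G / S - L i) :=
          mul_le_mul_of_nonneg_left (by linarith) (Real.exp_pos _).le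
      _ = Real.exp (-L i) := by
        rw [← Real.exp_add]
        congr 1
        ring
  refine le_trans ?_ (Finset.sum_le_sum h1)
  have e : ∑ i ∈ I, p i * (Real.exp (-(G / S)) * (1 + G / S - L i)) =
      Real.exp (-(G / S)) * ((1 + G / S) * S - ∑ i ∈ I, p i * L i) := by
    rw [← hSe, Finset.mul_sum, ← Finset.sum_sub_distrib, Finset.mul_sum]
    exact Finset.sum_congr rfl fun i _ => by ring
  rw [e, mul_comm S]
  refine mul_le_mul_of_nonneg_left ?_ (Real.exp_pos _).le
  have h3 : (1 + G / S) * S = S + G := by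
    field_simp
  rw [h3]
  linarith

/-- The law of the first `t` steps in the shortened environment. -/
noncomputable def u86 (β : ℝ) (h : Vec d) (J t m : ℕ) (z : Site d) (s : Fin t → Step d)
    (η : Env d) : ℝ :=
  wgt β h η s * Z β h (sh t (pos s t) (remE J t z η)) m / Z β h (remE J t z η) (t + m)

/-- The mean loss. -/
noncomputable def D86 (ρ : Measure ℝ) (β b : ℝ) (h : Vec d) (J t m : ℕ) (η : Env d) : ℝ :=
  ∑ q : Fin J → Step d, ∑ s : Fin t → Step d, Real.exp (inner ℝ h (emb (pos q J))) *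
    (u86 β h J t m (pos q J) s η * Ls ρ β b t (pos s t) q η)

lemma u86_nonneg (hd : 0 < d) (β : ℝ) (h : Vec d) (J t m : ℕ) (z : Site d) (s : Fin t → Step d)
    (η : Env d) : 0 ≤ u86 β h J t m z s η :=
  div_nonneg (mul_nonneg (wgt_pos _ _ _ _).le (Z_pos hd _ _ _ _).le) (Z_pos hd _ _ _ _).le

lemma u86_sum (hd : 0 < d) (β : ℝ) (h : Vec d) (J t m : ℕ) (z : Site d) (η : Env d) :
    ∑ s : Fin t → Step d, u86 β h J t m z s η = 1 := by
  unfold u86
  rw [← Finset.sum_div, ← Z_rem86]
  exact div_self (Z_pos hd _ _ _ _).ne'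

lemma u86_le (hd : 0 < d) (β : ℝ) (h : Vec d) (J t m : ℕ) (z : Site d) (s : Fin t → Step d)
    (η : Env d) : u86 β h J t m z s η ≤ 1 := by
  rw [← u86_sum hd β h J t m z η]
  exact Finset.single_le_sum (f := fun s => u86 β h J t m z s η)
    (fun s _ => u86_nonneg hd β h J t m z s η) (Finset.mem_univ s)

lemma measurable_remE (J t : ℕ) (z : Site d) : Measurable (remE J t z : Env d → Env d) := by
  rw [measurable_pi_iff]
  intro p
  unfold remE
  by_cases hp : p.1 ≤ t
  · simp only [if_pos hp]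
    exact measurable_pi_apply _
  · simp only [if_neg hp]
    exact measurable_pi_apply _

lemma u86_meas (β : ℝ) (h : Vec d) (J t m : ℕ) (z : Site d) (s : Fin t → Step d) :
    Measurable (u86 β h J t m z s) := by
  unfold u86
  have h1 : Measurable fun g : Env d => wgt β h g s := by
    unfold wgt energy
    fun_prop
  exact (h1.mul ((measurable_Z β h m).comp ((Eq41.measurable_sh t (pos s t)).comp
    (measurable_remE J t z)))).div ((measurable_Z β h (t + m)).comp (measurable_remE J t z))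

lemma u86_dep (β : ℝ) (h : Vec d) (J t m : ℕ) (z : Site d) (s : Fin t → Step d) :
    DependsOn (u86 β h J t m z s) {p | t < p.1 ∧ p.1 ≤ t + J}ᶜ := by
  intro η η' hη
  have h0 : ∀ p : ℕ × Site d, ¬ (t < p.1 ∧ p.1 ≤ t + J) → η p = η' p := fun p hp => hη p hp
  have h1 : wgt β h η s = wgt β h η' s :=
    wgt_congr' β h (fun i _ hi y => h0 _ (by simp only; omega)) s
  have h2 : remE J t z η = remE J t z η' := by
    funext p
    unfold remE
    by_cases hp : p.1 ≤ t
    · rw [if_pos hp, if_pos hp]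
      exact h0 _ (by omega)
    · rw [if_neg hp, if_neg hp]
      exact h0 _ (by simp only; omega)
  unfold u86
  rw [h1, h2]

lemma Ls_meas (ρ : Measure ℝ) (β b : ℝ) (t : ℕ) (x : Site d) {J : ℕ} (q : Fin J → Step d) :
    Measurable (Ls ρ β b t x q) := by
  unfold Ls
  refine Finset.measurable_sum _ fun i _ => ?_
  exact (measurable_el ρ β b).comp (measurable_pi_apply _)

lemma Ls_dep (ρ : Measure ℝ) (β b : ℝ) (t : ℕ) (x : Site d) {J : ℕ} (q : Fin J → Step d) :
    DependsOn (Ls ρ β b t x q) {p | t < p.1 ∧ p.1 ≤ t + J} := by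
  intro η η' hη
  unfold Ls
  refine Finset.sum_congr rfl fun i _ => ?_
  congr 1
  unfold sh
  have hi := i.2
  exact hη _ ⟨by simp only; omega, by simp only; omega⟩

lemma Ls_site [IsProbabilityMeasure ρ] (hint : Integrable (el ρ β b) ρ) (p : ℕ × Site d) :
    Integrable (fun η : Env d => el ρ β b (η p)) (law d ρ) ∧
      ∫ η : Env d, el ρ β b (η p) ∂(law d ρ) = ∫ v, el ρ β b v ∂ρ := by
  have hme : MeasurePreserving (fun ξ : Env d => ξ p) (law d ρ) ρ :=
    measurePreserving_eval_infinitePi (fun _ : ℕ × Site d => ρ) p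
  exact ⟨hme.integrable_comp_of_integrable hint,
    LawU_integral hme (measurable_el ρ β b).aestronglyMeasurable⟩

lemma Ls_int [IsProbabilityMeasure ρ] (hint : Integrable (el ρ β b) ρ) (t : ℕ) (x : Site d)
    {J : ℕ} (q : Fin J → Step d) : Integrable (Ls ρ β b t x q) (law d ρ) ∧
      ∫ η, Ls ρ β b t x q η ∂(law d ρ) = J * ∫ v, el ρ β b v ∂ρ := by
  have h1 : ∀ i : Fin J, Integrable (fun η : Env d =>
      el ρ β b (sh t x η ((i : ℕ) + 1, pos q ((i : ℕ) + 1)))) (law d ρ) := fun i =>
    (Ls_site hint _).1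
  refine ⟨integrable_finsetSum _ fun i _ => h1 i, ?_⟩
  unfold Ls
  rw [integral_finsetSum _ fun i _ => h1 i]
  have h2 : ∀ i : Fin J, ∫ η : Env d, el ρ β b (sh t x η ((i : ℕ) + 1, pos q ((i : ℕ) + 1)))
      ∂(law d ρ) = ∫ v, el ρ β b v ∂ρ := fun i => (Ls_site hint _).2
  rw [Finset.sum_congr rfl fun i _ => h2 i, Finset.sum_const, Finset.card_univ, Fintype.card_fin,
    nsmul_eq_mul]

lemma D86_term [IsProbabilityMeasure ρ] (hd : 0 < d) (hint : Integrable (el ρ β b) ρ) (h : Vec d)
    (J t m : ℕ) (q : Fin J → Step d) (s : Fin t → Step d) :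
    Integrable (fun η => u86 β h J t m (pos q J) s η * Ls ρ β b t (pos s t) q η) (law d ρ) := by
  refine (Ls_int hint t (pos s t) q).1.mono' ((u86_meas β h J t m (pos q J) s).mul
    (Ls_meas ρ β b t (pos s t) q)).aestronglyMeasurable (Filter.Eventually.of_forall fun η => ?_)
  rw [Real.norm_eq_abs, abs_of_nonneg (mul_nonneg (u86_nonneg hd _ _ _ _ _ _ _ _)
    (Ls_nonneg _ _ _ _ _ _ _))]
  exact mul_le_of_le_one_left (Ls_nonneg _ _ _ _ _ _ _) (u86_le hd _ _ _ _ _ _ _ _)

lemma D86_int [IsProbabilityMeasure ρ] (hd : 0 < d) (hint : Integrable (el ρ β b) ρ) (h : Vec d)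
    (J t m : ℕ) : Integrable (D86 ρ β b h J t m) (law d ρ) ∧
      ∫ η, D86 ρ β b h J t m η ∂(law d ρ) = Phi h ^ J * (J * ∫ v, el ρ β b v ∂ρ) := by
  have h1 : ∀ (q : Fin J → Step d) (s : Fin t → Step d), Integrable (fun η =>
      Real.exp (inner ℝ h (emb (pos q J))) * (u86 β h J t m (pos q J) s η *
        Ls ρ β b t (pos s t) q η)) (law d ρ) := fun q s =>
    (D86_term hd hint h J t m q s).const_mul _
  refine ⟨integrable_finsetSum _ fun q _ => integrable_finsetSum _ fun s _ => h1 q s, ?_⟩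
  unfold D86
  rw [integral_finsetSum _ fun q _ => integrable_finsetSum _ fun s _ => h1 q s,
    ← sum_walks61, Finset.sum_mul]
  refine Finset.sum_congr rfl fun q _ => ?_
  rw [integral_finsetSum _ fun s _ => h1 q s]
  have h2 : ∀ s : Fin t → Step d, ∫ η, Real.exp (inner ℝ h (emb (pos q J))) *
      (u86 β h J t m (pos q J) s η * Ls ρ β b t (pos s t) q η) ∂(law d ρ) =
      Real.exp (inner ℝ h (emb (pos q J))) * ((∫ η, u86 β h J t m (pos q J) s η ∂(law d ρ)) *
        (J * ∫ v, el ρ β b v ∂ρ)) := by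
    intro s
    rw [integral_const_mul]
    congr 1
    have h3 := integral_indep (ρ := ρ) {p : ℕ × Site d | t < p.1 ∧ p.1 ≤ t + J}ᶜ
      (u86_meas β h J t m (pos q J) s) (Ls_meas ρ β b t (pos s t) q)
      (u86_dep β h J t m (pos q J) s) (by rw [compl_compl]; exact Ls_dep ρ β b t (pos s t) q)
    rw [h3, (Ls_int hint t (pos s t) q).2]
  rw [Finset.sum_congr rfl fun s _ => h2 s, ← Finset.mul_sum, ← Finset.sum_mul]
  congr 1
  have hu : ∀ s : Fin t → Step d, Integrable (u86 β h J t m (pos q J) s) (law d ρ) := fun s =>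
    Integrable.of_bound (C := 1) (u86_meas β h J t m (pos q J) s).aestronglyMeasurable
      (Filter.Eventually.of_forall fun η => by
        rw [Real.norm_eq_abs, abs_of_nonneg (u86_nonneg hd _ _ _ _ _ _ _ _)]
        exact u86_le hd _ _ _ _ _ _ _ _)
  rw [← integral_finsetSum _ fun s _ => hu s, integral_congr_ae
    (Filter.Eventually.of_forall fun η => u86_sum hd β h J t m (pos q J) η), integral_const,
    probReal_univ, one_smul, one_mul]

lemma D86_nonneg (hd : 0 < d) (ρ : Measure ℝ) (β b : ℝ) (h : Vec d) (J t m : ℕ) (η : Env d) :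
    0 ≤ D86 ρ β b h J t m η :=
  Finset.sum_nonneg fun _ _ => Finset.sum_nonneg fun _ _ => mul_nonneg (Real.exp_pos _).le
    (mul_nonneg (u86_nonneg hd _ _ _ _ _ _ _ _) (Ls_nonneg _ _ _ _ _ _ _))

open Classical in
/-- The pathwise bound. -/
lemma path_low86 [IsProbabilityMeasure ρ] (hd : 0 < d) (hβ : 0 < β) (hb : HB ρ b)
    (hc : |β * c0 ρ β b - cb ρ β| ≤ 1) (h : Vec d) (J t m : ℕ) (a R : ℝ) (η : Env d)
    (hg : Phi h ^ J / 2 ≤ ∑ z ∈ boxF d J,
      if |X β h (remE J t z η) (t + m) - a| ≤ R then PP β h (fun _ => 0) J z else 0) :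
    a - R + J * (Real.log (Phi h) + β * c0 ρ β b) - Real.log 2 -
      2 * D86 ρ β b h J t m η / Phi h ^ J ≤ Real.log (zB ρ β b h (t + m + J) t J η) := by
  set P : (Fin J → Step d) → ℝ := fun q => Real.exp (inner ℝ h (emb (pos q J))) with hP
  set gd : (Fin J → Step d) → Prop := fun q =>
    |X β h (remE J t (pos q J) η) (t + m) - a| ≤ R with hgd
  have hPhi : 0 < Phi h := Phi_pos61 hd h
  have hPJ : 0 < Phi h ^ J := pow_pos hPhi J
  have e1 : (∑ z ∈ boxF d J, if |X β h (remE J t z η) (t + m) - a| ≤ R then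
      PP β h (fun _ => 0) J z else 0) = ∑ q : Fin J → Step d, if gd q then P q else 0 := by
    have e2 : ∀ z : Site d, PP β h (fun _ => 0) J z =
        ∑ q : Fin J → Step d, if pos q J = z then P q else 0 := by
      intro z
      unfold PP ZT
      refine Finset.sum_congr rfl fun q _ => ?_
      by_cases hq : pos q J = z
      · rw [if_pos hq, if_pos (show q ∈ {s : Fin J → Step d | pos s J = z} from hq)]
        unfold wgt energy
        simp [hP]
      · rw [if_neg hq, if_neg (show q ∉ {s : Fin J → Step d | pos s J = z} from hq)]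
    have e3 : ∀ z ∈ boxF d J, (if |X β h (remE J t z η) (t + m) - a| ≤ R then
        PP β h (fun _ => 0) J z else 0) =
        ∑ q : Fin J → Step d, if pos q J = z then (if gd q then P q else 0) else 0 := by
      intro z _
      by_cases hz : |X β h (remE J t z η) (t + m) - a| ≤ R
      · rw [if_pos hz, e2]
        refine Finset.sum_congr rfl fun q _ => ?_
        by_cases hq : pos q J = z
        · rw [if_pos hq, if_pos hq, if_pos (show gd q by rw [hgd]; simp only; rw [hq]; exact hz)]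
        · rw [if_neg hq, if_neg hq]
      · rw [if_neg hz]
        symm
        refine Finset.sum_eq_zero fun q _ => ?_
        by_cases hq : pos q J = z
        · rw [if_pos hq, if_neg (show ¬ gd q by rw [hgd]; simp only; rw [hq]; exact hz)]
        · rw [if_neg hq]
    rw [Finset.sum_congr rfl e3, Finset.sum_comm]
    refine Finset.sum_congr rfl fun q _ => ?_
    rw [Finset.sum_ite_eq, if_pos (pos_mem_box q J)]
  rw [e1] at hg
  set S : ℝ := ∑ q : Fin J → Step d, if gd q then P q else 0 with hS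
  have hS0 : 0 < S := lt_of_lt_of_le (by positivity) hg
  set D : ℝ := D86 ρ β b h J t m η with hD
  have hD0 : 0 ≤ D := D86_nonneg hd ρ β b h J t m η
  -- Jensen
  have hJ := jensen86 (Finset.univ : Finset ((Fin J → Step d) × (Fin t → Step d)))
    (fun w => (if gd w.1 then P w.1 else 0) * u86 β h J t m (pos w.1 J) w.2 η)
    (fun w => Ls ρ β b t (pos w.2 t) w.1 η) (S := S) (G := D) (fun w _ => by
      refine mul_nonneg ?_ (u86_nonneg hd _ _ _ _ _ _ _ _)
      split_ifs
      · exact (Real.exp_pos _).le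
      · exact le_rfl) hS0 (by
      rw [Fintype.sum_prod_type]
      simp only
      rw [hS]
      refine Finset.sum_congr rfl fun q _ => ?_
      rw [← Finset.mul_sum, u86_sum hd, mul_one]) (by
      rw [Fintype.sum_prod_type, hD]
      unfold D86
      refine Finset.sum_le_sum fun q _ => Finset.sum_le_sum fun s _ => ?_
      simp only
      rw [mul_assoc]
      refine mul_le_mul_of_nonneg_right ?_ (mul_nonneg (u86_nonneg hd _ _ _ _ _ _ _ _)
        (Ls_nonneg _ _ _ _ _ _ _))
      split_ifs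
      · exact le_rfl
      · exact (Real.exp_pos _).le)
  have hlow : Real.exp (a - R + J * (β * c0 ρ β b)) * (S * Real.exp (-(D / S))) ≤
      zB ρ β b h (t + m + J) t J η := by
    refine (mul_le_mul_of_nonneg_left hJ (Real.exp_pos _).le).trans ?_
    refine le_trans ?_ (zB_low86 hβ hb hc h J t m η)
    rw [Fintype.sum_prod_type, Finset.sum_comm, Finset.mul_sum]
    refine Finset.sum_le_sum fun s _ => ?_
    rw [Finset.mul_sum]
    refine Finset.sum_le_sum fun q _ => ?_
    simp only
    by_cases hq : gd q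
    · rw [if_pos hq]
      have hZ := Z_pos hd β h (remE J t (pos q J) η) (t + m)
      have h1 : Real.exp (a - R) ≤ Z β h (remE J t (pos q J) η) (t + m) := by
        rw [← Real.exp_log hZ]
        refine Real.exp_le_exp.2 ?_
        have h2 := (abs_le.1 (show |X β h (remE J t (pos q J) η) (t + m) - a| ≤ R from hq)).1
        unfold X at h2
        linarith
      have h3 : wgt β h η s * Z β h (sh t (pos s t) (remE J t (pos q J) η)) m =
          Z β h (remE J t (pos q J) η) (t + m) * u86 β h J t m (pos q J) s η := by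
        unfold u86
        field_simp
      rw [h3]
      have h4 : Real.exp (inner ℝ h (emb (pos q J)) +
          (J * (β * c0 ρ β b) - Ls ρ β b t (pos s t) q η)) =
          P q * (Real.exp (J * (β * c0 ρ β b)) * Real.exp (-Ls ρ β b t (pos s t) q η)) := by
        rw [Real.exp_add, ← Real.exp_add (J * (β * c0 ρ β b))]
        rfl
      rw [h4, Real.exp_add]
      have h5 : 0 ≤ Real.exp (J * (β * c0 ρ β b)) * (P q * u86 β h J t m (pos q J) s η *
          Real.exp (-Ls ρ β b t (pos s t) q η)) :=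
        mul_nonneg (Real.exp_pos _).le (mul_nonneg (mul_nonneg (Real.exp_pos _).le
          (u86_nonneg hd _ _ _ _ _ _ _ _)) (Real.exp_pos _).le)
      calc Real.exp (a - R) * Real.exp (J * (β * c0 ρ β b)) *
            (P q * u86 β h J t m (pos q J) s η * Real.exp (-Ls ρ β b t (pos s t) q η)) =
          Real.exp (a - R) * (Real.exp (J * (β * c0 ρ β b)) *
            (P q * u86 β h J t m (pos q J) s η * Real.exp (-Ls ρ β b t (pos s t) q η))) := by
            ring
        _ ≤ Z β h (remE J t (pos q J) η) (t + m) * (Real.exp (J * (β * c0 ρ β b)) *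
            (P q * u86 β h J t m (pos q J) s η * Real.exp (-Ls ρ β b t (pos s t) q η))) :=
            mul_le_mul_of_nonneg_right h1 h5
        _ = _ := by ring
    · rw [if_neg hq, zero_mul, zero_mul, mul_zero]
      exact mul_nonneg (mul_nonneg (wgt_pos _ _ _ _).le (Z_pos hd _ _ _ _).le) (Real.exp_pos _).le
  have hpos : 0 < Real.exp (a - R + J * (β * c0 ρ β b)) * (S * Real.exp (-(D / S))) := by
    positivity
  have hlog := Real.log_le_log hpos hlow
  rw [Real.log_mul (Real.exp_pos _).ne' (by positivity), Real.log_exp,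
    Real.log_mul hS0.ne' (Real.exp_pos _).ne', Real.log_exp] at hlog
  have hlS : J * Real.log (Phi h) - Real.log 2 ≤ Real.log S := by
    have h6 := Real.log_le_log (by positivity) hg
    rw [Real.log_div hPJ.ne' two_ne_zero, Real.log_pow] at h6
    exact h6
  have hDS : D / S ≤ 2 * D / Phi h ^ J := by
    rw [div_le_div_iff₀ hS0 hPJ]
    nlinarith
  linarith

/-! ### The choice of the bound -/

lemma el_int86 [IsProbabilityMeasure ρ] (hρ : EM ρ) (β b : ℝ) : Integrable (el ρ β b) ρ := by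
  refine ((integrable_const (|cb ρ β| + 1)).add ((integrable_id21 hρ).const_mul |β|)).mono'
    (measurable_el ρ β b).aestronglyMeasurable (Filter.Eventually.of_forall fun v => ?_)
  rw [Real.norm_eq_abs, abs_of_nonneg (el_nonneg _ _ _ _)]
  show el ρ β b v ≤ |cb ρ β| + 1 + |β| * |v|
  unfold el
  split_ifs
  · positivity
  · exact le_rfl

lemma el_lim86 [IsProbabilityMeasure ρ] (hρ : EM ρ) (β : ℝ) :
    Tendsto (fun b : ℝ => ∫ v, el ρ β b v ∂ρ) atTop (𝓝 0) := by
  have h0 : (0 : ℝ) = ∫ _ : ℝ, (0 : ℝ) ∂ρ := by simp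
  rw [h0]
  refine tendsto_integral_filter_of_dominated_convergence
    (fun v => |cb ρ β| + 1 + |β| * |v|) ?_ ?_
    ((integrable_const (|cb ρ β| + 1)).add ((integrable_id21 hρ).const_mul |β|)) ?_
  · exact Eventually.of_forall fun b => (measurable_el ρ β b).aestronglyMeasurable
  · refine Eventually.of_forall fun b => Eventually.of_forall fun v => ?_
    rw [Real.norm_eq_abs, abs_of_nonneg (el_nonneg _ _ _ _)]
    unfold el
    split_ifs
    · positivity
    · exact le_rfl
  · refine Eventually.of_forall fun v => ?_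
    refine tendsto_const_nhds.congr' ?_
    filter_upwards [eventually_ge_atTop |v|] with b hb
    unfold el
    rw [if_pos hb]

open Classical in
/-- **Leaf F1 of Theorem AC.** -/
theorem zlowC86 [IsProbabilityMeasure ρ] (hd : 0 < d) (hρ : EM ρ) (hnc : ∀ c : ℝ, ρ {c} ≠ 1)
    (hβ : 0 < β) : ZlowC d ρ β := by
  intro h ϑ hϑ
  have hT := tendsto_c021 hρ hβ.ne'
  have hε : 0 < min 1 (ϑ / 2) := lt_min one_pos (by positivity)
  have h1 : ∀ᶠ b in atTop, |β * c0 ρ β b - cb ρ β| < min 1 (ϑ / 2) := by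
    have h2 := (Metric.tendsto_nhds.1 hT) (min 1 (ϑ / 2)) hε
    filter_upwards [h2] with b hb
    rwa [Real.dist_eq] at hb
  have h3 : ∀ᶠ b in atTop, ∫ v, el ρ β b v ∂ρ < ϑ ^ 2 / 4 :=
    (el_lim86 hρ β).eventually (gt_mem_nhds (by positivity))
  obtain ⟨b₃, hb₃⟩ := eventually_atTop.1 ((eventually_HB21 hnc).and (h1.and h3))
  refine ⟨b₃, fun b hb J t n a R hJ ht => ?_⟩
  obtain ⟨hHB, hcb, hel⟩ := hb₃ b hb
  have hc : |β * c0 ρ β b - cb ρ β| ≤ 1 := hcb.le.trans (min_le_left _ _)
  have hc2 : |β * c0 ρ β b - cb ρ β| ≤ ϑ / 2 := hcb.le.trans (min_le_right _ _)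
  obtain ⟨m, rfl⟩ := Nat.exists_eq_add_of_le ht
  have hint := el_int86 (ρ := ρ) hρ β b
  have hDi := D86_int hd hint h J t m
  have hPhi : 0 < Phi h := Phi_pos61 hd h
  have hPJ : 0 < Phi h ^ J := pow_pos hPhi J
  have hJ0 : (0 : ℝ) < J := by exact_mod_cast hJ
  have hM := mul_meas_ge_le_integral_of_nonneg
    (Filter.Eventually.of_forall fun η => D86_nonneg hd ρ β b h J t m η) hDi.1
    (Phi h ^ J * (ϑ * J / 4))
  have hsub : {η : Env d | Phi h ^ J / 2 ≤
        (∑ z ∈ boxF d J, if |X β h (remE J t z η) (t + m) - a| ≤ R then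
          PP β h (fun _ => 0) J z else 0) ∧
      Real.log (zB ρ β b h (t + m + J) t J η) <
        a - R + J * (Real.log (Phi h) + Real.log (∫ x, Real.exp (β * x) ∂ρ)) - ϑ * J - 1} ⊆
      {η | Phi h ^ J * (ϑ * J / 4) ≤ D86 ρ β b h J t m η} := by
    intro η hη
    obtain ⟨hg, hl⟩ := hη
    have h5 := path_low86 hd hβ hHB hc h J t m a R η hg
    have h6 : a - R + J * (Real.log (Phi h) + β * c0 ρ β b) - Real.log 2 -
        2 * D86 ρ β b h J t m η / Phi h ^ J <
        a - R + J * (Real.log (Phi h) + cb ρ β) - ϑ * J - 1 := lt_of_le_of_lt h5 hl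
    have h7 := Real.log_two_lt_d9
    have h8 := mul_le_mul_of_nonneg_left (abs_le.1 hc2).1 hJ0.le
    have h9 : ϑ * J / 2 < 2 * D86 ρ β b h J t m η / Phi h ^ J := by nlinarith
    rw [lt_div_iff₀ hPJ] at h9
    show Phi h ^ J * (ϑ * J / 4) ≤ D86 ρ β b h J t m η
    linarith
  refine (measureReal_mono hsub).trans ?_
  rw [hDi.2] at hM
  have hM' : Phi h ^ J * (ϑ * J / 4) *
      (law d ρ).real {η | Phi h ^ J * (ϑ * J / 4) ≤ D86 ρ β b h J t m η} ≤
      Phi h ^ J * (J * ∫ v, el ρ β b v ∂ρ) := hM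
  have h10 : Phi h ^ J * (J * ∫ v, el ρ β b v ∂ρ) ≤ Phi h ^ J * (ϑ * J / 4) * ϑ := by
    have h11 : J * ∫ v, el ρ β b v ∂ρ ≤ J * (ϑ ^ 2 / 4) :=
      mul_le_mul_of_nonneg_left hel.le hJ0.le
    calc Phi h ^ J * (J * ∫ v, el ρ β b v ∂ρ) ≤ Phi h ^ J * (J * (ϑ ^ 2 / 4)) :=
          mul_le_mul_of_nonneg_left h11 hPJ.le
      _ = Phi h ^ J * (ϑ * J / 4) * ϑ := by ring
  exact le_of_mul_le_mul_left (hM'.trans h10) (by positivity)

end Pool.Agent.W_7d29a1_AC.Z86
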